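import Pool.Agent.CYF.Comm

/-!
Gradient bound for nonnegative smooth functions: `|∇g|² ≤ C g` on compact sets.
-/

open scoped ContDiff ComplexConjugate Topology
open Complex

namespace Pool.Agent.CYF

variable {n : ℕ}

theorem grd_local {O : Set (E n)} (hO : IsOpen O) {g : E n → ℝ} (hg : ContDiffOn ℝ ∞ g O)
    (h0 : ∀ z ∈ O, 0 ≤ g z) {z0 : E n} (hz0 : z0 ∈ O) :
    ∃ t ∈ 𝓝 z0, ∃ M : ℝ, 0 ≤ M ∧ ∀ z ∈ t, ∀ v : E n, ‖v‖ ≤ 1 →
      (fderiv ℝ g z v) ^ 2 ≤ M * g z := by
  have s1 : ContDiffOn ℝ ∞ (fderiv ℝ g) O := hg.fderiv_of_isOpen hO (by simp)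
  have s1' : ContDiffAt ℝ 1 (fderiv ℝ g) z0 :=
    (s1.contDiffAt (hO.mem_nhds hz0)).of_le (by exact_mod_cast le_top)
  obtain ⟨M1, t1, ht1, hlip1⟩ := s1'.exists_lipschitzOnWith
  obtain ⟨ε, hε, hball⟩ := Metric.nhds_basis_closedBall.mem_iff.1
    (Filter.inter_mem (hO.mem_nhds hz0) ht1)
  set δ : ℝ := ε / 2 with hδdef
  have hδ : 0 < δ := by positivity
  have hBt : Metric.closedBall z0 (2 * δ) ⊆ O ∩ t1 := by
    have : 2 * δ = ε := by rw [hδdef]; ring
    rw [this]; exact hball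
  have hB : Metric.closedBall z0 (2 * δ) ⊆ O := hBt.trans Set.inter_subset_left
  have hcomp : IsCompact (Metric.closedBall z0 (2 * δ)) := isCompact_closedBall _ _
  obtain ⟨S, hS⟩ := hcomp.exists_bound_of_continuousOn (hg.continuousOn.mono hB)
  set M : ℝ := |(M1 : ℝ)| + |S| / δ ^ 2 + 1 with hMdef
  have hM : 0 < M := by positivity
  have hM1' : (M1 : ℝ) ≤ M := by
    have h1 := le_abs_self (M1 : ℝ)
    have h2 : 0 ≤ |S| / δ ^ 2 := by positivity
    linarith
  have hMS : ∀ z ∈ Metric.closedBall z0 (2 * δ), g z ≤ M * δ ^ 2 := by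
    intro z hz
    have h1 := hS z hz
    have h2 : g z ≤ |S| := by
      have h3 := le_abs_self (g z)
      have h4 := le_abs_self S
      rw [Real.norm_eq_abs] at h1
      linarith
    have h3 : |S| = |S| / δ ^ 2 * δ ^ 2 := by field_simp
    have h4 : |S| / δ ^ 2 * δ ^ 2 ≤ M * δ ^ 2 := by
      apply mul_le_mul_of_nonneg_right _ (by positivity)
      have := abs_nonneg (M1 : ℝ)
      linarith
    linarith
  refine ⟨Metric.ball z0 δ, Metric.ball_mem_nhds _ hδ, 4 * M, by positivity, ?_⟩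
  intro z hz v hv
  have hzB : z ∈ Metric.closedBall z0 (2 * δ) := by
    rw [Metric.mem_closedBall]
    rw [Metric.mem_ball] at hz
    linarith
  -- Taylor bound
  have htay : ∀ t : ℝ, |t| ≤ δ → g (z + t • v) ≤ g z + t * fderiv ℝ g z v + M * t ^ 2 := by
    intro t ht
    have hsub : Metric.closedBall z |t| ⊆ Metric.closedBall z0 (2 * δ) := by
      intro x hx
      rw [Metric.mem_closedBall] at hx ⊢
      rw [Metric.mem_ball] at hz
      have := dist_triangle x z z0
      linarith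
    have hlip : ∀ x ∈ Metric.closedBall z |t|, ‖fderiv ℝ g x - fderiv ℝ g z‖ ≤ M * |t| := by
      intro x hx
      have h1 := hlip1.dist_le_mul x (hBt (hsub hx)).2 z (hBt hzB).2
      rw [dist_eq_norm, dist_eq_norm] at h1
      refine h1.trans ?_
      have h2 : ‖x - z‖ ≤ |t| := by
        rw [← dist_eq_norm]
        exact hx
      exact mul_le_mul hM1' h2 (norm_nonneg _) hM.le
    have hd : ∀ x ∈ Metric.closedBall z |t|, DifferentiableAt ℝ g x := fun x hx =>
      (hg.contDiffAt (hO.mem_nhds (hB (hsub hx)))).differentiableAt (by simp)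
    have hfd : ∀ x ∈ Metric.closedBall z |t|,
        HasFDerivWithinAt (fun x => g x - fderiv ℝ g z x) (fderiv ℝ g x - fderiv ℝ g z)
          (Metric.closedBall z |t|) x := by
      intro x hx
      exact ((hd x hx).hasFDerivAt.sub (fderiv ℝ g z).hasFDerivAt).hasFDerivWithinAt
    have h2 := (convex_closedBall z |t|).norm_image_sub_le_of_norm_hasFDerivWithin_le
      (f := fun x => g x - fderiv ℝ g z x) hfd hlip
      (x := z) (y := z + t • v) (by simp) (by
        rw [Metric.mem_closedBall, dist_eq_norm]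
        simp only [add_sub_cancel_left]
        rw [norm_smul, Real.norm_eq_abs]
        have h3 : |t| * ‖v‖ ≤ |t| * 1 := mul_le_mul_of_nonneg_left hv (abs_nonneg t)
        linarith)
    have h3 : ‖z + t • v - z‖ ≤ |t| := by
      simp only [add_sub_cancel_left]
      rw [norm_smul, Real.norm_eq_abs]
      have h3 : |t| * ‖v‖ ≤ |t| * 1 := mul_le_mul_of_nonneg_left hv (abs_nonneg t)
      linarith
    have h4 : M * |t| * ‖z + t • v - z‖ ≤ M * |t| * |t| :=
      mul_le_mul_of_nonneg_left h3 (by positivity)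
    have h5 := (le_abs_self _).trans (h2.trans h4)
    rw [map_add, (fderiv ℝ g z).map_smul, smul_eq_mul] at h5
    have h6 : M * |t| * |t| = M * t ^ 2 := by
      rw [mul_assoc, abs_mul_abs_self]; ring
    linarith
  have hin : ∀ t : ℝ, |t| ≤ δ → z + t • v ∈ O := by
    intro t ht
    apply hB
    rw [Metric.mem_closedBall]
    rw [Metric.mem_ball] at hz
    have h1 := dist_triangle (z + t • v) z z0
    have h2 : dist (z + t • v) z ≤ δ := by
      rw [dist_eq_norm]
      simp only [add_sub_cancel_left]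
      rw [norm_smul, Real.norm_eq_abs]
      have h3 : |t| * ‖v‖ ≤ |t| * 1 := mul_le_mul_of_nonneg_left hv (abs_nonneg t)
      linarith
    linarith
  set a : ℝ := fderiv ℝ g z v with ha
  have hsmall : |a| ≤ 2 * M * δ := by
    by_contra hlt
    have hlt : 2 * M * δ < |a| := not_le.1 hlt
    have hgz := hMS z hzB
    rcases le_total 0 a with h | h
    · rw [abs_of_nonneg h] at hlt
      have h1 := htay (-δ) (by rw [abs_neg, abs_of_pos hδ])
      have h2 := h0 _ (hin (-δ) (by rw [abs_neg, abs_of_pos hδ]))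
      have h3 : 2 * M * δ * δ < a * δ := mul_lt_mul_of_pos_right hlt hδ
      nlinarith
    · rw [abs_of_nonpos h] at hlt
      have h1 := htay δ (by rw [abs_of_pos hδ])
      have h2 := h0 _ (hin δ (by rw [abs_of_pos hδ]))
      have h3 : 2 * M * δ * δ < -a * δ := mul_lt_mul_of_pos_right hlt hδ
      nlinarith
  have ht : |(-a / (2 * M))| ≤ δ := by
    rw [abs_div, abs_neg, abs_of_pos (by positivity : 0 < 2 * M), div_le_iff₀ (by positivity)]
    linarith
  have h1 := htay _ ht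
  have h2 := h0 _ (hin _ ht)
  have h3 : -a / (2 * M) * a + M * (-a / (2 * M)) ^ 2 = -(a ^ 2 / (4 * M)) := by
    field_simp
    ring
  have h4 : a ^ 2 / (4 * M) ≤ g z := by linarith
  rw [div_le_iff₀ (by positivity)] at h4
  linarith

theorem grad_bound {O : Set (E n)} (hO : IsOpen O) {g : E n → ℝ} (hg : ContDiffOn ℝ ∞ g O)
    (h0 : ∀ z ∈ O, 0 ≤ g z) {K : Set (E n)} (hK : IsCompact K) (hKO : K ⊆ O) :
    ∃ C : ℝ, 0 ≤ C ∧ ∀ z ∈ K, ∑ k, ‖pk k (cx g) z‖ ^ 2 ≤ C * g z := by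
  have key : ∃ C : ℝ, 0 ≤ C ∧ ∀ z ∈ K, ∀ v : E n, ‖v‖ ≤ 1 → (fderiv ℝ g z v) ^ 2 ≤ C * g z := by
    have h := hK.induction_on (p := fun s => ∃ C : ℝ, 0 ≤ C ∧ ∀ z ∈ s, z ∈ O → ∀ v : E n, ‖v‖ ≤ 1 →
      (fderiv ℝ g z v) ^ 2 ≤ C * g z) ?_ ?_ ?_ ?_
    · obtain ⟨C, hC, h⟩ := h
      exact ⟨C, hC, fun z hz v hv => h z hz (hKO hz) v hv⟩
    · exact ⟨0, le_rfl, fun z hz => absurd hz (Set.notMem_empty z)⟩
    · rintro s t hst ⟨C, hC, h⟩
      exact ⟨C, hC, fun z hz => h z (hst hz)⟩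
    · rintro s t ⟨C, hC, h⟩ ⟨C', hC', h'⟩
      refine ⟨max C C', le_max_of_le_left hC, ?_⟩
      rintro z (hz | hz) hzO v hv
      · exact (h z hz hzO v hv).trans (mul_le_mul_of_nonneg_right (le_max_left _ _) (h0 z hzO))
      · exact (h' z hz hzO v hv).trans (mul_le_mul_of_nonneg_right (le_max_right _ _) (h0 z hzO))
    · intro z hz
      obtain ⟨t, ht, M, hM, h⟩ := grd_local hO hg h0 (hKO hz)
      exact ⟨t, mem_nhdsWithin_of_mem_nhds ht, M, hM, fun y hy _ v hv => h y hy v hv⟩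
  obtain ⟨C, hC, h⟩ := key
  refine ⟨n * C, by positivity, fun z hz => ?_⟩
  have hzO := hKO hz
  have hd : DifferentiableAt ℝ g z := (hg.contDiffAt (hO.mem_nhds hzO)).differentiableAt (by simp)
  have hcx : ∀ v : E n, fderiv ℝ (cx g) z v = (fderiv ℝ g z v : ℂ) := by
    intro v
    have h1 : HasFDerivAt (fun y => Complex.ofRealCLM (g y))
        (Complex.ofRealCLM.comp (fderiv ℝ g z)) z :=
      Complex.ofRealCLM.hasFDerivAt.comp z hd.hasFDerivAt
    have h2 : cx g = fun y => Complex.ofRealCLM (g y) := by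
      funext y; rfl
    rw [h2, h1.fderiv]
    rfl
  have hek : ∀ k : Fin n, ‖(e k : E n)‖ ≤ 1 := by
    intro k
    rw [pi_norm_le_iff_of_nonneg zero_le_one]
    intro j
    unfold e
    by_cases hj : j = k
    · subst hj; simp
    · simp [hj]
  have hIek : ∀ k : Fin n, ‖(I • e k : E n)‖ ≤ 1 := by
    intro k
    rw [norm_smul, Complex.norm_I, one_mul]
    exact hek k
  have hk : ∀ k, ‖pk k (cx g) z‖ ^ 2 ≤ C * g z := by
    intro k
    have h1 := h z hz (e k) (hek k)
    have h2 := h z hz (I • e k) (hIek k)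
    have h3 : pk k (cx g) z
        = ((fderiv ℝ g z (e k) : ℂ) - I * (fderiv ℝ g z (I • e k) : ℂ)) / 2 := by
      unfold pk d10
      rw [hcx, hcx]
    rw [h3, ← Complex.normSq_eq_norm_sq]
    set x := fderiv ℝ g z (e k)
    set y := fderiv ℝ g z (I • e k)
    have h4 : Complex.normSq (((x : ℂ) - I * (y : ℂ)) / 2) = (x ^ 2 + y ^ 2) / 4 := by
      rw [Complex.normSq_apply]
      simp
      ring
    rw [h4]
    nlinarith [sq_nonneg x, sq_nonneg y]
  calc ∑ k, ‖pk k (cx g) z‖ ^ 2 ≤ ∑ _k : Fin n, C * g z := Finset.sum_le_sum fun k _ => hk k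
    _ = n * C * g z := by simp; ring

end Pool.Agent.CYF
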