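import Pool.Agent.CYF.Loc

/-!
Calculus of `D = Dd u` and `D̄ = Db u`.

PROOF of `KF.mu` (`M ū = 0`, i.e. `D̄ u_k = 0`): apply `∂̄_j` to `∑_k u_k F_kl = 0`
(`F_kl = LM w z k l = pk k (pb l (cx w)) z`): `∑_k (∂̄_j u_k) F_kl + ∑_k u_k ∂̄_j F_kl = 0`. Multiply by
`conj u_j`, sum over `j`: it remains to see `∑_{j,k} conj u_j u_k ∂̄_j F_kl = 0`. Since `∂̄_j F_kl =
∂̄_l F_kj` (commutation of derivatives of `cx w`) and `∑_j conj u_j F_kj = 0` (conjugate of `ker`,
`LM_conj`), applying `∂̄_l` to the latter and multiplying with `u_k` and summing over `k`: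
`∑_{j,k} u_k (∂̄_l conj u_j) F_kj + ∑ u_k conj u_j ∂̄_l F_kj = 0`, where the first sum is `0` by `ker`.
So the vector `a_k = ∑_j conj u_j ∂̄_j u_k` satisfies `a F = 0`, and `a_m = 0` because `u_m = 1` is constant.
`uniq` gives `a = 0`.
`KF.comm`: `D (D̄ f) = ∑∑ u_k conj u_l ∂_k ∂̄_l f + ∑_l (D conj u_l) ∂̄_l f`, `D conj u_l = conj (D̄ u_l) = 0`.
-/

open scoped ContDiff ComplexConjugate Topology ComplexOrder
open Complex Matrix

namespace Pool.Agent.CYF

variable {n : ℕ} {u : Fin n → E n → ℂ} {f g : E n → ℂ} {z : E n}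

theorem Dd_eq (u : Fin n → E n → ℂ) (f : E n → ℂ) (z : E n) :
    Dd u f z = d10 f z (fun k => u k z) := by
  unfold Dd
  rw [d10_eq_sum]

theorem Db_eq (u : Fin n → E n → ℂ) (f : E n → ℂ) (z : E n) :
    Db u f z = d01 f z (fun k => u k z) := by
  unfold Db
  rw [d01_eq_sum]

theorem Dd_congr (h : f =ᶠ[𝓝 z] g) : Dd u f z = Dd u g z := by
  rw [Dd_eq, Dd_eq, d10_congr h]

theorem Db_congr (h : f =ᶠ[𝓝 z] g) : Db u f z = Db u g z := by
  rw [Db_eq, Db_eq, d01_congr h]

theorem Dd_const (c : ℂ) : Dd u (fun _ => c) z = 0 := by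
  rw [Dd_eq, d10_const]

theorem Db_const (c : ℂ) : Db u (fun _ => c) z = 0 := by
  rw [Db_eq, d01_const]

theorem Dd_add (hf : DifferentiableAt ℝ f z) (hg : DifferentiableAt ℝ g z) :
    Dd u (fun y => f y + g y) z = Dd u f z + Dd u g z := by
  simp only [Dd_eq]; exact d10_add hf hg

theorem Db_add (hf : DifferentiableAt ℝ f z) (hg : DifferentiableAt ℝ g z) :
    Db u (fun y => f y + g y) z = Db u f z + Db u g z := by
  simp only [Db_eq]; exact d01_add hf hg

theorem Dd_mul (hf : DifferentiableAt ℝ f z) (hg : DifferentiableAt ℝ g z) :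
    Dd u (fun y => f y * g y) z = Dd u f z * g z + f z * Dd u g z := by
  simp only [Dd_eq]; exact d10_mul hf hg

theorem Db_mul (hf : DifferentiableAt ℝ f z) (hg : DifferentiableAt ℝ g z) :
    Db u (fun y => f y * g y) z = Db u f z * g z + f z * Db u g z := by
  simp only [Db_eq]; exact d01_mul hf hg

theorem Dd_sum {κ : Type*} (s : Finset κ) (G : κ → E n → ℂ)
    (h : ∀ i ∈ s, DifferentiableAt ℝ (G i) z) :
    Dd u (fun y => ∑ i ∈ s, G i y) z = ∑ i ∈ s, Dd u (G i) z := by
  simp only [Dd_eq]; exact d10_sum s G h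

theorem Db_sum {κ : Type*} (s : Finset κ) (G : κ → E n → ℂ)
    (h : ∀ i ∈ s, DifferentiableAt ℝ (G i) z) :
    Db u (fun y => ∑ i ∈ s, G i y) z = ∑ i ∈ s, Db u (G i) z := by
  simp only [Db_eq]; exact d01_sum s G h

theorem Dd_neg (hf : DifferentiableAt ℝ f z) : Dd u (fun y => -f y) z = -Dd u f z := by
  have h := Dd_mul (u := u) (differentiableAt_const (-1 : ℂ)) hf
  rw [Dd_const] at h
  simpa using h

theorem Db_neg (hf : DifferentiableAt ℝ f z) : Db u (fun y => -f y) z = -Db u f z := by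
  have h := Db_mul (u := u) (differentiableAt_const (-1 : ℂ)) hf
  rw [Db_const] at h
  simpa using h

theorem Dd_conj (hf : DifferentiableAt ℝ f z) :
    Dd u (fun y => conj (f y)) z = conj (Db u f z) := by
  simp only [Dd_eq, Db_eq]; exact d10_conj hf

theorem Db_conj (hf : DifferentiableAt ℝ f z) :
    Db u (fun y => conj (f y)) z = conj (Dd u f z) := by
  simp only [Dd_eq, Db_eq]; exact d01_conj hf

theorem contDiffOn_conj {U : Set (E n)} (hf : ContDiffOn ℝ ∞ f U) :
    ContDiffOn ℝ ∞ (fun y => conj (f y)) U :=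
  Complex.conjCLE.contDiff.comp_contDiffOn hf

theorem contDiffOn_Dd {U : Set (E n)} (hU : IsOpen U) (hu : ∀ k, ContDiffOn ℝ ∞ (u k) U)
    (hf : ContDiffOn ℝ ∞ f U) : ContDiffOn ℝ ∞ (Dd u f) U := by
  unfold Dd
  exact ContDiffOn.sum fun k _ => (hu k).mul (contDiffOn_pk hU hf k)

theorem contDiffOn_Db {U : Set (E n)} (hU : IsOpen U) (hu : ∀ k, ContDiffOn ℝ ∞ (u k) U)
    (hf : ContDiffOn ℝ ∞ f U) : ContDiffOn ℝ ∞ (Db u f) U := by
  unfold Db
  exact ContDiffOn.sum fun k _ => (contDiffOn_conj (hu k)).mul (contDiffOn_pb hU hf k)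

variable {w : E n → ℝ} {m : Fin n} {U : Set (E n)}

/-- `M ū = 0` -/
theorem KF.mu (h : KF w m U u) (hz : z ∈ U) (k : Fin n) :
    ∑ j, conj (u j z) * pb j (u k) z = 0 := by
  have hU := h.isOpen
  have hN := hU.mem_nhds hz
  have hcw := contDiffOn_cx h.sw
  have hpb : ∀ l, ContDiffOn ℝ ∞ (pb l (cx w)) U := fun l => contDiffOn_pb hU hcw l
  have hF : ∀ k l, ContDiffOn ℝ ∞ (fun y => LM w y k l) U := fun k l => contDiffOn_pk hU (hpb l) k
  have dF : ∀ k l, DifferentiableAt ℝ (fun y => LM w y k l) z := fun k l => diffAt_of hU (hF k l) hz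
  have du : ∀ k, DifferentiableAt ℝ (u k) z := fun k => diffAt_of hU (h.su k) hz
  have dcu : ∀ k, DifferentiableAt ℝ (fun y => conj (u k y)) z := fun k =>
    diffAt_of hU (contDiffOn_conj (h.su k)) hz
  -- derivative of the kernel equation
  have h1 : ∀ j l, ∑ i, (pb j (u i) z * LM w z i l + u i z * pb j (fun y => LM w y i l) z) = 0 := by
    intro j l
    have e1 : (fun y => ∑ i, u i y * LM w y i l) =ᶠ[𝓝 z] fun _ => (0 : ℂ) := by
      filter_upwards [hN] with y hy
      exact h.ker y hy l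
    have e2 : pb j (fun y => ∑ i, u i y * LM w y i l) z = 0 := by
      rw [pb_congr e1]
      exact d01_const 0
    have e3 : pb j (fun y => ∑ i, u i y * LM w y i l) z =
        ∑ i, pb j (fun y => u i y * LM w y i l) z :=
      d01_sum Finset.univ (fun i y => u i y * LM w y i l) (fun i _ => (du i).mul (dF i l))
    rw [← e2, e3]
    refine Finset.sum_congr rfl fun i _ => ?_
    exact (d01_mul (du i) (dF i l)).symm
  -- the conjugate kernel equation
  have hker2 : ∀ y ∈ U, ∀ i, ∑ j, conj (u j y) * LM w y i j = 0 := by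
    intro y hy i
    have e := congrArg conj (h.ker y hy i)
    rw [map_sum, map_zero] at e
    rw [← e]
    refine Finset.sum_congr rfl fun j _ => ?_
    rw [map_mul, LM_conj hU h.sw hy]
  have h2 : ∀ l i, ∑ j, (pb l (fun y => conj (u j y)) z * LM w z i j +
      conj (u j z) * pb l (fun y => LM w y i j) z) = 0 := by
    intro l i
    have e1 : (fun y => ∑ j, conj (u j y) * LM w y i j) =ᶠ[𝓝 z] fun _ => (0 : ℂ) := by
      filter_upwards [hN] with y hy
      exact hker2 y hy i
    have e2 : pb l (fun y => ∑ j, conj (u j y) * LM w y i j) z = 0 := by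
      rw [pb_congr e1]
      exact d01_const 0
    have e3 : pb l (fun y => ∑ j, conj (u j y) * LM w y i j) z =
        ∑ j, pb l (fun y => conj (u j y) * LM w y i j) z :=
      d01_sum Finset.univ (fun j y => conj (u j y) * LM w y i j) (fun j _ => (dcu j).mul (dF i j))
    rw [← e2, e3]
    refine Finset.sum_congr rfl fun j _ => ?_
    exact (d01_mul (dcu j) (dF i j)).symm
  -- symmetry of the third derivatives
  have h3 : ∀ i j l, pb j (fun y => LM w y i l) z = pb l (fun y => LM w y i j) z := by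
    intro i j l
    have a1 : pb j (pk i (pb l (cx w))) z = pk i (pb j (pb l (cx w))) z :=
      (pk_pb_comm ((hpb l).contDiffAt hN) i j).symm
    have a2 : pb l (pk i (pb j (cx w))) z = pk i (pb l (pb j (cx w))) z :=
      (pk_pb_comm ((hpb j).contDiffAt hN) i l).symm
    have a3 : (pb j (pb l (cx w))) =ᶠ[𝓝 z] (pb l (pb j (cx w))) := by
      filter_upwards [hN] with y hy
      exact pb_pb_comm (hcw.contDiffAt (hU.mem_nhds hy)) j l
    calc pb j (fun y => LM w y i l) z = pb j (pk i (pb l (cx w))) z := rfl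
      _ = pk i (pb j (pb l (cx w))) z := a1
      _ = pk i (pb l (pb j (cx w))) z := pk_congr a3
      _ = pb l (pk i (pb j (cx w))) z := a2.symm
      _ = _ := rfl
  -- the vector `a`
  have key : (fun i => ∑ j, conj (u j z) * pb j (u i) z) = (0 : Fin n → ℂ) := by
    refine h.uniq z hz _ ?_ ?_
    · apply Finset.sum_eq_zero
      intro j _
      have e1 : (u m) =ᶠ[𝓝 z] fun _ => (1 : ℂ) := by
        filter_upwards [hN] with y hy
        exact h.one y hy
      have e2 : pb j (u m) z = 0 := by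
        rw [pb_congr e1]
        exact d01_const 1
      rw [e2, mul_zero]
    · intro l
      have s1 : ∑ i, (∑ j, conj (u j z) * pb j (u i) z) * LM w z i l =
          ∑ j, conj (u j z) * ∑ i, pb j (u i) z * LM w z i l := by
        simp only [Finset.sum_mul, Finset.mul_sum]
        rw [Finset.sum_comm]
        refine Finset.sum_congr rfl fun j _ => Finset.sum_congr rfl fun i _ => ?_
        ring
      have s2 : ∀ j, ∑ i, pb j (u i) z * LM w z i l =
          -∑ i, u i z * pb l (fun y => LM w y i j) z := by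
        intro j
        have e := h1 j l
        rw [Finset.sum_add_distrib] at e
        have e4 : ∑ i, u i z * pb j (fun y => LM w y i l) z =
            ∑ i, u i z * pb l (fun y => LM w y i j) z :=
          Finset.sum_congr rfl fun i _ => by rw [h3 i j l]
        rw [e4] at e
        exact eq_neg_of_add_eq_zero_left e
      rw [s1]
      simp only [s2]
      have s3 : ∑ j, conj (u j z) * -∑ i, u i z * pb l (fun y => LM w y i j) z =
          -∑ i, u i z * ∑ j, conj (u j z) * pb l (fun y => LM w y i j) z := by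
        simp only [mul_neg, Finset.sum_neg_distrib, Finset.mul_sum]
        congr 1
        rw [Finset.sum_comm]
        refine Finset.sum_congr rfl fun j _ => Finset.sum_congr rfl fun i _ => ?_
        ring
      have s4 : ∀ i, ∑ j, conj (u j z) * pb l (fun y => LM w y i j) z =
          -∑ j, pb l (fun y => conj (u j y)) z * LM w z i j := by
        intro i
        have e := h2 l i
        rw [Finset.sum_add_distrib] at e
        exact eq_neg_of_add_eq_zero_right e
      rw [s3]
      simp only [s4]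
      have s5 : -∑ i, u i z * -∑ j, pb l (fun y => conj (u j y)) z * LM w z i j =
          ∑ j, pb l (fun y => conj (u j y)) z * ∑ i, u i z * LM w z i j := by
        simp only [mul_neg, Finset.sum_neg_distrib, neg_neg, Finset.mul_sum]
        rw [Finset.sum_comm]
        refine Finset.sum_congr rfl fun j _ => Finset.sum_congr rfl fun i _ => ?_
        ring
      rw [s5]
      apply Finset.sum_eq_zero
      intro j _
      rw [h.ker z hz j, mul_zero]
  exact congrFun key k

theorem KF.Db_u (h : KF w m U u) (hz : z ∈ U) (k : Fin n) : Db u (u k) z = 0 := h.mu hz k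

theorem KF.Dd_conj_u (h : KF w m U u) (hz : z ∈ U) (k : Fin n) :
    Dd u (fun y => conj (u k y)) z = 0 := by
  rw [Dd_conj (diffAt_of h.isOpen (h.su k) hz), h.Db_u hz, map_zero]

theorem KF.Dd_Db (h : KF w m U u) (hf : ContDiffOn ℝ ∞ f U) (hz : z ∈ U) :
    Dd u (Db u f) z = ∑ k, ∑ l, u k z * conj (u l z) * pk k (pb l f) z := by
  have hU := h.isOpen
  have dcu : ∀ k, DifferentiableAt ℝ (fun y => conj (u k y)) z := fun k =>
    diffAt_of hU (contDiffOn_conj (h.su k)) hz
  have dp : ∀ l, DifferentiableAt ℝ (pb l f) z := fun l => diffAt_of hU (contDiffOn_pb hU hf l) hz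
  have e1 : Dd u (Db u f) z = ∑ l, Dd u (fun y => conj (u l y) * pb l f y) z :=
    Dd_sum Finset.univ (fun l y => conj (u l y) * pb l f y) (fun l _ => (dcu l).mul (dp l))
  rw [e1, Finset.sum_comm]
  refine Finset.sum_congr rfl fun l _ => ?_
  rw [Dd_mul (dcu l) (dp l), h.Dd_conj_u hz l, zero_mul, zero_add]
  unfold Dd
  rw [Finset.mul_sum]
  refine Finset.sum_congr rfl fun k _ => ?_
  ring

theorem KF.Db_Dd (h : KF w m U u) (hf : ContDiffOn ℝ ∞ f U) (hz : z ∈ U) :
    Db u (Dd u f) z = ∑ k, ∑ l, u k z * conj (u l z) * pk k (pb l f) z := by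
  have hU := h.isOpen
  have du : ∀ k, DifferentiableAt ℝ (u k) z := fun k => diffAt_of hU (h.su k) hz
  have dp : ∀ l, DifferentiableAt ℝ (pk l f) z := fun l => diffAt_of hU (contDiffOn_pk hU hf l) hz
  have e1 : Db u (Dd u f) z = ∑ k, Db u (fun y => u k y * pk k f y) z :=
    Db_sum Finset.univ (fun k y => u k y * pk k f y) (fun k _ => (du k).mul (dp k))
  rw [e1]
  refine Finset.sum_congr rfl fun k _ => ?_
  rw [Db_mul (du k) (dp k), h.Db_u hz k, zero_mul, zero_add]
  unfold Db
  rw [Finset.mul_sum]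
  refine Finset.sum_congr rfl fun l _ => ?_
  rw [pk_pb_comm (hf.contDiffAt (hU.mem_nhds hz)) k l]
  ring

theorem KF.comm (h : KF w m U u) (hf : ContDiffOn ℝ ∞ f U) (hz : z ∈ U) :
    Db u (Dd u f) z = Dd u (Db u f) z := by
  rw [h.Dd_Db hf hz, h.Db_Dd hf hz]

end Pool.Agent.CYF
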