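import Pool.Agent.CYF.Dca

/-!
Jacobi's formula for the operator `D`.

PROOF. The determinant is a polynomial in the entries; `D` satisfies the Leibniz rule.
`Matrix.det_apply`, `Dd_sum`, product rule for finite products, and
`∑_i ∑_σ sign σ (D G_{σ i,i}) ∏_{k≠i} G_{σ k,k} = ∑_i det (updateCol i (D G_i)) = tr (adj G · D G)`
(`Matrix.cramer`, `Matrix.adjugate`).
-/

open scoped ContDiff ComplexConjugate Topology ComplexOrder
open Complex Matrix

namespace Pool.Agent.CYF

variable {n : ℕ} {u : Fin n → E n → ℂ} {z : E n}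

private theorem jcb_diff_prod {κ : Type*} (s : Finset κ) (G : κ → E n → ℂ)
    (h : ∀ i ∈ s, DifferentiableAt ℝ (G i) z) :
    DifferentiableAt ℝ (fun y => ∏ i ∈ s, G i y) z := by
  classical
  induction s using Finset.induction_on with
  | empty => simp
  | insert a s ha ih =>
    simp only [Finset.prod_insert ha]
    exact (h a (Finset.mem_insert_self a s)).mul
      (ih fun i hi => h i (Finset.mem_insert_of_mem hi))

private theorem jcb_prod {κ : Type*} [DecidableEq κ] (s : Finset κ) (G : κ → E n → ℂ)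
    (h : ∀ i ∈ s, DifferentiableAt ℝ (G i) z) :
    Dd u (fun y => ∏ i ∈ s, G i y) z = ∑ i ∈ s, Dd u (G i) z * ∏ j ∈ s.erase i, G j z := by
  induction s using Finset.induction_on with
  | empty => simpa using Dd_const (u := u) (z := z) (1 : ℂ)
  | insert a s ha ih =>
    have h1 : DifferentiableAt ℝ (G a) z := h a (Finset.mem_insert_self a s)
    have h2 : ∀ i ∈ s, DifferentiableAt ℝ (G i) z :=
      fun i hi => h i (Finset.mem_insert_of_mem hi)
    simp only [Finset.prod_insert ha]
    rw [Dd_mul h1 (jcb_diff_prod s G h2), ih h2, Finset.sum_insert ha, Finset.erase_insert ha,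
      Finset.mul_sum]
    congr 1
    refine Finset.sum_congr rfl fun i hi => ?_
    have hia : a ≠ i := fun e => ha (e ▸ hi)
    rw [Finset.erase_insert_of_ne hia, Finset.prod_insert
      (fun hh => ha (Finset.mem_of_mem_erase hh))]
    ring

theorem Dd_det (G : E n → Matrix (Fin n) (Fin n) ℂ)
    (hG : ∀ i j, DifferentiableAt ℝ (fun y => G y i j) z) :
    Dd u (fun y => (G y).det) z
      = ((G z).adjugate * Matrix.of fun i j => Dd u (fun y => G y i j) z).trace := by
  classical
  have hterm : ∀ σ : Equiv.Perm (Fin n), DifferentiableAt ℝ (fun y => ∏ i, G y (σ i) i) z :=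
    fun σ => jcb_diff_prod Finset.univ (fun i y => G y (σ i) i) fun i _ => hG (σ i) i
  have hdet : (fun y => (G y).det)
      = fun y => ∑ σ : Equiv.Perm (Fin n), (((Equiv.Perm.sign σ : ℤ)) : ℂ) * ∏ i, G y (σ i) i := by
    funext y
    rw [Matrix.det_apply']
  have hL : Dd u (fun y => (G y).det) z
      = ∑ σ : Equiv.Perm (Fin n), ∑ i, (((Equiv.Perm.sign σ : ℤ)) : ℂ)
          * (Dd u (fun y => G y (σ i) i) z * ∏ j ∈ Finset.univ.erase i, G z (σ j) j) := by
    rw [hdet]
    refine (Dd_sum (u := u) (z := z) Finset.univ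
      (fun (σ : Equiv.Perm (Fin n)) y => (((Equiv.Perm.sign σ : ℤ)) : ℂ) * ∏ i, G y (σ i) i)
      fun σ _ => (differentiableAt_const _).mul (hterm σ)).trans ?_
    refine Finset.sum_congr rfl fun σ _ => ?_
    refine (Dd_mul (u := u) (differentiableAt_const _) (hterm σ)).trans ?_
    rw [Dd_const, zero_mul, zero_add,
      jcb_prod Finset.univ (fun i y => G y (σ i) i) fun i _ => hG (σ i) i, Finset.mul_sum]
  have hR : ∀ i, ((G z).adjugate * Matrix.of fun i j => Dd u (fun y => G y i j) z) i i
      = ∑ σ : Equiv.Perm (Fin n), (((Equiv.Perm.sign σ : ℤ)) : ℂ)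
          * (Dd u (fun y => G y (σ i) i) z * ∏ j ∈ Finset.univ.erase i, G z (σ j) j) := by
    intro i
    have h1 : ((G z).adjugate * Matrix.of fun i j => Dd u (fun y => G y i j) z) i i
        = ((G z).adjugate *ᵥ fun k => Dd u (fun y => G y k i) z) i := by
      rw [Matrix.mul_apply]
      rfl
    rw [h1, ← Matrix.cramer_eq_adjugate_mulVec, Matrix.cramer_apply, Matrix.det_apply']
    refine Finset.sum_congr rfl fun σ _ => ?_
    congr 1
    rw [← Finset.mul_prod_erase Finset.univ _ (Finset.mem_univ i), Matrix.updateCol_self]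
    congr 1
    refine Finset.prod_congr rfl fun j hj => ?_
    rw [Matrix.updateCol_ne (Finset.ne_of_mem_erase hj)]
  rw [hL, Finset.sum_comm, Matrix.trace]
  refine Finset.sum_congr rfl fun i _ => ?_
  rw [Matrix.diag_apply, hR i]

end Pool.Agent.CYF
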