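import Pool.Agent.CYF.Inv

/-!
`K` does not depend on the chart (nor on the index `m`).

`Kf_chg`: let `u`, `u'` be the normalised kernel fields of `w` (index `m`) and `v` (index `m'`). Near `z`:
`T u = λ • u' ∘ φ` with `λ = (T u)_m'` smooth, `λ ≠ 0` (kernels correspond: `adj_ker`). Differentiate with `∂̄_j`
(`T` holomorphic): `∑_k T_pk M_kj = (∂̄_j λ) u'_p + λ ∑_q M'_pq conj (T_qj)` (chain rule `d01_comp`).
Put `α_j = ∂̄_j λ`. `T M = u' αᵀ + λ M' T̄` (at `z`, `u' = u'(φ z)`, `M' = M'(φ z)`). Multiply with `ū`: `M ū = 0` and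
`T̄ ū = λ̄ ū'`, `M' ū' = 0` give `α·ū = 0`. So with `S = T⁻¹`: `M = S u' αᵀ + λ S M' T̄`, `S u' = u/λ`.
`tr (M M̄) = |λ|² tr (M' M̄') + (terms containing α·ū = 0 or M' ū' = 0, M ū = 0) `, precisely
`M - (u/λ) αᵀ = λ S M' T̄` and `tr ((M - (u/λ) αᵀ) conj (…)) = tr (M M̄)` because `M ū = 0`, `α·ū = 0`.
`ρ' = ρ/|λ|²`: from `ad_chg`, `ad v (φ z) m' m' = ∑ conj(T m' l) ad_lk T m' k = ρ |∑_k T_m'k u_k|² = ρ |λ|²`.
CAREFUL: `T u = λ u'`, so `ρ' = ρ |λ|²` and `tr (M M̄) = |λ|² tr (M' M̄')`: `ρ tr (M M̄) = ρ' tr (M' M̄')`. OK.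
-/

open scoped ContDiff ComplexConjugate Topology ComplexOrder
open Complex Matrix

namespace Pool.Agent.CYF

variable {n : ℕ} {w v g : E n → ℝ} {O V : Set (E n)} {φ : E n → E n} {z : E n}

theorem InvK_cj_mul (X Y : Matrix (Fin n) (Fin n) ℂ) : cj (X * Y) = cj X * cj Y := by
  ext i j
  simp [Matrix.mul_apply]

theorem InvK_cj_cj (X : Matrix (Fin n) (Fin n) ℂ) : cj (cj X) = X := by
  ext i j
  simp

theorem InvK_cj_vecMulVec (a b : Fin n → ℂ) :
    cj (vecMulVec a b) = vecMulVec (fun i => conj (a i)) (fun i => conj (b i)) := by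
  ext i j
  simp [vecMulVec_apply]

theorem InvK_cj_add (X Y : Matrix (Fin n) (Fin n) ℂ) : cj (X + Y) = cj X + cj Y := by
  ext i j
  simp

theorem InvK_cj_smul (c : ℂ) (X : Matrix (Fin n) (Fin n) ℂ) : cj (c • X) = conj c • cj X := by
  ext i j
  simp

theorem InvK_cj_mulVec (X : Matrix (Fin n) (Fin n) ℂ) (a : Fin n → ℂ) :
    (fun i => conj ((X *ᵥ a) i)) = cj X *ᵥ (fun i => conj (a i)) := by
  funext i
  simp [mulVec, dotProduct]

theorem InvK_cj_det (X : Matrix (Fin n) (Fin n) ℂ) : (cj X).det = conj X.det := by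
  unfold cj
  rw [RingHom.map_det]
  rfl

/-- the change of the trace form -/
theorem InvK_trace {M N T : Matrix (Fin n) (Fin n) ℂ} (hT : T.det ≠ 0) {u β : Fin n → ℂ} {l : ℂ}
    (hN : N * cj T = vecMulVec (T *ᵥ u) β + l • (T * M))
    (hM : M *ᵥ (fun i => conj (u i)) = 0) (hβ : β ⬝ᵥ (fun i => conj (u i)) = 0) :
    trace (N * cj N) = (Complex.normSq l : ℂ) * trace (M * cj M) := by
  have hTu : IsUnit T.det := isUnit_iff_ne_zero.2 hT
  have hcT : IsUnit (cj T).det := by
    rw [InvK_cj_det]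
    exact isUnit_iff_ne_zero.2 (by simpa using hT)
  set ub : Fin n → ℂ := fun i => conj (u i) with hub
  set βb : Fin n → ℂ := fun i => conj (β i) with hβb
  set R := vecMulVec (T *ᵥ u) β + l • (T * M) with hR
  have h1 : N = R * (cj T)⁻¹ := by
    rw [← hN, Matrix.mul_assoc, mul_nonsing_inv _ hcT, Matrix.mul_one]
  have h2 : cj N * T = cj R := by
    rw [← hN, InvK_cj_mul, InvK_cj_cj]
  have h3 : cj N = cj R * T⁻¹ := by
    rw [← h2, Matrix.mul_assoc, mul_nonsing_inv _ hTu, Matrix.mul_one]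
  have h4 : cj R = cj T * (vecMulVec ub βb + conj l • cj M) := by
    rw [hR, InvK_cj_add, InvK_cj_smul, InvK_cj_mul, InvK_cj_vecMulVec, InvK_cj_mulVec,
      Matrix.mul_add, Matrix.mul_smul, mul_vecMulVec]
  have h5 : (cj T)⁻¹ * cj R = vecMulVec ub βb + conj l • cj M := by
    rw [h4, ← Matrix.mul_assoc, nonsing_inv_mul _ hcT, Matrix.one_mul]
  have h6 : R *ᵥ ub = 0 := by
    rw [hR, add_mulVec, vecMulVec_mulVec, hβ, smul_mulVec, ← mulVec_mulVec, hM, mulVec_zero,
      smul_zero, add_zero]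
    simp
  have h7 : cj M *ᵥ u = 0 := by
    have h8 := InvK_cj_mulVec M ub
    rw [hM] at h8
    have h9 : (fun i => conj (ub i)) = u := by
      funext i; simp [hub]
    rw [h9] at h8
    rw [← h8]
    funext i
    simp
  have h8 : N * cj N = R * (vecMulVec ub βb + conj l • cj M) * T⁻¹ := by
    rw [← h5, h3, h1]
    simp only [Matrix.mul_assoc]
  have h9 : R * (vecMulVec ub βb + conj l • cj M)
      = conj l • (vecMulVec (T *ᵥ u) (β ᵥ* cj M) + l • (T * (M * cj M))) := by
    rw [Matrix.mul_add, mul_vecMulVec, h6, zero_vecMulVec, zero_add, Matrix.mul_smul, hR,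
      Matrix.add_mul, vecMulVec_mul, Matrix.smul_mul, Matrix.mul_assoc]
  have h10 : trace (vecMulVec (T *ᵥ u) (β ᵥ* cj M) * T⁻¹) = 0 := by
    rw [vecMulVec_mul, trace_vecMulVec, ← dotProduct_comm, dotProduct_mulVec, vecMul_vecMul,
      nonsing_inv_mul _ hTu, vecMul_one, ← dotProduct_mulVec, h7, dotProduct_zero]
  have h11 : trace (T * (M * cj M) * T⁻¹) = trace (M * cj M) := by
    rw [Matrix.mul_assoc, trace_mul_comm, Matrix.mul_assoc, nonsing_inv_mul _ hTu,
      Matrix.mul_one]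
  rw [h8, h9, Matrix.smul_mul, Matrix.add_mul, Matrix.smul_mul, trace_smul, trace_add,
    trace_smul, h10, h11, zero_add, smul_eq_mul, smul_eq_mul, ← mul_assoc,
    Complex.normSq_eq_conj_mul_self]

/-- the kernels correspond -/
theorem InvK_ker (h : Cc w v O V φ) {y : E n} (hy : y ∈ O) {m' : Fin n}
    (hm' : rho v m' (φ y) ≠ 0) {a : Fin n → ℂ} (ha : ∀ l, ∑ k, a k * LM w y k l = 0)
    (p : Fin n) :
    ∑ k, TT φ y p k * a k = (∑ k, TT φ y m' k * a k) * uu v m' p (φ y) := by
  set T : Matrix (Fin n) (Fin n) ℂ := Matrix.of (TT φ y) with hT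
  set b : Fin n → ℂ := fun q => ∑ p, (∑ k, TT φ y p k * a k) * LM v (φ y) p q with hb
  have h1 : ∀ l, ∑ q, conj (TT φ y q l) * b q = 0 := by
    intro l
    rw [← ha l]
    have h2 : ∀ k, a k * LM w y k l = ∑ q, ∑ p, a k * (TT φ y p k * conj (TT φ y q l) *
        LM v (φ y) p q) := by
      intro k
      rw [h.lev y hy k l, Finset.mul_sum, Finset.sum_comm]
      simp only [Finset.mul_sum]
    simp only [h2]
    rw [Finset.sum_comm]
    refine Finset.sum_congr rfl fun q _ => ?_
    rw [Finset.sum_comm, hb]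
    simp only
    rw [Finset.mul_sum]
    refine Finset.sum_congr rfl fun p _ => ?_
    rw [Finset.sum_mul, Finset.mul_sum]
    refine Finset.sum_congr rfl fun k _ => ?_
    ring
  have hdet : T.det ≠ 0 := by
    intro h0
    have h2 := h.det y hy
    rw [← hT, h0, norm_zero] at h2
    exact zero_ne_one h2
  have h3 : (cj T).det ≠ 0 := by
    rw [InvK_cj_det]
    simpa using hdet
  have hb0 : b = 0 := by
    have h4 : b ᵥ* cj T = 0 := by
      funext l
      have h5 := h1 l
      simp only [vecMul, dotProduct, cj_apply, Pi.zero_apply, hT, Matrix.of_apply]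
      rw [← h5]
      exact Finset.sum_congr rfl fun q _ => mul_comm _ _
    have h6 : b ᵥ* (cj T * (cj T)⁻¹) = 0 := by
      rw [← vecMul_vecMul, h4, zero_vecMul]
    rwa [mul_nonsing_inv _ (isUnit_iff_ne_zero.2 h3), vecMul_one] at h6
  have h7 := adj_ker (F := lm v (φ y)) (h.sing (φ y) (h.maps y hy)) (m := m') hm'
    (a := fun p => ∑ k, TT φ y p k * a k) (fun l => congrFun hb0 l) p
  exact h7

theorem Cc.Kf_chg (h : Cc w v O V φ) (hz : z ∈ O) {m m' : Fin n} (hm : rho w m z ≠ 0)
    (hm' : rho v m' (φ z) ≠ 0) : Kf w m z = Kf v m' (φ z) := by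
  have hV : φ z ∈ V := h.maps z hz
  have kw := kf_of h.isOpen h.sw h.psd' h.sing' m
  have kv := kf_of h.isOpen' h.sv h.psd h.sing m'
  have hzU : z ∈ Um w m O := ⟨hz, hm⟩
  have hzV : φ z ∈ Um v m' V := ⟨hV, hm'⟩
  set T : Matrix (Fin n) (Fin n) ℂ := Matrix.of (TT φ z) with hT
  set lam : E n → ℂ := fun y => ∑ k, TT φ y m' k * uu w m k y with hlam
  have dφ : ∀ y ∈ O, DifferentiableAt ℂ φ y := fun y hy =>
    (h.hol.contDiffAt (h.isOpen.mem_nhds hy)).differentiableAt (by simp)
  have hdet : T.det ≠ 0 := by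
    intro h0
    have h2 := h.det z hz
    rw [← hT, h0, norm_zero] at h2
    exact zero_ne_one h2
  -- the relation near `z`
  have hrel : ∀ p, (fun y => ∑ k, TT φ y p k * uu w m k y) =ᶠ[𝓝 z]
      fun y => lam y * uu v m' p (φ y) := by
    intro p
    have h1 : ContinuousAt φ z := (dφ z hz).continuousAt
    filter_upwards [kw.isOpen.mem_nhds hzU, h1 (kv.isOpen.mem_nhds hzV)] with y h2 h3
    exact InvK_ker h h2.1 h3.2 (kw.ker y h2) p
  have hrelz : ∀ p, ∑ k, TT φ z p k * uu w m k z = lam z * uu v m' p (φ z) := fun p =>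
    (hrel p).self_of_nhds
  have hTu : T *ᵥ (fun k => uu w m k z) = fun p => lam z * uu v m' p (φ z) := by
    funext p
    rw [← hrelz p]
    rfl
  have hlz : lam z ≠ 0 := by
    intro h0
    have h1 : T *ᵥ (fun k => uu w m k z) = 0 := by
      rw [hTu]
      funext p
      simp [h0]
    have h2 : (T⁻¹ * T) *ᵥ (fun k => uu w m k z) = 0 := by
      rw [← mulVec_mulVec, h1, mulVec_zero]
    rw [nonsing_inv_mul _ (isUnit_iff_ne_zero.2 hdet), one_mulVec] at h2
    have h3 := congrFun h2 m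
    rw [kw.one z hzU] at h3
    exact one_ne_zero h3
  -- differentiability
  have hTd : ∀ p k, DifferentiableAt ℂ (fun y => TT φ y p k) z := by
    intro p k
    have h2 : ContDiffAt ℂ ∞ (fderiv ℂ φ) z :=
      (h.hol.contDiffAt (h.isOpen.mem_nhds hz)).fderiv_right (m := ∞) (by simp)
    have h3 : DifferentiableAt ℂ (fun y => fderiv ℂ φ y (e k)) z :=
      (h2.clm_apply contDiffAt_const).differentiableAt (by simp)
    exact differentiableAt_pi.1 h3 p
  have hTr : ∀ p k, DifferentiableAt ℝ (fun y => TT φ y p k) z := fun p k =>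
    (hTd p k).restrictScalars ℝ
  have hud : ∀ k, DifferentiableAt ℝ (uu w m k) z := fun k =>
    diffAt_of kw.isOpen (kw.su k) hzU
  have hud' : ∀ k, DifferentiableAt ℝ (uu v m' k) (φ z) := fun k =>
    diffAt_of kv.isOpen (kv.su k) hzV
  have hudc : ∀ k, DifferentiableAt ℝ (fun y => uu v m' k (φ y)) z := fun k =>
    (hud' k).comp z ((dφ z hz).restrictScalars ℝ)
  have hsum : ∀ p j, pb j (fun y => ∑ k, TT φ y p k * uu w m k y) z
      = ∑ k, TT φ z p k * pb j (uu w m k) z := by
    intro p j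
    have h1 := d01_sum (z := z) (a := e j) Finset.univ (fun k y => TT φ y p k * uu w m k y)
      (fun k _ => (hTr p k).mul (hud k))
    have h2 : pb j (fun y => ∑ k, TT φ y p k * uu w m k y) z
      = ∑ k, d01 (fun y => TT φ y p k * uu w m k y) z (e j) := h1
    rw [h2]
    refine Finset.sum_congr rfl fun k _ => ?_
    rw [d01_mul (hTr p k) (hud k), d01_of_diff (hTd p k), zero_mul, zero_add]
    rfl
  have hlamd : DifferentiableAt ℝ lam z := by
    rw [hlam]
    exact DifferentiableAt.fun_sum fun k _ => (hTr m' k).mul (hud k)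
  set α : Fin n → ℂ := fun j => pb j lam z with hα
  -- the derivative of the relation
  have hTM : T * Mx (fun k => uu w m k) z
      = vecMulVec (fun p => uu v m' p (φ z)) α
        + lam z • (Mx (fun k => uu v m' k) (φ z) * cj T) := by
    ext p j
    have h1 := hsum p j
    have h2 := pb_congr (k := j) (hrel p)
    rw [h1] at h2
    have h3 : pb j (fun y => lam y * uu v m' p (φ y)) z
        = pb j lam z * uu v m' p (φ z) + lam z * pb j (fun y => uu v m' p (φ y)) z :=
      d01_mul hlamd (hudc p)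
    have h4 : pb j (fun y => uu v m' p (φ y)) z
        = ∑ q, conj (TT φ z q j) * pb q (uu v m' p) (φ z) := by
      have h5 : pb j (fun y => uu v m' p (φ y)) z
          = d01 (uu v m' p) (φ z) (fderiv ℂ φ z (e j)) :=
        d01_comp (G := uu v m' p) (dφ z hz) (hud' p) (e j)
      rw [h5, d01_eq_sum]
      rfl
    rw [h3, h4] at h2
    have h6 : (T * Mx (fun k => uu w m k) z) p j = ∑ k, TT φ z p k * pb j (uu w m k) z := by
      rw [Matrix.mul_apply]
      rfl
    rw [h6, h2, Matrix.add_apply, vecMulVec_apply, Matrix.smul_apply, Matrix.mul_apply,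
      smul_eq_mul, hα, mul_comm (pb j lam z)]
    congr 2
    refine Finset.sum_congr rfl fun q _ => ?_
    rw [mul_comm]
    rfl
  have hMu : Mx (fun k => uu w m k) z *ᵥ (fun i => conj (uu w m i z)) = 0 := by
    funext k
    have h1 := kw.mu hzU k
    simp only [mulVec, dotProduct, Mx, Matrix.of_apply, Pi.zero_apply]
    rw [← h1]
    exact Finset.sum_congr rfl fun q _ => mul_comm _ _
  have hMu' : Mx (fun k => uu v m' k) (φ z) *ᵥ (fun i => conj (uu v m' i (φ z))) = 0 := by
    funext k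
    have h1 := kv.mu hzV k
    simp only [mulVec, dotProduct, Mx, Matrix.of_apply, Pi.zero_apply]
    rw [← h1]
    exact Finset.sum_congr rfl fun q _ => mul_comm _ _
  have hαu : α ⬝ᵥ (fun i => conj (uu w m i z)) = 0 := by
    have h1 : (T * Mx (fun k => uu w m k) z) *ᵥ (fun i => conj (uu w m i z)) = 0 := by
      rw [← mulVec_mulVec, hMu, mulVec_zero]
    have h2 : cj T *ᵥ (fun i => conj (uu w m i z))
        = conj (lam z) • (fun i => conj (uu v m' i (φ z))) := by
      rw [← InvK_cj_mulVec, hTu]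
      funext i
      simp
    rw [hTM, add_mulVec, smul_mulVec, ← mulVec_mulVec, h2, mulVec_smul, hMu', smul_zero,
      smul_zero, add_zero, vecMulVec_mulVec] at h1
    have h3 := congrFun h1 m'
    have h4 : uu v m' m' (φ z) = 1 := kv.one (φ z) hzV
    simpa [h4] using h3
  have hN : Mx (fun k => uu v m' k) (φ z) * cj T
      = vecMulVec (T *ᵥ (fun k => uu w m k z)) (fun j => -((lam z)⁻¹ ^ 2) * α j)
        + (lam z)⁻¹ • (T * Mx (fun k => uu w m k) z) := by
    rw [hTM, hTu]
    ext p j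
    simp only [Matrix.add_apply, vecMulVec_apply, Matrix.smul_apply, smul_eq_mul]
    field_simp
    ring
  have htr := InvK_trace hdet hN hMu (by
    have h1 : (fun j => -((lam z)⁻¹ ^ 2) * α j) = (-((lam z)⁻¹ ^ 2)) • α := by
      funext j
      simp
    rw [h1, smul_dotProduct, hαu, smul_zero])
  -- the change of `ρ`
  have hrho : rho v m' (φ z) = rho w m z * (Complex.normSq (lam z) : ℂ) := by
    have h1 := h.ad_chg hz
    have h2 : rho v m' (φ z) = ∑ k, (∑ l, conj (TT φ z m' l) * ad w z l k) * TT φ z m' k := by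
      unfold rho
      rw [h1, Matrix.mul_apply]
      refine Finset.sum_congr rfl fun k _ => ?_
      rw [Matrix.mul_apply]
      rfl
    have h3 : ∀ k l, ad w z l k = rho w m z * uu w m k z * conj (uu w m l z) := fun k l =>
      adj_rank (h.psd' z hz) (h.sing' z hz) hm k l
    have h4 : conj (lam z) = ∑ l, conj (TT φ z m' l) * conj (uu w m l z) := by
      rw [hlam]
      simp only [map_sum, map_mul]
    rw [h2, Complex.normSq_eq_conj_mul_self, h4, hlam]
    simp only [h3]
    rw [Finset.sum_mul_sum, Finset.sum_comm, Finset.mul_sum]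
    simp only [Finset.sum_mul, Finset.mul_sum]
    refine Finset.sum_congr rfl fun k _ => Finset.sum_congr rfl fun l _ => ?_
    ring
  have hkk : kk (fun k => uu w m k) z
      = (Complex.normSq (lam z) : ℂ) * kk (fun k => uu v m' k) (φ z) := by
    unfold kk
    rw [htr, ← mul_assoc, ← Complex.ofReal_mul, ← Complex.normSq_mul, mul_inv_cancel₀ hlz]
    simp
  unfold Kf
  rw [hrho, hkk, mul_assoc]

end Pool.Agent.CYF
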