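import Pool.Agent.CYF.Loc

/-!
Linear algebra of the adjugate of a positive semidefinite singular matrix.

PROOF. `F = B^* B`, `adj F = adj B · adj (B^*) = R R^*` with `R = adj B` (`Matrix.adjugate_mul_distrib`,
`Matrix.adjugate_conjTranspose`): `adj F` is positive semidefinite, and if all its diagonal entries
vanish then `R = 0`. `adj_uniq`: if `a_m = 0` and `a F = 0`, put `G = F.updateRow m (Pi.single m 1)`:
`a ᵥ* G = 0` and `det G = adj F m m ≠ 0` (`Matrix.adjugate_apply`), so `a = 0`. `adj_ker`: the row `m` of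
`adj F` is in the kernel (`adj F * F = det F • 1 = 0`), apply `adj_uniq` to
`a - (a_m / adj_mm) (adj_m.)`. `adj_rank`: `adj_ker` for the row `l` of `adj F`.
-/

open scoped ContDiff ComplexConjugate Topology ComplexOrder
open Complex Matrix

namespace Pool.Agent.CYF

variable {n : ℕ} {F : Matrix (Fin n) (Fin n) ℂ}

private theorem Adj_fact (hF : F.PosSemidef) : ∃ B : Matrix (Fin n) (Fin n) ℂ, F = star B * B := by
  open scoped MatrixOrder in
  have h := CStarAlgebra.nonneg_iff_eq_star_mul_self.mp (Matrix.nonneg_iff_posSemidef.2 hF)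
  exact h

theorem adj_psd (hF : F.PosSemidef) : F.adjugate.PosSemidef := by
  obtain ⟨B, rfl⟩ := Adj_fact hF
  rw [Matrix.star_eq_conjTranspose, Matrix.adjugate_mul_distrib, ← Matrix.adjugate_conjTranspose]
  exact Matrix.posSemidef_self_mul_conjTranspose _

theorem adj_diag (hF : F.PosSemidef) (h : F.adjugate ≠ 0) : ∃ m, F.adjugate m m ≠ 0 := by
  by_contra hc
  push Not at hc
  apply h
  rw [← (adj_psd hF).trace_eq_zero_iff]
  unfold Matrix.trace
  exact Finset.sum_eq_zero fun i _ => hc i

theorem adj_uniq {m : Fin n} (hm : F.adjugate m m ≠ 0) {a : Fin n → ℂ} (ha : a m = 0)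
    (h : ∀ l, ∑ k, a k * F k l = 0) : a = 0 := by
  rw [Matrix.adjugate_apply] at hm
  apply Matrix.eq_zero_of_vecMul_eq_zero hm
  funext l
  change ∑ k, a k * (F.updateRow m (Pi.single m 1)) k l = 0
  rw [← h l]
  apply Finset.sum_congr rfl
  intro k _
  by_cases hk : k = m
  · rw [hk, ha, zero_mul, zero_mul]
  · rw [Matrix.updateRow_ne hk]

theorem adj_row (hd : F.det = 0) (m l : Fin n) : ∑ k, F.adjugate m k * F k l = 0 := by
  have h := congrFun (congrFun (Matrix.adjugate_mul F) m) l
  rw [hd, zero_smul, Matrix.mul_apply] at h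
  exact h

theorem adj_ker (hd : F.det = 0) {m : Fin n} (hm : F.adjugate m m ≠ 0) {a : Fin n → ℂ}
    (h : ∀ l, ∑ k, a k * F k l = 0) (k : Fin n) :
    a k = a m * (F.adjugate m k / F.adjugate m m) := by
  have h1 := adj_uniq hm (a := fun k => a k - a m * (F.adjugate m k / F.adjugate m m))
    (by rw [div_self hm]; ring) (by
      intro l
      have e1 : ∀ k, (a k - a m * (F.adjugate m k / F.adjugate m m)) * F k l =
          a k * F k l - a m / F.adjugate m m * (F.adjugate m k * F k l) := by
        intro k; ring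
      simp only [e1]
      rw [Finset.sum_sub_distrib, ← Finset.mul_sum, h l, adj_row hd m l]
      ring)
  have h2 := congrFun h1 k
  simp only [Pi.zero_apply] at h2
  exact sub_eq_zero.1 h2

private theorem Adj_herm (hF : F.PosSemidef) (k l : Fin n) :
    conj (F.adjugate k l) = F.adjugate l k := by
  have h := congrFun (congrFun (adj_psd hF).isHermitian.eq l) k
  rw [Matrix.conjTranspose_apply] at h
  exact h

/-- `adj_lk = ρ u_k conj u_l` -/
theorem adj_rank (hF : F.PosSemidef) (hd : F.det = 0) {m : Fin n} (hm : F.adjugate m m ≠ 0)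
    (k l : Fin n) : F.adjugate l k = F.adjugate m m * (F.adjugate m k / F.adjugate m m)
      * conj (F.adjugate m l / F.adjugate m m) := by
  have h1 : F.adjugate l k = F.adjugate l m * (F.adjugate m k / F.adjugate m m) :=
    adj_ker hd hm (a := fun k => F.adjugate l k) (fun j => adj_row hd l j) k
  rw [h1, map_div₀, Adj_herm hF m l, Adj_herm hF m m]
  field_simp

theorem adj_diag_real (hF : F.PosSemidef) (m : Fin n) :
    (F.adjugate m m).im = 0 ∧ 0 ≤ (F.adjugate m m).re := by
  have h := (adj_psd hF).diag_nonneg (i := m)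
  rw [Complex.le_def] at h
  exact ⟨h.2.symm, h.1⟩

end Pool.Agent.CYF
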