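import Pool.Agent.CYF.Comm

/-!
The Levi form under holomorphic changes of coordinates.
-/

open scoped ContDiff ComplexConjugate Topology
open Complex

namespace Pool.Agent.CYF

variable {n : ℕ}

theorem conjd {g : E n → ℂ} {z : E n} (hg : DifferentiableAt ℝ g z) :
    DifferentiableAt ℝ (fun y => conj (g y)) z :=
  (Complex.conjCLE.differentiableAt).comp z hg

theorem LM_congr {v v' : E n → ℝ} {z : E n} (h : v =ᶠ[𝓝 z] v') (k l : Fin n) :
    LM v z k l = LM v' z k l := by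
  rw [LM_eq, LM_eq]
  refine pk_congr ?_
  have h1 : ∀ᶠ y in 𝓝 z, v =ᶠ[𝓝 y] v' := eventually_eventually_nhds.2 h
  filter_upwards [h1] with y hy
  refine pb_congr ?_
  filter_upwards [hy] with x hx
  unfold cx
  rw [hx]

theorem LM_add {v v' : E n → ℝ} {U : Set (E n)} (hU : IsOpen U) (hv : ContDiffOn ℝ ∞ v U)
    (hv' : ContDiffOn ℝ ∞ v' U) {z : E n} (hz : z ∈ U) (k l : Fin n) :
    LM (fun y => v y + v' y) z k l = LM v z k l + LM v' z k l := by
  have hV := contDiffOn_cx hv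
  have hV' := contDiffOn_cx hv'
  rw [LM_eq, LM_eq, LM_eq]
  have h1 : pb l (cx (fun y => v y + v' y)) =ᶠ[𝓝 z]
      fun y => pb l (cx v) y + pb l (cx v') y := by
    filter_upwards [hU.mem_nhds hz] with y hy
    have h2 : cx (fun y => v y + v' y) = fun y => cx v y + cx v' y := by
      funext y; simp [cx]
    rw [h2]
    exact d01_add (diffAt_of hU hV hy) (diffAt_of hU hV' hy)
  rw [pk_congr h1]
  exact d10_add (diffAt_of hU (contDiffOn_pb hU hV l) hz)
    (diffAt_of hU (contDiffOn_pb hU hV' l) hz)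

theorem LM_const_mul {v : E n → ℝ} {U : Set (E n)} (hU : IsOpen U) (hv : ContDiffOn ℝ ∞ v U)
    {z : E n} (hz : z ∈ U) (c : ℝ) (k l : Fin n) :
    LM (fun y => c * v y) z k l = c * LM v z k l := by
  have hV := contDiffOn_cx hv
  rw [LM_eq, LM_eq]
  have h1 : pb l (cx (fun y => c * v y)) =ᶠ[𝓝 z] fun y => (c : ℂ) * pb l (cx v) y := by
    filter_upwards [hU.mem_nhds hz] with y hy
    have h2 : cx (fun y => c * v y) = fun y => (c : ℂ) * cx v y := by
      funext y; simp [cx]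
    rw [h2]
    exact d01_const_mul (diffAt_of hU hV hy) _
  rw [pk_congr h1]
  exact d10_const_mul (diffAt_of hU (contDiffOn_pb hU hV l) hz) _

section comp

variable {φ : E n → E n} {G : E n → ℂ} {z : E n}

theorem fderiv_comp_hol (hφ : DifferentiableAt ℂ φ z) (hG : DifferentiableAt ℝ G (φ z))
    (v : E n) : fderiv ℝ (fun y => G (φ y)) z v = fderiv ℝ G (φ z) (fderiv ℂ φ z v) := by
  have h : HasFDerivAt φ ((fderiv ℂ φ z).restrictScalars ℝ) z := hφ.hasFDerivAt.restrictScalars ℝ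
  have h2 : HasFDerivAt (fun y => G (φ y))
      ((fderiv ℝ G (φ z)).comp ((fderiv ℂ φ z).restrictScalars ℝ)) z := hG.hasFDerivAt.comp z h
  rw [h2.fderiv]
  rfl

theorem d10_comp (hφ : DifferentiableAt ℂ φ z) (hG : DifferentiableAt ℝ G (φ z)) (a : E n) :
    d10 (fun y => G (φ y)) z a = d10 G (φ z) (fderiv ℂ φ z a) := by
  unfold d10
  rw [fderiv_comp_hol hφ hG, fderiv_comp_hol hφ hG, (fderiv ℂ φ z).map_smul]

theorem d01_comp (hφ : DifferentiableAt ℂ φ z) (hG : DifferentiableAt ℝ G (φ z)) (a : E n) :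
    d01 (fun y => G (φ y)) z a = d01 G (φ z) (fderiv ℂ φ z a) := by
  unfold d01
  rw [fderiv_comp_hol hφ hG, fderiv_comp_hol hφ hG, (fderiv ℂ φ z).map_smul]

end comp

/-- matrix of the derivative -/
noncomputable def TT (φ : E n → E n) (z : E n) (p k : Fin n) : ℂ := fderiv ℂ φ z (e k) p

theorem TT_apply (φ : E n → E n) (z a : E n) (p : Fin n) :
    fderiv ℂ φ z a p = ∑ k, TT φ z p k * a k := by
  conv_lhs => rw [vec_eq_sum a, map_sum]
  rw [Finset.sum_apply]
  refine Finset.sum_congr rfl fun k _ => ?_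
  rw [(fderiv ℂ φ z).map_smul, Pi.smul_apply, smul_eq_mul, mul_comm]
  rfl

theorem chg {φ : E n → E n} {U : Set (E n)} (hU : IsOpen U) (hφ : ContDiffOn ℂ ∞ φ U)
    {v : E n → ℝ} {V : Set (E n)} (hV : IsOpen V) (hv : ContDiffOn ℝ ∞ v V)
    {z : E n} (hz : z ∈ U) (hz' : φ z ∈ V) (k l : Fin n) :
    LM (fun y => v (φ y)) z k l
      = ∑ p, ∑ q, TT φ z p k * conj (TT φ z q l) * LM v (φ z) p q := by
  have hW := contDiffOn_cx hv
  have dφ : ∀ y ∈ U, DifferentiableAt ℂ φ y := fun y hy =>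
    (hφ.contDiffAt (hU.mem_nhds hy)).differentiableAt (by simp)
  have hev : ∀ᶠ y in 𝓝 z, y ∈ U ∧ φ y ∈ V := by
    have h1 : ContinuousAt φ z := (dφ z hz).continuousAt
    filter_upwards [hU.mem_nhds hz, h1 (hV.mem_nhds hz')] with y h2 h3
    exact ⟨h2, h3⟩
  have h1 : pb l (cx (fun y => v (φ y))) =ᶠ[𝓝 z]
      fun y => ∑ q, conj (TT φ y q l) * pb q (cx v) (φ y) := by
    filter_upwards [hev] with y hy
    have h2 : pb l (cx (fun y => v (φ y))) y = d01 (cx v) (φ y) (fderiv ℂ φ y (e l)) :=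
      d01_comp (G := cx v) (dφ y hy.1) (diffAt_of hV hW hy.2) (e l)
    rw [h2, d01_eq_sum]
    rfl
  have hT : ∀ q, DifferentiableAt ℂ (fun y => TT φ y q l) z := by
    intro q
    have h2 : ContDiffAt ℂ ∞ (fderiv ℂ φ) z :=
      (hφ.contDiffAt (hU.mem_nhds hz)).fderiv_right (m := ∞) (by simp)
    have h3 : DifferentiableAt ℂ (fun y => fderiv ℂ φ y (e l)) z :=
      (h2.clm_apply contDiffAt_const).differentiableAt (by simp)
    exact differentiableAt_pi.1 h3 q
  have hTr : ∀ q, DifferentiableAt ℝ (fun y => TT φ y q l) z := fun q =>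
    (hT q).restrictScalars ℝ
  have dφr : DifferentiableAt ℝ φ z := (dφ z hz).restrictScalars ℝ
  have dP : ∀ q, DifferentiableAt ℝ (pb q (cx v)) (φ z) := fun q =>
    diffAt_of hV (contDiffOn_pb hV hW q) hz'
  have dPc : ∀ q, DifferentiableAt ℝ (fun y => pb q (cx v) (φ y)) z := fun q =>
    (dP q).comp z dφr
  rw [LM_eq, pk_congr h1]
  have h2 := d10_sum (z := z) (a := e k) Finset.univ
    (fun q y => conj (TT φ y q l) * pb q (cx v) (φ y))
    (fun q _ => (conjd (hTr q)).mul (dPc q))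
  have h3 : pk k (fun y => ∑ q, conj (TT φ y q l) * pb q (cx v) (φ y)) z
      = ∑ q, d10 (fun y => conj (TT φ y q l) * pb q (cx v) (φ y)) z (e k) := h2
  rw [h3, Finset.sum_comm]
  refine Finset.sum_congr rfl fun q _ => ?_
  rw [d10_mul (conjd (hTr q)) (dPc q), d10_conj (hTr q), d01_of_diff (hT q), map_zero, zero_mul,
    zero_add, d10_comp (G := pb q (cx v)) (dφ z hz) (dP q), d10_eq_sum, Finset.mul_sum]
  refine Finset.sum_congr rfl fun p _ => ?_
  rw [LM_eq]
  unfold TT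
  ring

theorem LM_log {g : E n → ℂ} {U : Set (E n)} (hU : IsOpen U) (hg : ContDiffOn ℂ ∞ g U)
    (hg0 : ∀ z ∈ U, g z ≠ 0) {z : E n} (hz : z ∈ U) (k l : Fin n) :
    LM (fun y => 2 * Real.log ‖g y‖) z k l = 0 := by
  have dg : ∀ y ∈ U, DifferentiableAt ℂ g y := fun y hy =>
    (hg.contDiffAt (hU.mem_nhds hy)).differentiableAt (by simp)
  have dr : ∀ y ∈ U, DifferentiableAt ℝ (cx (fun y => 2 * Real.log ‖g y‖)) y := by
    intro y hy
    have h1 : DifferentiableAt ℝ (fun y => ‖g y‖) y :=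
      ((dg y hy).restrictScalars ℝ).norm ℝ (hg0 y hy)
    have h2 : DifferentiableAt ℝ (fun y => 2 * Real.log ‖g y‖) y :=
      (h1.log (norm_ne_zero_iff.2 (hg0 y hy))).const_mul 2
    exact (Complex.ofRealCLM.differentiableAt).comp y h2
  have hexp : ∀ y ∈ U, cexp (cx (fun y => 2 * Real.log ‖g y‖) y) = g y * conj (g y) := by
    intro y hy
    have h1 : 0 < ‖g y‖ := norm_pos_iff.2 (hg0 y hy)
    unfold cx
    rw [← Complex.ofReal_exp, Complex.mul_conj, Complex.normSq_eq_norm_sq]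
    beta_reduce
    rw [two_mul, Real.exp_add, Real.exp_log h1, sq]
  have h1 : ∀ y ∈ U, pb l (cx (fun y => 2 * Real.log ‖g y‖)) y
      = conj (fderiv ℂ g y (e l) / g y) := by
    intro y hy
    have h2 : (fun y => cexp (cx (fun y => 2 * Real.log ‖g y‖) y)) =ᶠ[𝓝 y]
        fun y => g y * conj (g y) := by
      filter_upwards [hU.mem_nhds hy] with x hx
      exact hexp x hx
    have h3 := d01_congr (a := e l) h2
    have dgr := (dg y hy).restrictScalars ℝ
    rw [d01_exp (dr y hy), d01_mul dgr (conjd dgr), d01_of_diff (dg y hy), d01_conj dgr,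
      d10_of_diff (dg y hy), hexp y hy, zero_mul, zero_add] at h3
    have h4 : g y ≠ 0 := hg0 y hy
    have h5 : conj (g y) ≠ 0 := by simpa using h4
    have h6 : pb l (cx (fun y => 2 * Real.log ‖g y‖)) y
        = d01 (cx (fun y => 2 * Real.log ‖g y‖)) y (e l) := rfl
    rw [h6, map_div₀, eq_div_iff h5]
    apply mul_left_cancel₀ h4
    linear_combination h3
  have h2 : pb l (cx (fun y => 2 * Real.log ‖g y‖)) =ᶠ[𝓝 z]
      fun y => conj (fderiv ℂ g y (e l) / g y) := by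
    filter_upwards [hU.mem_nhds hz] with y hy
    exact h1 y hy
  have hH : DifferentiableAt ℂ (fun y => fderiv ℂ g y (e l) / g y) z := by
    have h3 : ContDiffAt ℂ ∞ (fderiv ℂ g) z :=
      (hg.contDiffAt (hU.mem_nhds hz)).fderiv_right (m := ∞) (by simp)
    have h4 : DifferentiableAt ℂ (fun y => fderiv ℂ g y (e l)) z :=
      (h3.clm_apply contDiffAt_const).differentiableAt (by simp)
    have h5 : DifferentiableAt ℂ (fun y => (g y)⁻¹) z := (dg z hz).inv (hg0 z hz)
    simp only [div_eq_mul_inv]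
    exact h4.mul h5
  rw [LM_eq, pk_congr h2]
  unfold pk
  rw [d10_conj (hH.restrictScalars ℝ), d01_of_diff hH, map_zero]

theorem contDiffOn_log {g : E n → ℂ} {U : Set (E n)} (hg : ContDiffOn ℂ ∞ g U)
    (hg0 : ∀ z ∈ U, g z ≠ 0) : ContDiffOn ℝ ∞ (fun y => 2 * Real.log ‖g y‖) U := by
  have h1 : ContDiffOn ℝ ∞ g U := hg.restrict_scalars ℝ
  have h2 : ContDiffOn ℝ ∞ (fun y => ‖g y‖) U := fun y hy => (h1 y hy).norm ℝ (hg0 y hy)
  exact contDiffOn_const.mul (h2.log fun y hy => norm_ne_zero_iff.2 (hg0 y hy))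

end Pool.Agent.CYF
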