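import Pool.Agent.CYF.Emx

/-!
Derivatives of `k = tr (M M̄)`.

PROOF. `D̄ k = tr ((D̄ M) M̄) + tr (M D̄ M̄) = - tr (M Ē M̄) + tr (M N̄)` (`D̄ M̄ = conj (D M) = N̄`).
`D k = tr (N M̄) + tr (M D M̄) = tr (N M̄) - tr (M M̄ E) = tr (M̄ (N - E M)) = tr (M̄ Q)`.
`D (D̄ k)`: `D (- tr (M Ē M̄)) = - tr (N Ē M̄) + tr (M M̄ M M̄) + tr (M Ē M̄ E)`
(`D Ē = - M̄ M`, `D M̄ = - M̄ E`); `D tr (M N̄) = tr (N N̄) + tr (M D N̄)`, `D N̄ = conj (D̄ N) = - N̄ E + M̄ M M̄`.
Sum: `2 tr (M M̄ M M̄) + tr (N N̄) - tr (N Ē M̄) - tr (M N̄ E) + tr (M Ē M̄ E)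
= 2 tr (M M̄ M M̄) + tr (Q Q̄)`.
-/

open scoped ContDiff ComplexConjugate Topology ComplexOrder
open Complex Matrix

namespace Pool.Agent.CYF

variable {n : ℕ} {u : Fin n → E n → ℂ} {z : E n} {w : E n → ℝ} {m : Fin n} {U : Set (E n)}

section matrix

variable {G H : E n → Matrix (Fin n) (Fin n) ℂ}

/-- `D` of a matrix of functions -/
private noncomputable def KkaD (u : Fin n → E n → ℂ) (G : E n → Matrix (Fin n) (Fin n) ℂ)
    (z : E n) : Matrix (Fin n) (Fin n) ℂ := Matrix.of fun k j => Dd u (fun y => G y k j) z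

/-- `D̄` of a matrix of functions -/
private noncomputable def KkaB (u : Fin n → E n → ℂ) (G : E n → Matrix (Fin n) (Fin n) ℂ)
    (z : E n) : Matrix (Fin n) (Fin n) ℂ := Matrix.of fun k j => Db u (fun y => G y k j) z

/-- real differentiability of the entries -/
private def KkaDf (G : E n → Matrix (Fin n) (Fin n) ℂ) (z : E n) : Prop :=
  ∀ k j, DifferentiableAt ℝ (fun y => G y k j) z

private theorem KkaDf_mul (hG : KkaDf G z) (hH : KkaDf H z) : KkaDf (fun y => G y * H y) z := by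
  intro k j
  simp only [Matrix.mul_apply]
  exact DifferentiableAt.fun_sum fun i _ => (hG k i).mul (hH i j)

private theorem KkaDf_cj (hG : KkaDf G z) : KkaDf (fun y => cj (G y)) z := fun k j =>
  conjd (hG k j)

private theorem KkaD_mul (hG : KkaDf G z) (hH : KkaDf H z) :
    KkaD u (fun y => G y * H y) z = KkaD u G z * H z + G z * KkaD u H z := by
  ext k j
  simp only [KkaD, Matrix.of_apply, Matrix.add_apply, Matrix.mul_apply]
  rw [Dd_sum Finset.univ (fun i y => G y k i * H y i j) (fun i _ => (hG k i).mul (hH i j)),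
    ← Finset.sum_add_distrib]
  exact Finset.sum_congr rfl fun i _ => Dd_mul (hG k i) (hH i j)

private theorem KkaB_mul (hG : KkaDf G z) (hH : KkaDf H z) :
    KkaB u (fun y => G y * H y) z = KkaB u G z * H z + G z * KkaB u H z := by
  ext k j
  simp only [KkaB, Matrix.of_apply, Matrix.add_apply, Matrix.mul_apply]
  rw [Db_sum Finset.univ (fun i y => G y k i * H y i j) (fun i _ => (hG k i).mul (hH i j)),
    ← Finset.sum_add_distrib]
  exact Finset.sum_congr rfl fun i _ => Db_mul (hG k i) (hH i j)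

private theorem KkaD_cj (hG : KkaDf G z) : KkaD u (fun y => cj (G y)) z = cj (KkaB u G z) := by
  ext k j
  exact Dd_conj (hG k j)

private theorem KkaB_cj (hG : KkaDf G z) : KkaB u (fun y => cj (G y)) z = cj (KkaD u G z) := by
  ext k j
  exact Db_conj (hG k j)

private theorem KkaD_trace (hG : KkaDf G z) :
    Dd u (fun y => (G y).trace) z = (KkaD u G z).trace := by
  simp only [Matrix.trace, Matrix.diag_apply, KkaD, Matrix.of_apply]
  exact Dd_sum Finset.univ (fun i y => G y i i) (fun i _ => hG i i)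

private theorem KkaB_trace (hG : KkaDf G z) :
    Db u (fun y => (G y).trace) z = (KkaB u G z).trace := by
  simp only [Matrix.trace, Matrix.diag_apply, KkaB, Matrix.of_apply]
  exact Db_sum Finset.univ (fun i y => G y i i) (fun i _ => hG i i)

private theorem KkaDf_trace (hG : KkaDf G z) : DifferentiableAt ℝ (fun y => (G y).trace) z := by
  simp only [Matrix.trace, Matrix.diag_apply]
  exact DifferentiableAt.fun_sum fun i _ => hG i i

private theorem Kka_cj_mul (A B : Matrix (Fin n) (Fin n) ℂ) : cj (A * B) = cj A * cj B :=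
  Matrix.map_mul

private theorem Kka_cj_neg (A : Matrix (Fin n) (Fin n) ℂ) : cj (-A) = -cj A := by
  ext i j; simp

private theorem Kka_cj_add (A B : Matrix (Fin n) (Fin n) ℂ) : cj (A + B) = cj A + cj B := by
  ext i j; simp

private theorem Kka_cj_sub (A B : Matrix (Fin n) (Fin n) ℂ) : cj (A - B) = cj A - cj B := by
  ext i j; simp

private theorem Kka_cj_cj (A : Matrix (Fin n) (Fin n) ℂ) : cj (cj A) = A := by
  ext i j; simp

end matrix

theorem contDiffOn_kk (hU : IsOpen U) (hu : ∀ k, ContDiffOn ℝ ∞ (u k) U) :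
    ContDiffOn ℝ ∞ (kk u) U := by
  unfold kk
  simp only [Matrix.trace, Matrix.diag_apply, Matrix.mul_apply, cj_apply]
  exact ContDiffOn.sum fun i _ => ContDiffOn.sum fun j _ =>
    (contDiffOn_Mx hU hu i j).mul (contDiffOn_conj (contDiffOn_Mx hU hu j i))

theorem kk_real (u : Fin n → E n → ℂ) (z : E n) : conj (kk u z) = kk u z := by
  have h : conj (kk u z) = (cj (Mx u z * cj (Mx u z))).trace := by
    simp only [kk, Matrix.trace, map_sum, Matrix.diag_apply, cj_apply]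
  rw [h, Kka_cj_mul, Kka_cj_cj, Matrix.trace_mul_comm]
  rfl

private theorem KkaDf_M (h : KF w m U u) (hz : z ∈ U) : KkaDf (Mx u) z := fun k j =>
  diffAt_of h.isOpen (contDiffOn_Mx h.isOpen h.su k j) hz

private theorem KkaDf_E (h : KF w m U u) (hz : z ∈ U) : KkaDf (Ex u) z := fun k j =>
  diffAt_of h.isOpen (contDiffOn_Ex h.isOpen h.su k j) hz

private theorem KkaDf_N (h : KF w m U u) (hz : z ∈ U) : KkaDf (Nx u) z := fun k j =>
  diffAt_of h.isOpen (contDiffOn_Dd h.isOpen h.su (contDiffOn_Mx h.isOpen h.su k j)) hz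

private theorem KkaD_cM (h : KF w m U u) (hz : z ∈ U) :
    KkaD u (fun y => cj (Mx u y)) z = -(cj (Mx u z) * Ex u z) := by
  ext k j
  exact h.Dd_cM hz k j

private theorem KkaD_cE (h : KF w m U u) (hz : z ∈ U) :
    KkaD u (fun y => cj (Ex u y)) z = -(cj (Mx u z) * Mx u z) := by
  ext k j
  exact h.Dd_cE hz k j

private theorem KkaB_M (h : KF w m U u) (hz : z ∈ U) :
    KkaB u (Mx u) z = -(Mx u z * cj (Ex u z)) := by
  ext k j
  exact h.Db_M hz k j

private theorem KkaB_cM (h : KF w m U u) (hz : z ∈ U) :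
    KkaB u (fun y => cj (Mx u y)) z = cj (Nx u z) :=
  KkaB_cj (KkaDf_M h hz)

private theorem KkaD_cN (h : KF w m U u) (hz : z ∈ U) :
    KkaD u (fun y => cj (Nx u y)) z
      = -(cj (Nx u z) * Ex u z) + cj (Mx u z) * Mx u z * cj (Mx u z) := by
  have h1 : KkaB u (Nx u) z = -(Nx u z * cj (Ex u z)) + Mx u z * cj (Mx u z) * Mx u z := by
    ext k j
    exact h.Db_N hz k j
  rw [KkaD_cj (KkaDf_N h hz), h1, Kka_cj_add, Kka_cj_neg, Kka_cj_mul, Kka_cj_mul, Kka_cj_mul,
    Kka_cj_cj, Kka_cj_cj]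

theorem KF.Dd_kk (h : KF w m U u) (hz : z ∈ U) :
    Dd u (kk u) z = (cj (Mx u z) * Qx u z).trace := by
  have hM := KkaDf_M h hz
  have h1 : Dd u (kk u) z = (KkaD u (fun y => Mx u y * cj (Mx u y)) z).trace :=
    KkaD_trace (KkaDf_mul hM (KkaDf_cj hM))
  have h2 : KkaD u (Mx u) z = Nx u z := rfl
  rw [h1, KkaD_mul hM (KkaDf_cj hM), KkaD_cM h hz, h2, Qx, Matrix.mul_sub, Matrix.trace_sub,
    Matrix.trace_add, Matrix.mul_neg, Matrix.trace_neg, Matrix.trace_mul_comm (Nx u z),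
    Matrix.trace_mul_comm (Mx u z), Matrix.mul_assoc, sub_eq_add_neg]

theorem KF.Db_kk (h : KF w m U u) (hz : z ∈ U) :
    Db u (kk u) z = (Mx u z * cj (Nx u z)).trace
      - (Mx u z * cj (Ex u z) * cj (Mx u z)).trace := by
  have hM := KkaDf_M h hz
  have h1 : Db u (kk u) z = (KkaB u (fun y => Mx u y * cj (Mx u y)) z).trace :=
    KkaB_trace (KkaDf_mul hM (KkaDf_cj hM))
  rw [h1, KkaB_mul hM (KkaDf_cj hM), KkaB_cM h hz, KkaB_M h hz, Matrix.trace_add,
    Matrix.neg_mul, Matrix.trace_neg]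
  ring

theorem KF.DdDb_kk (h : KF w m U u) (hz : z ∈ U) :
    Dd u (Db u (kk u)) z = 2 * (Mx u z * cj (Mx u z) * (Mx u z * cj (Mx u z))).trace
      + (Qx u z * cj (Qx u z)).trace := by
  have hM := KkaDf_M h hz
  have hE := KkaDf_E h hz
  have hN := KkaDf_N h hz
  have hA := KkaDf_mul hM (KkaDf_cj hN)
  have hB := KkaDf_mul (KkaDf_mul hM (KkaDf_cj hE)) (KkaDf_cj hM)
  have h0 : Db u (kk u) =ᶠ[𝓝 z] fun y => (Mx u y * cj (Nx u y)).trace
      + (-(Mx u y * cj (Ex u y) * cj (Mx u y)).trace) := by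
    filter_upwards [h.isOpen.mem_nhds hz] with y hy
    rw [h.Db_kk hy, sub_eq_add_neg]
  have h2 : KkaD u (Mx u) z = Nx u z := rfl
  have h3 : Dd u (fun y => (Mx u y * cj (Nx u y)).trace
      + (-(Mx u y * cj (Ex u y) * cj (Mx u y)).trace)) z
      = Dd u (fun y => (Mx u y * cj (Nx u y)).trace) z
        + Dd u (fun y => -(Mx u y * cj (Ex u y) * cj (Mx u y)).trace) z :=
    Dd_add (KkaDf_trace hA) (KkaDf_trace hB).neg
  rw [Dd_congr h0, h3, Dd_neg (KkaDf_trace hB), KkaD_trace hA, KkaD_trace hB, KkaD_mul hM (KkaDf_cj hN),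
    KkaD_mul (KkaDf_mul hM (KkaDf_cj hE)) (KkaDf_cj hM), KkaD_mul hM (KkaDf_cj hE),
    KkaD_cN h hz, KkaD_cM h hz, KkaD_cE h hz, h2]
  have e1 : (Ex u z * Mx u z * cj (Nx u z)).trace = (Mx u z * (cj (Nx u z) * Ex u z)).trace := by
    rw [Matrix.mul_assoc, Matrix.trace_mul_comm, Matrix.mul_assoc]
  have e2 : (Ex u z * Mx u z * (cj (Ex u z) * cj (Mx u z))).trace
      = (Mx u z * cj (Ex u z) * (cj (Mx u z) * Ex u z)).trace := by
    rw [Matrix.mul_assoc, Matrix.trace_mul_comm]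
    simp only [Matrix.mul_assoc]
  have e3 : (Qx u z * cj (Qx u z)).trace = (Nx u z * cj (Nx u z)).trace
      - (Nx u z * (cj (Ex u z) * cj (Mx u z))).trace
      - (Mx u z * (cj (Nx u z) * Ex u z)).trace
      + (Mx u z * cj (Ex u z) * (cj (Mx u z) * Ex u z)).trace := by
    rw [← e1, ← e2, Qx, Kka_cj_sub, Kka_cj_mul, Matrix.sub_mul, Matrix.mul_sub, Matrix.mul_sub,
      Matrix.trace_sub, Matrix.trace_sub, Matrix.trace_sub]
    ring
  rw [e3]
  simp only [Matrix.mul_add, Matrix.add_mul, Matrix.mul_neg, Matrix.neg_mul, Matrix.trace_add,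
    Matrix.trace_neg, Matrix.mul_assoc]
  ring

end Pool.Agent.CYF
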