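import Pool.Agent.CYF.Loc

/-!
Positivity of `⟨X, Y⟩ = tr (X Ȳ)` on the matrices `X` with `Adm F m u X`.

PROOF. Adding `1` to the diagonal entry `(m, m)` of `F` gives a positive definite matrix `A`, and
`Xᵀ A` is still symmetric because row `m` of `X` is zero. Write `A = Gᵀ Ḡ` with `G` invertible.
Then `Y_X := G X Ḡ⁻¹` is symmetric and `tr (X conj Z) = tr (Y_X conj Y_Z) = ∑ (Y_X)_ij conj (Y_Z)_ij`.
-/

set_option linter.unusedSectionVars false

open scoped ContDiff ComplexConjugate Topology ComplexOrder MatrixOrder Matrix.Norms.L2Operator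
open Complex Matrix

namespace Pool.Agent.CYF

section core

variable {n : Type*} [Fintype n] [DecidableEq n]

/-- entrywise conjugate -/
noncomputable def posC (X : Matrix n n ℂ) : Matrix n n ℂ := X.map (starRingEnd ℂ)

omit [Fintype n] [DecidableEq n] in
theorem posC_posC (X : Matrix n n ℂ) : posC (posC X) = X := by
  ext i j
  simp [posC]

omit [DecidableEq n] in
theorem posC_mul (X Y : Matrix n n ℂ) : posC (X * Y) = posC X * posC Y := by
  unfold posC
  exact Matrix.map_mul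

theorem posC_one : posC (1 : Matrix n n ℂ) = 1 := by
  unfold posC
  exact Matrix.map_one _ (map_zero _) (map_one _)

theorem pos_factor {A : Matrix n n ℂ} (hA : A.PosDef) :
    ∃ G K : Matrix n n ℂ, G * K = 1 ∧ K * G = 1 ∧ A = Gᵀ * posC G := by
  obtain ⟨B, hB⟩ := CStarAlgebra.nonneg_iff_eq_star_mul_self.mp hA.posSemidef.nonneg
  rw [star_eq_conjTranspose] at hB
  have hdet : A.det ≠ 0 := hA.det_pos.ne'
  have h1 : B.det ≠ 0 := by
    intro h
    rw [hB, det_mul, h, mul_zero] at hdet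
    exact hdet rfl
  have h2 : IsUnit B.det := isUnit_iff_ne_zero.2 h1
  refine ⟨posC B, posC B⁻¹, ?_, ?_, ?_⟩
  · rw [← posC_mul, mul_nonsing_inv _ h2, posC_one]
  · rw [← posC_mul, nonsing_inv_mul _ h2, posC_one]
  · rw [posC_posC, hB]
    rfl

/-- the conjugated matrix -/
noncomputable def posG (G K X : Matrix n n ℂ) : Matrix n n ℂ := G * X * posC K

theorem pos_conjg_symm {A G K X : Matrix n n ℂ} (hGK : G * K = 1) (hA : A = Gᵀ * posC G)
    (hX : (Xᵀ * A).IsSymm) : (posG G K X)ᵀ = posG G K X := by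
  have h1 : posC G * posC K = 1 := by rw [← posC_mul, hGK, posC_one]
  have h2 : (posC K)ᵀ * (posC G)ᵀ = 1 := by rw [← transpose_mul, h1, transpose_one]
  have h3 : (G * X)ᵀ * posC G = (posC G)ᵀ * (G * X) := by
    have h4 : (Xᵀ * A)ᵀ = Xᵀ * A := hX
    rw [hA, transpose_mul, transpose_mul, transpose_transpose, transpose_transpose] at h4
    rw [transpose_mul, Matrix.mul_assoc, ← h4, Matrix.mul_assoc]
  unfold posG
  calc (G * X * posC K)ᵀ = (posC K)ᵀ * (G * X)ᵀ := by rw [transpose_mul]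
    _ = (posC K)ᵀ * ((G * X)ᵀ * posC G) * posC K := by
        rw [Matrix.mul_assoc, Matrix.mul_assoc, h1, Matrix.mul_one]
    _ = ((posC K)ᵀ * (posC G)ᵀ) * (G * X) * posC K := by
        rw [h3]; simp only [Matrix.mul_assoc]
    _ = G * X * posC K := by rw [h2, Matrix.one_mul]

theorem pos_conjg_mul_cj {G K X Y : Matrix n n ℂ} (hKG : K * G = 1) :
    posG G K X * posC (posG G K Y) = G * (X * posC Y) * K := by
  have h1 : posC K * posC G = 1 := by rw [← posC_mul, hKG, posC_one]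
  unfold posG
  rw [posC_mul, posC_mul, posC_posC]
  calc G * X * posC K * (posC G * posC Y * K) = G * X * (posC K * posC G) * (posC Y * K) := by
        simp only [Matrix.mul_assoc]
    _ = G * (X * posC Y) * K := by rw [h1]; simp only [Matrix.mul_assoc, Matrix.mul_one]

theorem pos_trace_conjg {G K X Y : Matrix n n ℂ} (hKG : K * G = 1) :
    trace (posG G K X * posC (posG G K Y)) = trace (X * posC Y) := by
  rw [pos_conjg_mul_cj hKG, Matrix.mul_assoc, trace_mul_comm, Matrix.mul_assoc, hKG, Matrix.mul_one]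

theorem pos_trace_cj_symm {Z W : Matrix n n ℂ} (hW : Wᵀ = W) :
    trace (Z * posC W) = ∑ i, ∑ j, Z i j * conj (W i j) := by
  unfold trace
  refine Finset.sum_congr rfl fun i _ => ?_
  rw [diag_apply, mul_apply]
  refine Finset.sum_congr rfl fun j _ => ?_
  have h : W j i = W i j := by conv_lhs => rw [← hW, transpose_apply]
  simp [posC, h]

theorem pos_trace_self {Z : Matrix n n ℂ} (hZ : Zᵀ = Z) :
    trace (Z * posC Z) = ((∑ i, ∑ j, Complex.normSq (Z i j) : ℝ) : ℂ) := by
  rw [pos_trace_cj_symm hZ]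
  push_cast
  refine Finset.sum_congr rfl fun i _ => Finset.sum_congr rfl fun j _ => ?_
  rw [Complex.mul_conj]

section pd

variable {A X Y : Matrix n n ℂ}

theorem pos_pd_im (hA : A.PosDef) (hX : (Xᵀ * A).IsSymm) : (trace (X * posC X)).im = 0 := by
  obtain ⟨G, K, h1, h2, h3⟩ := pos_factor hA
  rw [← pos_trace_conjg h2, pos_trace_self (pos_conjg_symm h1 h3 hX)]
  exact Complex.ofReal_im _

theorem pos_pd_nonneg (hA : A.PosDef) (hX : (Xᵀ * A).IsSymm) : 0 ≤ (trace (X * posC X)).re := by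
  obtain ⟨G, K, h1, h2, h3⟩ := pos_factor hA
  rw [← pos_trace_conjg h2, pos_trace_self (pos_conjg_symm h1 h3 hX), Complex.ofReal_re]
  exact Finset.sum_nonneg fun i _ => Finset.sum_nonneg fun j _ => Complex.normSq_nonneg _

theorem pos_pd_zero (hA : A.PosDef) (hX : (Xᵀ * A).IsSymm) (h0 : (trace (X * posC X)).re = 0) :
    X = 0 := by
  obtain ⟨G, K, h1, h2, h3⟩ := pos_factor hA
  rw [← pos_trace_conjg h2, pos_trace_self (pos_conjg_symm h1 h3 hX), Complex.ofReal_re] at h0
  have h4 : posG G K X = 0 := by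
    ext i j
    have h5 := (Finset.sum_eq_zero_iff_of_nonneg fun i _ =>
      Finset.sum_nonneg fun j _ => Complex.normSq_nonneg _).1 h0 i (Finset.mem_univ i)
    have h6 := (Finset.sum_eq_zero_iff_of_nonneg fun j _ =>
      Complex.normSq_nonneg _).1 h5 j (Finset.mem_univ j)
    exact Complex.normSq_eq_zero.1 h6
  have h5 : K * posG G K X * posC G = X := by
    have h6 : posC K * posC G = 1 := by rw [← posC_mul, h2, posC_one]
    unfold posG
    calc K * (G * X * posC K) * posC G = (K * G) * X * (posC K * posC G) := by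
          simp only [Matrix.mul_assoc]
      _ = X := by rw [h2, h6, Matrix.one_mul, Matrix.mul_one]
  rw [← h5, h4, Matrix.mul_zero, Matrix.zero_mul]

theorem pos_pd_cs (hA : A.PosDef) (hX : (Xᵀ * A).IsSymm) (hY : (Yᵀ * A).IsSymm) :
    Complex.normSq (trace (X * posC Y)) ≤ (trace (X * posC X)).re * (trace (Y * posC Y)).re := by
  obtain ⟨G, K, h1, h2, h3⟩ := pos_factor hA
  have hZ := pos_conjg_symm h1 h3 hX
  have hW := pos_conjg_symm h1 h3 hY
  rw [← pos_trace_conjg h2, ← pos_trace_conjg (X := X) (Y := X) h2, ← pos_trace_conjg (X := Y) (Y := Y) h2,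
    pos_trace_self hZ, pos_trace_self hW, pos_trace_cj_symm hW, Complex.ofReal_re, Complex.ofReal_re]
  set Z := posG G K X
  set W := posG G K Y
  have e1 : ∑ i, ∑ j, Z i j * conj (W i j) = ∑ p : n × n, Z p.1 p.2 * conj (W p.1 p.2) :=
    (Fintype.sum_prod_type (fun p : n × n => Z p.1 p.2 * conj (W p.1 p.2))).symm
  have e2 : ∀ V : Matrix n n ℂ, ∑ i, ∑ j, Complex.normSq (V i j)
      = ∑ p : n × n, ‖V p.1 p.2‖ ^ 2 := by
    intro V
    rw [Fintype.sum_prod_type (fun p : n × n => ‖V p.1 p.2‖ ^ 2)]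
    refine Finset.sum_congr rfl fun i _ => Finset.sum_congr rfl fun j _ => ?_
    rw [Complex.normSq_eq_norm_sq]
  rw [e1, e2, e2, Complex.normSq_eq_norm_sq]
  have e3 : ‖∑ p : n × n, Z p.1 p.2 * conj (W p.1 p.2)‖
      ≤ ∑ p : n × n, ‖Z p.1 p.2‖ * ‖W p.1 p.2‖ := by
    refine (norm_sum_le _ _).trans (le_of_eq ?_)
    refine Finset.sum_congr rfl fun p _ => ?_
    rw [norm_mul, Complex.norm_conj]
  calc ‖∑ p : n × n, Z p.1 p.2 * conj (W p.1 p.2)‖ ^ 2
      ≤ (∑ p : n × n, ‖Z p.1 p.2‖ * ‖W p.1 p.2‖) ^ 2 := by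
        exact pow_le_pow_left₀ (norm_nonneg _) e3 2
    _ ≤ (∑ p : n × n, ‖Z p.1 p.2‖ ^ 2) * ∑ p : n × n, ‖W p.1 p.2‖ ^ 2 :=
        Finset.sum_mul_sq_le_sq_mul_sq _ _ _

theorem pos_pd_quart (hA : A.PosDef) (hX : (Xᵀ * A).IsSymm) :
    0 ≤ (trace (X * posC X * (X * posC X))).re := by
  obtain ⟨G, K, h1, h2, h3⟩ := pos_factor hA
  have hZ := pos_conjg_symm h1 h3 hX
  have e1 := pos_conjg_mul_cj (X := X) (Y := X) h2
  set Z := posG G K X with hZd
  have e2 : trace (X * posC X * (X * posC X)) = trace (Z * posC Z * (Z * posC Z)) := by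
    rw [e1]
    have e3 : G * (X * posC X) * K * (G * (X * posC X) * K) = G * ((X * posC X) * (X * posC X)) * K := by
      calc G * (X * posC X) * K * (G * (X * posC X) * K)
          = G * (X * posC X) * (K * G) * ((X * posC X) * K) := by simp only [Matrix.mul_assoc]
        _ = G * ((X * posC X) * (X * posC X)) * K := by
            rw [h2]; simp only [Matrix.mul_assoc, Matrix.mul_one]
    rw [e3, Matrix.mul_assoc G _ K, trace_mul_comm G, Matrix.mul_assoc _ K G, h2, Matrix.mul_one]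
  have e4 : posC Z = Zᴴ := by
    have : Zᴴ = posC Zᵀ := rfl
    rw [this, hZ]
  have e5 : (Z * posC Z)ᴴ = Z * posC Z := by
    rw [e4, conjTranspose_mul, conjTranspose_conjTranspose]
  have e6 : trace (Z * posC Z * (Z * posC Z)) = trace (Z * posC Z * (Z * posC Z)ᴴ) := by rw [e5]
  rw [e2, e6]
  set P := Z * posC Z
  have e7 : trace (P * Pᴴ) = ((∑ i, ∑ j, Complex.normSq (P i j) : ℝ) : ℂ) := by
    unfold trace
    push_cast
    refine Finset.sum_congr rfl fun i _ => ?_
    rw [diag_apply, mul_apply]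
    refine Finset.sum_congr rfl fun j _ => ?_
    rw [conjTranspose_apply, Complex.star_def, Complex.mul_conj]
  rw [e7, Complex.ofReal_re]
  exact Finset.sum_nonneg fun i _ => Finset.sum_nonneg fun j _ => Complex.normSq_nonneg _

end pd

/-- adding the diagonal entry `m` makes the form definite -/
theorem pos_posDef_add {F : Matrix n n ℂ} (hF : F.PosSemidef) (m : n)
    (h : ∀ a : n → ℂ, a m = 0 → a ᵥ* F = 0 → a = 0) : (F + Matrix.single m m 1).PosDef := by
  refine Matrix.PosDef.of_dotProduct_mulVec_pos ?_ ?_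
  · have h1 : (Matrix.single m m (1 : ℂ))ᴴ = Matrix.single m m 1 := by
      rw [conjTranspose_single, star_one]
    show (F + Matrix.single m m 1)ᴴ = F + Matrix.single m m 1
    rw [conjTranspose_add, h1, hF.isHermitian.eq]
  · intro x hx
    have h1 : star x ⬝ᵥ ((F + Matrix.single m m 1) *ᵥ x)
        = star x ⬝ᵥ (F *ᵥ x) + ((Complex.normSq (x m) : ℝ) : ℂ) := by
      rw [add_mulVec, dotProduct_add]
      congr 1
      have h2 : Matrix.single m m (1 : ℂ) *ᵥ x = Pi.single m (x m) := by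
        ext i
        rw [single_mulVec]
        by_cases hi : i = m
        · subst hi; simp
        · simp [hi]
      rw [h2, dotProduct_single, Pi.star_apply, Complex.star_def, Complex.normSq_eq_conj_mul_self]
    have h3 : 0 ≤ star x ⬝ᵥ (F *ᵥ x) := hF.dotProduct_mulVec_nonneg x
    have h4 : (0 : ℂ) ≤ ((Complex.normSq (x m) : ℝ) : ℂ) := by
      exact_mod_cast Complex.normSq_nonneg _
    rw [h1]
    refine lt_of_le_of_ne (add_nonneg h3 h4) fun h5 => hx ?_
    have h6 := (add_eq_zero_iff_of_nonneg h3 h4).1 h5.symm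
    have h7 : x m = 0 := by
      have : Complex.normSq (x m) = 0 := by exact_mod_cast h6.2
      exact Complex.normSq_eq_zero.1 this
    have h8 : F *ᵥ x = 0 := (hF.dotProduct_mulVec_zero_iff x).1 h6.1
    have h9 : star x ᵥ* F = 0 := by
      have : star (F *ᵥ x) = star x ᵥ* Fᴴ := star_mulVec F x
      rw [hF.isHermitian.eq, h8, star_zero] at this
      exact this.symm
    have h10 := h (star x) (by simp [h7]) h9
    exact star_eq_zero.1 h10

theorem pos_symm_add {F X : Matrix n n ℂ} {m : n} (hX : (Xᵀ * F).IsSymm) (h0 : ∀ j, X m j = 0) :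
    (Xᵀ * (F + Matrix.single m m 1)).IsSymm := by
  have h1 : Xᵀ * Matrix.single m m (1 : ℂ) = 0 := by
    ext i j
    rw [mul_apply]
    simp only [Matrix.zero_apply]
    refine Finset.sum_eq_zero fun k _ => ?_
    rw [transpose_apply, Matrix.single_apply]
    split_ifs with h
    · rw [← h.1, h0, zero_mul]
    · rw [mul_zero]
  rw [Matrix.mul_add, h1, add_zero]
  exact hX

end core

variable {n : ℕ} {F : Matrix (Fin n) (Fin n) ℂ} {m : Fin n} {u : Fin n → ℂ}

theorem pos_pd (hF : F.PosSemidef)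
    (huniq : ∀ a : Fin n → ℂ, a m = 0 → (∀ l, ∑ k, a k * F k l = 0) → a = 0) :
    (F + Matrix.single m m 1).PosDef := by
  refine pos_posDef_add hF m fun a h0 h1 => huniq a h0 fun l => ?_
  have h2 := congrFun h1 l
  simpa [vecMul, dotProduct] using h2

theorem pos_symm {X : Matrix (Fin n) (Fin n) ℂ} (hX : Adm F m u X) :
    (Xᵀ * (F + Matrix.single m m 1)).IsSymm := by
  refine pos_symm_add ?_ hX.row
  ext i j
  rw [transpose_apply, mul_apply, mul_apply]
  simp only [transpose_apply]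
  exact hX.symm j i

theorem pos_im (hF : F.PosSemidef) (hu : u m = 1) (hk : ∀ l, ∑ k, u k * F k l = 0)
    (huniq : ∀ a : Fin n → ℂ, a m = 0 → (∀ l, ∑ k, a k * F k l = 0) → a = 0)
    {X : Matrix (Fin n) (Fin n) ℂ} (hX : Adm F m u X) :
    (X * cj X).trace.im = 0 ∧ 0 ≤ (X * cj X).trace.re :=
  ⟨pos_pd_im (pos_pd hF huniq) (pos_symm hX), pos_pd_nonneg (pos_pd hF huniq) (pos_symm hX)⟩

theorem pos_cs (hF : F.PosSemidef) (hu : u m = 1) (hk : ∀ l, ∑ k, u k * F k l = 0)
    (huniq : ∀ a : Fin n → ℂ, a m = 0 → (∀ l, ∑ k, a k * F k l = 0) → a = 0)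
    {X Y : Matrix (Fin n) (Fin n) ℂ} (hX : Adm F m u X) (hY : Adm F m u Y) :
    ‖(cj X * Y).trace‖ ^ 2 ≤ (X * cj X).trace.re * (Y * cj Y).trace.re := by
  have h1 := pos_pd_cs (pos_pd hF huniq) (pos_symm hY) (pos_symm hX)
  have h2 : (cj X * Y).trace = (Y * posC X).trace := trace_mul_comm _ _
  rw [h2, ← Complex.normSq_eq_norm_sq, mul_comm]
  exact h1

theorem pos_sq (hF : F.PosSemidef) (hu : u m = 1) (hk : ∀ l, ∑ k, u k * F k l = 0)
    (huniq : ∀ a : Fin n → ℂ, a m = 0 → (∀ l, ∑ k, a k * F k l = 0) → a = 0)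
    {X : Matrix (Fin n) (Fin n) ℂ} (hX : Adm F m u X) :
    0 ≤ (X * cj X * (X * cj X)).trace.re :=
  pos_pd_quart (pos_pd hF huniq) (pos_symm hX)

theorem pos_zero (hF : F.PosSemidef) (hu : u m = 1) (hk : ∀ l, ∑ k, u k * F k l = 0)
    (huniq : ∀ a : Fin n → ℂ, a m = 0 → (∀ l, ∑ k, a k * F k l = 0) → a = 0)
    {X : Matrix (Fin n) (Fin n) ℂ} (hX : Adm F m u X) (h0 : (X * cj X).trace.re = 0) : X = 0 :=
  pos_pd_zero (pos_pd hF huniq) (pos_symm hX) h0

end Pool.Agent.CYF
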