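import Pool.Agent.CYF.Kfd
import Pool.Agent.CYF.LpxMax
import Pool.Agent.CYF.Kka
import Pool.Agent.CYF.Pos

/-!
`lp (log ρ) = K ≥ 0` and `lp (log K) ≥ K` where `K > 0`.

PROOF. Work on `V = Um w m U` with the kernel field `u` (`kf_of`). `ρ` is real and positive there
(`adj_diag_real`). `cx (log ρ.re)` has `D = (D ρ)/ρ = - tr E` (`Dd_rho`), so
`D̄ D log ρ = - tr (D̄ E) = tr (M M̄) = k` (`KF.Db_E`), `lp (log ρ) = ρ (D̄ D log ρ).re = K` (`lp_eq_D`, `KF.Db_Dd`).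
`K ≥ 0` by `pos_im`. If `K z > 0`: `K = ρ k`, `k` real (`kk_real`) and positive near `z`,
`lp (log K) = lp (log ρ) + lp (log k)`, `lp (log k) = ρ (D D̄ k / k - |D k|² / k²)`,
`D D̄ k = 2 tr (M M̄ M M̄) + tr (Q Q̄) ≥ tr (Q Q̄)` (`pos_sq`), `|D k|² ≤ k tr (Q Q̄)` (`pos_cs`, `KF.Dd_kk`):
`lp (log k) ≥ 0`.
-/

open scoped ContDiff ComplexConjugate Topology ComplexOrder
open Complex Matrix

namespace Pool.Agent.CYF

variable {n : ℕ} {z : E n} {w : E n → ℝ} {U : Set (E n)}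

theorem Lgk_fderiv_log {r : E n → ℝ} (hr : DifferentiableAt ℝ r z) (h0 : 0 < r z) (a : E n) :
    fderiv ℝ (cx (fun y => Real.log (r y))) z a = (cx r z)⁻¹ * fderiv ℝ (cx r) z a := by
  have h1 : HasFDerivAt (fun y => Real.log (r y)) ((r z)⁻¹ • fderiv ℝ r z) z :=
    hr.hasFDerivAt.log h0.ne'
  have h2 : HasFDerivAt (cx (fun y => Real.log (r y)))
      (Complex.ofRealCLM.comp ((r z)⁻¹ • fderiv ℝ r z)) z :=
    Complex.ofRealCLM.hasFDerivAt.comp z h1
  have h3 : HasFDerivAt (cx r) (Complex.ofRealCLM.comp (fderiv ℝ r z)) z :=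
    Complex.ofRealCLM.hasFDerivAt.comp z hr.hasFDerivAt
  rw [h2.fderiv, h3.fderiv]
  simp [cx]

theorem Lgk_Dd_log {u : Fin n → E n → ℂ} {r : E n → ℝ} (hr : DifferentiableAt ℝ r z)
    (h0 : 0 < r z) :
    Dd u (cx (fun y => Real.log (r y))) z = (cx r z)⁻¹ * Dd u (cx r) z := by
  rw [Dd_eq, Dd_eq, d10, d10, Lgk_fderiv_log hr h0, Lgk_fderiv_log hr h0]
  ring

theorem Lgk_Db_log {u : Fin n → E n → ℂ} {r : E n → ℝ} (hr : DifferentiableAt ℝ r z)
    (h0 : 0 < r z) :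
    Db u (cx (fun y => Real.log (r y))) z = (cx r z)⁻¹ * Db u (cx r) z := by
  rw [Db_eq, Db_eq, d01, d01, Lgk_fderiv_log hr h0, Lgk_fderiv_log hr h0]
  ring

theorem Lgk_rho (hp : ∀ z ∈ U, (lm w z).PosSemidef) {m : Fin n} {y : E n}
    (hy : y ∈ Um w m U) : (rho w m y).im = 0 ∧ 0 < (rho w m y).re := by
  obtain ⟨h1, h2⟩ := adj_diag_real (hp y hy.1) m
  have h3 : (rho w m y).im = 0 := h1
  have h4 : 0 ≤ (rho w m y).re := h2
  refine ⟨h3, lt_of_le_of_ne h4 ?_⟩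
  intro h
  exact hy.2 (Complex.ext h.symm h3)

theorem Lgk_cx_rho (hp : ∀ z ∈ U, (lm w z).PosSemidef) {m : Fin n} {y : E n}
    (hy : y ∈ Um w m U) : cx (fun y => (rho w m y).re) y = rho w m y := by
  apply Complex.ext
  · simp [cx]
  · simp [cx, (Lgk_rho hp hy).1]

theorem contDiffOn_rho_re (hU : IsOpen U) (hw : ContDiffOn ℝ ∞ w U) (m : Fin n) :
    ContDiffOn ℝ ∞ (fun y => (rho w m y).re) U :=
  Complex.reCLM.contDiff.comp_contDiffOn (contDiffOn_ad hU hw m m)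

theorem contDiffOn_Kf (hU : IsOpen U) (hw : ContDiffOn ℝ ∞ w U)
    (hp : ∀ z ∈ U, (lm w z).PosSemidef) (hd : ∀ z ∈ U, (lm w z).det = 0) (m : Fin n) :
    ContDiffOn ℝ ∞ (Kf w m) (Um w m U) := by
  have h := kf_of hU hw hp hd m
  have h1 : ContDiffOn ℝ ∞ (rho w m) (Um w m U) :=
    (contDiffOn_ad hU hw m m).mono (fun y hy => hy.1)
  have h2 : ContDiffOn ℝ ∞ (kk (fun k => uu w m k)) (Um w m U) := contDiffOn_kk h.isOpen h.su
  exact Complex.reCLM.contDiff.comp_contDiffOn (h1.mul h2)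

theorem Lgk_diffAt_real {V : Set (E n)} (hV : IsOpen V) {g : E n → ℝ} (hg : ContDiffOn ℝ ∞ g V)
    {y : E n} (hy : y ∈ V) : DifferentiableAt ℝ g y :=
  (hg.contDiffAt (hV.mem_nhds hy)).differentiableAt (by simp)

theorem Lgk_kk {m : Fin n} {u : Fin n → E n → ℂ} (h : KF w m U u) (hz : z ∈ U) :
    (kk u z).im = 0 ∧ 0 ≤ (kk u z).re :=
  pos_im (h.psd z hz) (h.one z hz) (h.ker z hz) (h.uniq z hz) (h.adm_M hz)

theorem Lgk_Kf (hU : IsOpen U) (hw : ContDiffOn ℝ ∞ w U)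
    (hp : ∀ z ∈ U, (lm w z).PosSemidef) (hd : ∀ z ∈ U, (lm w z).det = 0) {m : Fin n}
    (hz : z ∈ Um w m U) :
    Kf w m z = (rho w m z).re * (kk (fun k => uu w m k) z).re := by
  have h := kf_of hU hw hp hd m
  unfold Kf
  rw [Complex.mul_re, (Lgk_rho hp hz).1, zero_mul, sub_zero]

theorem Kf_nonneg (hU : IsOpen U) (hw : ContDiffOn ℝ ∞ w U)
    (hp : ∀ z ∈ U, (lm w z).PosSemidef) (hd : ∀ z ∈ U, (lm w z).det = 0) {m : Fin n}
    (hz : z ∈ Um w m U) : 0 ≤ Kf w m z := by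
  have h := kf_of hU hw hp hd m
  rw [Lgk_Kf hU hw hp hd hz]
  exact mul_nonneg (Lgk_rho hp hz).2.le (Lgk_kk h hz).2

theorem Lgk_lp (hU : IsOpen U) (hw : ContDiffOn ℝ ∞ w U)
    (hp : ∀ z ∈ U, (lm w z).PosSemidef) (hd : ∀ z ∈ U, (lm w z).det = 0) {m : Fin n}
    (hz : z ∈ Um w m U) {V : Set (E n)} (hV : IsOpen V) (hVU : V ⊆ Um w m U) (hzV : z ∈ V)
    {g : E n → ℝ} (hg : ContDiffOn ℝ ∞ g V) :
    lp w g z = (rho w m z).re * (Db (fun k => uu w m k) (Dd (fun k => uu w m k) (cx g)) z).re ∧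
    lp w g z = (rho w m z).re * (Dd (fun k => uu w m k) (Db (fun k => uu w m k) (cx g)) z).re := by
  have h := kf_of hU hw hp hd m
  have hK : KF w m V (fun k => uu w m k) :=
    ⟨hV, h.sw.mono hVU, fun k => (h.su k).mono hVU, fun y hy => h.one y (hVU hy),
      fun y hy => h.ker y (hVU hy), fun y hy => h.uniq y (hVU hy), fun y hy => h.psd y (hVU hy)⟩
  have h1 := hK.Db_Dd (contDiffOn_cx hg) hzV
  have h2 := hK.Dd_Db (contDiffOn_cx hg) hzV
  have h3 := lp_eq_D (g := g) (hp z hz.1) (hd z hz.1) hz.2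
  have h4 : (∑ k, ∑ l, uu w m k z * conj (uu w m l z) * LM g z k l)
      = ∑ k, ∑ l, uu w m k z * conj (uu w m l z) * pk k (pb l (cx g)) z := rfl
  rw [h4] at h3
  constructor
  · rw [h3, h1, Complex.mul_re, (Lgk_rho hp hz).1, zero_mul, sub_zero]
  · rw [h3, h2, Complex.mul_re, (Lgk_rho hp hz).1, zero_mul, sub_zero]

theorem lp_log_rho (hU : IsOpen U) (hw : ContDiffOn ℝ ∞ w U)
    (hp : ∀ z ∈ U, (lm w z).PosSemidef) (hd : ∀ z ∈ U, (lm w z).det = 0) {m : Fin n}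
    (hz : z ∈ Um w m U) : lp w (fun y => Real.log (rho w m y).re) z = Kf w m z := by
  have h := kf_of hU hw hp hd m
  set u : Fin n → E n → ℂ := fun k => uu w m k with hu
  have hr : ContDiffOn ℝ ∞ (fun y => (rho w m y).re) (Um w m U) :=
    (contDiffOn_rho_re hU hw m).mono (fun y hy => hy.1)
  have hlog : ContDiffOn ℝ ∞ (fun y => Real.log (rho w m y).re) (Um w m U) :=
    hr.log (fun y hy => (Lgk_rho hp hy).2.ne')
  rw [(Lgk_lp hU hw hp hd hz h.isOpen subset_rfl hz hlog).1, Lgk_Kf hU hw hp hd hz]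
  congr 2
  have hcg : ∀ y ∈ Um w m U, Dd u (cx (fun y => Real.log (rho w m y).re)) y
      = -∑ k, Ex u y k k := by
    intro y hy
    have hN : Um w m U ∈ 𝓝 y := h.isOpen.mem_nhds hy
    rw [Lgk_Dd_log (Lgk_diffAt_real h.isOpen hr hy) (Lgk_rho hp hy).2]
    have e1 : Dd u (cx fun y => (rho w m y).re) y = Dd u (rho w m) y := by
      apply Dd_congr
      filter_upwards [hN] with x hx
      exact Lgk_cx_rho hp hx
    rw [e1, Lgk_cx_rho hp hy, Dd_rho hU hw hp hd hy]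
    have h2 := hy.2
    have e2 : (Ex u y).trace = ∑ k, Ex u y k k := rfl
    rw [← hu, e2]
    field_simp
  have hN : Um w m U ∈ 𝓝 z := h.isOpen.mem_nhds hz
  have e3 : Db u (Dd u (cx (fun y => Real.log (rho w m y).re))) z
      = Db u (fun y => -∑ k, Ex u y k k) z := by
    apply Db_congr
    filter_upwards [hN] with x hx
    exact hcg x hx
  have sE : ∀ k : Fin n, DifferentiableAt ℝ (fun y => Ex u y k k) z := fun k =>
    diffAt_of h.isOpen (contDiffOn_Ex h.isOpen h.su k k) hz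
  rw [e3, Db_neg (by
    have : DifferentiableAt ℝ (fun y => ∑ k : Fin n, Ex u y k k) z :=
      DifferentiableAt.fun_sum (fun k _ => sE k)
    exact this), Db_sum _ _ (fun k _ => sE k)]
  rw [show kk u z = ∑ k, (Mx u z * cj (Mx u z)) k k from rfl, ← Finset.sum_neg_distrib]
  apply Finset.sum_congr rfl
  intro k _
  rw [h.Db_E hz, neg_neg]

theorem lp_log_Kf (hU : IsOpen U) (hw : ContDiffOn ℝ ∞ w U)
    (hp : ∀ z ∈ U, (lm w z).PosSemidef) (hd : ∀ z ∈ U, (lm w z).det = 0) {m : Fin n}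
    (hz : z ∈ Um w m U) (hK : 0 < Kf w m z) :
    Kf w m z ≤ lp w (fun y => Real.log (Kf w m y)) z := by
  have h := kf_of hU hw hp hd m
  set u : Fin n → E n → ℂ := fun k => uu w m k with hu
  have hkk : ContDiffOn ℝ ∞ (kk u) (Um w m U) := contDiffOn_kk h.isOpen h.su
  have hkr : ContDiffOn ℝ ∞ (fun y => (kk u y).re) (Um w m U) :=
    Complex.reCLM.contDiff.comp_contDiffOn hkk
  have hkz : 0 < (kk u z).re := by
    rw [Lgk_Kf hU hw hp hd hz] at hK
    exact (pos_iff_pos_of_mul_pos hK).1 (Lgk_rho hp hz).2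
  set V : Set (E n) := Um w m U ∩ (fun y => (kk u y).re) ⁻¹' Set.Ioi 0 with hVd
  have hV : IsOpen V := hkr.continuousOn.isOpen_inter_preimage h.isOpen isOpen_Ioi
  have hzV : z ∈ V := ⟨hz, hkz⟩
  have hVU : V ⊆ Um w m U := Set.inter_subset_left
  have hr : ContDiffOn ℝ ∞ (fun y => (rho w m y).re) V :=
    (contDiffOn_rho_re hU hw m).mono (fun y hy => hy.1.1)
  have sA : ContDiffOn ℝ ∞ (fun y => Real.log (rho w m y).re) V :=
    hr.log (fun y hy => (Lgk_rho hp (hVU hy)).2.ne')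
  have sB : ContDiffOn ℝ ∞ (fun y => Real.log (kk u y).re) V :=
    (hkr.mono hVU).log (fun y hy => (ne_of_gt hy.2))
  have hN : V ∈ 𝓝 z := hV.mem_nhds hzV
  have e1 : (fun y => Real.log (Kf w m y)) =ᶠ[𝓝 z]
      fun y => Real.log (rho w m y).re + Real.log (kk u y).re := by
    filter_upwards [hN] with y hy
    rw [Lgk_Kf hU hw hp hd (hVU hy), Real.log_mul (Lgk_rho hp (hVU hy)).2.ne' (ne_of_gt hy.2)]
  rw [lp_congr e1, lp_add (sA.contDiffAt hN) (sB.contDiffAt hN), lp_log_rho hU hw hp hd hz]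
  have key : 0 ≤ lp w (fun y => Real.log (kk u y).re) z := by
    rw [(Lgk_lp hU hw hp hd hz hV hVU hzV sB).2, ← hu]
    apply mul_nonneg (Lgk_rho hp hz).2.le
    have hcxk : ∀ y ∈ Um w m U, cx (fun y => (kk u y).re) y = kk u y := by
      intro y hy
      apply Complex.ext
      · simp [cx]
      · rw [(Lgk_kk h hy).1]; simp [cx]
    have hcg : ∀ y ∈ V, Db u (cx (fun y => Real.log (kk u y).re)) y
        = (kk u y)⁻¹ * Db u (kk u) y := by
      intro y hy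
      have hNy : V ∈ 𝓝 y := hV.mem_nhds hy
      rw [Lgk_Db_log (Lgk_diffAt_real hV (hkr.mono hVU) hy) hy.2, hcxk y (hVU hy)]
      congr 1
      apply Db_congr
      filter_upwards [hNy] with x hx
      exact hcxk x (hVU hx)
    have hkne : kk u z ≠ 0 := by
      intro h0
      rw [h0] at hkz
      simp at hkz
    have dk : DifferentiableAt ℝ (kk u) z := diffAt_of h.isOpen hkk hz
    have dki : DifferentiableAt ℝ (fun y => (kk u y)⁻¹) z := dk.inv hkne
    have dDb : DifferentiableAt ℝ (Db u (kk u)) z :=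
      diffAt_of h.isOpen (contDiffOn_Db h.isOpen h.su hkk) hz
    have e2 : Dd u (Db u (cx (fun y => Real.log (kk u y).re))) z
        = Dd u (fun y => (kk u y)⁻¹ * Db u (kk u) y) z := by
      apply Dd_congr
      filter_upwards [hN] with x hx
      exact hcg x hx
    have e3 : Dd u (fun y => (kk u y)⁻¹) z = -((kk u z)⁻¹ * (kk u z)⁻¹) * Dd u (kk u) z := by
      have h1 : Dd u (fun y => kk u y * (kk u y)⁻¹) z = 0 := by
        have : (fun y => kk u y * (kk u y)⁻¹) =ᶠ[𝓝 z] fun _ => (1 : ℂ) := by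
          filter_upwards [hN] with y hy
          apply mul_inv_cancel₀
          intro h0
          have := hy.2
          simp [h0] at this
        rw [Dd_congr this, Dd_const]
      rw [Dd_mul dk dki] at h1
      have h2 : kk u z * Dd u (fun y => (kk u y)⁻¹) z = -(Dd u (kk u) z * (kk u z)⁻¹) := by
        linear_combination h1
      have h3 : Dd u (fun y => (kk u y)⁻¹) z = (kk u z)⁻¹ * (kk u z * Dd u (fun y => (kk u y)⁻¹) z) := by
        rw [← mul_assoc, inv_mul_cancel₀ hkne, one_mul]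
      rw [h3, h2]
      ring
    rw [e2, Dd_mul dki dDb, e3, h.DdDb_kk hz]
    have e4 : Db u (kk u) z = conj (Dd u (kk u) z) := by
      have h1 : Db u (fun y => conj (kk u y)) z = conj (Dd u (kk u) z) := Db_conj dk
      have h2 : (fun y => conj (kk u y)) = kk u := funext (fun y => kk_real u y)
      rw [h2] at h1
      exact h1
    rw [e4]
    set A : ℂ := Dd u (kk u) z with hA
    set B : ℂ := (Mx u z * cj (Mx u z) * (Mx u z * cj (Mx u z))).trace with hB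
    set C : ℂ := (Qx u z * cj (Qx u z)).trace with hC
    have hk : kk u z = (((kk u z).re : ℝ) : ℂ) := by
      apply Complex.ext
      · simp
      · rw [(Lgk_kk h hz).1]; simp
    have hQ := pos_im (h.psd z hz) (h.one z hz) (h.ker z hz) (h.uniq z hz) (h.adm_Q hz)
    have hB0 := pos_sq (h.psd z hz) (h.one z hz) (h.ker z hz) (h.uniq z hz) (h.adm_M hz)
    have hcs := pos_cs (h.psd z hz) (h.one z hz) (h.ker z hz) (h.uniq z hz) (h.adm_M hz)
      (h.adm_Q hz)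
    rw [← h.Dd_kk hz, ← hA, ← hC] at hcs
    rw [← hC] at hQ
    rw [← hB] at hB0
    have hkk' : (Mx u z * cj (Mx u z)).trace.re = (kk u z).re := rfl
    rw [hkk'] at hcs
    set κ : ℝ := (kk u z).re with hκ
    rw [hk]
    have e5 : (-((κ : ℂ)⁻¹ * (κ : ℂ)⁻¹) * A * conj A + (κ : ℂ)⁻¹ * (2 * B + C)).re
        = -(κ⁻¹ * κ⁻¹) * ‖A‖ ^ 2 + κ⁻¹ * (2 * B.re + C.re) := by
      have h1 : A * conj A = ((‖A‖ ^ 2 : ℝ) : ℂ) := by
        rw [Complex.mul_conj, Complex.normSq_eq_norm_sq]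
      have h2 : (-((κ : ℂ)⁻¹ * (κ : ℂ)⁻¹) * A * conj A + (κ : ℂ)⁻¹ * (2 * B + C))
          = ((-(κ⁻¹ * κ⁻¹) * ‖A‖ ^ 2 : ℝ) : ℂ) + ((κ⁻¹ : ℝ) : ℂ) * (2 * B + C) := by
        rw [mul_assoc (-((κ : ℂ)⁻¹ * (κ : ℂ)⁻¹)), h1]
        push_cast
        ring
      rw [h2, Complex.add_re, Complex.ofReal_re, Complex.re_ofReal_mul, Complex.add_re]
      congr 3
      rw [show (2 : ℂ) * B = ((2 : ℝ) : ℂ) * B by norm_num, Complex.re_ofReal_mul]
    rw [e5]
    have h6 : -(κ⁻¹ * κ⁻¹) * ‖A‖ ^ 2 + κ⁻¹ * (2 * B.re + C.re)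
        = κ⁻¹ * κ⁻¹ * (κ * C.re - ‖A‖ ^ 2) + κ⁻¹ * (2 * B.re) := by
      field_simp
      ring
    rw [h6]
    have h7 : 0 < κ⁻¹ := inv_pos.2 hkz
    have h8 : 0 ≤ κ * C.re - ‖A‖ ^ 2 := by linarith
    positivity
  linarith

/-- `K = 0` near a point: the kernel field is holomorphic there -/
theorem hol_of_Kf (hU : IsOpen U) (hw : ContDiffOn ℝ ∞ w U)
    (hp : ∀ z ∈ U, (lm w z).PosSemidef) (hd : ∀ z ∈ U, (lm w z).det = 0) {m : Fin n}
    (h0 : ∀ z ∈ Um w m U, Kf w m z = 0) (k : Fin n) :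
    DifferentiableOn ℂ (uu w m k) (Um w m U) := by
  have h := kf_of hU hw hp hd m
  intro z hz
  have h1 := h0 z hz
  rw [Lgk_Kf hU hw hp hd hz] at h1
  have h2 : (kk (fun k => uu w m k) z).re = 0 := by
    rcases mul_eq_zero.1 h1 with h3 | h3
    · exact absurd h3 (Lgk_rho hp hz).2.ne'
    · exact h3
  have h3 := pos_zero (h.psd z hz) (h.one z hz) (h.ker z hz) (h.uniq z hz) (h.adm_M hz) h2
  apply DifferentiableAt.differentiableWithinAt
  apply diff_of_pb (diffAt_of h.isOpen (h.su k) hz)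
  intro j
  have h4 : Mx (fun k => uu w m k) z k j = 0 := by rw [h3]; rfl
  exact h4

end Pool.Agent.CYF
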