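import Pool.Agent.CYF.Geo
import Pool.Agent.CYF.LpxMax
import Pool.Agent.CYF.Lgk

/-!
Cut-off functions for the Liouville lemma, and the pointwise inequality at a maximum.
-/

open scoped ContDiff ComplexConjugate Topology ComplexOrder
open Complex Matrix

namespace Pool.Agent.CYF

variable {n : ℕ}

/-- the cut-off `1 + ε log t`, cut at `0` -/
noncomputable def cut (ε t : ℝ) : ℝ := 1 + ε * Real.log (max t (Real.exp (-(1 / ε))))

theorem cut_continuous (ε : ℝ) : Continuous (cut ε) := by
  unfold cut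
  refine continuous_const.add (continuous_const.mul ?_)
  refine Continuous.log (continuous_id.max continuous_const) fun t => ?_
  exact ne_of_gt (lt_of_lt_of_le (Real.exp_pos _) (le_max_right _ _))

theorem cut_zero {ε t : ℝ} (hε : 0 < ε) (ht : t ≤ Real.exp (-(1 / ε))) : cut ε t = 0 := by
  unfold cut
  rw [max_eq_right ht, Real.log_exp]
  field_simp
  ring

theorem cut_nonneg {ε : ℝ} (hε : 0 < ε) (t : ℝ) : 0 ≤ cut ε t := by
  unfold cut
  have h1 : Real.exp (-(1 / ε)) ≤ max t (Real.exp (-(1 / ε))) := le_max_right _ _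
  have h2 := Real.log_le_log (Real.exp_pos _) h1
  rw [Real.log_exp] at h2
  have h3 : ε * (-(1 / ε)) ≤ ε * Real.log (max t (Real.exp (-(1 / ε)))) :=
    mul_le_mul_of_nonneg_left h2 hε.le
  have h4 : ε * (-(1 / ε)) = -1 := by field_simp
  linarith

theorem cut_eq {ε t : ℝ} (ht : Real.exp (-(1 / ε)) ≤ t) : cut ε t = 1 + ε * Real.log t := by
  unfold cut
  rw [max_eq_left ht]

theorem cut_pos_imp {ε t : ℝ} (hε : 0 < ε) (h : 0 < cut ε t) : Real.exp (-(1 / ε)) < t := by
  by_contra h1
  rw [cut_zero hε (not_lt.1 h1)] at h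
  exact lt_irrefl _ h

theorem cut_ge {ε t : ℝ} (hε : 0 < ε) (ht : 0 < t) : 1 + ε * Real.log t ≤ cut ε t := by
  unfold cut
  have h := Real.log_le_log ht (le_max_left t (Real.exp (-(1 / ε))))
  have h2 := mul_le_mul_of_nonneg_left h hε.le
  linarith

theorem cut_le {ε t R : ℝ} (hε : 0 < ε) (hR : 1 ≤ R) (ht : t ≤ R) :
    cut ε t ≤ 1 + ε * Real.log R := by
  unfold cut
  have h0 : Real.exp (-(1 / ε)) ≤ R := by
    refine le_trans ?_ hR
    rw [Real.exp_le_one_iff]
    have : 0 < 1 / ε := by positivity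
    linarith
  have h := Real.log_le_log (lt_of_lt_of_le (Real.exp_pos _) (le_max_right t (Real.exp (-(1 / ε)))))
    (max_le ht h0)
  have h2 := mul_le_mul_of_nonneg_left h hε.le
  linarith

/-- strict monotonicity above the cut -/
theorem le_of_cut_le {ε t t' : ℝ} (hε : 0 < ε) (h0 : 0 < cut ε t) (h : cut ε t' ≤ cut ε t) :
    t' ≤ t := by
  by_contra hlt
  have hlt : t < t' := not_le.1 hlt
  have h1 := cut_pos_imp hε h0
  have h2 : cut ε t = 1 + ε * Real.log t := cut_eq h1.le
  have h3 : cut ε t' = 1 + ε * Real.log t' := cut_eq (h1.trans hlt).le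
  have h4 : Real.log t < Real.log t' := Real.log_lt_log ((Real.exp_pos _).trans h1) hlt
  have h5 : ε * Real.log t < ε * Real.log t' := mul_lt_mul_of_pos_left h4 hε
  linarith

theorem contDiff_nn (c : E n) : ContDiff ℝ ∞ (nn c) := by
  unfold nn
  refine ContDiff.sum fun k _ => ?_
  have h1 : ContDiff ℝ ∞ (fun z : E n => z k - c k) := by fun_prop
  exact h1.norm_sq ℝ

theorem cx_nn (c : E n) : cx (nn c) = fun z => ∑ k, (z k - c k) * conj (z k - c k) := by
  funext z
  unfold cx nn
  push_cast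
  refine Finset.sum_congr rfl fun k _ => ?_
  rw [Complex.mul_conj, Complex.normSq_eq_norm_sq]
  push_cast
  rfl

theorem diff_coord (c : E n) (k : Fin n) (z : E n) :
    DifferentiableAt ℂ (fun z : E n => z k - c k) z := by
  fun_prop

theorem fderiv_coord (c : E n) (k : Fin n) (z v : E n) :
    fderiv ℂ (fun z : E n => z k - c k) z v = v k := by
  have h : HasFDerivAt (fun z : E n => z k - c k)
      (ContinuousLinearMap.proj (R := ℂ) (φ := fun _ : Fin n => ℂ) k) z := by
    have h1 : HasFDerivAt (fun z : E n => z k)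
      (ContinuousLinearMap.proj (R := ℂ) (φ := fun _ : Fin n => ℂ) k) z :=
      (ContinuousLinearMap.proj (R := ℂ) (φ := fun _ : Fin n => ℂ) k).hasFDerivAt
    exact h1.sub_const (c k)
  rw [h.fderiv]
  rfl

theorem pb_nn (c : E n) (l : Fin n) (z : E n) : pb l (cx (nn c)) z = z l - c l := by
  rw [cx_nn]
  unfold pb
  have hd : ∀ k, DifferentiableAt ℝ (fun z : E n => z k - c k) z := fun k =>
    (diff_coord c k z).restrictScalars ℝ
  have h1 := d01_sum (z := z) (a := e l) Finset.univ
    (fun k (z : E n) => (z k - c k) * conj (z k - c k)) (fun k _ => (hd k).mul (conjd (hd k)))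
  rw [h1]
  have h2 : ∀ k, d01 (fun z : E n => (z k - c k) * conj (z k - c k)) z (e l)
      = (z k - c k) * conj (e l k) := by
    intro k
    have h3 := d01_mul (z := z) (a := e l) (hd k) (conjd (hd k))
    rw [h3, d01_of_diff (diff_coord c k z), d01_conj (hd k), d10_of_diff (diff_coord c k z),
      fderiv_coord]
    ring
  rw [Finset.sum_congr rfl fun k _ => h2 k, Finset.sum_eq_single l]
  · simp [e]
  · intro k _ hk
    simp [e, Pi.single_apply, hk]
  · simp

theorem LM_nn (c : E n) (z : E n) (k l : Fin n) : LM (nn c) z k l = if k = l then 1 else 0 := by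
  rw [LM_eq]
  have h1 : pb l (cx (nn c)) = fun z => z l - c l := funext fun z => pb_nn c l z
  rw [h1]
  unfold pk
  rw [d10_of_diff (diff_coord c l z), fderiv_coord]
  simp [e, Pi.single_apply, eq_comm]

theorem pk_nn (c : E n) (k : Fin n) (z : E n) : pk k (cx (nn c)) z = conj (z k - c k) := by
  have h : DifferentiableAt ℝ (cx (nn c)) z :=
    ((contDiffAt_cx (contDiff_nn c).contDiffAt)).differentiableAt (by simp)
  rw [pk_cx h, pb_nn]

theorem lp_nn (w : E n → ℝ) (c z : E n) : lp w (nn c) z = tr w z := by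
  unfold lp tr
  congr 1
  refine Finset.sum_congr rfl fun k _ => ?_
  simp [LM_nn]

theorem LM_const (c : ℝ) (z : E n) (k l : Fin n) : LM (fun _ => c) z k l = 0 := by
  rw [LM_eq]
  have h1 : pb l (cx (fun _ : E n => c)) = fun _ => 0 := by
    funext y
    exact d01_const (c : ℂ)
  rw [h1]
  exact d10_const 0

theorem lp_const (w : E n → ℝ) (c : ℝ) (z : E n) : lp w (fun _ => c) z = 0 := by
  unfold lp
  simp [LM_const]

/-- the cut-off of a coordinate ball -/
noncomputable def th (c : E n) (r : ℝ) (z : E n) : ℝ := 1 - nn c z / r ^ 2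

theorem contDiff_th (c : E n) (r : ℝ) : ContDiff ℝ ∞ (th c r) := by
  unfold th
  exact contDiff_const.sub ((contDiff_nn c).div_const _)

theorem nn_nonneg (c z : E n) : 0 ≤ nn c z := Finset.sum_nonneg fun _ _ => sq_nonneg _

theorem th_le_one (c z : E n) (r : ℝ) : th c r z ≤ 1 := by
  unfold th
  have : 0 ≤ nn c z / r ^ 2 := div_nonneg (nn_nonneg c z) (sq_nonneg r)
  linarith

theorem th_eq (c : E n) (r : ℝ) : th c r = fun y => 1 + (-(1 / r ^ 2)) * nn c y := by
  funext y
  unfold th
  ring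

theorem lp_th (w : E n → ℝ) (c z : E n) (r : ℝ) : lp w (th c r) z = -(tr w z / r ^ 2) := by
  rw [th_eq, lp_add contDiffAt_const (contDiffAt_const.mul (contDiff_nn c).contDiffAt), lp_const,
    lp_const_mul (contDiff_nn c).contDiffAt, lp_nn]
  ring

theorem gr_th {w : E n → ℝ} {c z : E n} {r : ℝ} (hr : 0 < r) (hF : (lm w z).PosSemidef)
    (hz : nn c z ≤ r ^ 2) : gr w (th c r) z ≤ tr w z / r ^ 2 := by
  refine (gr_le hF).trans ?_
  have h1 : ∀ k, pk k (cx (th c r)) z = -(1 / r ^ 2 : ℝ) * conj (z k - c k) := by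
    intro k
    have h2 : cx (th c r) = fun y => (1 : ℂ) + ((-(1 / r ^ 2) : ℝ) : ℂ) * cx (nn c) y := by
      funext y
      rw [th_eq]
      unfold cx
      push_cast
      ring
    have hn : DifferentiableAt ℝ (cx (nn c)) z :=
      ((contDiffAt_cx (contDiff_nn c).contDiffAt)).differentiableAt (by simp)
    rw [h2]
    have h3 : pk k (fun y => (1 : ℂ) + ((-(1 / r ^ 2) : ℝ) : ℂ) * cx (nn c) y) z
        = pk k (fun _ => (1 : ℂ)) z + pk k (fun y => ((-(1 / r ^ 2) : ℝ) : ℂ) * cx (nn c) y) z :=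
      d10_add (differentiableAt_const _) ((differentiableAt_const _).mul hn)
    have h4 : pk k (fun _ : E n => (1 : ℂ)) z = 0 := d10_const _
    have h5 : pk k (fun y => ((-(1 / r ^ 2) : ℝ) : ℂ) * cx (nn c) y) z
        = ((-(1 / r ^ 2) : ℝ) : ℂ) * pk k (cx (nn c)) z := d10_const_mul hn _
    rw [h3, h4, h5, pk_nn]
    push_cast
    ring
  have h2 : ∑ k, ‖pk k (cx (th c r)) z‖ ^ 2 = nn c z / r ^ 4 := by
    unfold nn
    rw [Finset.sum_div]
    refine Finset.sum_congr rfl fun k _ => ?_
    rw [h1, norm_mul, norm_neg, Complex.norm_real, RCLike.norm_conj, mul_pow]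
    rw [Real.norm_of_nonneg (by positivity)]
    field_simp
  rw [h2]
  have hr2 : 0 < r ^ 2 := by positivity
  have h3 : nn c z / r ^ 4 ≤ 1 / r ^ 2 := by
    rw [div_le_div_iff₀ (by positivity) hr2]
    nlinarith
  have h4 := mul_le_mul_of_nonneg_left h3 (tr_nonneg hF)
  calc tr w z * (nn c z / r ^ 4) ≤ tr w z * (1 / r ^ 2) := h4
    _ = tr w z / r ^ 2 := by ring

end Pool.Agent.CYF
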