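import Mathlib

/-!
Definitions: complex orbifolds (in particular complex manifolds) given by local uniformizing charts,
smooth semipositive closed real (1,1)-forms given by local potentials, sections.
-/

open scoped ContDiff Topology
open Complex

namespace Pool.Agent.CYF

/-- The space `ℂ^n`. -/
abbrev E (n : ℕ) : Type := Fin n → ℂ

variable {n : ℕ}

/-- The value at `z` of `∂f` on the vector of type (1,0) given by `a`:
`(Df(z)(a) - i Df(z)(i a)) / 2`, where `Df` is the real derivative. -/
noncomputable def d10 (f : E n → ℂ) (z a : E n) : ℂ :=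
  (fderiv ℝ f z a - I * fderiv ℝ f z (I • a)) / 2

/-- The value at `z` of `∂̄f` on the vector of type (0,1) given by `b`:
`(Df(z)(b) + i Df(z)(i b)) / 2`. -/
noncomputable def d01 (f : E n → ℂ) (z b : E n) : ℂ :=
  (fderiv ℝ f z b + I * fderiv ℝ f z (I • b)) / 2

/-- The Levi form of the real function `w` at `z`, `∂_a ∂̄_b w`: linear in `a`, conjugate linear
in `b`. -/
noncomputable def levi (w : E n → ℝ) (z a b : E n) : ℂ :=
  d10 (fun y => d01 (fun x => (w x : ℂ)) y b) z a

/-- The `k`-th vector of the standard basis of `ℂ^n`. -/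
def e (k : Fin n) : E n := Pi.single k 1

/-- The Levi matrix `(∂_k ∂̄_l w)(z)`. -/
noncomputable def lm (w : E n → ℝ) (z : E n) : Matrix (Fin n) (Fin n) ℂ :=
  Matrix.of fun k l => levi w z (e k) (e l)

/-- `γ` is a holomorphic map on the open set `O ⊆ D` with values in `D'` that lies over `X`:
`p' ∘ γ = p`. -/
structure IsLift {X : Type*} (D : Set (E n)) (p : E n → X) (D' : Set (E n)) (p' : E n → X)
    (O : Set (E n)) (γ : E n → E n) : Prop where
  isOpen : IsOpen O
  sub : O ⊆ D
  hol : ContDiffOn ℂ ∞ γ O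
  maps : Set.MapsTo γ O D'
  comm : ∀ z ∈ O, p' (γ z) = p z

/-- A complex orbifold of dimension `n` with underlying space `X`: continuous open maps `p i` from
open sets `dom i` of `ℂ^n` whose images cover `X`; points with the same image are joined by a local
holomorphic map over `X`; each `p i` is the quotient map of a finite set of holomorphic self-maps
of `dom i`. A complex manifold is the case where every `p i` is injective. -/
structure Orb (n : ℕ) (X : Type*) [TopologicalSpace X] (ι : Type*) where
  /-- the domains of the charts -/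
  dom : ι → Set (E n)
  /-- the charts -/
  p : ι → E n → X
  dom_open : ∀ i, IsOpen (dom i)
  cont : ∀ i, ContinuousOn (p i) (dom i)
  isOpen_image : ∀ (i : ι) (O : Set (E n)), O ⊆ dom i → IsOpen O → IsOpen (p i '' O)
  cover : ∀ x : X, ∃ i, ∃ z ∈ dom i, p i z = x
  lift : ∀ (i j : ι) (z z' : E n), z ∈ dom i → z' ∈ dom j → p i z = p j z' →
    ∃ (O : Set (E n)) (γ : E n → E n), z ∈ O ∧ IsLift (dom i) (p i) (dom j) (p j) O γ ∧ γ z = z'
  fin : ∀ i, ∃ G : Set (E n → E n), G.Finite ∧
    (∀ g ∈ G, IsLift (dom i) (p i) (dom i) (p i) (dom i) g) ∧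
    ∀ z ∈ dom i, ∀ z' ∈ dom i, p i z = p i z' → ∃ g ∈ G, g z = z'

variable {X : Type*} [TopologicalSpace X] {ι : Type*}

/-- `γ` is a change of charts of the orbifold `A`, from the chart `i` to the chart `j`, on `O`. -/
def Orb.IsChange (A : Orb n X ι) (i j : ι) (O : Set (E n)) (γ : E n → E n) : Prop :=
  IsLift (A.dom i) (A.p i) (A.dom j) (A.p j) O γ

/-- The canonical bundle of `A` is unitary flat with respect to the given charts: all changes of
charts have a Jacobian determinant of absolute value `1`. -/
def Orb.UnitaryCanonical (A : Orb n X ι) : Prop :=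
  ∀ (i j : ι) (O : Set (E n)) (γ : E n → E n), A.IsChange i j O γ →
    ∀ z ∈ O, ‖(fderiv ℂ γ z).det‖ = 1

/-- A smooth semipositive closed real (1,1)-form `η` on `A` with `η^n = 0`, given by smooth local
potentials `w i` (`η = i ∂∂̄ w`). -/
structure NullForm (A : Orb n X ι) where
  /-- the local potentials -/
  w : ι → E n → ℝ
  smooth : ∀ i, ContDiffOn ℝ ∞ (w i) (A.dom i)
  compat : ∀ (i j : ι) (O : Set (E n)) (γ : E n → E n), A.IsChange i j O γ → ∀ z ∈ O,
    ∀ a b : E n, levi (w j) (γ z) (fderiv ℂ γ z a) (fderiv ℂ γ z b) = levi (w i) z a b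
  nonneg : ∀ i, ∀ z ∈ A.dom i, ∀ a : E n, 0 ≤ (levi (w i) z a a).re
  det_eq_zero : ∀ i, ∀ z ∈ A.dom i, (lm (w i) z).det = 0

variable {A : Orb n X ι}

/-- `η^(n-1)` does not vanish at the point `z` of the chart `i`: the adjugate of the Levi matrix is
not zero. -/
def NullForm.Reg (η : NullForm A) (i : ι) (z : E n) : Prop :=
  z ∈ A.dom i ∧ (lm (η.w i) z).adjugate ≠ 0

/-- The vector `a` lies in the kernel of `η` at the point `z` of the chart `i`. -/
def NullForm.Ker (η : NullForm A) (i : ι) (z a : E n) : Prop :=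
  ∀ b : E n, levi (η.w i) z a b = 0

/-- `s` is a holomorphic section of the `m`-th power of the hermitian line bundle with the local
weights `w i` (and curvature `η`), twisted by a unitary flat line bundle: `s i` is holomorphic and
`|s i|² exp (-m w i)` is the same in all charts. -/
structure NullForm.IsSection (η : NullForm A) (m : ℝ) (s : ι → E n → ℂ) : Prop where
  hol : ∀ i, ContDiffOn ℂ ∞ (s i) (A.dom i)
  norm : ∀ (i j : ι) (O : Set (E n)) (γ : E n → E n), A.IsChange i j O γ → ∀ z ∈ O,
    ‖s j (γ z)‖ ^ 2 * Real.exp (-(m * η.w j (γ z))) = ‖s i z‖ ^ 2 * Real.exp (-(m * η.w i z))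

end Pool.Agent.CYF
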