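import Pool.Agent.CYF.Defs

/-!
Definitions: holomorphic tensors with values in powers of the hermitian line bundle.
-/

open scoped ContDiff Topology ComplexConjugate
open Complex

namespace Pool.Agent.CYF

variable {n : ℕ} {X : Type*} [TopologicalSpace X] {ι : Type*} {A : Orb n X ι}

/-- `τ` is a holomorphic section of the tensor product of `T^(⊗p)` (`T` the holomorphic tangent
bundle) with the `m`-th power of the hermitian line bundle with weights `w i` (and curvature `η`) and
with a unitary flat line bundle: it has holomorphic components `τ i K`, `K : Fin p → Fin n`, in every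
chart, and a change of charts `γ` acts by the derivative of `γ` on all `p` factors and by a number `g`
which is an isometry for the weights. -/
structure NullForm.IsTensor (η : NullForm A) (p : ℕ) (m : ℝ)
    (τ : ι → (Fin p → Fin n) → E n → ℂ) : Prop where
  hol : ∀ i K, ContDiffOn ℂ ∞ (τ i K) (A.dom i)
  trans : ∀ (i j : ι) (O : Set (E n)) (γ : E n → E n), A.IsChange i j O γ → ∀ z ∈ O,
    ∃ g : ℂ, ‖g‖ ^ 2 * Real.exp (-(m * η.w j (γ z))) = Real.exp (-(m * η.w i z)) ∧
      ∀ K, τ j K (γ z) = g * ∑ L, (∏ a, fderiv ℂ γ z (e (L a)) (K a)) * τ i L z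

/-- The square of the norm of the class of a tensor `τ` in `(T / ker η)^(⊗p) ⊗ L^m`, for the metric
given by `η` on every factor and the weight `m w`:
`exp (-m w) ∑_{K, L} (∏_a w_(K_a, L̄_a)) τ_K conj (τ_L)`. -/
noncomputable def tn (w : E n → ℝ) {p : ℕ} (m : ℝ) (τ : (Fin p → Fin n) → E n → ℂ) (z : E n) : ℝ :=
  (∑ K : Fin p → Fin n, ∑ L : Fin p → Fin n,
    (∏ a, levi w z (e (K a)) (e (L a))) * (τ K z * conj (τ L z))).re * Real.exp (-(m * w z))

end Pool.Agent.CYF
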