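import Pool.Agent.CYF.Dca

/-!
`D̄ M = - M Ē` and `D̄ E = - M M̄`.

PROOF. `∑_l conj u_l M_kl = 0` on `U` (`KF.mu`, `M_kl = ∂̄_l u_k`). Apply `∂̄_j` (`j` fixed):
`∑_l (∂̄_j conj u_l) M_kl + ∑_l conj u_l ∂̄_j ∂̄_l u_k = 0`, with `∂̄_j conj u_l = conj (∂_j u_l) = conj E_lj` and
`∂̄_j ∂̄_l u_k = ∂̄_l M_kj`: `D̄ M_kj = - ∑_l M_kl conj E_lj`. Apply `∂_j` instead:
`∑_l (∂_j conj u_l) M_kl + ∑_l conj u_l ∂̄_l ∂_j u_k = 0`, `∂_j conj u_l = conj (∂̄_j u_l) = conj M_lj`:
`D̄ E_kj = - ∑_l M_kl conj M_lj`.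
-/

open scoped ContDiff ComplexConjugate Topology ComplexOrder
open Complex Matrix

namespace Pool.Agent.CYF

variable {n : ℕ} {u : Fin n → E n → ℂ} {z : E n} {w : E n → ℝ} {m : Fin n} {U : Set (E n)}

theorem contDiffOn_Mx (hU : IsOpen U) (hu : ∀ k, ContDiffOn ℝ ∞ (u k) U) (k j : Fin n) :
    ContDiffOn ℝ ∞ (fun y => Mx u y k j) U := contDiffOn_pb hU (hu k) j

theorem contDiffOn_Ex (hU : IsOpen U) (hu : ∀ k, ContDiffOn ℝ ∞ (u k) U) (k j : Fin n) :
    ContDiffOn ℝ ∞ (fun y => Ex u y k j) U := contDiffOn_pk hU (hu k) j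

theorem KF.Db_M (h : KF w m U u) (hz : z ∈ U) (k j : Fin n) :
    Db u (fun y => Mx u y k j) z = -(Mx u z * cj (Ex u z)) k j := by
  have hU := h.isOpen
  have hd1 : ∀ l, DifferentiableAt ℝ (fun y => conj (u l y)) z := fun l =>
    diffAt_of hU (contDiffOn_conj (h.su l)) hz
  have hd2 : ∀ l, DifferentiableAt ℝ (pb l (u k)) z := fun l =>
    diffAt_of hU (contDiffOn_pb hU (h.su k) l) hz
  have h1 : (fun y => ∑ l, conj (u l y) * pb l (u k) y) =ᶠ[𝓝 z] fun _ => (0 : ℂ) := by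
    filter_upwards [hU.mem_nhds hz] with y hy
    exact h.mu hy k
  have h2 : pb j (fun y => ∑ l, conj (u l y) * pb l (u k) y) z = 0 := by
    rw [pb_congr h1]; exact d01_const 0
  have h3 : pb j (fun y => ∑ l, conj (u l y) * pb l (u k) y) z
      = ∑ l, (conj (pk j (u l) z) * pb l (u k) z + conj (u l z) * pb l (pb j (u k)) z) := by
    have h8 := d01_sum (z := z) (a := e j) Finset.univ (fun l y => conj (u l y) * pb l (u k) y)
      (fun l _ => (hd1 l).fun_mul (hd2 l))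
    have h9 : pb j (fun y => ∑ l, conj (u l y) * pb l (u k) y) z
      = d01 (fun y => ∑ l, conj (u l y) * pb l (u k) y) z (e j) := rfl
    rw [h9, h8]
    refine Finset.sum_congr rfl fun l _ => ?_
    have h10 := d01_mul (a := e j) (hd1 l) (hd2 l)
    rw [h10, d01_conj (diffAt_of hU (h.su l) hz)]
    have h4 : d01 (pb l (u k)) z (e j) = pb l (pb j (u k)) z :=
      pb_pb_comm ((h.su k).contDiffAt (hU.mem_nhds hz)) j l
    rw [h4]
    rfl
  rw [h3, Finset.sum_add_distrib] at h2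
  have h5 : Db u (fun y => Mx u y k j) z = ∑ l, conj (u l z) * pb l (pb j (u k)) z := rfl
  have h6 : (Mx u z * cj (Ex u z)) k j = ∑ l, pb l (u k) z * conj (pk j (u l) z) := rfl
  rw [h5, h6]
  have h7 : ∑ l, pb l (u k) z * conj (pk j (u l) z) = ∑ l, conj (pk j (u l) z) * pb l (u k) z :=
    Finset.sum_congr rfl fun l _ => mul_comm _ _
  rw [h7]
  linear_combination h2

theorem KF.Db_E (h : KF w m U u) (hz : z ∈ U) (k j : Fin n) :
    Db u (fun y => Ex u y k j) z = -(Mx u z * cj (Mx u z)) k j := by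
  have hU := h.isOpen
  have hd1 : ∀ l, DifferentiableAt ℝ (fun y => conj (u l y)) z := fun l =>
    diffAt_of hU (contDiffOn_conj (h.su l)) hz
  have hd2 : ∀ l, DifferentiableAt ℝ (pb l (u k)) z := fun l =>
    diffAt_of hU (contDiffOn_pb hU (h.su k) l) hz
  have h1 : (fun y => ∑ l, conj (u l y) * pb l (u k) y) =ᶠ[𝓝 z] fun _ => (0 : ℂ) := by
    filter_upwards [hU.mem_nhds hz] with y hy
    exact h.mu hy k
  have h2 : pk j (fun y => ∑ l, conj (u l y) * pb l (u k) y) z = 0 := by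
    rw [pk_congr h1]; exact d10_const 0
  have h3 : pk j (fun y => ∑ l, conj (u l y) * pb l (u k) y) z
      = ∑ l, (conj (pb j (u l) z) * pb l (u k) z + conj (u l z) * pb l (pk j (u k)) z) := by
    have h8 := d10_sum (z := z) (a := e j) Finset.univ (fun l y => conj (u l y) * pb l (u k) y)
      (fun l _ => (hd1 l).fun_mul (hd2 l))
    have h9 : pk j (fun y => ∑ l, conj (u l y) * pb l (u k) y) z
      = d10 (fun y => ∑ l, conj (u l y) * pb l (u k) y) z (e j) := rfl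
    rw [h9, h8]
    refine Finset.sum_congr rfl fun l _ => ?_
    have h10 := d10_mul (a := e j) (hd1 l) (hd2 l)
    rw [h10, d10_conj (diffAt_of hU (h.su l) hz)]
    have h4 : d10 (pb l (u k)) z (e j) = pb l (pk j (u k)) z :=
      pk_pb_comm ((h.su k).contDiffAt (hU.mem_nhds hz)) j l
    rw [h4]
    rfl
  rw [h3, Finset.sum_add_distrib] at h2
  have h5 : Db u (fun y => Ex u y k j) z = ∑ l, conj (u l z) * pb l (pk j (u k)) z := rfl
  have h6 : (Mx u z * cj (Mx u z)) k j = ∑ l, pb l (u k) z * conj (pb j (u l) z) := rfl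
  rw [h5, h6]
  have h7 : ∑ l, pb l (u k) z * conj (pb j (u l) z) = ∑ l, conj (pb j (u l) z) * pb l (u k) z :=
    Finset.sum_congr rfl fun l _ => mul_comm _ _
  rw [h7]
  linear_combination h2

private theorem Emx_conj_mul (A B : Matrix (Fin n) (Fin n) ℂ) (k j : Fin n) :
    conj ((A * cj B) k j) = (cj A * B) k j := by
  rw [Matrix.mul_apply, Matrix.mul_apply, map_sum]
  refine Finset.sum_congr rfl fun l _ => ?_
  rw [map_mul, cj_apply, cj_apply, Complex.conj_conj]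

theorem KF.Dd_cM (h : KF w m U u) (hz : z ∈ U) (k j : Fin n) :
    Dd u (fun y => conj (Mx u y k j)) z = -(cj (Mx u z) * Ex u z) k j := by
  rw [Dd_conj (diffAt_of h.isOpen (contDiffOn_Mx h.isOpen h.su k j) hz), h.Db_M hz k j,
    map_neg, Emx_conj_mul]

theorem KF.Dd_cE (h : KF w m U u) (hz : z ∈ U) (k j : Fin n) :
    Dd u (fun y => conj (Ex u y k j)) z = -(cj (Mx u z) * Mx u z) k j := by
  rw [Dd_conj (diffAt_of h.isOpen (contDiffOn_Ex h.isOpen h.su k j) hz), h.Db_E hz k j,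
    map_neg, Emx_conj_mul]

/-- `D̄ N = - N Ē + M M̄ M` -/
theorem KF.Db_N (h : KF w m U u) (hz : z ∈ U) (k j : Fin n) :
    Db u (fun y => Nx u y k j) z
      = (-(Nx u z * cj (Ex u z)) + Mx u z * cj (Mx u z) * Mx u z) k j := by
  have hU := h.isOpen
  have hM := contDiffOn_Mx hU h.su
  have hE := contDiffOn_Ex hU h.su
  have h1 : Db u (fun y => Nx u y k j) z = Db u (Dd u (fun y => Mx u y k j)) z := rfl
  rw [h1, h.comm (hM k j) hz]
  have h2 : Db u (fun y => Mx u y k j) =ᶠ[𝓝 z]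
      fun y => -(∑ l, Mx u y k l * conj (Ex u y l j)) := by
    filter_upwards [hU.mem_nhds hz] with y hy
    rw [h.Db_M hy k j, Matrix.mul_apply]
    rfl
  have hdM : ∀ l, DifferentiableAt ℝ (fun y => Mx u y k l) z := fun l => diffAt_of hU (hM k l) hz
  have hdE : ∀ l, DifferentiableAt ℝ (fun y => conj (Ex u y l j)) z := fun l =>
    diffAt_of hU (contDiffOn_conj (hE l j)) hz
  rw [Dd_congr h2, Dd_neg (DifferentiableAt.fun_sum fun l _ => (hdM l).fun_mul (hdE l)),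
    Dd_sum Finset.univ (fun l y => Mx u y k l * conj (Ex u y l j))
      (fun l _ => (hdM l).fun_mul (hdE l))]
  have h3 : ∀ l, Dd u (fun y => Mx u y k l * conj (Ex u y l j)) z
      = Nx u z k l * conj (Ex u z l j) - Mx u z k l * (cj (Mx u z) * Mx u z) l j := by
    intro l
    rw [Dd_mul (hdM l) (hdE l), h.Dd_cE hz l j]
    have h4 : Dd u (fun y => Mx u y k l) z = Nx u z k l := rfl
    rw [h4, mul_neg, sub_eq_add_neg]
  rw [Finset.sum_congr rfl fun l _ => h3 l, Finset.sum_sub_distrib, Matrix.mul_assoc,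
    Matrix.add_apply, Matrix.neg_apply, Matrix.mul_apply, Matrix.mul_apply (M := Mx u z)]
  simp only [cj_apply]
  ring

end Pool.Agent.CYF
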