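import Pool.Agent.CYF.Lgk

/-!
Sections, local part.

PROOF. `N = |s|² exp(-m w)`, `u` = kernel field, `t = D s - m (D w) s`. `D̄ s = 0` (`s` holomorphic, `d01_of_diff`).
`D̄ N = s conj(t) exp(-m w)`, `D D̄ N = t conj(t) exp(-m w) + s D(conj t) exp(-mw) + …`; `D̄ t = D̄ D s - m (D̄ D w) s - m (D w) D̄ s
= D D̄ s - m (D̄ D w) s = 0` since `D̄ D w = ∑ u_k conj u_l F_kl = 0` (`KF.ker`). So `lp N = ρ |t|² exp(-m w)` (`lp_eq_D`).
`log (lp N) = log ρ + log |t|² - m w` near `z` if `t z ≠ 0`: `lp (log ρ) = K`, `lp w = 0`, `D D̄ log |t|² = 0` as `D̄ t = 0`.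
-/

open scoped ContDiff ComplexConjugate Topology ComplexOrder
open Complex Matrix

namespace Pool.Agent.CYF

variable {n : ℕ} {z : E n} {w : E n → ℝ} {U : Set (E n)} {m : ℝ} {j : Fin n} {s : E n → ℂ}

/-- the norm function of a section -/
noncomputable def Nn (w : E n → ℝ) (m : ℝ) (s : E n → ℂ) (z : E n) : ℝ :=
  ‖s z‖ ^ 2 * Real.exp (-(m * w z))

/-- the covariant derivative along the kernel field -/
noncomputable def tt (w : E n → ℝ) (m : ℝ) (j : Fin n) (s : E n → ℂ) (z : E n) : ℂ :=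
  Dd (fun k => uu w j k) s z - m * Dd (fun k => uu w j k) (cx w) z * s z

theorem contDiffOn_Nn (hw : ContDiffOn ℝ ∞ w U) (hs : ContDiffOn ℂ ∞ s U) :
    ContDiffOn ℝ ∞ (Nn w m s) U := by
  have h1 : ContDiffOn ℝ ∞ s U := hs.restrict_scalars ℝ
  have h2 : ContDiffOn ℝ ∞ (fun y => ‖s y‖ ^ 2) U := h1.norm_sq ℝ
  exact h2.mul ((contDiffOn_const.mul hw).neg.exp)

theorem contDiffOn_lp (hU : IsOpen U) (hw : ContDiffOn ℝ ∞ w U) {g : E n → ℝ}
    (hg : ContDiffOn ℝ ∞ g U) : ContDiffOn ℝ ∞ (lp w g) U := by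
  have h1 : ContDiffOn ℝ ∞ (fun z => ∑ k, ∑ l, ad w z l k * LM g z k l) U :=
    ContDiffOn.sum fun k _ => ContDiffOn.sum fun l _ =>
      (contDiffOn_ad hU hw l k).mul (contDiffOn_LM hU hg k l)
  exact Complex.reCLM.contDiff.comp_contDiffOn h1

section SecLaux

variable {V : Set (E n)} {u : Fin n → E n → ℂ}

theorem secL_mono (h : KF w j U u) (hV : IsOpen V) (hs : V ⊆ U) : KF w j V u :=
  ⟨hV, h.sw.mono hs, fun k => (h.su k).mono hs, fun z hz => h.one z (hs hz),
    fun z hz => h.ker z (hs hz), fun z hz => h.uniq z (hs hz), fun z hz => h.psd z (hs hz)⟩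

theorem secL_lp (h : KF w j V (fun k => uu w j k)) (hd : (lm w z).det = 0)
    (hm : rho w j z ≠ 0) (hz : z ∈ V) {g : E n → ℝ} (hg : ContDiffOn ℝ ∞ g V) :
    lp w g z = (rho w j z * Dd (fun k => uu w j k) (Db (fun k => uu w j k) (cx g)) z).re := by
  rw [lp_eq_D (h.psd z hz) hd hm, h.Dd_Db (contDiffOn_cx hg) hz]
  rfl

theorem secL_Dd_exp {f : E n → ℂ} (hf : DifferentiableAt ℝ f z) :
    Dd u (fun y => cexp (f y)) z = cexp (f z) * Dd u f z := by
  simp only [Dd_eq]; exact d10_exp hf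

theorem secL_Db_exp {f : E n → ℂ} (hf : DifferentiableAt ℝ f z) :
    Db u (fun y => cexp (f y)) z = cexp (f z) * Db u f z := by
  simp only [Db_eq]; exact d01_exp hf

theorem secL_Db_cx (hw : DifferentiableAt ℝ (cx w) z) :
    Db u (cx w) z = conj (Dd u (cx w) z) := by
  have h := Db_conj (u := u) hw
  have h2 : (fun y => conj (cx w y)) = cx w := funext fun y => conj_cx w y
  rw [h2] at h
  exact h

theorem secL_Db_hol (hs : DifferentiableAt ℂ s z) : Db u s z = 0 := by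
  rw [Db_eq, d01_of_diff hs]

/-- the covariant derivative -/
noncomputable def secLt (u : Fin n → E n → ℂ) (w : E n → ℝ) (m : ℝ) (s : E n → ℂ) (z : E n) : ℂ :=
  Dd u s z - m * Dd u (cx w) z * s z

theorem secL_smooth_t (h : KF w j V u) (hs : ContDiffOn ℂ ∞ s V) :
    ContDiffOn ℝ ∞ (secLt u w m s) V := by
  have h1 : ContDiffOn ℝ ∞ s V := hs.restrict_scalars ℝ
  have h2 := contDiffOn_Dd h.isOpen h.su h1
  have h3 := contDiffOn_Dd h.isOpen h.su (contDiffOn_cx h.sw)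
  exact h2.sub ((contDiffOn_const.mul h3).mul h1)

theorem secL_DdDb_w (h : KF w j V u) (hz : z ∈ V) : Dd u (Db u (cx w)) z = 0 := by
  rw [h.Dd_Db (contDiffOn_cx h.sw) hz, Finset.sum_comm]
  refine Finset.sum_eq_zero fun l _ => ?_
  have h1 := h.ker z hz l
  have h2 : ∑ k, u k z * conj (u l z) * pk k (pb l (cx w)) z
      = conj (u l z) * ∑ k, u k z * LM w z k l := by
    rw [Finset.mul_sum]
    refine Finset.sum_congr rfl fun k _ => ?_
    rw [LM_eq]
    ring
  rw [h2, h1, mul_zero]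

theorem secL_Db_t (h : KF w j V u) (hs : ContDiffOn ℂ ∞ s V) (hz : z ∈ V) :
    Db u (secLt u w m s) z = 0 := by
  have hV := h.isOpen
  have h1 : ContDiffOn ℝ ∞ s V := hs.restrict_scalars ℝ
  have h2 := contDiffOn_Dd hV h.su h1
  have h3 := contDiffOn_Dd hV h.su (contDiffOn_cx h.sw)
  have d1 := diffAt_of hV h1 hz
  have d2 := diffAt_of hV h2 hz
  have d3 := diffAt_of hV h3 hz
  have dsC : ∀ y ∈ V, DifferentiableAt ℂ s y := fun y hy =>
    (hs.contDiffAt (hV.mem_nhds hy)).differentiableAt (by simp)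
  have e1 : Db u (Dd u s) z = 0 := by
    rw [h.comm h1 hz]
    have h4 : Db u s =ᶠ[𝓝 z] fun _ => (0 : ℂ) := by
      filter_upwards [hV.mem_nhds hz] with y hy
      exact secL_Db_hol (dsC y hy)
    rw [Dd_congr h4, Dd_const]
  have e2 : Db u (Dd u (cx w)) z = 0 := by
    rw [h.comm (contDiffOn_cx h.sw) hz]
    exact secL_DdDb_w h hz
  have e3 : Db u s z = 0 := secL_Db_hol (dsC z hz)
  have h5 : secLt u w m s = fun y => Dd u s y + (-(m : ℂ)) * (Dd u (cx w) y * s y) := by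
    funext y
    unfold secLt
    ring
  have d4 : DifferentiableAt ℝ (fun y => Dd u (cx w) y * s y) z := d3.mul d1
  have d5 : DifferentiableAt ℝ (fun y => (-(m : ℂ)) * (Dd u (cx w) y * s y)) z :=
    (differentiableAt_const _).mul d4
  rw [h5, Db_add d2 d5, Db_mul (differentiableAt_const (-(m : ℂ))) d4, Db_const,
    Db_mul d3 d1, e1, e2, e3]
  ring

theorem secL_cxN (y : E n) : cx (Nn w m s) y
    = s y * conj (s y) * cexp (-((m : ℂ) * cx w y)) := by
  unfold cx Nn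
  rw [Complex.mul_conj, Complex.normSq_eq_norm_sq]
  push_cast
  ring

theorem secL_Db_N (h : KF w j V u) (hs : ContDiffOn ℂ ∞ s V) (hz : z ∈ V) :
    Db u (cx (Nn w m s)) z
      = s z * conj (secLt u w m s z) * cexp (-((m : ℂ) * cx w z)) := by
  have hV := h.isOpen
  have h1 : ContDiffOn ℝ ∞ s V := hs.restrict_scalars ℝ
  have d1 := diffAt_of hV h1 hz
  have dc := conjd d1
  have dw := diffAt_of hV (contDiffOn_cx h.sw) hz
  have dsC : DifferentiableAt ℂ s z :=
    (hs.contDiffAt (hV.mem_nhds hz)).differentiableAt (by simp)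
  have de : DifferentiableAt ℝ (fun y => -((m : ℂ) * cx w y)) z :=
    ((differentiableAt_const _).mul dw).neg
  have dE : DifferentiableAt ℝ (fun y => cexp (-((m : ℂ) * cx w y))) z := de.cexp
  have h2 : cx (Nn w m s) = fun y => s y * conj (s y) * cexp (-((m : ℂ) * cx w y)) :=
    funext fun y => secL_cxN y
  have dmw : DifferentiableAt ℝ (fun y => (m : ℂ) * cx w y) z := (differentiableAt_const _).mul dw
  have dsc : DifferentiableAt ℝ (fun y => s y * conj (s y)) z := d1.mul dc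
  have h3 : Db u (fun y => -((m : ℂ) * cx w y)) z = -((m : ℂ) * conj (Dd u (cx w) z)) := by
    rw [Db_neg dmw, Db_mul (differentiableAt_const (m : ℂ)) dw, Db_const, secL_Db_cx dw]
    ring
  rw [h2, Db_mul dsc dE, Db_mul d1 dc, secL_Db_hol dsC, Db_conj d1, secL_Db_exp de, h3]
  unfold secLt
  rw [map_sub, map_mul, map_mul, Complex.conj_ofReal]
  ring

theorem secL_DdDb_N (h : KF w j V u) (hs : ContDiffOn ℂ ∞ s V) (hz : z ∈ V) :
    Dd u (Db u (cx (Nn w m s))) z
      = secLt u w m s z * conj (secLt u w m s z) * cexp (-((m : ℂ) * cx w z)) := by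
  have hV := h.isOpen
  have h1 : ContDiffOn ℝ ∞ s V := hs.restrict_scalars ℝ
  have d1 := diffAt_of hV h1 hz
  have dw := diffAt_of hV (contDiffOn_cx h.sw) hz
  have dt := diffAt_of hV (secL_smooth_t (m := m) h hs) hz
  have dct := conjd dt
  have de : DifferentiableAt ℝ (fun y => -((m : ℂ) * cx w y)) z :=
    ((differentiableAt_const _).mul dw).neg
  have dE : DifferentiableAt ℝ (fun y => cexp (-((m : ℂ) * cx w y))) z := de.cexp
  have h2 : Db u (cx (Nn w m s)) =ᶠ[𝓝 z]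
      fun y => s y * conj (secLt u w m s y) * cexp (-((m : ℂ) * cx w y)) := by
    filter_upwards [hV.mem_nhds hz] with y hy
    exact secL_Db_N h hs hy
  have dmw : DifferentiableAt ℝ (fun y => (m : ℂ) * cx w y) z := (differentiableAt_const _).mul dw
  have dsc : DifferentiableAt ℝ (fun y => s y * conj (secLt u w m s y)) z := d1.mul dct
  have h3 : Dd u (fun y => -((m : ℂ) * cx w y)) z = -((m : ℂ) * Dd u (cx w) z) := by
    rw [Dd_neg dmw, Dd_mul (differentiableAt_const (m : ℂ)) dw, Dd_const]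
    ring
  rw [Dd_congr h2, Dd_mul dsc dE, Dd_mul d1 dct, Dd_conj dt, secL_Db_t h hs hz,
    map_zero, secL_Dd_exp de, h3]
  have h4 : secLt u w m s z = Dd u s z - m * Dd u (cx w) z * s z := rfl
  have h5 : Dd u s z = secLt u w m s z + m * Dd u (cx w) z * s z := by
    rw [h4]; ring
  rw [h5]
  ring

theorem secL_log (h : KF w j V u) {t : E n → ℂ} (ht : ContDiffOn ℝ ∞ t V)
    (hDb : ∀ y ∈ V, Db u t y = 0) (h0 : ∀ y ∈ V, t y ≠ 0) (hz : z ∈ V) :
    Dd u (Db u (cx (fun y => 2 * Real.log ‖t y‖))) z = 0 := by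
  have hV := h.isOpen
  have dt : ∀ y ∈ V, DifferentiableAt ℝ t y := fun y hy => diffAt_of hV ht hy
  have dr : ∀ y ∈ V, DifferentiableAt ℝ (cx (fun y => 2 * Real.log ‖t y‖)) y := by
    intro y hy
    have h1 : DifferentiableAt ℝ (fun y => ‖t y‖) y := (dt y hy).norm ℝ (h0 y hy)
    have h2 : DifferentiableAt ℝ (fun y => 2 * Real.log ‖t y‖) y :=
      (h1.log (norm_ne_zero_iff.2 (h0 y hy))).const_mul 2
    exact (Complex.ofRealCLM.differentiableAt).comp y h2
  have hexp : ∀ y ∈ V, cexp (cx (fun y => 2 * Real.log ‖t y‖) y) = t y * conj (t y) := by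
    intro y hy
    have h1 : 0 < ‖t y‖ := norm_pos_iff.2 (h0 y hy)
    unfold cx
    rw [← Complex.ofReal_exp, Complex.mul_conj, Complex.normSq_eq_norm_sq]
    beta_reduce
    rw [two_mul, Real.exp_add, Real.exp_log h1, sq]
  have h1 : ∀ y ∈ V, Db u (cx (fun y => 2 * Real.log ‖t y‖)) y
      = conj (Dd u t y * (t y)⁻¹) := by
    intro y hy
    have h2 : (fun y => cexp (cx (fun y => 2 * Real.log ‖t y‖) y)) =ᶠ[𝓝 y]
        fun y => t y * conj (t y) := by
      filter_upwards [hV.mem_nhds hy] with x hx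
      exact hexp x hx
    have h3 := Db_congr (u := u) h2
    rw [secL_Db_exp (dr y hy), Db_mul (dt y hy) (conjd (dt y hy)), hDb y hy, Db_conj (dt y hy),
      hexp y hy, zero_mul, zero_add] at h3
    have h4 : t y ≠ 0 := h0 y hy
    have h5 : conj (t y) ≠ 0 := by simpa using h4
    rw [map_mul, map_inv₀, ← div_eq_mul_inv, eq_div_iff h5]
    apply mul_left_cancel₀ h4
    linear_combination h3
  have h2 : Db u (cx (fun y => 2 * Real.log ‖t y‖)) =ᶠ[𝓝 z]
      fun y => conj (Dd u t y * (t y)⁻¹) := by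
    filter_upwards [hV.mem_nhds hz] with y hy
    exact h1 y hy
  have dDt : DifferentiableAt ℝ (Dd u t) z := diffAt_of hV (contDiffOn_Dd hV h.su ht) hz
  have dinv : DifferentiableAt ℝ (fun y => (t y)⁻¹) z := (dt z hz).inv (h0 z hz)
  have e1 : Db u (Dd u t) z = 0 := by
    rw [h.comm ht hz]
    have h4 : Db u t =ᶠ[𝓝 z] fun _ => (0 : ℂ) := by
      filter_upwards [hV.mem_nhds hz] with y hy
      exact hDb y hy
    rw [Dd_congr h4, Dd_const]
  have e2 : Db u (fun y => (t y)⁻¹) z = 0 := by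
    have h3 : (fun y => t y * (t y)⁻¹) =ᶠ[𝓝 z] fun _ => (1 : ℂ) := by
      filter_upwards [hV.mem_nhds hz] with y hy
      exact mul_inv_cancel₀ (h0 y hy)
    have h4 := Db_congr (u := u) h3
    rw [Db_mul (dt z hz) dinv, hDb z hz, Db_const, zero_mul, zero_add] at h4
    exact (mul_eq_zero.1 h4).resolve_left (h0 z hz)
  have dq : DifferentiableAt ℝ (fun y => Dd u t y * (t y)⁻¹) z := dDt.mul dinv
  rw [Dd_congr h2, Dd_conj dq, Db_mul dDt dinv, e1, e2]
  simp

end SecLaux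

theorem lp_Nn (hU : IsOpen U) (hw : ContDiffOn ℝ ∞ w U)
    (hp : ∀ z ∈ U, (lm w z).PosSemidef) (hd : ∀ z ∈ U, (lm w z).det = 0)
    (hs : ContDiffOn ℂ ∞ s U) (hz : z ∈ Um w j U) :
    lp w (Nn w m s) z = (rho w j z).re * (‖tt w m j s z‖ ^ 2 * Real.exp (-(m * w z))) := by
  have h := kf_of hU hw hp hd j
  have hsub : Um w j U ⊆ U := fun y hy => hy.1
  have hs' := hs.mono hsub
  rw [secL_lp h (hd z hz.1) hz.2 hz ((contDiffOn_Nn hw hs).mono hsub), secL_DdDb_N h hs' hz]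
  have h1 : secLt (fun k => uu w j k) w m s z = tt w m j s z := rfl
  have h2 : tt w m j s z * conj (tt w m j s z) * cexp (-((m : ℂ) * cx w z))
      = ((‖tt w m j s z‖ ^ 2 * Real.exp (-(m * w z)) : ℝ) : ℂ) := by
    unfold cx
    rw [Complex.mul_conj, Complex.normSq_eq_norm_sq]
    push_cast
    ring
  rw [h1, h2, Complex.re_mul_ofReal]

theorem lp_log_lp_Nn (hU : IsOpen U) (hw : ContDiffOn ℝ ∞ w U)
    (hp : ∀ z ∈ U, (lm w z).PosSemidef) (hd : ∀ z ∈ U, (lm w z).det = 0)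
    (hs : ContDiffOn ℂ ∞ s U) (hz : z ∈ Um w j U) (h0 : 0 < lp w (Nn w m s) z) :
    0 ≤ lp w (fun y => Real.log (lp w (Nn w m s) y)) z := by
  have h := kf_of hU hw hp hd j
  have hsub : Um w j U ⊆ U := fun y hy => hy.1
  have hs' := hs.mono hsub
  have ht : ContDiffOn ℝ ∞ (tt w m j s) (Um w j U) := secL_smooth_t h hs'
  -- the subset where `t` does not vanish
  have hVo : IsOpen (Um w j U ∩ {y | tt w m j s y ≠ 0}) :=
    ht.continuousOn.isOpen_inter_preimage h.isOpen isOpen_ne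
  have hVs : Um w j U ∩ {y | tt w m j s y ≠ 0} ⊆ Um w j U := Set.inter_subset_left
  have hr : ∀ y ∈ Um w j U, 0 < (rho w j y).re := by
    intro y hy
    obtain ⟨h1, h2⟩ := adj_diag_real (hp y hy.1) j
    refine lt_of_le_of_ne h2 fun h3 => hy.2 ?_
    exact Complex.ext h3.symm h1
  have ht0 : tt w m j s z ≠ 0 := by
    intro h1
    rw [lp_Nn hU hw hp hd hs hz, h1] at h0
    simp at h0
  have hzV : z ∈ Um w j U ∩ {y | tt w m j s y ≠ 0} := ⟨hz, ht0⟩
  have hK := secL_mono h hVo hVs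
  have hlogt : ContDiffOn ℝ ∞ (fun y => 2 * Real.log ‖tt w m j s y‖)
      (Um w j U ∩ {y | tt w m j s y ≠ 0}) := by
    have h2 : ContDiffOn ℝ ∞ (fun y => ‖tt w m j s y‖) (Um w j U ∩ {y | tt w m j s y ≠ 0}) :=
      fun y hy => ((ht.mono hVs) y hy).norm ℝ hy.2
    exact contDiffOn_const.mul (h2.log fun y hy => norm_ne_zero_iff.2 hy.2)
  have hlogr : ContDiffOn ℝ ∞ (fun y => Real.log (rho w j y).re) (Um w j U) :=
    ((contDiffOn_rho_re hU hw j).mono hsub).log fun y hy => (hr y hy).ne'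
  have e1 : lp w (fun y => 2 * Real.log ‖tt w m j s y‖) z = 0 := by
    rw [secL_lp hK (hd z hz.1) hz.2 hzV hlogt]
    rw [secL_log hK (ht.mono hVs) (fun y hy => secL_Db_t h hs' hy.1) (fun y hy => hy.2) hzV]
    simp
  have e2 : lp w w z = 0 := by
    rw [secL_lp h (hd z hz.1) hz.2 hz h.sw, secL_DdDb_w h hz]
    simp
  have e3 := lp_log_rho hU hw hp hd hz
  have hcong : (fun y => Real.log (lp w (Nn w m s) y)) =ᶠ[𝓝 z]
      fun y => (Real.log (rho w j y).re + 2 * Real.log ‖tt w m j s y‖) + (-m) * w y := by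
    filter_upwards [hVo.mem_nhds hzV] with y hy
    rw [lp_Nn hU hw hp hd hs hy.1]
    have h1 : (rho w j y).re ≠ 0 := (hr y hy.1).ne'
    have h2 : ‖tt w m j s y‖ ≠ 0 := norm_ne_zero_iff.2 hy.2
    rw [Real.log_mul h1 (mul_ne_zero (pow_ne_zero 2 h2) (Real.exp_pos _).ne'),
      Real.log_mul (pow_ne_zero 2 h2) (Real.exp_pos _).ne', Real.log_exp, Real.log_pow]
    push_cast
    ring
  have c1 : ContDiffAt ℝ ∞ (fun y => Real.log (rho w j y).re) z :=
    hlogr.contDiffAt (h.isOpen.mem_nhds hz)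
  have c2 : ContDiffAt ℝ ∞ (fun y => 2 * Real.log ‖tt w m j s y‖) z :=
    hlogt.contDiffAt (hVo.mem_nhds hzV)
  have c3 : ContDiffAt ℝ ∞ w z := hw.contDiffAt (hU.mem_nhds hz.1)
  rw [lp_congr hcong, lp_add (c1.add c2) (contDiffAt_const.mul c3), lp_add c1 c2, e1, e3,
    lp_const_mul c3, e2]
  have h4 := Kf_nonneg hU hw hp hd hz
  linarith

end Pool.Agent.CYF
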