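import Pool.Agent.CYF.Lio
import Pool.Agent.CYF.SecL
import Pool.Agent.CYF.InvK

/-!
The theorem.

PROOF of `partA`: `liouville` for `f i z = Kf (η.w i) m z`, `m` any index with `rho m z ≠ 0` (`adj_diag`; independent of
`m`: `Cc.Kf_chg` with `φ = id`, invariant: `Cc.Kf_chg`, `cc_of`), `c = 1` (`lp_log_Kf`, near `z` the index `m` can be kept
fixed). So `Kf = 0`, `hol_of_Kf`: `u = uu w m` is holomorphic on `Um`, `u_m = 1`, kernel = `ℂ u` (`adj_ker`, `adj_row`,
`levi_eq_sum`).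
PROOF of `partB`: `N` is a function on `X`, bounded by some `R` (finite cover, `isCompact_ball`). `liouville` for
`f i z = lp (η.w i) (Nn …) z * exp (Nn …)`, invariant by `Cc.lp_chg`, `c = exp(-R)`:
`lp (log f) = lp (log (lp N)) + lp N ≥ lp N = f exp(-N) ≥ c f` (`lp_log_lp_Nn`). So `lp N = 0`, `tt = 0` (`lp_Nn`), and
a kernel vector `a` is `a_m u` (`adj_ker`).
-/

open scoped ContDiff ComplexConjugate Topology ComplexOrder
open Complex Matrix

namespace Pool.Agent.CYF

variable {n : ℕ} {X : Type*} [TopologicalSpace X] {ι : Type*} {A : Orb n X ι}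

private theorem id_change (i : ι) : A.IsChange i i (A.dom i) (fun y => y) :=
  ⟨A.dom_open i, le_rfl, contDiffOn_id, fun _ hz => hz, fun _ _ => rfl⟩

private theorem reg_exists (η : NullForm A) {i : ι} {z : E n} (hz : η.Reg i z) :
    ∃ m, z ∈ Um (η.w i) m (A.dom i) := by
  obtain ⟨m, hm⟩ := adj_diag (lm_psd η hz.1) hz.2
  exact ⟨m, hz.1, hm⟩

private theorem reg_of_Um (η : NullForm A) {i : ι} {z : E n} {m : Fin n}
    (hz : z ∈ Um (η.w i) m (A.dom i)) : η.Reg i z := by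
  refine ⟨hz.1, fun h => hz.2 ?_⟩
  show (lm (η.w i) z).adjugate m m = 0
  rw [h]
  rfl

private theorem kf (η : NullForm A) (i : ι) (m : Fin n) :
    KF (η.w i) m (Um (η.w i) m (A.dom i)) (fun k => uu (η.w i) m k) :=
  kf_of (A.dom_open i) (η.smooth i) (fun _ hz => lm_psd η hz) (fun z hz => η.det_eq_zero i z hz) m

private theorem reg_chg (hA : A.UnitaryCanonical) (η : NullForm A) {i j : ι} {O : Set (E n)}
    {γ : E n → E n} (h : A.IsChange i j O γ) {z : E n} (hz : z ∈ O) (hr : η.Reg i z) :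
    η.Reg j (γ z) := by
  refine ⟨h.maps hz, fun h0 => hr.2 ?_⟩
  exact ((cc_of hA η h).reg_iff hz).1 h0

open Classical in
/-- the function `K` on the regular points of the chart `i` -/
private noncomputable def fK (η : NullForm A) (i : ι) (z : E n) : ℝ :=
  if h : ∃ m, z ∈ Um (η.w i) m (A.dom i) then Kf (η.w i) h.choose z else 0

private theorem fK_eq (hA : A.UnitaryCanonical) (η : NullForm A) {i : ι} {z : E n} {m : Fin n}
    (hz : z ∈ Um (η.w i) m (A.dom i)) : fK η i z = Kf (η.w i) m z := by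
  have h : ∃ m, z ∈ Um (η.w i) m (A.dom i) := ⟨m, hz⟩
  have h1 : fK η i z = Kf (η.w i) h.choose z := by
    unfold fK
    rw [dif_pos h]
  rw [h1]
  exact (cc_of hA η (id_change i)).Kf_chg h.choose_spec.1 h.choose_spec.2 hz.2

private theorem fK_ev (hA : A.UnitaryCanonical) (η : NullForm A) {i : ι} {z : E n} {m : Fin n}
    (hz : z ∈ Um (η.w i) m (A.dom i)) : fK η i =ᶠ[𝓝 z] Kf (η.w i) m := by
  filter_upwards [(kf η i m).isOpen.mem_nhds hz] with y hy
  exact fK_eq hA η hy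

private theorem contDiffAt_Kf (η : NullForm A) {i : ι} {z : E n} {m : Fin n}
    (hz : z ∈ Um (η.w i) m (A.dom i)) : ContDiffAt ℝ ∞ (Kf (η.w i) m) z :=
  (contDiffOn_Kf (A.dom_open i) (η.smooth i) (fun _ hz => lm_psd η hz)
    (fun z hz => η.det_eq_zero i z hz) m).contDiffAt ((kf η i m).isOpen.mem_nhds hz)

private theorem fK_zero [CompactSpace X] [T2Space X] (hA : A.UnitaryCanonical) (η : NullForm A) :
    ∀ i z, η.Reg i z → fK η i z = 0 := by
  refine liouville hA η (fK η) one_pos ?_ ?_ ?_ ?_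
  · intro i z hz
    obtain ⟨m, hm⟩ := reg_exists η hz
    rw [fK_eq hA η hm]
    exact Kf_nonneg (A.dom_open i) (η.smooth i) (fun _ hz => lm_psd η hz)
      (fun z hz => η.det_eq_zero i z hz) hm
  · intro i j O γ hγ z hz hr
    obtain ⟨m, hm⟩ := reg_exists η hr
    obtain ⟨m', hm'⟩ := reg_exists η (reg_chg hA η hγ hz hr)
    rw [fK_eq hA η hm, fK_eq hA η hm']
    exact ((cc_of hA η hγ).Kf_chg hz hm.2 hm'.2).symm
  · intro i z hz
    obtain ⟨m, hm⟩ := reg_exists η hz
    exact (contDiffAt_Kf η hm).continuousAt.congr (fK_ev hA η hm).symm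
  · intro i z hz h0
    obtain ⟨m, hm⟩ := reg_exists η hz
    refine ⟨(contDiffAt_Kf η hm).congr_of_eventuallyEq (fK_ev hA η hm), ?_⟩
    have h1 : (fun y => Real.log (fK η i y)) =ᶠ[𝓝 z] fun y => Real.log (Kf (η.w i) m y) := by
      filter_upwards [fK_ev hA η hm] with y hy
      rw [hy]
    rw [lp_congr h1, one_mul]
    rw [fK_eq hA η hm] at h0 ⊢
    exact lp_log_Kf (A.dom_open i) (η.smooth i) (fun _ hz => lm_psd η hz)
      (fun z hz => η.det_eq_zero i z hz) hm h0

private theorem ker_sum (η : NullForm A) {i : ι} {z : E n} (hz : z ∈ A.dom i) (a : E n)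
    (ha : η.Ker i z a) (l : Fin n) : ∑ k, a k * LM (η.w i) z k l = 0 := by
  have hw : ContDiffAt ℝ ∞ (η.w i) z := (η.smooth i).contDiffAt ((A.dom_open i).mem_nhds hz)
  have h := ha (e l)
  rw [levi_eq_sum hw] at h
  rw [← h]
  refine Finset.sum_congr rfl fun k _ => ?_
  rw [Finset.sum_eq_single l]
  · simp [e]
  · intro b _ hb
    simp [e, hb]
  · intro hl
    exact absurd (Finset.mem_univ l) hl

private theorem ker_eq (η : NullForm A) {i : ι} {z : E n} {m : Fin n}
    (hz : z ∈ Um (η.w i) m (A.dom i)) (a : E n) (ha : η.Ker i z a) (k : Fin n) :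
    a k = a m * uu (η.w i) m k z :=
  adj_ker (F := lm (η.w i) z) (η.det_eq_zero i z hz.1) hz.2
    (fun l => ker_sum η hz.1 a ha l) k

private theorem ker_of (η : NullForm A) {i : ι} {z : E n} {m : Fin n}
    (hz : z ∈ Um (η.w i) m (A.dom i)) (c : ℂ) :
    η.Ker i z (c • fun k => uu (η.w i) m k z) := by
  intro b
  have hw : ContDiffAt ℝ ∞ (η.w i) z := (η.smooth i).contDiffAt ((A.dom_open i).mem_nhds hz.1)
  rw [levi_eq_sum hw, Finset.sum_comm]
  refine Finset.sum_eq_zero fun l _ => ?_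
  have h := (kf η i m).ker z hz l
  have h2 : ∑ k, (c • fun k => uu (η.w i) m k z) k * conj (b l) * LM (η.w i) z k l
      = c * conj (b l) * ∑ k, uu (η.w i) m k z * LM (η.w i) z k l := by
    rw [Finset.mul_sum]
    refine Finset.sum_congr rfl fun k _ => ?_
    simp only [Pi.smul_apply, smul_eq_mul]
    ring
  rw [h2, h, mul_zero]

theorem partA [CompactSpace X] [T2Space X] (hA : A.UnitaryCanonical) (η : NullForm A)
    (i : ι) (z : E n) (hz : η.Reg i z) :
    ∃ O : Set (E n), IsOpen O ∧ z ∈ O ∧ O ⊆ A.dom i ∧ ∃ u : E n → E n, DifferentiableOn ℂ u O ∧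
      ∀ y ∈ O, u y ≠ 0 ∧ ∀ a : E n, η.Ker i y a ↔ ∃ c : ℂ, a = c • u y := by
  obtain ⟨m, hm⟩ := reg_exists η hz
  refine ⟨Um (η.w i) m (A.dom i), (kf η i m).isOpen, hm, fun y hy => hy.1,
    fun y k => uu (η.w i) m k y, ?_, ?_⟩
  · refine differentiableOn_pi.2 fun k => ?_
    refine hol_of_Kf (A.dom_open i) (η.smooth i) (fun _ hz => lm_psd η hz)
      (fun z hz => η.det_eq_zero i z hz) ?_ k
    intro y hy
    rw [← fK_eq hA η hy]
    exact fK_zero hA η i y (reg_of_Um η hy)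
  · intro y hy
    refine ⟨fun h => ?_, fun a => ⟨fun ha => ⟨a m, ?_⟩, ?_⟩⟩
    · have h1 := (kf η i m).one y hy
      have h2 := congrFun h m
      simp only [Pi.zero_apply] at h2
      rw [h2] at h1
      exact zero_ne_one h1
    · funext k
      exact ker_eq η hy a ha k
    · rintro ⟨c, rfl⟩
      exact ker_of η hy c

private theorem contDiffAt_N (η : NullForm A) {m : ℝ} {s : ι → E n → ℂ} (hs : η.IsSection m s)
    {i : ι} {z : E n} (hz : z ∈ A.dom i) : ContDiffAt ℝ ∞ (Nn (η.w i) m (s i)) z :=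
  (contDiffOn_Nn (η.smooth i) (hs.hol i)).contDiffAt ((A.dom_open i).mem_nhds hz)

private theorem N_bound [CompactSpace X] (η : NullForm A) {m : ℝ} {s : ι → E n → ℂ}
    (hs : η.IsSection m s) : ∃ R : ℝ, ∀ i, ∀ z ∈ A.dom i, Nn (η.w i) m (s i) z ≤ R := by
  obtain ⟨N, b, hb⟩ := exists_cover A
  have h1 : ∀ a : Fin N, ∃ R : ℝ, ∀ z, nn (b a).c z ≤ (b a).r ^ 2 →
      Nn (η.w (b a).i) m (s (b a).i) z ≤ R := by
    intro a
    have hc : ContinuousOn (Nn (η.w (b a).i) m (s (b a).i)) {z | nn (b a).c z ≤ (b a).r ^ 2} :=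
      (contDiffOn_Nn (η.smooth (b a).i) (hs.hol (b a).i)).continuousOn.mono (b a).sub
    obtain ⟨R, hR⟩ := (isCompact_ball (b a).c (b a).r).bddAbove_image hc
    exact ⟨R, fun z hz => hR ⟨z, hz, rfl⟩⟩
  choose R hR using h1
  refine ⟨∑ a, |R a|, fun i z hz => ?_⟩
  obtain ⟨a, z', hz', hx⟩ := hb (A.p i z)
  have hr : nn (b a).c z' ≤ (b a).r ^ 2 := by
    have := (b a).pos
    nlinarith
  obtain ⟨O, γ, hzO, hγ, hγz⟩ := A.lift (b a).i i z' z ((b a).sub z' hr) hz hx
  have h2 := hs.norm (b a).i i O γ hγ z' hzO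
  rw [hγz] at h2
  have h3 : Nn (η.w i) m (s i) z = Nn (η.w (b a).i) m (s (b a).i) z' := h2
  rw [h3]
  refine (hR a z' hr).trans ((le_abs_self _).trans ?_)
  exact Finset.single_le_sum (f := fun a => |R a|) (fun c _ => abs_nonneg _) (Finset.mem_univ a)

private theorem rho_pos (η : NullForm A) {i : ι} {z : E n} {j : Fin n}
    (hz : z ∈ Um (η.w i) j (A.dom i)) : 0 < (rho (η.w i) j z).re := by
  obtain ⟨h1, h2⟩ := adj_diag_real (lm_psd η hz.1) j
  rcases h2.lt_or_eq with h3 | h3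
  · exact h3
  · exact absurd (Complex.ext h3.symm h1) hz.2

private theorem lp_N_zero [CompactSpace X] [T2Space X] (hA : A.UnitaryCanonical) (η : NullForm A)
    {m : ℝ} {s : ι → E n → ℂ} (hs : η.IsSection m s) :
    ∀ i z, η.Reg i z → lp (η.w i) (Nn (η.w i) m (s i)) z = 0 := by
  obtain ⟨R, hR⟩ := N_bound η hs
  have hlps : ∀ i, ContDiffOn ℝ ∞ (lp (η.w i) (Nn (η.w i) m (s i))) (A.dom i) := fun i =>
    contDiffOn_lp (A.dom_open i) (η.smooth i) (contDiffOn_Nn (η.smooth i) (hs.hol i))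
  have hnn : ∀ i z, η.Reg i z → 0 ≤ lp (η.w i) (Nn (η.w i) m (s i)) z := by
    intro i z hz
    obtain ⟨j, hj⟩ := reg_exists η hz
    rw [lp_Nn (A.dom_open i) (η.smooth i) (fun _ hz => lm_psd η hz)
      (fun z hz => η.det_eq_zero i z hz) (hs.hol i) hj]
    exact mul_nonneg (rho_pos η hj).le (mul_nonneg (sq_nonneg _) (Real.exp_pos _).le)
  have key := liouville hA η
    (fun i z => lp (η.w i) (Nn (η.w i) m (s i)) z * Real.exp (Nn (η.w i) m (s i) z))
    (Real.exp_pos (-R)) ?_ ?_ ?_ ?_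
  · intro i z hz
    have h := key i z hz
    exact (mul_eq_zero.1 h).resolve_right (Real.exp_pos _).ne'
  · intro i z hz
    exact mul_nonneg (hnn i z hz) (Real.exp_pos _).le
  · intro i j O γ hγ z hz hr
    have h1 : Nn (η.w i) m (s i) =ᶠ[𝓝 z] fun y => Nn (η.w j) m (s j) (γ y) := by
      filter_upwards [hγ.isOpen.mem_nhds hz] with y hy
      exact (hs.norm i j O γ hγ y hy).symm
    have h2 : lp (η.w i) (Nn (η.w i) m (s i)) z = lp (η.w j) (Nn (η.w j) m (s j)) (γ z) := by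
      rw [lp_congr h1]
      exact (cc_of hA η hγ).lp_chg (contDiffOn_Nn (η.smooth j) (hs.hol j)) hz
    have h3 : Nn (η.w i) m (s i) z = Nn (η.w j) m (s j) (γ z) := h1.eq_of_nhds
    rw [h2, h3]
  · intro i z hz
    have h1 := ((hlps i).contDiffAt ((A.dom_open i).mem_nhds hz.1)).continuousAt
    have h2 := (contDiffAt_N η hs hz.1).continuousAt
    exact h1.mul h2.rexp
  · intro i z hz h0
    obtain ⟨j, hj⟩ := reg_exists η hz
    have c1 := (hlps i).contDiffAt ((A.dom_open i).mem_nhds hz.1)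
    have c2 := contDiffAt_N η hs hz.1
    refine ⟨c1.mul c2.exp, ?_⟩
    have hp : 0 < lp (η.w i) (Nn (η.w i) m (s i)) z := by
      by_contra h
      have h1 : lp (η.w i) (Nn (η.w i) m (s i)) z = 0 := le_antisymm (not_lt.1 h) (hnn i z hz)
      rw [h1, zero_mul] at h0
      exact lt_irrefl _ h0
    have hev : (fun y => Real.log (lp (η.w i) (Nn (η.w i) m (s i)) y
        * Real.exp (Nn (η.w i) m (s i) y))) =ᶠ[𝓝 z]
        fun y => Real.log (lp (η.w i) (Nn (η.w i) m (s i)) y) + Nn (η.w i) m (s i) y := by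
      filter_upwards [c1.continuousAt.eventually (lt_mem_nhds hp)] with y hy
      rw [Real.log_mul hy.ne' (Real.exp_pos _).ne', Real.log_exp]
    rw [lp_congr hev, lp_add (c1.log hp.ne') c2]
    have h1 := lp_log_lp_Nn (A.dom_open i) (η.smooth i) (fun _ hz => lm_psd η hz)
      (fun z hz => η.det_eq_zero i z hz) (hs.hol i) hj hp
    have h2 : Real.exp (-R) * (lp (η.w i) (Nn (η.w i) m (s i)) z
        * Real.exp (Nn (η.w i) m (s i) z)) ≤ lp (η.w i) (Nn (η.w i) m (s i)) z := by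
      have h3 : Real.exp (-R) * Real.exp (Nn (η.w i) m (s i) z) ≤ 1 := by
        rw [← Real.exp_add]
        exact Real.exp_le_one_iff.2 (by linarith [hR i z hz.1])
      calc Real.exp (-R) * (lp (η.w i) (Nn (η.w i) m (s i)) z
            * Real.exp (Nn (η.w i) m (s i) z))
          = lp (η.w i) (Nn (η.w i) m (s i)) z
            * (Real.exp (-R) * Real.exp (Nn (η.w i) m (s i) z)) := by ring
        _ ≤ lp (η.w i) (Nn (η.w i) m (s i)) z * 1 := mul_le_mul_of_nonneg_left h3 hp.le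
        _ = _ := mul_one _
    linarith

theorem partB [CompactSpace X] [T2Space X] (hA : A.UnitaryCanonical) (η : NullForm A)
    {m : ℝ} {s : ι → E n → ℂ} (hs : η.IsSection m s) (i : ι) (z : E n) (hz : η.Reg i z)
    (a : E n) (ha : η.Ker i z a) :
    d10 (s i) z a - m * d10 (fun y => (η.w i y : ℂ)) z a * s i z = 0 := by
  obtain ⟨j, hj⟩ := reg_exists η hz
  have h1 := lp_N_zero hA η hs i z hz
  rw [lp_Nn (A.dom_open i) (η.smooth i) (fun _ hz => lm_psd η hz)
      (fun z hz => η.det_eq_zero i z hz) (hs.hol i) hj] at h1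
  have h2 : ‖tt (η.w i) m j (s i) z‖ = 0 := by
    have h3 := (mul_eq_zero.1 h1).resolve_left (rho_pos η hj).ne'
    exact pow_eq_zero_iff (two_ne_zero) |>.1
      ((mul_eq_zero.1 h3).resolve_right (Real.exp_pos _).ne')
  have h3 : tt (η.w i) m j (s i) z = 0 := norm_eq_zero.1 h2
  have h4 : ∀ f : E n → ℂ, d10 f z a = a j * Dd (fun k => uu (η.w i) j k) f z := by
    intro f
    rw [d10_eq_sum]
    unfold Dd
    rw [Finset.mul_sum]
    refine Finset.sum_congr rfl fun k _ => ?_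
    rw [ker_eq η hj a ha k]
    ring
  have h5 : (fun y => (η.w i y : ℂ)) = cx (η.w i) := rfl
  rw [h5, h4, h4]
  unfold tt at h3
  linear_combination a j * h3

end Pool.Agent.CYF
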