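import Pool.Agent.CYF.Emx

/-!
`Adm` for `M` and `Q = D M - E M`; `D F = - E^T F`.

PROOF. `M`: row `m`: `u_m = 1` on `U`. kill: `KF.mu`. symm: `∂̄_i` of `∑_k u_k F_kj = 0`:
`∑_k M_ki F_kj = - ∑_k u_k ∂̄_i F_kj`, symmetric in `i, j` since `∂̄_i F_kj = ∂̄_j F_ki`.
`Dd_F`: `∂_k` of `∑_p u_p F_pl = 0`: `∑_p E_pk F_pl + ∑_p u_p ∂_k F_pl = 0` and `∂_k F_pl = ∂_p F_kl`, so
`D F_kl = - ∑_p E_pk F_pl`.
`Q`: row `m`: `M_mj = 0` on `U` so `N_mj = 0`, `E_mj = 0`. kill: `D` of `∑_j M_kj conj u_j = 0` and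
`D conj u_j = 0` give `N ū = 0`, and `E M ū = 0`. symm: `D` of `∑_k M_ki F_kj` (symmetric in `i,j` on
`U`): `∑_k N_ki F_kj - ∑_k M_ki ∑_p E_pk F_pj = ∑_p (N - E M)_pi F_pj` is symmetric.
-/

open scoped ContDiff ComplexConjugate Topology ComplexOrder
open Complex Matrix

namespace Pool.Agent.CYF

variable {n : ℕ} {u : Fin n → E n → ℂ} {z : E n} {w : E n → ℝ} {m : Fin n} {U : Set (E n)}

private theorem Syx_smLM (h : KF w m U u) (k l : Fin n) :
    ContDiffOn ℝ ∞ (fun y => LM w y k l) U :=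
  contDiffOn_pk h.isOpen (contDiffOn_pb h.isOpen (contDiffOn_cx h.sw) l) k

private theorem Syx_dLM (h : KF w m U u) (hz : z ∈ U) (k l : Fin n) :
    DifferentiableAt ℝ (fun y => LM w y k l) z := diffAt_of h.isOpen (Syx_smLM h k l) hz

private theorem Syx_du (h : KF w m U u) (hz : z ∈ U) (k : Fin n) :
    DifferentiableAt ℝ (u k) z := diffAt_of h.isOpen (h.su k) hz

/-- `∂̄_i F_kj = ∂̄_j F_ki` -/
private theorem Syx_s1 (h : KF w m U u) (hz : z ∈ U) (k i j : Fin n) :
    pb i (fun y => LM w y k j) z = pb j (fun y => LM w y k i) z := by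
  have hc := contDiffOn_cx h.sw
  have hn := h.isOpen.mem_nhds hz
  have e1 : pb i (fun y => LM w y k j) z = pk k (pb i (pb j (cx w))) z :=
    (pk_pb_comm ((contDiffOn_pb h.isOpen hc j).contDiffAt hn) k i).symm
  have e2 : pb j (fun y => LM w y k i) z = pk k (pb j (pb i (cx w))) z :=
    (pk_pb_comm ((contDiffOn_pb h.isOpen hc i).contDiffAt hn) k j).symm
  rw [e1, e2]
  refine pk_congr ?_
  filter_upwards [hn] with y hy
  exact pb_pb_comm (hc.contDiffAt (h.isOpen.mem_nhds hy)) i j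

/-- `∂_k F_pl = ∂_p F_kl` -/
private theorem Syx_s2 (h : KF w m U u) (hz : z ∈ U) (k p l : Fin n) :
    pk k (fun y => LM w y p l) z = pk p (fun y => LM w y k l) z := by
  have hc := contDiffOn_cx h.sw
  have hn := h.isOpen.mem_nhds hz
  exact pk_pk_comm ((contDiffOn_pb h.isOpen hc l).contDiffAt hn) k p

private theorem Syx_pb (h : KF w m U u) (hz : z ∈ U) (i j : Fin n) :
    ∑ k, Mx u z k i * LM w z k j = -∑ k, u k z * pb i (fun y => LM w y k j) z := by
  have h0 : pb i (fun y => ∑ k, u k y * LM w y k j) z = 0 := by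
    have : (fun y => ∑ k, u k y * LM w y k j) =ᶠ[𝓝 z] fun _ => (0 : ℂ) := by
      filter_upwards [h.isOpen.mem_nhds hz] with y hy
      exact h.ker y hy j
    rw [pb_congr this]
    exact d01_const 0
  have h1 : pb i (fun y => ∑ k, u k y * LM w y k j) z =
      ∑ k, (pb i (u k) z * LM w z k j + u k z * pb i (fun y => LM w y k j) z) := by
    have h2 := d01_sum (z := z) (a := e i) Finset.univ (fun k y => u k y * LM w y k j)
      (fun k _ => (Syx_du h hz k).mul (Syx_dLM h hz k j))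
    refine h2.trans (Finset.sum_congr rfl fun k _ => ?_)
    exact d01_mul (Syx_du h hz k) (Syx_dLM h hz k j)
  rw [h1, Finset.sum_add_distrib] at h0
  exact eq_neg_of_add_eq_zero_left h0

private theorem Syx_pk (h : KF w m U u) (hz : z ∈ U) (i j : Fin n) :
    ∑ k, Ex u z k i * LM w z k j = -∑ k, u k z * pk i (fun y => LM w y k j) z := by
  have h0 : pk i (fun y => ∑ k, u k y * LM w y k j) z = 0 := by
    have : (fun y => ∑ k, u k y * LM w y k j) =ᶠ[𝓝 z] fun _ => (0 : ℂ) := by
      filter_upwards [h.isOpen.mem_nhds hz] with y hy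
      exact h.ker y hy j
    rw [pk_congr this]
    exact d10_const 0
  have h1 : pk i (fun y => ∑ k, u k y * LM w y k j) z =
      ∑ k, (pk i (u k) z * LM w z k j + u k z * pk i (fun y => LM w y k j) z) := by
    have h2 := d10_sum (z := z) (a := e i) Finset.univ (fun k y => u k y * LM w y k j)
      (fun k _ => (Syx_du h hz k).mul (Syx_dLM h hz k j))
    refine h2.trans (Finset.sum_congr rfl fun k _ => ?_)
    exact d10_mul (Syx_du h hz k) (Syx_dLM h hz k j)
  rw [h1, Finset.sum_add_distrib] at h0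
  exact eq_neg_of_add_eq_zero_left h0

theorem KF.adm_M (h : KF w m U u) (hz : z ∈ U) :
    Adm (lm w z) m (fun k => u k z) (Mx u z) := by
  refine ⟨?_, ?_, ?_⟩
  · intro j
    have h1 : u m =ᶠ[𝓝 z] fun _ => (1 : ℂ) := by
      filter_upwards [h.isOpen.mem_nhds hz] with y hy
      exact h.one y hy
    have h2 : Mx u z m j = pb j (u m) z := rfl
    rw [h2, pb_congr h1]
    exact d01_const 1
  · intro k
    have h1 := h.mu hz k
    rw [← h1]
    refine Finset.sum_congr rfl fun j _ => ?_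
    have h2 : Mx u z k j = pb j (u k) z := rfl
    rw [h2, mul_comm]
  · intro i j
    have h1 := Syx_pb h hz i j
    have h2 := Syx_pb h hz j i
    have h3 : ∀ k j, lm w z k j = LM w z k j := fun _ _ => rfl
    simp only [h3]
    rw [h1, h2]
    congr 1
    refine Finset.sum_congr rfl fun k _ => ?_
    rw [Syx_s1 h hz k i j]

theorem KF.row_E (h : KF w m U u) (hz : z ∈ U) (j : Fin n) : Ex u z m j = 0 := by
  have h1 : u m =ᶠ[𝓝 z] fun _ => (1 : ℂ) := by
    filter_upwards [h.isOpen.mem_nhds hz] with y hy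
    exact h.one y hy
  have h2 : Ex u z m j = pk j (u m) z := rfl
  rw [h2, pk_congr h1]
  exact d10_const 1

theorem KF.Dd_F (h : KF w m U u) (hz : z ∈ U) (k l : Fin n) :
    Dd u (fun y => LM w y k l) z = -∑ p, Ex u z p k * LM w z p l := by
  rw [Syx_pk h hz k l, neg_neg, Dd]
  refine Finset.sum_congr rfl fun p _ => ?_
  rw [Syx_s2 h hz k p l]

private theorem Syx_dM (h : KF w m U u) (hz : z ∈ U) (k j : Fin n) :
    DifferentiableAt ℝ (fun y => Mx u y k j) z :=
  diffAt_of h.isOpen (contDiffOn_Mx h.isOpen h.su k j) hz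

private theorem Syx_Q (k j : Fin n) :
    Qx u z k j = Dd u (fun y => Mx u y k j) z - ∑ p, Ex u z k p * Mx u z p j := by
  rw [Qx, Matrix.sub_apply, Matrix.mul_apply]
  rfl

private theorem Syx_DMF (h : KF w m U u) (hz : z ∈ U) (i j : Fin n) :
    Dd u (fun y => ∑ k, Mx u y k i * LM w y k j) z = ∑ p, Qx u z p i * LM w z p j := by
  have h2 := Dd_sum (z := z) (u := u) Finset.univ (fun k y => Mx u y k i * LM w y k j)
      (fun k _ => (Syx_dM h hz k i).mul (Syx_dLM h hz k j))
  rw [h2]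
  have h3 : ∀ k : Fin n, Dd u (fun y => Mx u y k i * LM w y k j) z =
      Dd u (fun y => Mx u y k i) z * LM w z k j +
        Mx u z k i * (-∑ p, Ex u z p k * LM w z p j) := by
    intro k
    rw [Dd_mul (Syx_dM h hz k i) (Syx_dLM h hz k j), h.Dd_F hz k j]
  simp only [h3]
  rw [Finset.sum_add_distrib]
  have h4 : ∑ p, Qx u z p i * LM w z p j = ∑ p, Dd u (fun y => Mx u y p i) z * LM w z p j -
      ∑ p, ∑ k, Ex u z p k * Mx u z k i * LM w z p j := by
    rw [← Finset.sum_sub_distrib]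
    refine Finset.sum_congr rfl fun p _ => ?_
    rw [Syx_Q, sub_mul, Finset.sum_mul]
  rw [h4, sub_eq_add_neg, add_right_inj, Finset.sum_comm, ← Finset.sum_neg_distrib]
  refine Finset.sum_congr rfl fun k _ => ?_
  rw [mul_neg, Finset.mul_sum]
  congr 1
  refine Finset.sum_congr rfl fun p _ => ?_
  ring

theorem KF.adm_Q (h : KF w m U u) (hz : z ∈ U) :
    Adm (lm w z) m (fun k => u k z) (Qx u z) := by
  refine ⟨?_, ?_, ?_⟩
  · intro j
    rw [Syx_Q]
    have h1 : (fun y => Mx u y m j) =ᶠ[𝓝 z] fun _ => (0 : ℂ) := by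
      filter_upwards [h.isOpen.mem_nhds hz] with y hy
      exact (h.adm_M hy).row j
    rw [Dd_congr h1, Dd_const]
    simp [h.row_E hz]
  · intro k
    have h0 : Dd u (fun y => ∑ j, Mx u y k j * conj (u j y)) z = 0 := by
      have h1 : (fun y => ∑ j, Mx u y k j * conj (u j y)) =ᶠ[𝓝 z] fun _ => (0 : ℂ) := by
        filter_upwards [h.isOpen.mem_nhds hz] with y hy
        exact (h.adm_M hy).kill k
      rw [Dd_congr h1, Dd_const]
    have hcu : ∀ j, DifferentiableAt ℝ (fun y => conj (u j y)) z := fun j =>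
      diffAt_of h.isOpen (contDiffOn_conj (h.su j)) hz
    have h2 := Dd_sum (z := z) (u := u) Finset.univ (fun j y => Mx u y k j * conj (u j y))
      (fun j _ => (Syx_dM h hz k j).mul (hcu j))
    rw [h2] at h0
    have h3 : ∀ j : Fin n, Dd u (fun y => Mx u y k j * conj (u j y)) z =
        Dd u (fun y => Mx u y k j) z * conj (u j z) := by
      intro j
      rw [Dd_mul (Syx_dM h hz k j) (hcu j), h.Dd_conj_u hz j, mul_zero, add_zero]
    simp only [h3] at h0
    have h4 : ∑ j, Qx u z k j * conj (u j z) = ∑ j, Dd u (fun y => Mx u y k j) z * conj (u j z) -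
        ∑ j, ∑ p, Ex u z k p * Mx u z p j * conj (u j z) := by
      rw [← Finset.sum_sub_distrib]
      refine Finset.sum_congr rfl fun j _ => ?_
      rw [Syx_Q, sub_mul, Finset.sum_mul]
    have h5 : ∑ j, ∑ p, Ex u z k p * Mx u z p j * conj (u j z) = 0 := by
      rw [Finset.sum_comm]
      refine Finset.sum_eq_zero fun p _ => ?_
      have h6 := (h.adm_M hz).kill p
      have h7 : ∑ j, Ex u z k p * Mx u z p j * conj (u j z) =
          Ex u z k p * ∑ j, Mx u z p j * conj (u j z) := by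
        rw [Finset.mul_sum]
        refine Finset.sum_congr rfl fun j _ => ?_
        ring
      rw [h7]
      have h8 : ∑ j, Mx u z p j * conj (u j z) = 0 := h6
      rw [h8, mul_zero]
    show ∑ j, Qx u z k j * conj (u j z) = 0
    rw [h4, h0, h5, sub_zero]
  · intro i j
    have h3 : ∀ k j, lm w z k j = LM w z k j := fun _ _ => rfl
    simp only [h3]
    rw [← Syx_DMF h hz i j, ← Syx_DMF h hz j i]
    refine Dd_congr ?_
    filter_upwards [h.isOpen.mem_nhds hz] with y hy
    exact (h.adm_M hy).symm i j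

end Pool.Agent.CYF
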