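import Pool.Agent.CYF.SecL

/-!
Leafwise holomorphic sections of a leafwise flat hermitian bundle, abstract form.

SETTING (`Lf`): kernel field `u` of `w` on `U`; a psd hermitian matrix `G` of smooth functions indexed by a finite
type `κ`, a matrix `B` with `D G_KL = - ∑_J B_JK G_JL`, `D̄ B = 0`. For a vector `τ` of smooth functions with `D̄ τ = 0`:
`V = exp(-μ w) Re ∑ G_KL τ_K conj τ_L` (`nV`), `t_K = D τ_K - ∑_J B_KJ τ_J - μ (D w) τ_K` (`nt`).

PROOFS. `D̄ G_KL = - ∑_J G_KJ conj B_JL` (conjugate of `dG`, `G` hermitian). `D̄ t = 0` (`KF.comm`, `dB`, `D̄ D w = 0`: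
`secL_DdDb_w`). `D (∑ G τ τ̄) = ∑ G_KL (D τ_K - ∑ B_KJ τ_J) conj τ_L` (`D conj τ = conj (D̄ τ) = 0`), so
`D V = exp(-μw) ∑ G t τ̄`, `D̄ V = exp(-μw) ∑ G τ t̄`, `D D̄ V = exp(-μw) ∑ G t t̄` (`nV_LM`).
`W := exp(-μw) ∑ G t t̄ = nV` of `t` itself (`t` is again a vector with `D̄ t = 0`): so `D D̄ W = exp(-μw) ∑ G t' t̄'` with
`t' = nt` of `t`, and `D W = exp(-μw) ∑ G t' t̄`; Cauchy-Schwarz for the psd form `G`: `|D W|² ≤ W · D D̄ W`, so
`D D̄ log W = (W D D̄ W - |D W|²)/W² ≥ 0` where `W > 0` (`nV_log`).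
-/

open scoped ContDiff ComplexConjugate Topology ComplexOrder
open Complex Matrix

namespace Pool.Agent.CYF

variable {n : ℕ} {κ : Type*} [Fintype κ] {z : E n} {w : E n → ℝ} {m : Fin n} {U : Set (E n)}
  {u : Fin n → E n → ℂ} {G B : κ → κ → E n → ℂ} {τ : κ → E n → ℂ} {μ : ℝ}

/-- the abstract setting -/
structure Lf (w : E n → ℝ) (m : Fin n) (U : Set (E n)) (u : Fin n → E n → ℂ)
    (G B : κ → κ → E n → ℂ) : Prop where
  kf : KF w m U u
  sG : ∀ K L, ContDiffOn ℝ ∞ (G K L) U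
  sB : ∀ K L, ContDiffOn ℝ ∞ (B K L) U
  dG : ∀ z ∈ U, ∀ K L, Dd u (G K L) z = -∑ J, B J K z * G J L z
  dB : ∀ z ∈ U, ∀ K L, Db u (B K L) z = 0
  psd : ∀ z ∈ U, (Matrix.of fun K L => G K L z).PosSemidef

/-- the norm function -/
noncomputable def nV (w : E n → ℝ) (μ : ℝ) (G : κ → κ → E n → ℂ) (τ : κ → E n → ℂ) (z : E n) : ℝ :=
  (∑ K, ∑ L, G K L z * (τ K z * conj (τ L z))).re * Real.exp (-(μ * w z))

/-- the covariant derivative along `u` -/
noncomputable def nt (u : Fin n → E n → ℂ) (w : E n → ℝ) (μ : ℝ) (B : κ → κ → E n → ℂ)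
    (τ : κ → E n → ℂ) (K : κ) (z : E n) : ℂ :=
  Dd u (τ K) z - ∑ J, B K J z * τ J z - μ * Dd u (cx w) z * τ K z

section TnAaux

/-- the sesquilinear form -/
noncomputable def TnA_q (g : κ → κ → ℂ) (σ τ : κ → ℂ) : ℂ := ∑ K, ∑ L, g K L * (σ K * conj (τ L))

theorem TnA_q_eq (g : κ → κ → ℂ) (σ τ : κ → ℂ) :
    TnA_q g σ τ = star (fun K => conj (σ K)) ⬝ᵥ ((Matrix.of g) *ᵥ fun L => conj (τ L)) := by
  unfold TnA_q
  simp only [dotProduct, Matrix.mulVec, Pi.star_apply, Matrix.of_apply, RCLike.star_def,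
    Complex.conj_conj]
  refine Finset.sum_congr rfl fun K _ => ?_
  rw [Finset.mul_sum]
  refine Finset.sum_congr rfl fun L _ => ?_
  ring

omit [Fintype κ] in
theorem TnA_herm {g : κ → κ → ℂ} (hg : (Matrix.of g).PosSemidef) (K L : κ) :
    conj (g L K) = g K L := by
  have h := hg.isHermitian.apply K L
  simpa using h

theorem TnA_q_nonneg {g : κ → κ → ℂ} (hg : (Matrix.of g).PosSemidef) (σ : κ → ℂ) :
    0 ≤ (TnA_q g σ σ).re ∧ (TnA_q g σ σ).im = 0 := by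
  have h := hg.dotProduct_mulVec_nonneg (fun K => conj (σ K))
  rw [← TnA_q_eq] at h
  rw [Complex.le_def] at h
  exact ⟨by simpa using h.1, by simpa using h.2.symm⟩

theorem TnA_q_conj {g : κ → κ → ℂ} (hg : (Matrix.of g).PosSemidef) (σ τ : κ → ℂ) :
    conj (TnA_q g σ τ) = TnA_q g τ σ := by
  unfold TnA_q
  simp only [map_sum, map_mul, Complex.conj_conj]
  rw [Finset.sum_comm]
  refine Finset.sum_congr rfl fun K _ => ?_
  refine Finset.sum_congr rfl fun L _ => ?_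
  rw [TnA_herm hg K L]
  ring

theorem TnA_q_zero {g : κ → κ → ℂ} (hg : (Matrix.of g).PosSemidef) {σ : κ → ℂ}
    (h0 : TnA_q g σ σ = 0) (τ : κ → ℂ) : TnA_q g σ τ = 0 := by
  rw [TnA_q_eq] at h0
  have h1 := (hg.dotProduct_mulVec_zero_iff (fun K => conj (σ K))).1 h0
  have h2 : TnA_q g τ σ = 0 := by
    rw [TnA_q_eq, h1, dotProduct_zero]
  rw [← TnA_q_conj hg, h2, map_zero]

theorem TnA_q_add (g : κ → κ → ℂ) (σ τ : κ → ℂ) (c : ℂ) :
    TnA_q g (fun K => σ K + c * τ K) (fun K => σ K + c * τ K)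
      = TnA_q g σ σ + conj c * TnA_q g σ τ + c * TnA_q g τ σ + c * conj c * TnA_q g τ τ := by
  unfold TnA_q
  simp only [Finset.mul_sum, ← Finset.sum_add_distrib]
  refine Finset.sum_congr rfl fun K _ => ?_
  refine Finset.sum_congr rfl fun L _ => ?_
  rw [map_add, map_mul]
  ring

theorem TnA_cs {g : κ → κ → ℂ} (hg : (Matrix.of g).PosSemidef) {σ τ : κ → ℂ}
    (h0 : 0 < (TnA_q g τ τ).re) :
    Complex.normSq (TnA_q g σ τ) ≤ (TnA_q g τ τ).re * (TnA_q g σ σ).re := by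
  obtain ⟨r, hr⟩ : ∃ r : ℝ, TnA_q g τ τ = (r : ℂ) :=
    ⟨(TnA_q g τ τ).re, Complex.ext rfl (by simpa using (TnA_q_nonneg hg τ).2)⟩
  obtain ⟨q, hq⟩ : ∃ q : ℝ, TnA_q g σ σ = (q : ℂ) :=
    ⟨(TnA_q g σ σ).re, Complex.ext rfl (by simpa using (TnA_q_nonneg hg σ).2)⟩
  rw [hr] at h0
  rw [hr, hq]
  simp only [Complex.ofReal_re] at h0 ⊢
  set s := TnA_q g σ τ with hs
  have h1 := (TnA_q_nonneg hg (fun K => σ K + (-(s / r)) * τ K)).1
  rw [TnA_q_add, ← TnA_q_conj hg σ τ, ← hs, hr, hq] at h1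
  have hr0 : (r : ℂ) ≠ 0 := by exact_mod_cast h0.ne'
  have h2 : (q : ℂ) + conj (-(s / r)) * s + -(s / r) * conj s + -(s / r) * conj (-(s / r)) * r
      = ((q - Complex.normSq s / r : ℝ) : ℂ) := by
    rw [map_neg, map_div₀, Complex.conj_ofReal]
    push_cast
    rw [← Complex.mul_conj s]
    field_simp
    ring
  rw [h2, Complex.ofReal_re] at h1
  have h3 : Complex.normSq s / r ≤ q := by linarith
  rw [div_le_iff₀ h0] at h3
  linarith

/-- the weighted form as a function -/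
noncomputable def TnA_S (w : E n → ℝ) (μ : ℝ) (G : κ → κ → E n → ℂ) (σ τ : κ → E n → ℂ)
    (y : E n) : ℂ :=
  (∑ K, ∑ L, G K L y * (σ K y * conj (τ L y))) * cexp (-((μ : ℂ) * cx w y))

theorem TnA_S_eq (w : E n → ℝ) (μ : ℝ) (G : κ → κ → E n → ℂ) (σ τ : κ → E n → ℂ) (y : E n) :
    TnA_S w μ G σ τ y = TnA_q (fun K L => G K L y) (fun K => σ K y) (fun K => τ K y)
      * cexp (-((μ : ℂ) * cx w y)) := rfl

theorem TnA_exp (w : E n → ℝ) (μ : ℝ) (y : E n) :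
    cexp (-((μ : ℂ) * cx w y)) = ((Real.exp (-(μ * w y)) : ℝ) : ℂ) := by
  unfold cx
  push_cast
  ring_nf

theorem TnA_S_conj (h : Lf w m U u G B) {y : E n} (hy : y ∈ U) (σ τ : κ → E n → ℂ) :
    conj (TnA_S w μ G σ τ y) = TnA_S w μ G τ σ y := by
  rw [TnA_S_eq, TnA_S_eq, map_mul, TnA_q_conj (h.psd y hy), TnA_exp, Complex.conj_ofReal]

theorem TnA_cx_nV (h : Lf w m U u G B) {y : E n} (hy : y ∈ U) (τ : κ → E n → ℂ) :
    cx (nV w μ G τ) y = TnA_S w μ G τ τ y := by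
  rw [TnA_S_eq, TnA_exp]
  have h1 := (TnA_q_nonneg (h.psd y hy) (fun K => τ K y)).2
  have h2 : TnA_q (fun K L => G K L y) (fun K => τ K y) (fun K => τ K y)
      = (((TnA_q (fun K L => G K L y) (fun K => τ K y) (fun K => τ K y)).re : ℝ) : ℂ) :=
    Complex.ext rfl (by simpa using h1)
  rw [h2, ← Complex.ofReal_mul]
  rfl

theorem TnA_S_smooth (h : Lf w m U u G B) {σ τ : κ → E n → ℂ}
    (hσ : ∀ K, ContDiffOn ℝ ∞ (σ K) U) (hτ : ∀ K, ContDiffOn ℝ ∞ (τ K) U) :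
    ContDiffOn ℝ ∞ (TnA_S w μ G σ τ) U := by
  unfold TnA_S
  have h1 : ContDiffOn ℝ ∞ (fun y => cexp (-((μ : ℂ) * cx w y))) U :=
    (contDiffOn_const.mul (contDiffOn_cx h.kf.sw)).neg.cexp
  exact (ContDiffOn.sum fun K _ => ContDiffOn.sum fun L _ =>
    (h.sG K L).mul ((hσ K).mul (contDiffOn_conj (hτ L)))).mul h1

theorem TnA_Dd_S (h : Lf w m U u G B) {σ τ : κ → E n → ℂ}
    (hσ : ∀ K, ContDiffOn ℝ ∞ (σ K) U) (hτ : ∀ K, ContDiffOn ℝ ∞ (τ K) U) (hz : z ∈ U)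
    (hd : ∀ K, Db u (τ K) z = 0) :
    Dd u (TnA_S w μ G σ τ) z = TnA_S w μ G (nt u w μ B σ) τ z := by
  have hU := h.kf.isOpen
  have dG : ∀ K L, DifferentiableAt ℝ (G K L) z := fun K L => diffAt_of hU (h.sG K L) hz
  have dσ : ∀ K, DifferentiableAt ℝ (σ K) z := fun K => diffAt_of hU (hσ K) hz
  have dτ : ∀ K, DifferentiableAt ℝ (τ K) z := fun K => diffAt_of hU (hτ K) hz
  have dc : ∀ K, DifferentiableAt ℝ (fun y => conj (τ K y)) z := fun K => conjd (dτ K)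
  have dw := diffAt_of hU (contDiffOn_cx h.kf.sw) hz
  have dmw : DifferentiableAt ℝ (fun y => (μ : ℂ) * cx w y) z := (differentiableAt_const _).mul dw
  have de : DifferentiableAt ℝ (fun y => -((μ : ℂ) * cx w y)) z := dmw.neg
  have dE : DifferentiableAt ℝ (fun y => cexp (-((μ : ℂ) * cx w y))) z := de.cexp
  have dst : ∀ K L, DifferentiableAt ℝ (fun y => σ K y * conj (τ L y)) z := fun K L =>
    (dσ K).mul (dc L)
  have dt : ∀ K L, DifferentiableAt ℝ (fun y => G K L y * (σ K y * conj (τ L y))) z := fun K L =>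
    (dG K L).mul (dst K L)
  have dts : ∀ K, DifferentiableAt ℝ (fun y => ∑ L, G K L y * (σ K y * conj (τ L y))) z :=
    fun K => DifferentiableAt.fun_sum fun L _ => dt K L
  have dS : DifferentiableAt ℝ (fun y => ∑ K, ∑ L, G K L y * (σ K y * conj (τ L y))) z :=
    DifferentiableAt.fun_sum fun K _ => dts K
  have h3 : Dd u (fun y => -((μ : ℂ) * cx w y)) z = -((μ : ℂ) * Dd u (cx w) z) := by
    rw [Dd_neg dmw, Dd_mul (differentiableAt_const (μ : ℂ)) dw, Dd_const]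
    ring
  have h4 : Dd u (fun y => ∑ K, ∑ L, G K L y * (σ K y * conj (τ L y))) z
      = ∑ K, ∑ L, G K L z * ((Dd u (σ K) z - ∑ J, B K J z * σ J z) * conj (τ L z)) := by
    rw [Dd_sum _ _ fun K _ => dts K]
    have h5 : ∀ K, Dd u (fun y => ∑ L, G K L y * (σ K y * conj (τ L y))) z
        = ∑ L, ((-∑ J, B J K z * G J L z) * (σ K z * conj (τ L z))
          + G K L z * (Dd u (σ K) z * conj (τ L z))) := by
      intro K
      rw [Dd_sum _ _ fun L _ => dt K L]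
      refine Finset.sum_congr rfl fun L _ => ?_
      rw [Dd_mul (dG K L) (dst K L), Dd_mul (dσ K) (dc L), Dd_conj (dτ L), hd L, h.dG z hz K L]
      simp
    rw [Finset.sum_congr rfl fun K _ => h5 K]
    simp only [Finset.sum_add_distrib, sub_mul, mul_sub, Finset.sum_sub_distrib]
    have h6 : ∑ K, ∑ L, (-∑ J, B J K z * G J L z) * (σ K z * conj (τ L z))
        = -∑ K, ∑ L, G K L z * ((∑ J, B K J z * σ J z) * conj (τ L z)) := by
      have e1 : ∑ K, ∑ L, (-∑ J, B J K z * G J L z) * (σ K z * conj (τ L z))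
          = -∑ K, ∑ L, ∑ J, B J K z * G J L z * (σ K z * conj (τ L z)) := by
        rw [← Finset.sum_neg_distrib]
        refine Finset.sum_congr rfl fun K _ => ?_
        rw [← Finset.sum_neg_distrib]
        refine Finset.sum_congr rfl fun L _ => ?_
        rw [neg_mul, Finset.sum_mul]
      have e2 : ∑ K, ∑ L, G K L z * ((∑ J, B K J z * σ J z) * conj (τ L z))
          = ∑ K, ∑ L, ∑ J, B K J z * G K L z * (σ J z * conj (τ L z)) := by
        refine Finset.sum_congr rfl fun K _ => ?_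
        refine Finset.sum_congr rfl fun L _ => ?_
        rw [Finset.sum_mul, Finset.mul_sum]
        refine Finset.sum_congr rfl fun J _ => ?_
        ring
      rw [e1, e2]
      congr 1
      calc ∑ K, ∑ L, ∑ J, B J K z * G J L z * (σ K z * conj (τ L z))
          = ∑ K, ∑ J, ∑ L, B J K z * G J L z * (σ K z * conj (τ L z)) :=
            Finset.sum_congr rfl fun K _ => Finset.sum_comm
        _ = ∑ J, ∑ K, ∑ L, B J K z * G J L z * (σ K z * conj (τ L z)) := Finset.sum_comm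
        _ = ∑ J, ∑ L, ∑ K, B J K z * G J L z * (σ K z * conj (τ L z)) :=
            Finset.sum_congr rfl fun J _ => Finset.sum_comm
    rw [h6]
    ring
  have h7 : TnA_S w μ G σ τ = fun y => (∑ K, ∑ L, G K L y * (σ K y * conj (τ L y)))
      * cexp (-((μ : ℂ) * cx w y)) := rfl
  rw [h7, Dd_mul dS dE, secL_Dd_exp de, h3, h4]
  unfold TnA_S
  have h8 : ∑ K, ∑ L, G K L z * (nt u w μ B σ K z * conj (τ L z))
      = ∑ K, ∑ L, G K L z * ((Dd u (σ K) z - ∑ J, B K J z * σ J z) * conj (τ L z))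
        - μ * Dd u (cx w) z * ∑ K, ∑ L, G K L z * (σ K z * conj (τ L z)) := by
    rw [Finset.mul_sum, ← Finset.sum_sub_distrib]
    refine Finset.sum_congr rfl fun K _ => ?_
    rw [Finset.mul_sum, ← Finset.sum_sub_distrib]
    refine Finset.sum_congr rfl fun L _ => ?_
    unfold nt
    ring
  rw [h8]
  ring

theorem TnA_Db_S (h : Lf w m U u G B) {σ τ : κ → E n → ℂ}
    (hσ : ∀ K, ContDiffOn ℝ ∞ (σ K) U) (hτ : ∀ K, ContDiffOn ℝ ∞ (τ K) U) (hz : z ∈ U)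
    (hd : ∀ K, Db u (σ K) z = 0) :
    Db u (TnA_S w μ G σ τ) z = TnA_S w μ G σ (nt u w μ B τ) z := by
  have hU := h.kf.isOpen
  have h1 : TnA_S w μ G σ τ =ᶠ[𝓝 z] fun y => conj (TnA_S w μ G τ σ y) := by
    filter_upwards [hU.mem_nhds hz] with y hy
    exact (TnA_S_conj h hy τ σ).symm
  rw [Db_congr h1, Db_conj (diffAt_of hU (TnA_S_smooth h hτ hσ) hz), TnA_Dd_S h hτ hσ hz hd,
    TnA_S_conj h hz]

theorem TnA_mono (h : Lf w m U u G B) {V : Set (E n)} (hV : IsOpen V) (hs : V ⊆ U) :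
    Lf w m V u G B :=
  ⟨secL_mono h.kf hV hs, fun K L => (h.sG K L).mono hs, fun K L => (h.sB K L).mono hs,
    fun z hz => h.dG z (hs hz), fun z hz => h.dB z (hs hz), fun z hz => h.psd z (hs hz)⟩

end TnAaux

theorem Lf.nV_nonneg (h : Lf w m U u G B) (hz : z ∈ U) : 0 ≤ nV w μ G τ z :=
  mul_nonneg (TnA_q_nonneg (h.psd z hz) (fun K => τ K z)).1 (Real.exp_pos _).le

theorem Lf.smooth_nV (h : Lf w m U u G B) (hτ : ∀ K, ContDiffOn ℝ ∞ (τ K) U) :
    ContDiffOn ℝ ∞ (nV w μ G τ) U := by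
  unfold nV
  have h1 : ContDiffOn ℝ ∞ (fun y => ∑ K, ∑ L, G K L y * (τ K y * conj (τ L y))) U :=
    ContDiffOn.sum fun K _ => ContDiffOn.sum fun L _ =>
      (h.sG K L).mul ((hτ K).mul (contDiffOn_conj (hτ L)))
  exact (Complex.reCLM.contDiff.comp_contDiffOn h1).mul
    ((contDiffOn_const.mul h.kf.sw).neg.exp)

theorem Lf.smooth_nt (h : Lf w m U u G B) (hτ : ∀ K, ContDiffOn ℝ ∞ (τ K) U) (K : κ) :
    ContDiffOn ℝ ∞ (nt u w μ B τ K) U := by
  unfold nt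
  have hU := h.kf.isOpen
  exact ((contDiffOn_Dd hU h.kf.su (hτ K)).sub
    (ContDiffOn.sum fun J _ => (h.sB K J).mul (hτ J))).sub
      ((contDiffOn_const.mul (contDiffOn_Dd hU h.kf.su (contDiffOn_cx h.kf.sw))).mul (hτ K))

theorem Lf.Db_nt (h : Lf w m U u G B) (hτ : ∀ K, ContDiffOn ℝ ∞ (τ K) U)
    (hd : ∀ z ∈ U, ∀ K, Db u (τ K) z = 0) (hz : z ∈ U) (K : κ) :
    Db u (nt u w μ B τ K) z = 0 := by
  have hU := h.kf.isOpen
  have hDw := contDiffOn_Dd hU h.kf.su (contDiffOn_cx h.kf.sw)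
  have dτ : ∀ K, DifferentiableAt ℝ (τ K) z := fun K => diffAt_of hU (hτ K) hz
  have dDτ : DifferentiableAt ℝ (Dd u (τ K)) z :=
    diffAt_of hU (contDiffOn_Dd hU h.kf.su (hτ K)) hz
  have dB : ∀ J, DifferentiableAt ℝ (B K J) z := fun J => diffAt_of hU (h.sB K J) hz
  have dDw : DifferentiableAt ℝ (Dd u (cx w)) z := diffAt_of hU hDw hz
  have e1 : Db u (Dd u (τ K)) z = 0 := by
    rw [h.kf.comm (hτ K) hz]
    have h4 : Db u (τ K) =ᶠ[𝓝 z] fun _ => (0 : ℂ) := by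
      filter_upwards [hU.mem_nhds hz] with y hy
      exact hd y hy K
    rw [Dd_congr h4, Dd_const]
  have e2 : Db u (Dd u (cx w)) z = 0 := by
    rw [h.kf.comm (contDiffOn_cx h.kf.sw) hz]
    exact secL_DdDb_w h.kf hz
  have dBt : ∀ J, DifferentiableAt ℝ (fun y => B K J y * τ J y) z := fun J => (dB J).mul (dτ J)
  have dsum : DifferentiableAt ℝ (fun y => ∑ J, B K J y * τ J y) z :=
    DifferentiableAt.fun_sum fun J _ => dBt J
  have dwt : DifferentiableAt ℝ (fun y => Dd u (cx w) y * τ K y) z := dDw.mul (dτ K)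
  have h5 : nt u w μ B τ K = fun y => (Dd u (τ K) y + -(∑ J, B K J y * τ J y))
      + (-(μ : ℂ)) * (Dd u (cx w) y * τ K y) := by
    funext y
    unfold nt
    ring
  have e3 : Db u (fun y => ∑ J, B K J y * τ J y) z = 0 := by
    rw [Db_sum _ _ fun J _ => dBt J]
    refine Finset.sum_eq_zero fun J _ => ?_
    rw [Db_mul (dB J) (dτ J), h.dB z hz K J, hd z hz J]
    simp
  have dns : DifferentiableAt ℝ (fun y => -(∑ J, B K J y * τ J y)) z := dsum.neg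
  have dad : DifferentiableAt ℝ (fun y => Dd u (τ K) y + -(∑ J, B K J y * τ J y)) z :=
    dDτ.add dns
  have dmm : DifferentiableAt ℝ (fun y => (-(μ : ℂ)) * (Dd u (cx w) y * τ K y)) z :=
    (differentiableAt_const _).mul dwt
  rw [h5, Db_add dad dmm, Db_add dDτ dns, Db_neg dsum, e3,
    Db_mul (differentiableAt_const (-(μ : ℂ))) dwt, Db_const, Db_mul dDw (dτ K), e1, e2,
    hd z hz K]
  ring

theorem Lf.Dd_nV (h : Lf w m U u G B) (hτ : ∀ K, ContDiffOn ℝ ∞ (τ K) U)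
    (hd : ∀ z ∈ U, ∀ K, Db u (τ K) z = 0) (hz : z ∈ U) :
    Dd u (cx (nV w μ G τ)) z = (∑ K, ∑ L, G K L z * (nt u w μ B τ K z * conj (τ L z)))
      * Real.exp (-(μ * w z)) := by
  have h1 : cx (nV w μ G τ) =ᶠ[𝓝 z] TnA_S w μ G τ τ := by
    filter_upwards [h.kf.isOpen.mem_nhds hz] with y hy
    exact TnA_cx_nV h hy τ
  rw [Dd_congr h1, TnA_Dd_S h hτ hτ hz (hd z hz), ← TnA_exp]
  rfl

theorem TnA_DdDb (h : Lf w m U u G B) (hτ : ∀ K, ContDiffOn ℝ ∞ (τ K) U)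
    (hd : ∀ z ∈ U, ∀ K, Db u (τ K) z = 0) (hz : z ∈ U) :
    Dd u (Db u (cx (nV w μ G τ))) z = cx (nV w μ G (nt u w μ B τ)) z := by
  have hU := h.kf.isOpen
  have h1 : ∀ y ∈ U, cx (nV w μ G τ) =ᶠ[𝓝 y] TnA_S w μ G τ τ := by
    intro y hy
    filter_upwards [hU.mem_nhds hy] with x hx
    exact TnA_cx_nV h hx τ
  have h2 : Db u (cx (nV w μ G τ)) =ᶠ[𝓝 z] TnA_S w μ G τ (nt u w μ B τ) := by
    filter_upwards [hU.mem_nhds hz] with y hy
    rw [Db_congr (h1 y hy), TnA_Db_S h hτ hτ hy (hd y hy)]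
  have ht : ∀ K, ContDiffOn ℝ ∞ (nt u w μ B τ K) U := h.smooth_nt hτ
  rw [Dd_congr h2, TnA_Dd_S h hτ ht hz (fun K => h.Db_nt hτ hd hz K), TnA_cx_nV h hz]

theorem Lf.nV_LM (h : Lf w m U u G B) (hτ : ∀ K, ContDiffOn ℝ ∞ (τ K) U)
    (hd : ∀ z ∈ U, ∀ K, Db u (τ K) z = 0) (hz : z ∈ U) :
    ∑ k, ∑ l, u k z * conj (u l z) * LM (nV w μ G τ) z k l
      = (nV w μ G (nt u w μ B τ) z : ℂ) := by
  have h1 := h.kf.Dd_Db (contDiffOn_cx (h.smooth_nV (μ := μ) hτ)) hz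
  rw [TnA_DdDb h hτ hd hz] at h1
  exact h1.symm

theorem Lf.Dd_zero (h : Lf w m U u G B) (hτ : ∀ K, ContDiffOn ℝ ∞ (τ K) U)
    (hd : ∀ z ∈ U, ∀ K, Db u (τ K) z = 0) (hz : z ∈ U) (h0 : nV w μ G (nt u w μ B τ) z = 0) :
    Dd u (cx (nV w μ G τ)) z = 0 := by
  rw [h.Dd_nV hτ hd hz]
  have h1 := TnA_q_nonneg (h.psd z hz) (fun K => nt u w μ B τ K z)
  have h2 : (TnA_q (fun K L => G K L z) (fun K => nt u w μ B τ K z)
      (fun K => nt u w μ B τ K z)).re = 0 :=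
    (mul_eq_zero.1 h0).resolve_right (Real.exp_pos _).ne'
  have h3 := TnA_q_zero (h.psd z hz) (Complex.ext h2 h1.2) (fun K => τ K z)
  have h4 : ∑ K, ∑ L, G K L z * (nt u w μ B τ K z * conj (τ L z)) = 0 := h3
  rw [h4, zero_mul]

/-- `D D̄ log W ≥ 0` for `W = nV` of a leafwise holomorphic vector -/
theorem Lf.nV_log (h : Lf w m U u G B) (hτ : ∀ K, ContDiffOn ℝ ∞ (τ K) U)
    (hd : ∀ z ∈ U, ∀ K, Db u (τ K) z = 0) (hz : z ∈ U) (h0 : 0 < nV w μ G τ z) :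
    0 ≤ (∑ k, ∑ l, u k z * conj (u l z)
      * LM (fun y => Real.log (nV w μ G τ y)) z k l).re := by
  have hU := h.kf.isOpen
  have hs := h.smooth_nV (μ := μ) hτ
  have hVo : IsOpen (U ∩ {y | 0 < nV w μ G τ y}) :=
    hs.continuousOn.isOpen_inter_preimage hU isOpen_Ioi
  have hVs : U ∩ {y | 0 < nV w μ G τ y} ⊆ U := Set.inter_subset_left
  have hzV : z ∈ U ∩ {y | 0 < nV w μ G τ y} := ⟨hz, h0⟩
  have hK := secL_mono h.kf hVo hVs
  have hlog : ContDiffOn ℝ ∞ (fun y => Real.log (nV w μ G τ y)) (U ∩ {y | 0 < nV w μ G τ y}) :=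
    (hs.mono hVs).log fun y hy => (ne_of_gt hy.2)
  have h1 := hK.Dd_Db (contDiffOn_cx hlog) hzV
  have h2 : ∑ k, ∑ l, u k z * conj (u l z) * LM (fun y => Real.log (nV w μ G τ y)) z k l
      = Dd u (Db u (cx fun y => Real.log (nV w μ G τ y))) z := h1.symm
  rw [h2]
  have dr : ∀ y ∈ U, DifferentiableAt ℝ (nV w μ G τ) y := fun y hy =>
    (hs.contDiffAt (hU.mem_nhds hy)).differentiableAt (by simp)
  have h3 : Db u (cx fun y => Real.log (nV w μ G τ y)) =ᶠ[𝓝 z]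
      fun y => (cx (nV w μ G τ) y)⁻¹ * Db u (cx (nV w μ G τ)) y := by
    filter_upwards [hVo.mem_nhds hzV] with y hy
    exact Lgk_Db_log (dr y hy.1) hy.2
  have hcs := contDiffOn_cx hs
  have dcx : DifferentiableAt ℝ (cx (nV w μ G τ)) z := diffAt_of hU hcs hz
  have hne : cx (nV w μ G τ) z ≠ 0 := by
    unfold cx
    exact_mod_cast h0.ne'
  have dinv : DifferentiableAt ℝ (fun y => (cx (nV w μ G τ) y)⁻¹) z := dcx.inv hne
  have dDb : DifferentiableAt ℝ (Db u (cx (nV w μ G τ))) z :=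
    diffAt_of hU (contDiffOn_Db hU h.kf.su hcs) hz
  have h4 : Dd u (fun y => (cx (nV w μ G τ) y)⁻¹) z
      = -(Dd u (cx (nV w μ G τ)) z * (cx (nV w μ G τ) z)⁻¹ * (cx (nV w μ G τ) z)⁻¹) := by
    have h5 : (fun y => cx (nV w μ G τ) y * (cx (nV w μ G τ) y)⁻¹) =ᶠ[𝓝 z] fun _ => (1 : ℂ) := by
      filter_upwards [hVo.mem_nhds hzV] with y hy
      refine mul_inv_cancel₀ ?_
      unfold cx
      exact_mod_cast ne_of_gt hy.2
    have h6 := Dd_congr (u := u) h5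
    rw [Dd_mul dcx dinv, Dd_const] at h6
    have h7 : Dd u (fun y => (cx (nV w μ G τ) y)⁻¹) z
        = (cx (nV w μ G τ) z)⁻¹ * (cx (nV w μ G τ) z
          * Dd u (fun y => (cx (nV w μ G τ) y)⁻¹) z) := by
      rw [← mul_assoc, inv_mul_cancel₀ hne, one_mul]
    have h8 : cx (nV w μ G τ) z * Dd u (fun y => (cx (nV w μ G τ) y)⁻¹) z
        = -(Dd u (cx (nV w μ G τ)) z * (cx (nV w μ G τ) z)⁻¹) := by
      linear_combination h6
    rw [h7, h8]
    ring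
  have h9 : Db u (cx (nV w μ G τ)) z = conj (Dd u (cx (nV w μ G τ)) z) := secL_Db_cx dcx
  rw [Dd_congr h3, Dd_mul dinv dDb, h4, TnA_DdDb h hτ hd hz, h9, h.Dd_nV hτ hd hz]
  set r := nV w μ G τ z with hr
  have hcr : cx (nV w μ G τ) z = (r : ℂ) := rfl
  have hct : cx (nV w μ G (nt u w μ B τ)) z = ((nV w μ G (nt u w μ B τ) z : ℝ) : ℂ) := rfl
  rw [hcr, hct]
  set t := nV w μ G (nt u w μ B τ) z with ht
  set s := ∑ K, ∑ L, G K L z * (nt u w μ B τ K z * conj (τ L z)) with hs'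
  set x := Real.exp (-(μ * w z)) with hx
  have hx0 : 0 < x := Real.exp_pos _
  have hq : 0 < (TnA_q (fun K L => G K L z) (fun K => τ K z) (fun K => τ K z)).re := by
    have h10 : (TnA_q (fun K L => G K L z) (fun K => τ K z) (fun K => τ K z)).re * x = r := rfl
    exact (pos_iff_pos_of_mul_pos (by rw [h10]; exact h0)).2 hx0
  have hcs' := TnA_cs (h.psd z hz) (σ := fun K => nt u w μ B τ K z) hq
  have hrt : Complex.normSq s * x ^ 2 ≤ r * t := by
    have h11 : r * t = (TnA_q (fun K L => G K L z) (fun K => τ K z) (fun K => τ K z)).re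
      * (TnA_q (fun K L => G K L z) (fun K => nt u w μ B τ K z)
        (fun K => nt u w μ B τ K z)).re * x ^ 2 := by
      rw [hr, ht]
      unfold nV
      rw [← hx]
      unfold TnA_q
      ring
    rw [h11]
    exact mul_le_mul_of_nonneg_right hcs' (by positivity)
  have hr0 : (r : ℂ) ≠ 0 := by exact_mod_cast h0.ne'
  have h12 : -(s * (x : ℂ) * (r : ℂ)⁻¹ * (r : ℂ)⁻¹) * conj (s * (x : ℂ)) + (r : ℂ)⁻¹ * (t : ℂ)
      = (((r * t - Complex.normSq s * x ^ 2) / r ^ 2 : ℝ) : ℂ) := by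
    rw [map_mul, Complex.conj_ofReal]
    push_cast
    rw [← Complex.mul_conj s]
    field_simp
    ring
  rw [h12, Complex.ofReal_re]
  exact div_nonneg (by linarith) (by positivity)

end Pool.Agent.CYF
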