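import Pool.Agent.CYF.DefsT
import Pool.Agent.CYF.TnA
import Pool.Agent.CYF.Syx

/-!
The tensor powers of the Levi form satisfy `Lf` if the kernel field is holomorphic.

PROOF. `G_KL = ∏_a F_(K_a L_a)`, `B_KL = ∑_a E_(K_a L_a) [K_b = L_b for all b ≠ a]`. `D G_KL = ∑_a (D F_(K_a L_a)) ∏_{b ≠ a} …
= - ∑_a ∑_j E_(j K_a) F_(j L_a) ∏_{b≠a} F_(K_b L_b)` (`KF.Dd_F`) and in `∑_J B_JK G_JL` the sum over `J` with `J_b = K_b`
(`b ≠ a`), `J_a = j` gives the same (`Function.update K a j`). `D̄ E = - M M̄ = 0` (`KF.Db_E`). psd: `F = C^* C`, so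
`∏_a F_(K_a L_a) = ∑_J conj (∏ C_(J_a K_a)) ∏ C_(J_a L_a)` (`Finset.prod_univ_sum`).
-/

open scoped ContDiff ComplexConjugate Topology ComplexOrder
open Complex Matrix

namespace Pool.Agent.CYF

variable {n : ℕ} {z : E n} {w : E n → ℝ} {m : Fin n} {U : Set (E n)} {u : Fin n → E n → ℂ}

/-- tensor power of the Levi matrix -/
noncomputable def tG (w : E n → ℝ) {p : ℕ} (K L : Fin p → Fin n) (z : E n) : ℂ :=
  ∏ a, LM w z (K a) (L a)

/-- action of `E` on tensors as a derivation -/
noncomputable def tB (u : Fin n → E n → ℂ) {p : ℕ} (K L : Fin p → Fin n) (z : E n) : ℂ :=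
  ∑ a, if ∀ b, b ≠ a → K b = L b then Ex u z (K a) (L a) else 0

private theorem tnb_fact {F : Matrix (Fin n) (Fin n) ℂ} (hF : F.PosSemidef) : ∃ B : Matrix (Fin n) (Fin n) ℂ, F = star B * B := by
  open scoped MatrixOrder in
  have h := CStarAlgebra.nonneg_iff_eq_star_mul_self.mp (Matrix.nonneg_iff_posSemidef.2 hF)
  exact h

theorem tG_psd {F : Matrix (Fin n) (Fin n) ℂ} (hF : F.PosSemidef) (p : ℕ) :
    (Matrix.of fun K L : Fin p → Fin n => ∏ a, F (K a) (L a)).PosSemidef := by
  obtain ⟨B, hB⟩ := tnb_fact hF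
  rw [Matrix.star_eq_conjTranspose] at hB
  have h : (Matrix.of fun K L : Fin p → Fin n => ∏ a, F (K a) (L a))
      = (Matrix.of fun J K : Fin p → Fin n => ∏ a, B (J a) (K a))ᴴ
        * (Matrix.of fun J K : Fin p → Fin n => ∏ a, B (J a) (K a)) := by
    ext K L
    rw [Matrix.mul_apply]
    simp only [Matrix.of_apply, Matrix.conjTranspose_apply, hB, Matrix.mul_apply]
    rw [Finset.prod_univ_sum]
    simp only [Fintype.piFinset_univ]
    refine Finset.sum_congr rfl fun J _ => ?_
    rw [Finset.prod_mul_distrib, star_prod]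
  rw [h]
  exact Matrix.posSemidef_conjTranspose_mul_self _

private theorem diff_prod {κ : Type*} [DecidableEq κ] (s : Finset κ) (f : κ → E n → ℂ)
    (hf : ∀ a, DifferentiableAt ℝ (f a) z) :
    DifferentiableAt ℝ (fun y => ∏ a ∈ s, f a y) z := by
  induction s using Finset.induction_on with
  | empty => simp
  | insert a s ha ih =>
    simp only [Finset.prod_insert ha]
    exact (hf a).mul ih

private theorem Dd_prod {κ : Type*} [DecidableEq κ] (s : Finset κ) (f : κ → E n → ℂ)
    (hf : ∀ a, DifferentiableAt ℝ (f a) z) :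
    Dd u (fun y => ∏ a ∈ s, f a y) z = ∑ a ∈ s, Dd u (f a) z * ∏ b ∈ s.erase a, f b z := by
  induction s using Finset.induction_on with
  | empty =>
    simp only [Finset.prod_empty, Finset.sum_empty]
    exact Dd_const 1
  | insert a s ha ih =>
    simp only [Finset.prod_insert ha]
    rw [Dd_mul (hf a) (diff_prod s f hf), ih, Finset.sum_insert ha, Finset.erase_insert ha,
      Finset.mul_sum]
    congr 1
    refine Finset.sum_congr rfl fun c hc => ?_
    have hca : c ≠ a := fun h => ha (h ▸ hc)
    rw [Finset.erase_insert_of_ne hca.symm, Finset.prod_insert (fun h => ha (Finset.mem_of_mem_erase h))]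
    ring

private theorem smooth_prod {κ : Type*} [DecidableEq κ] (s : Finset κ) (f : κ → E n → ℂ)
    (hf : ∀ a, ContDiffOn ℝ ∞ (f a) U) :
    ContDiffOn ℝ ∞ (fun y => ∏ a ∈ s, f a y) U := by
  induction s using Finset.induction_on with
  | empty => simpa using contDiffOn_const
  | insert a s ha ih =>
    simp only [Finset.prod_insert ha]
    exact (hf a).mul ih

theorem lf_tensor (h : KF w m U u) (hM : ∀ z ∈ U, Mx u z = 0) (p : ℕ) :
    Lf w m U u (fun K L : Fin p → Fin n => tG w K L) (fun K L => tB u K L) := by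
  have hU := h.isOpen
  have hLM : ∀ k l, ContDiffOn ℝ ∞ (fun y => LM w y k l) U := fun k l =>
    contDiffOn_pk hU (contDiffOn_pb hU (contDiffOn_cx h.sw) l) k
  have hE : ∀ k j, ContDiffOn ℝ ∞ (fun y => Ex u y k j) U := fun k j =>
    contDiffOn_Ex hU h.su k j
  refine ⟨h, ?_, ?_, ?_, ?_, ?_⟩
  · intro K L
    exact smooth_prod Finset.univ (fun a y => LM w y (K a) (L a)) fun a => hLM _ _
  · intro K L
    show ContDiffOn ℝ ∞ (fun y => ∑ a, if ∀ b, b ≠ a → K b = L b then Ex u y (K a) (L a) else 0) U
    refine ContDiffOn.sum fun a _ => ?_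
    by_cases hc : ∀ b, b ≠ a → K b = L b
    · simp only [if_pos hc]
      exact hE _ _
    · simp only [if_neg hc]
      exact contDiffOn_const
  · intro z hz K L
    have hd : ∀ a : Fin p, DifferentiableAt ℝ (fun y => LM w y (K a) (L a)) z := fun a =>
      diffAt_of hU (hLM _ _) hz
    have h1 : Dd u (tG w K L) z = ∑ a, Dd u (fun y => LM w y (K a) (L a)) z
        * ∏ b ∈ Finset.univ.erase a, LM w z (K b) (L b) :=
      Dd_prod Finset.univ (fun a y => LM w y (K a) (L a)) hd
    rw [h1]
    have h2 : ∑ J : Fin p → Fin n, tB u J K z * tG w J L z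
        = ∑ a, ∑ J : Fin p → Fin n, (if ∀ b, b ≠ a → J b = K b then
          Ex u z (J a) (K a) * ∏ b, LM w z (J b) (L b) else 0) := by
      rw [Finset.sum_comm]
      refine Finset.sum_congr rfl fun J _ => ?_
      unfold tB tG
      rw [Finset.sum_mul]
      refine Finset.sum_congr rfl fun a _ => ?_
      rw [ite_mul, zero_mul]
    rw [h2, ← Finset.sum_neg_distrib]
    refine Finset.sum_congr rfl fun a _ => ?_
    rw [h.Dd_F hz, neg_mul, Finset.sum_mul, ← Finset.sum_filter]
    congr 1
    refine Finset.sum_nbij' (fun j => Function.update K a j) (fun J => J a) ?_ ?_ ?_ ?_ ?_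
    · intro j _
      simp only [Finset.mem_filter, Finset.mem_univ, true_and]
      intro b hb
      exact Function.update_of_ne hb _ _
    · intro J _
      exact Finset.mem_univ _
    · intro j _
      exact Function.update_self _ _ _
    · intro J hJ
      simp only [Finset.mem_filter, Finset.mem_univ, true_and] at hJ
      funext b
      by_cases hb : b = a
      · subst hb
        exact Function.update_self _ _ _
      · show Function.update K a (J a) b = J b
        rw [Function.update_of_ne hb, hJ b hb]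
    · intro j _
      show Ex u z j (K a) * LM w z j (L a) * ∏ b ∈ Finset.univ.erase a, LM w z (K b) (L b)
        = Ex u z (Function.update K a j a) (K a) * ∏ b, LM w z (Function.update K a j b) (L b)
      rw [← Finset.mul_prod_erase Finset.univ _ (Finset.mem_univ a), Function.update_self,
        mul_assoc]
      congr 2
      refine Finset.prod_congr rfl fun b hb => ?_
      rw [Function.update_of_ne (Finset.ne_of_mem_erase hb)]
  · intro z hz K L
    have hEd : ∀ k j, DifferentiableAt ℝ (fun y => Ex u y k j) z := fun k j =>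
      diffAt_of hU (hE k j) hz
    have h1 : Db u (tB u K L) z = ∑ a, Db u (fun y =>
        if ∀ b, b ≠ a → K b = L b then Ex u y (K a) (L a) else 0) z := by
      refine Db_sum Finset.univ (fun a y =>
        if ∀ b, b ≠ a → K b = L b then Ex u y (K a) (L a) else 0) fun a _ => ?_
      by_cases hc : ∀ b, b ≠ a → K b = L b
      · simp only [if_pos hc]
        exact hEd _ _
      · simp only [if_neg hc]
        exact differentiableAt_const _
    rw [h1]
    refine Finset.sum_eq_zero fun a _ => ?_
    by_cases hc : ∀ b, b ≠ a → K b = L b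
    · simp only [if_pos hc]
      rw [h.Db_E hz, hM z hz]
      simp
    · simp only [if_neg hc]
      exact Db_const 0
  · intro z hz
    exact tG_psd (h.psd z hz) p

theorem tn_eq_nV (w : E n → ℝ) {p : ℕ} (μ : ℝ) (τ : (Fin p → Fin n) → E n → ℂ) :
    tn w μ τ = nV w μ (fun K L : Fin p → Fin n => tG w K L) τ := by
  funext z
  rfl

end Pool.Agent.CYF
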