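import Pool.Agent.CYF.Inv

/-!
Finite cover by coordinate balls and comparison of the traces of the adjugates.

PROOF of `exists_cover`: for `x : X` take `i`, `c ∈ dom i` with `p i c = x`, and `r > 0` with
`nn c z ≤ r² → z ∈ dom i` (`‖z_k - c_k‖ ≤ r` for all `k`, sup norm ball). The sets
`p i '' {z | nn c z < (r/2)²}` are open (`isOpen_image`) and cover `X`: finite subcover.

`cc_of`: the data `Cc` for a change of charts: `TT γ z p k = fderiv ℂ γ z (e k) p`, `levi_eq_sum`.
-/

open scoped ContDiff ComplexConjugate Topology ComplexOrder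
open Complex Matrix

namespace Pool.Agent.CYF

variable {n : ℕ} {X : Type*} [TopologicalSpace X] {ι : Type*} {A : Orb n X ι}

/-- squared euclidean distance -/
noncomputable def nn (c z : E n) : ℝ := ∑ k, ‖z k - c k‖ ^ 2

/-- a coordinate ball -/
structure Bl (A : Orb n X ι) where
  /-- chart -/
  i : ι
  /-- center -/
  c : E n
  /-- radius -/
  r : ℝ
  pos : 0 < r
  sub : ∀ z, nn c z ≤ r ^ 2 → z ∈ A.dom i

theorem lm_psd (η : NullForm A) {i : ι} {z : E n} (hz : z ∈ A.dom i) :
    (lm (η.w i) z).PosSemidef := by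
  have hw := (η.smooth i).contDiffAt ((A.dom_open i).mem_nhds hz)
  have hherm : (lm (η.w i) z).IsHermitian := by
    ext k l
    rw [conjTranspose_apply]
    exact LM_conj (A.dom_open i) (η.smooth i) hz l k
  refine Matrix.PosSemidef.of_dotProduct_mulVec_nonneg hherm fun x => ?_
  have h1 : star x ⬝ᵥ (lm (η.w i) z *ᵥ x)
      = levi (η.w i) z (fun k => conj (x k)) (fun k => conj (x k)) := by
    rw [levi_eq_sum hw]
    simp only [dotProduct, mulVec, Finset.mul_sum]
    refine Finset.sum_congr rfl fun k _ => Finset.sum_congr rfl fun l _ => ?_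
    have h2 : lm (η.w i) z k l = LM (η.w i) z k l := rfl
    rw [h2, Pi.star_apply, Complex.star_def, Complex.conj_conj]
    ring
  rw [Complex.le_def]
  refine ⟨?_, ?_⟩
  · rw [h1]
    exact η.nonneg i z hz _
  · have h3 := hherm.im_star_dotProduct_mulVec_self x
    rw [Complex.zero_im]
    exact h3.symm

theorem cc_of (hA : A.UnitaryCanonical) (η : NullForm A) {i j : ι} {O : Set (E n)}
    {γ : E n → E n} (h : A.IsChange i j O γ) : Cc (η.w i) (η.w j) O (A.dom j) γ := by
  have hmem : ∀ z ∈ O, γ z ∈ A.dom j := fun z hz => h.maps hz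
  refine
    { isOpen := h.isOpen
      isOpen' := A.dom_open j
      hol := h.hol
      maps := hmem
      sw := (η.smooth i).mono h.sub
      sv := η.smooth j
      det := ?_
      lev := ?_
      psd := fun z hz => lm_psd η hz
      psd' := fun z hz => lm_psd η (h.sub hz)
      sing := fun z hz => η.det_eq_zero j z hz
      sing' := fun z hz => η.det_eq_zero i z (h.sub hz) }
  · intro z hz
    have h1 : (Matrix.of (TT γ z)) = LinearMap.toMatrix' (fderiv ℂ γ z : E n →ₗ[ℂ] E n) := by
      ext p k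
      rw [LinearMap.toMatrix'_apply]
      rfl
    rw [h1, LinearMap.det_toMatrix']
    exact hA i j O γ h z hz
  · intro z hz k l
    have h1 := η.compat i j O γ h z hz (e k) (e l)
    have hw := (η.smooth j).contDiffAt ((A.dom_open j).mem_nhds (hmem z hz))
    have h2 : LM (η.w i) z k l = levi (η.w i) z (e k) (e l) := rfl
    rw [h2, ← h1, levi_eq_sum hw]
    rfl

private theorem geo_open (c : E n) (r : ℝ) : IsOpen {z : E n | nn c z < r} := by
  unfold nn
  exact isOpen_lt (by fun_prop) continuous_const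

private theorem geo_le (c z : E n) (k : Fin n) : ‖z k - c k‖ ^ 2 ≤ nn c z :=
  Finset.single_le_sum (f := fun k => ‖z k - c k‖ ^ 2) (fun _ _ => sq_nonneg _)
    (Finset.mem_univ k)

private theorem geo_ball {c z : E n} {r : ℝ} (hr : 0 ≤ r) (h : nn c z ≤ r ^ 2) :
    z ∈ Metric.closedBall c r := by
  rw [mem_closedBall_iff_norm, pi_norm_le_iff_of_nonneg hr]
  intro k
  have h1 := (geo_le c z k).trans h
  exact abs_le_of_sq_le_sq' h1 hr |>.2

theorem exists_cover [CompactSpace X] (A : Orb n X ι) :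
    ∃ (N : ℕ) (b : Fin N → Bl A), ∀ x : X, ∃ a, ∃ z, nn (b a).c z < ((b a).r / 2) ^ 2 ∧
      A.p (b a).i z = x := by
  classical
  have h1 : ∀ x : X, ∃ b : Bl A, A.p b.i b.c = x := by
    intro x
    obtain ⟨i, c, hc, hx⟩ := A.cover x
    obtain ⟨r, hr, hball⟩ := Metric.nhds_basis_closedBall.mem_iff.1 ((A.dom_open i).mem_nhds hc)
    exact ⟨⟨i, c, r, hr, fun z hz => hball (geo_ball hr.le hz)⟩, hx⟩
  choose b hb using h1
  let U : X → Set X := fun x =>
    A.p (b x).i '' {z | nn (b x).c z < ((b x).r / 2) ^ 2}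
  have hsub : ∀ x, {z | nn (b x).c z < ((b x).r / 2) ^ 2} ⊆ A.dom (b x).i := by
    intro x z hz
    have hz' : nn (b x).c z < ((b x).r / 2) ^ 2 := hz
    refine (b x).sub z (hz'.le.trans ?_)
    have := (b x).pos
    nlinarith
  have hU : ∀ x, IsOpen (U x) := fun x => A.isOpen_image _ _ (hsub x) (geo_open _ _)
  have hxU : ∀ x, x ∈ U x := by
    intro x
    refine ⟨(b x).c, ?_, hb x⟩
    have h2 : nn (b x).c (b x).c = 0 := by
      unfold nn
      simp
    show nn (b x).c (b x).c < ((b x).r / 2) ^ 2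
    rw [h2]
    have := (b x).pos
    positivity
  obtain ⟨t, ht⟩ := CompactSpace.elim_nhds_subcover U (fun x => (hU x).mem_nhds (hxU x))
  refine ⟨t.card, fun a => b (t.equivFin.symm a : X), fun x => ?_⟩
  have h2 : x ∈ ⋃ y ∈ t, U y := by rw [ht]; trivial
  simp only [Set.mem_iUnion] at h2
  obtain ⟨y, hy, hx⟩ := h2
  obtain ⟨z, hz, hzx⟩ := hx
  refine ⟨t.equivFin ⟨y, hy⟩, z, ?_, ?_⟩
  · simpa using hz
  · simpa using hzx

theorem isCompact_ball (c : E n) (r : ℝ) : IsCompact {z | nn c z ≤ r ^ 2} := by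
  refine (isCompact_closedBall c |r|).of_isClosed_subset ?_ ?_
  · unfold nn
    exact isClosed_le (by fun_prop) continuous_const
  · intro z hz
    have hz' : nn c z ≤ r ^ 2 := hz
    exact geo_ball (abs_nonneg r) (by rw [sq_abs]; exact hz')

end Pool.Agent.CYF
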