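import Pool.Agent.CYF.DefsT
import Pool.Agent.CYF.Geo

/-!
The norm function of a tensor is a bounded function on `X`.

PROOF. `tn_inv`: `levi (w i) z a b = levi (w j) (γ z) (Dγ a) (Dγ b)` (`η.compat`); with `T p k = Dγ(e_k)_p`:
`∏_a levi (w i) z (e (K a)) (e (L a)) = ∏_a ∑_(p,q) T p (K a) conj (T q (L a)) levi (w j) (γ z) (e p) (e q)`, expand the product
(`Finset.prod_univ_sum`), and `τ j K' (γ z) = g ∑_L (∏ T (K' a) (L a)) τ i L z`, `‖g‖² exp(-m w j) = exp(-m w i)`.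
`tn_bound`: finite cover (`exists_cover`), `tn` is continuous on the compact balls, every point of every chart is over
a point of a half ball (`A.lift`, `tn_inv`).
-/

open scoped ContDiff ComplexConjugate Topology ComplexOrder
open Complex Matrix

namespace Pool.Agent.CYF

variable {n : ℕ} {X : Type*} [TopologicalSpace X] {ι : Type*} {A : Orb n X ι}

theorem tn_smooth (η : NullForm A) {p : ℕ} {m : ℝ} {τ : ι → (Fin p → Fin n) → E n → ℂ}
    (hτ : η.IsTensor p m τ) (i : ι) : ContDiffOn ℝ ∞ (tn (η.w i) m (τ i)) (A.dom i) := by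
  have hw := η.smooth i
  have h1 : ∀ K, ContDiffOn ℝ ∞ (τ i K) (A.dom i) := fun K => (hτ.hol i K).restrict_scalars ℝ
  have hc : ∀ L, ContDiffOn ℝ ∞ (fun z => conj (τ i L z)) (A.dom i) := fun L =>
    Complex.conjCLE.contDiff.comp_contDiffOn (h1 L)
  have h2 : ContDiffOn ℝ ∞ (fun z => ∑ K : Fin p → Fin n, ∑ L : Fin p → Fin n,
      (∏ a, levi (η.w i) z (e (K a)) (e (L a))) * (τ i K z * conj (τ i L z))) (A.dom i) := by
    refine ContDiffOn.sum fun K _ => ContDiffOn.sum fun L _ => ?_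
    refine ContDiffOn.mul ?_ ((h1 K).mul (hc L))
    exact contDiffOn_prod fun a _ => contDiffOn_LM (A.dom_open i) hw (K a) (L a)
  have h3 := Complex.reCLM.contDiff.comp_contDiffOn h2
  exact h3.mul ((contDiffOn_const.mul hw).neg.exp)

/-- expansion of a product of double sums -/
private theorem prod_sum_sum {p : ℕ} (f : Fin p → Fin n → Fin n → ℂ) :
    ∏ a, ∑ k, ∑ l, f a k l
      = ∑ K : Fin p → Fin n, ∑ L : Fin p → Fin n, ∏ a, f a (K a) (L a) := by
  rw [Finset.prod_univ_sum, Fintype.piFinset_univ]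
  refine Finset.sum_congr rfl fun K _ => ?_
  rw [Finset.prod_univ_sum, Fintype.piFinset_univ]

private theorem tn_alg {p : ℕ} (F : Fin n → Fin n → ℂ) (T : Fin n → Fin n → ℂ) (g : ℂ)
    (x y : (Fin p → Fin n) → ℂ) (hy : ∀ K, y K = g * ∑ L, (∏ a, T (K a) (L a)) * x L) :
    ∑ K : Fin p → Fin n, ∑ L : Fin p → Fin n, (∏ a, F (K a) (L a)) * (y K * conj (y L))
      = (g * conj g) * ∑ K : Fin p → Fin n, ∑ L : Fin p → Fin n,
        (∏ a, ∑ r, ∑ s, T r (K a) * conj (T s (L a)) * F r s) * (x K * conj (x L)) := by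
  have h1 : ∀ K L : Fin p → Fin n, (∏ a, F (K a) (L a)) * (y K * conj (y L))
      = ∑ K' : Fin p → Fin n, ∑ L' : Fin p → Fin n, (g * conj g) *
        ((∏ a, T (K a) (K' a) * conj (T (L a) (L' a)) * F (K a) (L a))
          * (x K' * conj (x L'))) := by
    intro K L
    have e1 : (∑ K' : Fin p → Fin n, (∏ a, T (K a) (K' a)) * x K')
          * (∑ L' : Fin p → Fin n, conj ((∏ a, T (L a) (L' a)) * x L'))
        = ∑ K' : Fin p → Fin n, ∑ L' : Fin p → Fin n,
          ((∏ a, T (K a) (K' a)) * x K') * conj ((∏ a, T (L a) (L' a)) * x L') :=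
      Finset.sum_mul_sum _ _ _ _
    have e2 : (∏ a, F (K a) (L a)) * (y K * conj (y L))
        = ((∏ a, F (K a) (L a)) * (g * conj g))
          * ((∑ K' : Fin p → Fin n, (∏ a, T (K a) (K' a)) * x K')
          * (∑ L' : Fin p → Fin n, conj ((∏ a, T (L a) (L' a)) * x L'))) := by
      rw [hy K, hy L, map_mul, map_sum]
      ring
    rw [e2, e1, Finset.mul_sum]
    refine Finset.sum_congr rfl fun K' _ => ?_
    rw [Finset.mul_sum]
    refine Finset.sum_congr rfl fun L' _ => ?_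
    rw [Finset.prod_mul_distrib, Finset.prod_mul_distrib, map_mul, map_prod]
    ring
  have h2 : ∀ K' L' : Fin p → Fin n,
      (∏ a, ∑ r, ∑ s, T r (K' a) * conj (T s (L' a)) * F r s) * (x K' * conj (x L'))
      = ∑ K : Fin p → Fin n, ∑ L : Fin p → Fin n,
        ((∏ a, T (K a) (K' a) * conj (T (L a) (L' a)) * F (K a) (L a))
          * (x K' * conj (x L'))) := by
    intro K' L'
    rw [prod_sum_sum (fun a r s => T r (K' a) * conj (T s (L' a)) * F r s), Finset.sum_mul]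
    refine Finset.sum_congr rfl fun K _ => ?_
    rw [Finset.sum_mul]
  simp_rw [h1, h2, Finset.mul_sum]
  calc _ = ∑ K : Fin p → Fin n, ∑ K' : Fin p → Fin n, ∑ L : Fin p → Fin n, ∑ L' : Fin p → Fin n,
        (g * conj g) * ((∏ a, T (K a) (K' a) * conj (T (L a) (L' a)) * F (K a) (L a))
          * (x K' * conj (x L'))) := Finset.sum_congr rfl fun K _ => Finset.sum_comm
    _ = ∑ K' : Fin p → Fin n, ∑ K : Fin p → Fin n, ∑ L : Fin p → Fin n, ∑ L' : Fin p → Fin n,
        (g * conj g) * ((∏ a, T (K a) (K' a) * conj (T (L a) (L' a)) * F (K a) (L a))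
          * (x K' * conj (x L'))) := Finset.sum_comm
    _ = ∑ K' : Fin p → Fin n, ∑ K : Fin p → Fin n, ∑ L' : Fin p → Fin n, ∑ L : Fin p → Fin n,
        (g * conj g) * ((∏ a, T (K a) (K' a) * conj (T (L a) (L' a)) * F (K a) (L a))
          * (x K' * conj (x L'))) :=
        Finset.sum_congr rfl fun K' _ => Finset.sum_congr rfl fun K _ => Finset.sum_comm
    _ = _ := Finset.sum_congr rfl fun K' _ => Finset.sum_comm

theorem tn_inv (η : NullForm A) {p : ℕ} {m : ℝ} {τ : ι → (Fin p → Fin n) → E n → ℂ}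
    (hτ : η.IsTensor p m τ) {i j : ι} {O : Set (E n)} {γ : E n → E n} (hγ : A.IsChange i j O γ)
    {z : E n} (hz : z ∈ O) : tn (η.w j) m (τ j) (γ z) = tn (η.w i) m (τ i) z := by
  obtain ⟨g, hg, hK⟩ := hτ.trans i j O γ hγ z hz
  have hwj : ContDiffAt ℝ ∞ (η.w j) (γ z) :=
    (η.smooth j).contDiffAt ((A.dom_open j).mem_nhds (hγ.maps hz))
  have hF : ∀ k l : Fin n, levi (η.w i) z (e k) (e l)
      = ∑ r, ∑ s, TT γ z r k * conj (TT γ z s l) * levi (η.w j) (γ z) (e r) (e s) := by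
    intro k l
    rw [← η.compat i j O γ hγ z hz (e k) (e l), levi_eq_sum hwj]
    rfl
  have h1 := tn_alg (fun r s => levi (η.w j) (γ z) (e r) (e s)) (TT γ z) g
    (fun L => τ i L z) (fun K => τ j K (γ z)) hK
  have h2 : g * conj g = ((‖g‖ ^ 2 : ℝ) : ℂ) := by
    rw [Complex.mul_conj, Complex.normSq_eq_norm_sq]
  unfold tn
  beta_reduce at h1
  rw [h1, h2, Complex.re_ofReal_mul, mul_right_comm, hg, mul_comm (Real.exp _)]
  simp_rw [hF]

theorem tn_bound [CompactSpace X] (η : NullForm A) {p : ℕ} {m : ℝ}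
    {τ : ι → (Fin p → Fin n) → E n → ℂ} (hτ : η.IsTensor p m τ) :
    ∃ R : ℝ, ∀ i, ∀ z ∈ A.dom i, tn (η.w i) m (τ i) z ≤ R := by
  obtain ⟨N, b, hb⟩ := exists_cover A
  have h1 : ∀ a : Fin N, ∃ R : ℝ, ∀ z, nn (b a).c z ≤ (b a).r ^ 2 →
      tn (η.w (b a).i) m (τ (b a).i) z ≤ R := by
    intro a
    have hc : ContinuousOn (tn (η.w (b a).i) m (τ (b a).i)) {z | nn (b a).c z ≤ (b a).r ^ 2} :=
      (tn_smooth η hτ (b a).i).continuousOn.mono (b a).sub
    obtain ⟨R, hR⟩ := (isCompact_ball (b a).c (b a).r).bddAbove_image hc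
    exact ⟨R, fun z hz => hR ⟨z, hz, rfl⟩⟩
  choose R hR using h1
  refine ⟨∑ a, |R a|, fun i z hz => ?_⟩
  obtain ⟨a, z', hz', hx⟩ := hb (A.p i z)
  have hr : nn (b a).c z' ≤ (b a).r ^ 2 := by
    have := (b a).pos
    nlinarith
  obtain ⟨O, γ, hzO, hγ, hγz⟩ := A.lift (b a).i i z' z ((b a).sub z' hr) hz hx
  have h2 := tn_inv η hτ hγ hzO
  rw [hγz] at h2
  rw [h2]
  refine (hR a z' hr).trans ((le_abs_self _).trans ?_)
  exact Finset.single_le_sum (f := fun a => |R a|) (fun c _ => abs_nonneg _) (Finset.mem_univ a)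

end Pool.Agent.CYF
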