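import Pool.Agent.CYF.Fin
import Pool.Agent.CYF.TnB
import Pool.Agent.CYF.TnC

/-!
The Bochner principle for tensors along the kernel.

PROOF. First `M = 0`: as in `Fin.lean`, `Kf (η.w i) m z = 0` on `Um` (copy `fK`, `fK_zero` from `Fin.lean`, where they are
private), so `kk = 0` and `pos_zero` give `Mx (fun k => uu (η.w i) m k) z = 0` (compare `hol_of_Kf` in `Lgk.lean`), `mx_zero`.
Then `liouville` for `f i z = lp (η.w i) V z * exp (V z)`, `V = tn (η.w i) m (τ i)`, as in `lp_N_zero` of `Fin.lean`: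
on `Um`, `lp V = ρ nV(nt τ)` (`lp_eq_D`, `Lf.nV_LM`, `tn_eq_nV`), `D̄ τ = 0` (`secL_Db_hol`), `lp (log (lp V)) = lp (log ρ) +
ρ (D D̄ log W) ≥ 0` (`lp_log_rho`, `Kf_nonneg`, `Lf.nV_log` for `τ' = nt τ`, `Lf.Db_nt`), `lp (log f) ≥ lp V ≥ exp(-R) f`.
So `lp V = 0`, `W = 0`, `D V = 0` (`Lf.Dd_zero`), and a kernel vector is `a = a_m u` (`ker_eq` in `Fin.lean`).
-/

open scoped ContDiff ComplexConjugate Topology ComplexOrder
open Complex Matrix

namespace Pool.Agent.CYF

variable {n : ℕ} {X : Type*} [TopologicalSpace X] {ι : Type*} {A : Orb n X ι}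

private theorem reg_exists (η : NullForm A) {i : ι} {z : E n} (hz : η.Reg i z) :
    ∃ m, z ∈ Um (η.w i) m (A.dom i) := by
  obtain ⟨m, hm⟩ := adj_diag (lm_psd η hz.1) hz.2
  exact ⟨m, hz.1, hm⟩

private theorem reg_of_Um (η : NullForm A) {i : ι} {z : E n} {m : Fin n}
    (hz : z ∈ Um (η.w i) m (A.dom i)) : η.Reg i z := by
  refine ⟨hz.1, fun h => hz.2 ?_⟩
  show (lm (η.w i) z).adjugate m m = 0
  rw [h]
  rfl

private theorem kf (η : NullForm A) (i : ι) (m : Fin n) :
    KF (η.w i) m (Um (η.w i) m (A.dom i)) (fun k => uu (η.w i) m k) :=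
  kf_of (A.dom_open i) (η.smooth i) (fun _ hz => lm_psd η hz) (fun z hz => η.det_eq_zero i z hz) m

private theorem ker_sum (η : NullForm A) {i : ι} {z : E n} (hz : z ∈ A.dom i) (a : E n)
    (ha : η.Ker i z a) (l : Fin n) : ∑ k, a k * LM (η.w i) z k l = 0 := by
  have hw : ContDiffAt ℝ ∞ (η.w i) z := (η.smooth i).contDiffAt ((A.dom_open i).mem_nhds hz)
  have h := ha (e l)
  rw [levi_eq_sum hw] at h
  rw [← h]
  refine Finset.sum_congr rfl fun k _ => ?_
  rw [Finset.sum_eq_single l]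
  · simp [e]
  · intro b _ hb
    simp [e, hb]
  · intro hl
    exact absurd (Finset.mem_univ l) hl

private theorem ker_eq (η : NullForm A) {i : ι} {z : E n} {m : Fin n}
    (hz : z ∈ Um (η.w i) m (A.dom i)) (a : E n) (ha : η.Ker i z a) (k : Fin n) :
    a k = a m * uu (η.w i) m k z :=
  adj_ker (F := lm (η.w i) z) (η.det_eq_zero i z hz.1) hz.2
    (fun l => ker_sum η hz.1 a ha l) k

private theorem ker_uu (η : NullForm A) {i : ι} {z : E n} {m : Fin n}
    (hz : z ∈ Um (η.w i) m (A.dom i)) :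
    η.Ker i z (fun k => uu (η.w i) m k z) := by
  intro b
  have hw : ContDiffAt ℝ ∞ (η.w i) z := (η.smooth i).contDiffAt ((A.dom_open i).mem_nhds hz.1)
  rw [levi_eq_sum hw, Finset.sum_comm]
  refine Finset.sum_eq_zero fun l _ => ?_
  have h := (kf η i m).ker z hz l
  have h2 : ∑ k, uu (η.w i) m k z * conj (b l) * LM (η.w i) z k l
      = conj (b l) * ∑ k, uu (η.w i) m k z * LM (η.w i) z k l := by
    rw [Finset.mul_sum]
    refine Finset.sum_congr rfl fun k _ => ?_
    ring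
  rw [h2, h, mul_zero]

private theorem rho_pos (η : NullForm A) {i : ι} {z : E n} {j : Fin n}
    (hz : z ∈ Um (η.w i) j (A.dom i)) : 0 < (rho (η.w i) j z).re := by
  obtain ⟨h1, h2⟩ := adj_diag_real (lm_psd η hz.1) j
  rcases h2.lt_or_eq with h3 | h3
  · exact h3
  · exact absurd (Complex.ext h3.symm h1) hz.2

theorem mx_zero [CompactSpace X] [T2Space X] (hA : A.UnitaryCanonical) (η : NullForm A) {i : ι}
    {m : Fin n} {z : E n} (hz : z ∈ Um (η.w i) m (A.dom i)) :
    Mx (fun k => uu (η.w i) m k) z = 0 := by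
  obtain ⟨O, hO, hzO, hOs, u, hu, hk⟩ := partA hA η i z (reg_of_Um η hz)
  have hkf := kf η i m
  have h1 : ∀ y ∈ O, y ∈ Um (η.w i) m (A.dom i) →
      u y m ≠ 0 ∧ ∀ k, uu (η.w i) m k y = u y k / u y m := by
    intro y hy hy'
    obtain ⟨c, hc⟩ := ((hk y hy).2 (fun k => uu (η.w i) m k y)).1 (ker_uu η hy')
    have h2 : uu (η.w i) m m y = c * u y m := congrFun hc m
    have h2' : uu (η.w i) m m y = 1 := hkf.one y hy'
    rw [h2'] at h2
    have h3 : u y m ≠ 0 := by
      intro h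
      rw [h, mul_zero] at h2
      exact one_ne_zero h2
    refine ⟨h3, fun k => ?_⟩
    have h4 : uu (η.w i) m k y = c * u y k := congrFun hc k
    rw [eq_div_iff h3]
    linear_combination (u y m) * h4 - (u y k) * h2
  ext k j
  show pb j (fun y => uu (η.w i) m k y) z = 0
  have h5 : (fun y => uu (η.w i) m k y) =ᶠ[𝓝 z] fun y => u y k / u y m := by
    filter_upwards [hO.mem_nhds hzO, hkf.isOpen.mem_nhds hz] with y hy hy'
    exact (h1 y hy hy').2 k
  have h6 : DifferentiableAt ℂ (fun y => u y k / u y m) z := by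
    have h7 := differentiableAt_pi.1 (hu.differentiableAt (hO.mem_nhds hzO))
    simp only [div_eq_mul_inv]
    exact (h7 k).mul ((h7 m).inv (h1 z hzO hz).1)
  rw [pb_congr h5]
  exact d01_of_diff h6 _

section loc

variable [CompactSpace X] [T2Space X]

/-- the abstract setting for tensors -/
private theorem lf (hA : A.UnitaryCanonical) (η : NullForm A) (i : ι) (j : Fin n) (p : ℕ) :
    Lf (η.w i) j (Um (η.w i) j (A.dom i)) (fun k => uu (η.w i) j k)
      (fun K L : Fin p → Fin n => tG (η.w i) K L)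
      (fun K L : Fin p → Fin n => tB (fun k => uu (η.w i) j k) K L) :=
  lf_tensor (kf η i j) (fun _ hz => mx_zero hA η hz) p

/-- the square of the norm of the covariant derivative -/
private noncomputable def Ww (η : NullForm A) {p : ℕ} (m : ℝ) (τ : ι → (Fin p → Fin n) → E n → ℂ)
    (i : ι) (j : Fin n) : E n → ℝ :=
  nV (η.w i) m (fun K L : Fin p → Fin n => tG (η.w i) K L)
    (nt (fun k => uu (η.w i) j k) (η.w i) m
      (fun K L : Fin p → Fin n => tB (fun k => uu (η.w i) j k) K L) (τ i))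

variable {p : ℕ} {m : ℝ} {τ : ι → (Fin p → Fin n) → E n → ℂ}

omit [CompactSpace X] [T2Space X] in
private theorem smooth_τ (η : NullForm A) (hτ : η.IsTensor p m τ) (i : ι) (j : Fin n)
    (K : Fin p → Fin n) : ContDiffOn ℝ ∞ (τ i K) (Um (η.w i) j (A.dom i)) :=
  ((hτ.hol i K).restrict_scalars ℝ).mono fun _ hz => hz.1

omit [CompactSpace X] [T2Space X] in
private theorem Db_τ (η : NullForm A) (hτ : η.IsTensor p m τ) (i : ι) (j : Fin n) :
    ∀ z ∈ Um (η.w i) j (A.dom i), ∀ K, Db (fun k => uu (η.w i) j k) (τ i K) z = 0 :=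
  fun _ hz K => secL_Db_hol
    (((hτ.hol i K).contDiffAt ((A.dom_open i).mem_nhds hz.1)).differentiableAt (by simp))

private theorem Ww_nonneg (hA : A.UnitaryCanonical) (η : NullForm A)
    {i : ι} {j : Fin n} {z : E n} (hz : z ∈ Um (η.w i) j (A.dom i)) : 0 ≤ Ww η m τ i j z :=
  (lf hA η i j p).nV_nonneg hz

private theorem smooth_Ww (hA : A.UnitaryCanonical) (η : NullForm A) (hτ : η.IsTensor p m τ)
    (i : ι) (j : Fin n) : ContDiffOn ℝ ∞ (Ww η m τ i j) (Um (η.w i) j (A.dom i)) :=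
  (lf hA η i j p).smooth_nV ((lf hA η i j p).smooth_nt (smooth_τ η hτ i j))

private theorem lp_tn (hA : A.UnitaryCanonical) (η : NullForm A) (hτ : η.IsTensor p m τ)
    {i : ι} {j : Fin n} {z : E n} (hz : z ∈ Um (η.w i) j (A.dom i)) :
    lp (η.w i) (tn (η.w i) m (τ i)) z = (rho (η.w i) j z).re * Ww η m τ i j z := by
  have h := (lf hA η i j p).nV_LM (μ := m) (smooth_τ η hτ i j) (Db_τ η hτ i j) hz
  rw [lp_eq_D (lm_psd η hz.1) (η.det_eq_zero i z hz.1) hz.2, tn_eq_nV, h, Complex.re_mul_ofReal]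
  rfl

private theorem lp_log_Ww (hA : A.UnitaryCanonical) (η : NullForm A) (hτ : η.IsTensor p m τ)
    {i : ι} {j : Fin n} {z : E n} (hz : z ∈ Um (η.w i) j (A.dom i)) (h0 : 0 < Ww η m τ i j z) :
    0 ≤ lp (η.w i) (fun y => Real.log (Ww η m τ i j y)) z := by
  have hL := lf hA η i j p
  have h := hL.nV_log (μ := m) (hL.smooth_nt (smooth_τ η hτ i j))
    (fun y hy K => hL.Db_nt (smooth_τ η hτ i j) (Db_τ η hτ i j) hy K) hz h0
  obtain ⟨h1, h2⟩ := adj_diag_real (lm_psd η hz.1) j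
  have h3 : (rho (η.w i) j z) = (((rho (η.w i) j z).re : ℝ) : ℂ) := by
    apply Complex.ext
    · simp
    · rw [Complex.ofReal_im]
      exact h1
  rw [lp_eq_D (lm_psd η hz.1) (η.det_eq_zero i z hz.1) hz.2, h3, Complex.re_ofReal_mul]
  exact mul_nonneg (rho_pos η hz).le h

private theorem lp_log_lp (hA : A.UnitaryCanonical) (η : NullForm A) (hτ : η.IsTensor p m τ)
    {i : ι} {j : Fin n} {z : E n} (hz : z ∈ Um (η.w i) j (A.dom i))
    (h0 : 0 < lp (η.w i) (tn (η.w i) m (τ i)) z) :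
    0 ≤ lp (η.w i) (fun y => Real.log (lp (η.w i) (tn (η.w i) m (τ i)) y)) z := by
  rw [lp_tn hA η hτ hz] at h0
  have hW : 0 < Ww η m τ i j z := (pos_iff_pos_of_mul_pos h0).1 (rho_pos η hz)
  have hN : Um (η.w i) j (A.dom i) ∈ 𝓝 z := (kf η i j).isOpen.mem_nhds hz
  have c1 : ContDiffAt ℝ ∞ (Ww η m τ i j) z := (smooth_Ww hA η hτ i j).contDiffAt hN
  have c2 : ContDiffAt ℝ ∞ (fun y => (rho (η.w i) j y).re) z :=
    (contDiffOn_rho_re (A.dom_open i) (η.smooth i) j).contDiffAt ((A.dom_open i).mem_nhds hz.1)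
  have hev : (fun y => Real.log (lp (η.w i) (tn (η.w i) m (τ i)) y)) =ᶠ[𝓝 z]
      fun y => Real.log (rho (η.w i) j y).re + Real.log (Ww η m τ i j y) := by
    filter_upwards [hN, c1.continuousAt.eventually (lt_mem_nhds hW)] with y hy hy'
    rw [lp_tn hA η hτ hy, Real.log_mul (rho_pos η hy).ne' hy'.ne']
  rw [lp_congr hev, lp_add (c2.log (rho_pos η hz).ne') (c1.log hW.ne'),
    lp_log_rho (A.dom_open i) (η.smooth i) (fun _ hz => lm_psd η hz)
      (fun z hz => η.det_eq_zero i z hz) hz]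
  have h1 := Kf_nonneg (A.dom_open i) (η.smooth i) (fun _ hz => lm_psd η hz)
      (fun z hz => η.det_eq_zero i z hz) hz
  have h2 := lp_log_Ww hA η hτ hz hW
  linarith

private theorem lp_tn_zero (hA : A.UnitaryCanonical) (η : NullForm A) (hτ : η.IsTensor p m τ) :
    ∀ i z, η.Reg i z → lp (η.w i) (tn (η.w i) m (τ i)) z = 0 := by
  obtain ⟨R, hR⟩ := tn_bound η hτ
  have hs := tn_smooth η hτ
  have hlps : ∀ i, ContDiffOn ℝ ∞ (lp (η.w i) (tn (η.w i) m (τ i))) (A.dom i) := fun i =>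
    contDiffOn_lp (A.dom_open i) (η.smooth i) (hs i)
  have hnn : ∀ i z, η.Reg i z → 0 ≤ lp (η.w i) (tn (η.w i) m (τ i)) z := by
    intro i z hz
    obtain ⟨j, hj⟩ := reg_exists η hz
    rw [lp_tn hA η hτ hj]
    exact mul_nonneg (rho_pos η hj).le (Ww_nonneg hA η hj)
  have key := liouville hA η
    (fun i z => lp (η.w i) (tn (η.w i) m (τ i)) z * Real.exp (tn (η.w i) m (τ i) z))
    (Real.exp_pos (-R)) ?_ ?_ ?_ ?_
  · intro i z hz
    have h := key i z hz
    exact (mul_eq_zero.1 h).resolve_right (Real.exp_pos _).ne'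
  · intro i z hz
    exact mul_nonneg (hnn i z hz) (Real.exp_pos _).le
  · intro i j O γ hγ z hz hr
    have h1 : tn (η.w i) m (τ i) =ᶠ[𝓝 z] fun y => tn (η.w j) m (τ j) (γ y) := by
      filter_upwards [hγ.isOpen.mem_nhds hz] with y hy
      exact (tn_inv η hτ hγ hy).symm
    have h2 : lp (η.w i) (tn (η.w i) m (τ i)) z = lp (η.w j) (tn (η.w j) m (τ j)) (γ z) := by
      rw [lp_congr h1]
      exact (cc_of hA η hγ).lp_chg (hs j) hz
    have h3 : tn (η.w i) m (τ i) z = tn (η.w j) m (τ j) (γ z) := h1.eq_of_nhds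
    rw [h2, h3]
  · intro i z hz
    have h1 := ((hlps i).contDiffAt ((A.dom_open i).mem_nhds hz.1)).continuousAt
    have h2 := ((hs i).contDiffAt ((A.dom_open i).mem_nhds hz.1)).continuousAt
    exact h1.mul h2.rexp
  · intro i z hz h0
    obtain ⟨j, hj⟩ := reg_exists η hz
    have c1 := (hlps i).contDiffAt ((A.dom_open i).mem_nhds hz.1)
    have c2 := (hs i).contDiffAt ((A.dom_open i).mem_nhds hz.1)
    refine ⟨c1.mul c2.exp, ?_⟩
    have hp : 0 < lp (η.w i) (tn (η.w i) m (τ i)) z := by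
      by_contra h
      have h1 : lp (η.w i) (tn (η.w i) m (τ i)) z = 0 := le_antisymm (not_lt.1 h) (hnn i z hz)
      rw [h1, zero_mul] at h0
      exact lt_irrefl _ h0
    have hev : (fun y => Real.log (lp (η.w i) (tn (η.w i) m (τ i)) y
        * Real.exp (tn (η.w i) m (τ i) y))) =ᶠ[𝓝 z]
        fun y => Real.log (lp (η.w i) (tn (η.w i) m (τ i)) y) + tn (η.w i) m (τ i) y := by
      filter_upwards [c1.continuousAt.eventually (lt_mem_nhds hp)] with y hy
      rw [Real.log_mul hy.ne' (Real.exp_pos _).ne', Real.log_exp]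
    rw [lp_congr hev, lp_add (c1.log hp.ne') c2]
    have h1 := lp_log_lp hA η hτ hj hp
    have h2 : Real.exp (-R) * (lp (η.w i) (tn (η.w i) m (τ i)) z
        * Real.exp (tn (η.w i) m (τ i) z)) ≤ lp (η.w i) (tn (η.w i) m (τ i)) z := by
      have h3 : Real.exp (-R) * Real.exp (tn (η.w i) m (τ i) z) ≤ 1 := by
        rw [← Real.exp_add]
        exact Real.exp_le_one_iff.2 (by linarith [hR i z hz.1])
      calc Real.exp (-R) * (lp (η.w i) (tn (η.w i) m (τ i)) z
            * Real.exp (tn (η.w i) m (τ i) z))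
          = lp (η.w i) (tn (η.w i) m (τ i)) z
            * (Real.exp (-R) * Real.exp (tn (η.w i) m (τ i) z)) := by ring
        _ ≤ lp (η.w i) (tn (η.w i) m (τ i)) z * 1 := mul_le_mul_of_nonneg_left h3 hp.le
        _ = _ := mul_one _
    linarith

end loc

theorem partC [CompactSpace X] [T2Space X] (hA : A.UnitaryCanonical) (η : NullForm A) {p : ℕ}
    {m : ℝ} {τ : ι → (Fin p → Fin n) → E n → ℂ} (hτ : η.IsTensor p m τ) (i : ι) (z : E n)
    (hz : η.Reg i z) (a : E n) (ha : η.Ker i z a) :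
    d10 (fun y => (tn (η.w i) m (τ i) y : ℂ)) z a = 0 := by
  obtain ⟨j, hj⟩ := reg_exists η hz
  have h1 := lp_tn_zero hA η hτ i z hz
  rw [lp_tn hA η hτ hj] at h1
  have h2 : Ww η m τ i j z = 0 := (mul_eq_zero.1 h1).resolve_left (rho_pos η hj).ne'
  have h3 := (lf hA η i j p).Dd_zero (μ := m) (smooth_τ η hτ i j) (Db_τ η hτ i j) hj h2
  rw [← tn_eq_nV] at h3
  have h4 : (fun y => (tn (η.w i) m (τ i) y : ℂ)) = cx (tn (η.w i) m (τ i)) := rfl
  have h5 : ∀ f : E n → ℂ, d10 f z a = a j * Dd (fun k => uu (η.w i) j k) f z := by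
    intro f
    rw [d10_eq_sum]
    unfold Dd
    rw [Finset.mul_sum]
    refine Finset.sum_congr rfl fun k _ => ?_
    rw [ker_eq η hj a ha k]
    ring
  rw [h4, h5, h3, mul_zero]

end Pool.Agent.CYF
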