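import Pool.Agent.CYF.Geo

/-!
Comparison of the traces of the adjugates.

PROOF of `exists_comp`: the set `B = {z | nn b.c z ≤ r²}` is compact. Every `z0 ∈ B` has a neighbourhood on which a
constant works. Case 1: there is no `z0' ∈ dom b'.i` with `p z0' = p z0`: then `p b.i z0` is not in the compact
(so closed, `X` is Hausdorff) set `p b'.i '' {z' | nn b'.c z' ≤ (r'/2)²}`, and by continuity of `p b.i` no `z` near `z0` has
a partner `z'`. Case 2: `z0' ∈ dom b'.i`, `p z0' = p z0`: take a change `γ` near `z0` (`A.lift`) and the finite set `G` of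
`A.fin b'.i`. If `z` is near `z0` and `p z = p z'`, then `p (γ z) = p z'`, so `z' = g (γ z)` with `g ∈ G`; `g ∘ γ` is a
change, and `Cc.tr_le` applies with `φ = g ∘ γ`; the inverse Jacobian of `g ∘ γ` is bounded near `z0` (it is
continuous at `z0`: the determinant has absolute value 1), finitely many `g`.
-/

open scoped ContDiff ComplexConjugate Topology ComplexOrder
open Complex Matrix

namespace Pool.Agent.CYF

variable {n : ℕ} {X : Type*} [TopologicalSpace X] {ι : Type*} {A : Orb n X ι}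

private theorem GeoC_tr_nonneg (η : NullForm A) {i : ι} {z : E n} (hz : z ∈ A.dom i) :
    0 ≤ tr (η.w i) z := by
  have h := adj_psd (lm_psd η hz)
  unfold tr
  rw [Complex.re_sum]
  refine Finset.sum_nonneg fun k _ => ?_
  have h1 : 0 ≤ (lm (η.w i) z).adjugate k k := h.diag_nonneg
  exact (Complex.le_def.1 h1).1

/-- sum of the norms of the entries of the adjugate of the Jacobian matrix -/
private noncomputable def GeoC_f (φ : E n → E n) (z : E n) : ℝ :=
  ∑ p, ∑ k, ‖(Matrix.of (TT φ z)).adjugate p k‖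

private theorem GeoC_f_le (φ : E n → E n) (z : E n) (p k : Fin n) :
    ‖(Matrix.of (TT φ z)).adjugate p k‖ ≤ GeoC_f φ z := by
  unfold GeoC_f
  refine le_trans ?_ (Finset.single_le_sum
    (f := fun p => ∑ k, ‖(Matrix.of (TT φ z)).adjugate p k‖)
    (fun _ _ => Finset.sum_nonneg fun _ _ => norm_nonneg _) (Finset.mem_univ p))
  exact Finset.single_le_sum (f := fun k => ‖(Matrix.of (TT φ z)).adjugate p k‖)
    (fun _ _ => norm_nonneg _) (Finset.mem_univ k)

private theorem GeoC_f_nonneg (φ : E n → E n) (z : E n) : 0 ≤ GeoC_f φ z :=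
  Finset.sum_nonneg fun _ _ => Finset.sum_nonneg fun _ _ => norm_nonneg _

private theorem GeoC_f_cont {φ : E n → E n} {O : Set (E n)} (hO : IsOpen O)
    (hφ : ContDiffOn ℂ ∞ φ O) {z : E n} (hz : z ∈ O) : ContinuousAt (GeoC_f φ) z := by
  have h2 : ContDiffAt ℂ ∞ (fderiv ℂ φ) z :=
    (hφ.contDiffAt (hO.mem_nhds hz)).fderiv_right (m := ∞) (by simp)
  have hT : ContinuousAt (fun y => Matrix.of (TT φ y)) z := by
    refine continuousAt_pi.2 fun p => continuousAt_pi.2 fun k => ?_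
    have h3 : ContinuousAt (fun y => fderiv ℂ φ y (e k)) z :=
      (h2.clm_apply contDiffAt_const).continuousAt
    exact (continuousAt_pi.1 h3 p)
  have hA : Continuous fun M : Matrix (Fin n) (Fin n) ℂ => M.adjugate :=
    continuous_id.matrix_adjugate
  have hAz : ContinuousAt (fun y => (Matrix.of (TT φ y)).adjugate) z :=
    hA.continuousAt.comp hT
  unfold GeoC_f
  refine tendsto_finsetSum _ fun p _ => tendsto_finsetSum _ fun k _ => ?_
  exact (continuousAt_pi.1 (continuousAt_pi.1 hAz p) k).norm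

private theorem GeoC_inv_le {φ : E n → E n} {z : E n} (hd : ‖(Matrix.of (TT φ z)).det‖ = 1)
    (p k : Fin n) : ‖(Matrix.of (TT φ z))⁻¹ p k‖ ≤ GeoC_f φ z := by
  have h0 : (Matrix.of (TT φ z)).det ≠ 0 := by
    intro h
    rw [h, norm_zero] at hd
    exact zero_ne_one hd
  rw [Matrix.inv_def, Matrix.smul_apply, Ring.inverse_eq_inv', smul_eq_mul, norm_mul, norm_inv, hd,
    inv_one, one_mul]
  exact GeoC_f_le φ z p k

private theorem GeoC_local [CompactSpace X] [T2Space X] (hA : A.UnitaryCanonical)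
    (η : NullForm A) (b b' : Bl A) {z0 : E n} (hz0 : nn b.c z0 ≤ b.r ^ 2) :
    ∃ N ∈ 𝓝 z0, ∃ C : ℝ, 0 ≤ C ∧ ∀ z ∈ N, ∀ z', nn b'.c z' ≤ (b'.r / 2) ^ 2 →
      A.p b.i z = A.p b'.i z' → tr (η.w b.i) z ≤ C * tr (η.w b'.i) z' := by
  have hr : (b'.r / 2) ^ 2 ≤ b'.r ^ 2 := by
    have := b'.pos
    nlinarith
  have hdom0 : z0 ∈ A.dom b.i := b.sub z0 hz0
  by_cases hex : ∃ z0' ∈ A.dom b'.i, A.p b.i z0 = A.p b'.i z0'
  · obtain ⟨z0', hz0', hp⟩ := hex
    obtain ⟨O, γ, hzO, hl, -⟩ := A.lift b.i b'.i z0 z0' hdom0 hz0' hp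
    obtain ⟨G, hG, hGl, hGs⟩ := A.fin b'.i
    have hch : ∀ g ∈ G, A.IsChange b.i b'.i O (fun y => g (γ y)) := by
      intro g hg
      refine ⟨hl.isOpen, hl.sub, (hGl g hg).hol.comp hl.hol hl.maps, ?_, ?_⟩
      · intro y hy
        exact (hGl g hg).maps (hl.maps hy)
      · intro y hy
        rw [(hGl g hg).comm _ (hl.maps hy)]
        exact hl.comm y hy
    obtain ⟨B, hB'⟩ := (hG.image fun g => GeoC_f (fun y => g (γ y)) z0 + 1).bddAbove
    have hB : ∀ g ∈ G, GeoC_f (fun y => g (γ y)) z0 + 1 ≤ B := fun g hg =>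
      hB' (Set.mem_image_of_mem _ hg)
    have hev : ∀ᶠ z in 𝓝 z0, ∀ g ∈ G, GeoC_f (fun y => g (γ y)) z < B := by
      rw [Filter.eventually_all_finite hG]
      intro g hg
      have hc := GeoC_f_cont (hch g hg).isOpen (hch g hg).hol hzO
      exact hc.eventually_lt continuousAt_const (by have := hB g hg; linarith)
    have hO : ∀ᶠ z in 𝓝 z0, z ∈ O := hl.isOpen.mem_nhds hzO
    refine ⟨_, hev.and hO, (n : ℝ) ^ 3 * B ^ 2, by positivity, ?_⟩
    rintro z ⟨hzB, hzO'⟩ z' hz' hpz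
    have hz'd : z' ∈ A.dom b'.i := b'.sub z' (hz'.trans hr)
    obtain ⟨g, hg, hgz⟩ := hGs (γ z) (hl.maps hzO') z' hz'd ((hl.comm z hzO').trans hpz)
    have hcc := cc_of hA η (hch g hg)
    have h := hcc.tr_le hzO' (C := B) (fun p k =>
      (GeoC_inv_le (hcc.det z hzO') p k).trans (hzB g hg).le)
    rw [← hgz]
    exact h
  · have hK : IsCompact (A.p b'.i '' {z' | nn b'.c z' ≤ (b'.r / 2) ^ 2}) := by
      refine (isCompact_ball b'.c (b'.r / 2)).image_of_continuousOn ?_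
      exact (A.cont b'.i).mono fun y hy => b'.sub y (le_trans hy hr)
    have hnot : A.p b.i z0 ∉ A.p b'.i '' {z' | nn b'.c z' ≤ (b'.r / 2) ^ 2} := by
      rintro ⟨z', hz', hpz⟩
      exact hex ⟨z', b'.sub z' (le_trans hz' hr), hpz.symm⟩
    have hc : ContinuousAt (A.p b.i) z0 :=
      (A.cont b.i).continuousAt ((A.dom_open b.i).mem_nhds hdom0)
    have hN := hc.preimage_mem_nhds (hK.isClosed.isOpen_compl.mem_nhds hnot)
    refine ⟨_, hN, 0, le_refl _, ?_⟩
    intro z hz z' hz' hpz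
    exact absurd ⟨z', hz', hpz.symm⟩ hz

theorem exists_comp [CompactSpace X] [T2Space X] (hA : A.UnitaryCanonical) (η : NullForm A)
    (b b' : Bl A) : ∃ C : ℝ, 0 ≤ C ∧ ∀ z z', nn b.c z ≤ b.r ^ 2 → nn b'.c z' ≤ (b'.r / 2) ^ 2 →
      A.p b.i z = A.p b'.i z' → tr (η.w b.i) z ≤ C * tr (η.w b'.i) z' := by
  have hr : (b'.r / 2) ^ 2 ≤ b'.r ^ 2 := by
    have := b'.pos
    nlinarith
  have key : ∃ C : ℝ, 0 ≤ C ∧ ∀ z ∈ {z | nn b.c z ≤ b.r ^ 2}, ∀ z', nn b'.c z' ≤ (b'.r / 2) ^ 2 →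
      A.p b.i z = A.p b'.i z' → tr (η.w b.i) z ≤ C * tr (η.w b'.i) z' := by
    refine (isCompact_ball b.c b.r).induction_on
      (p := fun S => ∃ C : ℝ, 0 ≤ C ∧ ∀ z ∈ S, ∀ z', nn b'.c z' ≤ (b'.r / 2) ^ 2 →
        A.p b.i z = A.p b'.i z' → tr (η.w b.i) z ≤ C * tr (η.w b'.i) z') ?_ ?_ ?_ ?_
    · exact ⟨0, le_refl _, fun z hz => absurd hz (Set.notMem_empty z)⟩
    · rintro S T hST ⟨C, hC, h⟩
      exact ⟨C, hC, fun z hz => h z (hST hz)⟩
    · rintro S T ⟨C, hC, h⟩ ⟨C', hC', h'⟩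
      refine ⟨C + C', add_nonneg hC hC', ?_⟩
      intro z hz z' hz' hp
      have h0 : 0 ≤ tr (η.w b'.i) z' := GeoC_tr_nonneg η (b'.sub z' (hz'.trans hr))
      have h1 := mul_nonneg hC h0
      have h2 := mul_nonneg hC' h0
      rw [add_mul]
      rcases hz with hz | hz
      · have := h z hz z' hz' hp
        linarith
      · have := h' z hz z' hz' hp
        linarith
    · intro z0 hz0
      obtain ⟨N, hN, C, hC, h⟩ := GeoC_local hA η b b' hz0
      exact ⟨N, mem_nhdsWithin_of_mem_nhds hN, C, hC, h⟩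
  obtain ⟨C, hC, h⟩ := key
  exact ⟨C, hC, fun z z' hz hz' hp => h z hz z' hz' hp⟩

end Pool.Agent.CYF
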