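import Pool.Agent.CYF.Adj
import Pool.Agent.CYF.Dca

/-!
The operators `lp w g = Re ∑ ad_lk ∂_k ∂̄_l g` and `gr w g = Re ∑ ad_lk ∂_k g conj (∂_l g)` for smooth real `g`.

PROOFS. `F = lm w z` is positive semidefinite with `det F = 0`, so `ad_lk = (R R^*)_lk` is positive
semidefinite (`adj_psd`): `Re ∑ ad_lk a_k conj a_l ≥ 0` and `≤ (tr ad) ∑ |a_k|²`.
`lp_congr`, `lp_add`, `lp_const_mul`: `LM_congr`, `LM_add`, `LM_const_mul`.
`lp_log`: `∂_k ∂̄_l log g = (∂_k ∂̄_l g)/g - ∂_k g ∂̄_l g / g²` and `∂̄_l g = conj (∂_l g)` (`pk_cx`).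
-/

open scoped ContDiff ComplexConjugate Topology ComplexOrder
open Complex Matrix

namespace Pool.Agent.CYF

variable {n : ℕ} {z : E n} {w g h : E n → ℝ}

/-- the hermitian form of the adjugate -/
private noncomputable def Lpx_Q (w : E n → ℝ) (z : E n) (a : Fin n → ℂ) : ℝ :=
  (∑ k, ∑ l, ad w z l k * (a k * conj (a l))).re

private theorem Lpx_Q_eq (w : E n → ℝ) (z : E n) (a : Fin n → ℂ) :
    ∑ k, ∑ l, ad w z l k * (a k * conj (a l)) = star a ⬝ᵥ (ad w z *ᵥ a) := by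
  rw [Finset.sum_comm]
  simp only [dotProduct, Matrix.mulVec, Finset.mul_sum, Pi.star_apply]
  refine Finset.sum_congr rfl fun l _ => Finset.sum_congr rfl fun k _ => ?_
  have h : star (a l) = conj (a l) := rfl
  rw [h]
  ring

private theorem Lpx_fact {A : Matrix (Fin n) (Fin n) ℂ} (hF : A.PosSemidef) :
    ∃ B : Matrix (Fin n) (Fin n) ℂ, A = star B * B := by
  open scoped MatrixOrder in
  have h := CStarAlgebra.nonneg_iff_eq_star_mul_self.mp (Matrix.nonneg_iff_posSemidef.2 hF)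
  exact h

theorem quad_nonneg (hF : (lm w z).PosSemidef) (a : Fin n → ℂ) :
    0 ≤ (∑ k, ∑ l, ad w z l k * (a k * conj (a l))).re := by
  rw [Lpx_Q_eq]
  have h := (adj_psd hF).dotProduct_mulVec_nonneg a
  exact (Complex.le_def.1 h).1

theorem quad_le (hF : (lm w z).PosSemidef) (a : Fin n → ℂ) :
    (∑ k, ∑ l, ad w z l k * (a k * conj (a l))).re ≤ tr w z * ∑ k, ‖a k‖ ^ 2 := by
  obtain ⟨B, hB⟩ := Lpx_fact (adj_psd hF)
  have hA : ∀ l k, ad w z l k = ∑ i, conj (B i l) * B i k := by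
    intro l k
    unfold ad
    rw [hB, Matrix.mul_apply]
    rfl
  have h1 : ∑ k, ∑ l, ad w z l k * (a k * conj (a l))
      = ∑ i, (∑ k, B i k * a k) * conj (∑ k, B i k * a k) := by
    have h2 : ∀ i, (∑ k, B i k * a k) * conj (∑ k, B i k * a k)
        = ∑ k, ∑ l, conj (B i l) * B i k * (a k * conj (a l)) := by
      intro i
      rw [map_sum, Finset.sum_mul_sum]
      refine Finset.sum_congr rfl fun k _ => Finset.sum_congr rfl fun l _ => ?_
      rw [map_mul]
      ring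
    simp only [h2]
    conv_rhs => rw [Finset.sum_comm]
    refine Finset.sum_congr rfl fun k _ => ?_
    conv_rhs => rw [Finset.sum_comm]
    refine Finset.sum_congr rfl fun l _ => ?_
    rw [hA, Finset.sum_mul]
  have h3 : tr w z = ∑ i, ∑ k, ‖B i k‖ ^ 2 := by
    unfold tr
    have h4 : ∑ k, ad w z k k = ((∑ i, ∑ k, ‖B i k‖ ^ 2 : ℝ) : ℂ) := by
      push_cast
      rw [Finset.sum_comm]
      refine Finset.sum_congr rfl fun k _ => ?_
      rw [hA]
      refine Finset.sum_congr rfl fun i _ => ?_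
      rw [mul_comm, Complex.mul_conj, Complex.normSq_eq_norm_sq]
      push_cast
      rfl
    rw [h4, Complex.ofReal_re]
  rw [h1, h3, Complex.re_sum, Finset.sum_mul]
  refine Finset.sum_le_sum fun i _ => ?_
  rw [Complex.mul_conj, Complex.ofReal_re, Complex.normSq_eq_norm_sq]
  have h5 : ‖∑ k, B i k * a k‖ ≤ ∑ k, ‖B i k‖ * ‖a k‖ := by
    refine (norm_sum_le _ _).trans (le_of_eq ?_)
    refine Finset.sum_congr rfl fun k _ => norm_mul _ _
  calc ‖∑ k, B i k * a k‖ ^ 2 ≤ (∑ k, ‖B i k‖ * ‖a k‖) ^ 2 :=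
        pow_le_pow_left₀ (norm_nonneg _) h5 2
    _ ≤ (∑ k, ‖B i k‖ ^ 2) * ∑ k, ‖a k‖ ^ 2 := Finset.sum_mul_sq_le_sq_mul_sq _ _ _

theorem tr_eq (w : E n → ℝ) (z : E n) : tr w z = ∑ m, (rho w m z).re := by
  unfold tr rho
  rw [Complex.re_sum]

theorem tr_nonneg (hF : (lm w z).PosSemidef) : 0 ≤ tr w z := by
  rw [tr_eq]
  exact Finset.sum_nonneg fun m _ => (adj_diag_real hF m).2

theorem rho_le_tr (hF : (lm w z).PosSemidef) (m : Fin n) : (rho w m z).re ≤ tr w z := by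
  rw [tr_eq]
  exact Finset.single_le_sum (f := fun m => (rho w m z).re)
    (fun m _ => (adj_diag_real hF m).2) (Finset.mem_univ m)

theorem lp_congr (hg : g =ᶠ[𝓝 z] h) : lp w g z = lp w h z := by
  unfold lp
  simp only [LM_congr hg]

private theorem Lpx_diff {g : E n → ℝ} (hg : ContDiffAt ℝ ∞ g z) :
    DifferentiableAt ℝ g z := hg.differentiableAt (by simp)

private theorem Lpx_diff_ev {g : E n → ℝ} (hg : ContDiffAt ℝ ∞ g z) :
    ∀ᶠ y in 𝓝 z, DifferentiableAt ℝ g y := by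
  have h1 : ContDiffAt ℝ 1 g z := hg.of_le (by exact_mod_cast le_top)
  filter_upwards [h1.eventually (by simp)] with y hy
  exact hy.differentiableAt (by simp)

private theorem Lpx_fd {g : E n → ℝ} (hg : DifferentiableAt ℝ g z) (a : E n) :
    fderiv ℝ (cx g) z a = ((fderiv ℝ g z a : ℝ) : ℂ) := by
  have h : HasFDerivAt (cx g) (Complex.ofRealCLM.comp (fderiv ℝ g z)) z :=
    Complex.ofRealCLM.hasFDerivAt.comp z hg.hasFDerivAt
  rw [h.fderiv]
  rfl

private theorem Lpx_cxd {g : E n → ℝ} (hg : DifferentiableAt ℝ g z) :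
    DifferentiableAt ℝ (cx g) z :=
  (Complex.ofRealCLM.differentiableAt).comp z hg

private theorem Lpx_chain {g : E n → ℝ} {φ : ℝ → ℝ} {c : ℝ} (hφ : HasDerivAt φ c (g z))
    (hg : DifferentiableAt ℝ g z) (a : E n) :
    fderiv ℝ (cx fun y => φ (g y)) z a = (c : ℂ) * fderiv ℝ (cx g) z a := by
  have h1 : HasFDerivAt (fun y => φ (g y)) (c • fderiv ℝ g z) z :=
    hφ.comp_hasFDerivAt z hg.hasFDerivAt
  rw [Lpx_fd h1.differentiableAt, Lpx_fd hg, h1.fderiv]
  simp

private theorem Lpx_pk_chain {g : E n → ℝ} {φ : ℝ → ℝ} {c : ℝ} (hφ : HasDerivAt φ c (g z))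
    (hg : DifferentiableAt ℝ g z) (k : Fin n) :
    pk k (cx fun y => φ (g y)) z = (c : ℂ) * pk k (cx g) z := by
  unfold pk d10
  rw [Lpx_chain hφ hg, Lpx_chain hφ hg]
  ring

private theorem Lpx_pb_chain {g : E n → ℝ} {φ : ℝ → ℝ} {c : ℝ} (hφ : HasDerivAt φ c (g z))
    (hg : DifferentiableAt ℝ g z) (k : Fin n) :
    pb k (cx fun y => φ (g y)) z = (c : ℂ) * pb k (cx g) z := by
  unfold pb d01
  rw [Lpx_chain hφ hg, Lpx_chain hφ hg]
  ring

private theorem Lpx_pk_add {g h : E n → ℝ} (hg : DifferentiableAt ℝ g z)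
    (hh : DifferentiableAt ℝ h z) (k : Fin n) :
    pk k (cx fun y => g y + h y) z = pk k (cx g) z + pk k (cx h) z := by
  have h2 : cx (fun y => g y + h y) = fun y => cx g y + cx h y := by
    funext y; simp [cx]
  rw [h2]
  exact d10_add (Lpx_cxd hg) (Lpx_cxd hh)

private theorem Lpx_pb_add {g h : E n → ℝ} (hg : DifferentiableAt ℝ g z)
    (hh : DifferentiableAt ℝ h z) (k : Fin n) :
    pb k (cx fun y => g y + h y) z = pb k (cx g) z + pb k (cx h) z := by
  have h2 : cx (fun y => g y + h y) = fun y => cx g y + cx h y := by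
    funext y; simp [cx]
  rw [h2]
  exact d01_add (Lpx_cxd hg) (Lpx_cxd hh)

private theorem Lpx_LM_add (hg : ContDiffAt ℝ ∞ g z) (hh : ContDiffAt ℝ ∞ h z) (k l : Fin n) :
    LM (fun y => g y + h y) z k l = LM g z k l + LM h z k l := by
  rw [LM_eq, LM_eq, LM_eq]
  have h1 : pb l (cx fun y => g y + h y) =ᶠ[𝓝 z] fun y => pb l (cx g) y + pb l (cx h) y := by
    filter_upwards [Lpx_diff_ev hg, Lpx_diff_ev hh] with y hy hy'
    exact Lpx_pb_add hy hy' l
  rw [pk_congr h1]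
  exact d10_add (diff_pb_cx hg l) (diff_pb_cx hh l)

private theorem Lpx_mul_deriv (c x : ℝ) : HasDerivAt (fun t : ℝ => c * t) c x := by
  simpa using (hasDerivAt_id x).const_mul c

private theorem Lpx_LM_const_mul (hg : ContDiffAt ℝ ∞ g z) (c : ℝ) (k l : Fin n) :
    LM (fun y => c * g y) z k l = c * LM g z k l := by
  rw [LM_eq, LM_eq]
  have h1 : pb l (cx fun y => c * g y) =ᶠ[𝓝 z] fun y => (c : ℂ) * pb l (cx g) y := by
    filter_upwards [Lpx_diff_ev hg] with y hy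
    exact Lpx_pb_chain (φ := fun t => c * t) (Lpx_mul_deriv c (g y)) hy l
  rw [pk_congr h1]
  exact d10_const_mul (diff_pb_cx hg l) _

theorem lp_add (hg : ContDiffAt ℝ ∞ g z) (hh : ContDiffAt ℝ ∞ h z) :
    lp w (fun y => g y + h y) z = lp w g z + lp w h z := by
  unfold lp
  rw [← Complex.add_re, ← Finset.sum_add_distrib]
  congr 1
  refine Finset.sum_congr rfl fun k _ => ?_
  rw [← Finset.sum_add_distrib]
  refine Finset.sum_congr rfl fun l _ => ?_
  rw [Lpx_LM_add hg hh]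
  ring

theorem lp_const_mul (hg : ContDiffAt ℝ ∞ g z) (c : ℝ) :
    lp w (fun y => c * g y) z = c * lp w g z := by
  unfold lp
  rw [← Complex.re_ofReal_mul, Finset.mul_sum]
  congr 1
  refine Finset.sum_congr rfl fun k _ => ?_
  rw [Finset.mul_sum]
  refine Finset.sum_congr rfl fun l _ => ?_
  rw [Lpx_LM_const_mul hg]
  ring

private theorem Lpx_LM_log (hg : ContDiffAt ℝ ∞ g z) (h0 : 0 < g z) (k l : Fin n) :
    LM (fun y => Real.log (g y)) z k l
      = LM g z k l / g z - pk k (cx g) z * conj (pk l (cx g) z) / (g z) ^ 2 := by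
  rw [LM_eq, LM_eq]
  have hpos : ∀ᶠ y in 𝓝 z, 0 < g y := hg.continuousAt.eventually (lt_mem_nhds h0)
  have h1 : pb l (cx fun y => Real.log (g y)) =ᶠ[𝓝 z]
      fun y => cx (fun x => (g x)⁻¹) y * pb l (cx g) y := by
    filter_upwards [Lpx_diff_ev hg, hpos] with y hy hp
    have h2 := Lpx_pb_chain (φ := Real.log) (Real.hasDerivAt_log hp.ne') hy l
    exact h2
  have hd : DifferentiableAt ℝ g z := Lpx_diff hg
  have hinv : DifferentiableAt ℝ (cx fun x => (g x)⁻¹) z := Lpx_cxd (hd.inv h0.ne')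
  rw [pk_congr h1]
  have h3 : pk k (fun y => cx (fun x => (g x)⁻¹) y * pb l (cx g) y) z
      = pk k (cx fun x => (g x)⁻¹) z * pb l (cx g) z
        + cx (fun x => (g x)⁻¹) z * pk k (pb l (cx g)) z :=
    d10_mul hinv (diff_pb_cx hg l)
  have h4 : pk k (cx fun x => (g x)⁻¹) z = ((-((g z) ^ 2)⁻¹ : ℝ) : ℂ) * pk k (cx g) z :=
    Lpx_pk_chain (φ := fun t => t⁻¹) (hasDerivAt_inv h0.ne') hd k
  have h5 : conj (pk l (cx g) z) = pb l (cx g) z := by
    rw [pk_cx (Lpx_cxd hd), Complex.conj_conj]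
  rw [h3, h4, h5]
  have h6 : cx (fun x => (g x)⁻¹) z = ((g z : ℝ) : ℂ)⁻¹ := by
    unfold cx
    push_cast
    rfl
  rw [h6]
  push_cast
  have h7 : ((g z : ℝ) : ℂ) ≠ 0 := by exact_mod_cast h0.ne'
  field_simp
  ring

theorem lp_log (hg : ContDiffAt ℝ ∞ g z) (h0 : 0 < g z) :
    lp w (fun y => Real.log (g y)) z = lp w g z / g z - gr w g z / g z ^ 2 := by
  unfold lp gr
  have h7 : ((g z : ℝ) : ℂ) ≠ 0 := by exact_mod_cast h0.ne'
  have h1 : ∑ k, ∑ l, ad w z l k * LM (fun y => Real.log (g y)) z k l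
      = (∑ k, ∑ l, ad w z l k * LM g z k l) / ((g z : ℝ) : ℂ)
        - (∑ k, ∑ l, ad w z l k * (pk k (cx g) z * conj (pk l (cx g) z)))
          / (((g z) ^ 2 : ℝ) : ℂ) := by
    rw [Finset.sum_div, Finset.sum_div, ← Finset.sum_sub_distrib]
    refine Finset.sum_congr rfl fun k _ => ?_
    rw [Finset.sum_div, Finset.sum_div, ← Finset.sum_sub_distrib]
    refine Finset.sum_congr rfl fun l _ => ?_
    rw [Lpx_LM_log hg h0]
    push_cast
    ring
  rw [h1, Complex.sub_re, Complex.div_ofReal_re, Complex.div_ofReal_re]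

theorem gr_nonneg (hF : (lm w z).PosSemidef) : 0 ≤ gr w g z :=
  quad_nonneg hF fun k => pk k (cx g) z

theorem gr_add_le (hF : (lm w z).PosSemidef) (hg : ContDiffAt ℝ ∞ g z) (hh : ContDiffAt ℝ ∞ h z) :
    gr w (fun y => g y + h y) z ≤ 2 * gr w g z + 2 * gr w h z := by
  have h1 : gr w (fun y => g y + h y) z = (∑ k, ∑ l, ad w z l k *
      ((pk k (cx g) z + pk k (cx h) z) * conj (pk l (cx g) z + pk l (cx h) z))).re := by
    unfold gr
    simp only [Lpx_pk_add (Lpx_diff hg) (Lpx_diff hh)]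
  have h2 := quad_nonneg hF fun k => pk k (cx g) z - pk k (cx h) z
  have h3 : (∑ k, ∑ l, ad w z l k *
      ((pk k (cx g) z + pk k (cx h) z) * conj (pk l (cx g) z + pk l (cx h) z)))
      + (∑ k, ∑ l, ad w z l k *
      ((pk k (cx g) z - pk k (cx h) z) * conj (pk l (cx g) z - pk l (cx h) z)))
      = ((2 : ℝ) : ℂ) * (∑ k, ∑ l, ad w z l k * (pk k (cx g) z * conj (pk l (cx g) z)))
      + ((2 : ℝ) : ℂ) * (∑ k, ∑ l, ad w z l k * (pk k (cx h) z * conj (pk l (cx h) z))) := by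
    rw [Finset.mul_sum, Finset.mul_sum, ← Finset.sum_add_distrib, ← Finset.sum_add_distrib]
    refine Finset.sum_congr rfl fun k _ => ?_
    rw [Finset.mul_sum, Finset.mul_sum, ← Finset.sum_add_distrib, ← Finset.sum_add_distrib]
    refine Finset.sum_congr rfl fun l _ => ?_
    rw [map_add, map_sub]
    push_cast
    ring
  have h4 := congrArg Complex.re h3
  rw [Complex.add_re, Complex.add_re, Complex.re_ofReal_mul, Complex.re_ofReal_mul] at h4
  rw [h1]
  unfold gr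
  linarith

theorem gr_const_mul (hg : ContDiffAt ℝ ∞ g z) (c : ℝ) :
    gr w (fun y => c * g y) z = c ^ 2 * gr w g z := by
  have h1 : ∀ k, pk k (cx fun y => c * g y) z = (c : ℂ) * pk k (cx g) z := fun k =>
    Lpx_pk_chain (φ := fun t => c * t) (Lpx_mul_deriv c (g z)) (Lpx_diff hg) k
  unfold gr
  simp only [h1]
  rw [← Complex.re_ofReal_mul, Finset.mul_sum]
  congr 1
  refine Finset.sum_congr rfl fun k _ => ?_
  rw [Finset.mul_sum]
  refine Finset.sum_congr rfl fun l _ => ?_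
  rw [map_mul, Complex.conj_ofReal]
  push_cast
  ring

theorem gr_log (hg : ContDiffAt ℝ ∞ g z) (h0 : 0 < g z) :
    gr w (fun y => Real.log (g y)) z = gr w g z / g z ^ 2 := by
  have h1 : ∀ k, pk k (cx fun y => Real.log (g y)) z = (((g z)⁻¹ : ℝ) : ℂ) * pk k (cx g) z :=
    fun k => Lpx_pk_chain (φ := Real.log) (Real.hasDerivAt_log h0.ne') (Lpx_diff hg) k
  have h2 : gr w (fun y => Real.log (g y)) z = ((g z)⁻¹) ^ 2 * gr w g z := by
    unfold gr
    simp only [h1]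
    rw [← Complex.re_ofReal_mul, Finset.mul_sum]
    congr 1
    refine Finset.sum_congr rfl fun k _ => ?_
    rw [Finset.mul_sum]
    refine Finset.sum_congr rfl fun l _ => ?_
    rw [map_mul, Complex.conj_ofReal]
    push_cast
    ring
  rw [h2, inv_pow, inv_mul_eq_div]

theorem gr_le (hF : (lm w z).PosSemidef) : gr w g z ≤ tr w z * ∑ k, ‖pk k (cx g) z‖ ^ 2 :=
  quad_le hF fun k => pk k (cx g) z

end Pool.Agent.CYF
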