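import Pool.Agent.CYF.Kfd
import Pool.Agent.CYF.Lpx
import Pool.Agent.CYF.Kka

/-!
Change of charts.

SETTING. `φ` holomorphic on the open set `O`, with values in the open set `V`, `T = TT φ z` its Jacobian
matrix (`T p k = ∂_k φ_p`), `‖det T‖ = 1`, `v` smooth on `V`, `w` smooth on `O`, and `LM w z k l =
∑ p, ∑ q, T p k * conj (T q l) * LM v (φ z) p q` on `O`, i.e. `lm w z = Tᵀ * lm v (φ z) * cj T`.

PROOFS. `ad_chg`: `adj (A B C) = adj C adj B adj A`, `adj A = det A • A⁻¹`, `|det T|² = 1`: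
`cj T * ad w z * Tᵀ = ad v (φ z)`.
`lp_chg`: `LM (g∘φ) z = Tᵀ LM g (φ z) T̄` (`chg`) and `ad_chg`, `lp w g = Re tr (ad · LM g)`.
-/

open scoped ContDiff ComplexConjugate Topology ComplexOrder
open Complex Matrix

namespace Pool.Agent.CYF

variable {n : ℕ} {w v g : E n → ℝ} {O V : Set (E n)} {φ : E n → E n} {z : E n}

/-- the data of a change of charts compatible with the potentials -/
structure Cc (w v : E n → ℝ) (O V : Set (E n)) (φ : E n → E n) : Prop where
  isOpen : IsOpen O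
  isOpen' : IsOpen V
  hol : ContDiffOn ℂ ∞ φ O
  maps : ∀ z ∈ O, φ z ∈ V
  sw : ContDiffOn ℝ ∞ w O
  sv : ContDiffOn ℝ ∞ v V
  det : ∀ z ∈ O, ‖(Matrix.of (TT φ z)).det‖ = 1
  lev : ∀ z ∈ O, ∀ k l, LM w z k l
    = ∑ p, ∑ q, TT φ z p k * conj (TT φ z q l) * LM v (φ z) p q
  psd : ∀ z ∈ V, (lm v z).PosSemidef
  psd' : ∀ z ∈ O, (lm w z).PosSemidef
  sing : ∀ z ∈ V, (lm v z).det = 0
  sing' : ∀ z ∈ O, (lm w z).det = 0

private theorem inv_det_cj (M : Matrix (Fin n) (Fin n) ℂ) : (cj M).det = conj M.det := by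
  have h := RingHom.map_det (starRingEnd ℂ) M
  rw [h]
  rfl

private theorem inv_lm (h : Cc w v O V φ) (hz : z ∈ O) :
    lm w z = (Matrix.of (TT φ z))ᵀ * lm v (φ z) * cj (Matrix.of (TT φ z)) := by
  ext k l
  have h1 : lm w z k l = LM w z k l := rfl
  rw [h1, h.lev z hz k l, Matrix.mul_apply, Finset.sum_comm]
  refine Finset.sum_congr rfl fun q _ => ?_
  rw [Matrix.mul_apply, Finset.sum_mul]
  refine Finset.sum_congr rfl fun p _ => ?_
  have h2 : lm v (φ z) p q = LM v (φ z) p q := rfl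
  rw [h2, Matrix.transpose_apply, cj_apply, Matrix.of_apply, Matrix.of_apply]
  ring

private theorem inv_det_mul (h : Cc w v O V φ) (hz : z ∈ O) :
    (cj (Matrix.of (TT φ z))).det * (Matrix.of (TT φ z)).det = 1 := by
  rw [inv_det_cj, ← Complex.normSq_eq_conj_mul_self, Complex.normSq_eq_norm_sq, h.det z hz]
  simp

private theorem inv_ad (h : Cc w v O V φ) (hz : z ∈ O) :
    ad w z = (cj (Matrix.of (TT φ z))).adjugate * ad v (φ z)
      * ((Matrix.of (TT φ z))ᵀ).adjugate := by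
  unfold ad
  rw [inv_lm h hz, Matrix.adjugate_mul_distrib, Matrix.adjugate_mul_distrib, Matrix.mul_assoc]

theorem Cc.ad_chg (h : Cc w v O V φ) (hz : z ∈ O) :
    ad v (φ z) = cj (Matrix.of (TT φ z)) * ad w z * (Matrix.of (TT φ z))ᵀ := by
  rw [inv_ad h hz]
  have h1 : cj (Matrix.of (TT φ z)) * ((cj (Matrix.of (TT φ z))).adjugate * ad v (φ z)
      * ((Matrix.of (TT φ z))ᵀ).adjugate) * (Matrix.of (TT φ z))ᵀ
      = (cj (Matrix.of (TT φ z)) * (cj (Matrix.of (TT φ z))).adjugate) * ad v (φ z)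
      * (((Matrix.of (TT φ z))ᵀ).adjugate * (Matrix.of (TT φ z))ᵀ) := by
    simp only [Matrix.mul_assoc]
  rw [h1, Matrix.mul_adjugate, Matrix.adjugate_mul, Matrix.det_transpose, Matrix.smul_mul,
    Matrix.mul_smul, Matrix.one_mul, Matrix.mul_one, smul_smul,
    mul_comm (Matrix.of (TT φ z)).det, inv_det_mul h hz, one_smul]

theorem Cc.reg_iff (h : Cc w v O V φ) (hz : z ∈ O) : ad v (φ z) = 0 ↔ ad w z = 0 := by
  constructor
  · intro h0
    rw [inv_ad h hz, h0, Matrix.mul_zero, Matrix.zero_mul]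
  · intro h0
    rw [h.ad_chg hz, h0, Matrix.mul_zero, Matrix.zero_mul]

private theorem inv_ad' (h : Cc w v O V φ) (hz : z ∈ O) :
    ad w z = cj ((Matrix.of (TT φ z))⁻¹) * ad v (φ z) * ((Matrix.of (TT φ z))⁻¹)ᵀ := by
  have hT : IsUnit (Matrix.of (TT φ z)).det := by
    rw [isUnit_iff_ne_zero]
    intro h0
    have := h.det z hz
    rw [h0, norm_zero] at this
    norm_num at this
  have hS : (Matrix.of (TT φ z))⁻¹ * Matrix.of (TT φ z) = 1 := Matrix.nonsing_inv_mul _ hT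
  have hS' : (Matrix.of (TT φ z))ᵀ * ((Matrix.of (TT φ z))⁻¹)ᵀ = 1 := by
    rw [← Matrix.transpose_mul, hS, Matrix.transpose_one]
  have hc : cj ((Matrix.of (TT φ z))⁻¹) * cj (Matrix.of (TT φ z)) = 1 := by
    have h1 : cj ((Matrix.of (TT φ z))⁻¹) * cj (Matrix.of (TT φ z))
        = ((Matrix.of (TT φ z))⁻¹ * Matrix.of (TT φ z)).map conj := by
      rw [Matrix.map_mul]
      rfl
    rw [h1, hS, Matrix.map_one _ (map_zero _) (map_one _)]
  rw [h.ad_chg hz]
  have h2 : cj ((Matrix.of (TT φ z))⁻¹) * (cj (Matrix.of (TT φ z)) * ad w z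
      * (Matrix.of (TT φ z))ᵀ) * ((Matrix.of (TT φ z))⁻¹)ᵀ
      = (cj ((Matrix.of (TT φ z))⁻¹) * cj (Matrix.of (TT φ z))) * ad w z
      * ((Matrix.of (TT φ z))ᵀ * ((Matrix.of (TT φ z))⁻¹)ᵀ) := by
    simp only [Matrix.mul_assoc]
  rw [h2, hc, hS', Matrix.one_mul, Matrix.mul_one]

/-- bound of the trace of the adjugate in the first chart by that in the second -/
theorem Cc.tr_le (h : Cc w v O V φ) (hz : z ∈ O) {C : ℝ}
    (hC : ∀ p k, ‖(Matrix.of (TT φ z))⁻¹ p k‖ ≤ C) :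
    tr w z ≤ (n : ℝ) ^ 3 * C ^ 2 * tr v (φ z) := by
  have hpos := h.psd (φ z) (h.maps z hz)
  have htr := tr_nonneg hpos
  set S := (Matrix.of (TT φ z))⁻¹ with hS
  have h1 : ∀ k, (ad w z k k).re ≤ tr v (φ z) * ((n : ℝ) * C ^ 2) := by
    intro k
    have h2 : ad w z k k = ∑ q, ∑ p, ad v (φ z) p q * (S k q * conj (S k p)) := by
      rw [inv_ad' h hz, Matrix.mul_apply]
      refine Finset.sum_congr rfl fun q _ => ?_
      rw [Matrix.mul_apply, Finset.sum_mul]
      refine Finset.sum_congr rfl fun p _ => ?_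
      rw [Matrix.transpose_apply, cj_apply]
      ring
    rw [h2]
    refine (quad_le hpos (fun q => S k q)).trans ?_
    refine mul_le_mul_of_nonneg_left ?_ htr
    have h3 : ∀ q ∈ (Finset.univ : Finset (Fin n)), ‖S k q‖ ^ 2 ≤ C ^ 2 := fun q _ =>
      pow_le_pow_left₀ (norm_nonneg _) (hC k q) 2
    refine (Finset.sum_le_card_nsmul _ _ _ h3).trans ?_
    simp
  have h4 : tr w z = ∑ k, (ad w z k k).re := by
    unfold tr
    rw [Complex.re_sum]
  rw [h4]
  refine (Finset.sum_le_card_nsmul _ _ _ fun k _ => h1 k).trans ?_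
  simp only [Finset.card_univ, Fintype.card_fin, nsmul_eq_mul]
  rcases Nat.eq_zero_or_pos n with hn | hn
  · subst hn
    simp
  · have hn1 : (1 : ℝ) ≤ (n : ℝ) := by exact_mod_cast hn
    have h5 : 0 ≤ tr v (φ z) * C ^ 2 * (n : ℝ) ^ 2 := by positivity
    nlinarith [h5]

theorem Cc.lp_chg (h : Cc w v O V φ) (hg : ContDiffOn ℝ ∞ g V) (hz : z ∈ O) :
    lp w (fun y => g (φ y)) z = lp v g (φ z) := by
  unfold lp
  congr 1
  have h1 : ∀ k l, LM (fun y => g (φ y)) z k l
      = ∑ p, ∑ q, TT φ z p k * conj (TT φ z q l) * LM g (φ z) p q := fun k l =>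
    chg h.isOpen h.hol h.isOpen' hg hz (h.maps z hz) k l
  have h2 : ∀ q p, ad v (φ z) q p = ∑ k, ∑ l, conj (TT φ z q l) * ad w z l k * TT φ z p k := by
    intro q p
    rw [h.ad_chg hz, Matrix.mul_apply]
    refine Finset.sum_congr rfl fun k _ => ?_
    rw [Matrix.mul_apply, Finset.sum_mul]
    refine Finset.sum_congr rfl fun l _ => ?_
    rw [Matrix.transpose_apply, cj_apply, Matrix.of_apply, Matrix.of_apply]
  calc ∑ k, ∑ l, ad w z l k * LM (fun y => g (φ y)) z k l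
      = ∑ k, ∑ l, ∑ p, ∑ q, conj (TT φ z q l) * ad w z l k * TT φ z p k * LM g (φ z) p q := by
        refine Finset.sum_congr rfl fun k _ => Finset.sum_congr rfl fun l _ => ?_
        rw [h1, Finset.mul_sum]
        refine Finset.sum_congr rfl fun p _ => ?_
        rw [Finset.mul_sum]
        refine Finset.sum_congr rfl fun q _ => ?_
        ring
    _ = ∑ p, ∑ q, ∑ k, ∑ l, conj (TT φ z q l) * ad w z l k * TT φ z p k * LM g (φ z) p q := by
        have e1 : ∀ k, ∑ l, ∑ p, ∑ q,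
            conj (TT φ z q l) * ad w z l k * TT φ z p k * LM g (φ z) p q
            = ∑ p, ∑ q, ∑ l, conj (TT φ z q l) * ad w z l k * TT φ z p k * LM g (φ z) p q := by
          intro k
          rw [Finset.sum_comm]
          exact Finset.sum_congr rfl fun p _ => Finset.sum_comm
        rw [Finset.sum_congr rfl fun k _ => e1 k, Finset.sum_comm]
        exact Finset.sum_congr rfl fun p _ => Finset.sum_comm
    _ = ∑ p, ∑ q, ad v (φ z) q p * LM g (φ z) p q := by
        refine Finset.sum_congr rfl fun p _ => Finset.sum_congr rfl fun q _ => ?_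
        rw [h2, Finset.sum_mul]
        refine Finset.sum_congr rfl fun k _ => ?_
        rw [Finset.sum_mul]

end Pool.Agent.CYF
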