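import Pool.Agent.CYF.Adj
import Pool.Agent.CYF.Syx
import Pool.Agent.CYF.Jcb

/-!
The kernel field `u_k = ad_mk / ad_mm` of a semipositive singular Levi form, and `D ρ = - ρ tr E`.

PROOF of `kf_of`: entries of `lm w` are smooth on `U` (`contDiffOn_pk`, `contDiffOn_pb`, `contDiffOn_cx`);
`adjugate` entries are determinants (`Matrix.adjugate_apply`, `Matrix.det_apply`), hence smooth; `Um` is open by
continuity; `one` is `div_self`; `ker` is `adj_row`; `uniq` is `adj_uniq`.

PROOF of `Dd_rho`: `ρ = det G`, `G = (lm w).updateRow m (Pi.single m 1)`. `D G_kl = - ∑_p E_pk F_pl` for `k ≠ m`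
(`KF.Dd_F`) and `0` for `k = m`. With `E_mk = 0` (`KF.row_E`) and `Ê_pk := E_pk` for `k ≠ m`, `0` for `k = m`:
`D G = - Êᵀ G` (for `k ≠ m`: `∑_p E_pk F_pl = ∑_{p ≠ m} E_pk G_pl = ∑_p E_pk G_pl`, as `E_mk = 0`). By `Dd_det`:
`D ρ = tr (adj G · D G) = - tr (adj G Êᵀ G) = - tr (G adj G Êᵀ) = - det G tr Ê = - ρ tr E` (`E_mm = 0`).
-/

open scoped ContDiff ComplexConjugate Topology ComplexOrder
open Complex Matrix

namespace Pool.Agent.CYF

variable {n : ℕ} {z : E n} {w : E n → ℝ} {U : Set (E n)}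

/-- the open set where the `m`-th diagonal entry of the adjugate is not zero -/
def Um (w : E n → ℝ) (m : Fin n) (U : Set (E n)) : Set (E n) := {z | z ∈ U ∧ rho w m z ≠ 0}

theorem contDiffOn_LM (hU : IsOpen U) (hw : ContDiffOn ℝ ∞ w U) (k l : Fin n) :
    ContDiffOn ℝ ∞ (fun y => LM w y k l) U :=
  contDiffOn_pk hU (contDiffOn_pb hU (contDiffOn_cx hw) l) k

private theorem Kfd_entry (hU : IsOpen U) (hw : ContDiffOn ℝ ∞ w U) (m : Fin n) (v : Fin n → ℂ)
    (i j : Fin n) : ContDiffOn ℝ ∞ (fun y => ((lm w y).updateRow m v) i j) U := by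
  by_cases hi : i = m
  · subst hi
    have h1 : (fun y => ((lm w y).updateRow i v) i j) = fun _ => v j := by
      funext y
      rw [Matrix.updateRow_self]
    rw [h1]
    exact contDiffOn_const
  · have h1 : (fun y => ((lm w y).updateRow m v) i j) = fun y => LM w y i j := by
      funext y
      rw [Matrix.updateRow_ne hi]
      rfl
    rw [h1]
    exact contDiffOn_LM hU hw i j

theorem contDiffOn_ad (hU : IsOpen U) (hw : ContDiffOn ℝ ∞ w U) (k l : Fin n) :
    ContDiffOn ℝ ∞ (fun y => ad w y k l) U := by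
  have h1 : (fun y => ad w y k l) = fun y => ∑ σ : Equiv.Perm (Fin n),
      ((Equiv.Perm.sign σ : ℤ) : ℂ) *
        ∏ i, ((lm w y).updateRow l (Pi.single k 1)) (σ i) i := by
    funext y
    rw [ad, Matrix.adjugate_apply, Matrix.det_apply']
  rw [h1]
  refine ContDiffOn.sum fun σ _ => ?_
  refine contDiffOn_const.mul ?_
  exact contDiffOn_prod fun i _ => Kfd_entry hU hw l (Pi.single k 1) (σ i) i

theorem kf_of (hU : IsOpen U) (hw : ContDiffOn ℝ ∞ w U) (hp : ∀ z ∈ U, (lm w z).PosSemidef)
    (hd : ∀ z ∈ U, (lm w z).det = 0) (m : Fin n) :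
    KF w m (Um w m U) (fun k => uu w m k) := by
  have hsub : Um w m U ⊆ U := fun z hz => hz.1
  refine ⟨?_, hw.mono hsub, ?_, ?_, ?_, ?_, ?_⟩
  · have hc : ContinuousOn (rho w m) U := (contDiffOn_ad hU hw m m).continuousOn
    have h1 : Um w m U = U ∩ (rho w m) ⁻¹' {0}ᶜ := by
      ext z
      simp [Um]
    rw [h1]
    exact hc.isOpen_inter_preimage hU isOpen_compl_singleton
  · intro k
    have h1 := (contDiffOn_ad hU hw m k).mono hsub
    have h2 := (contDiffOn_ad hU hw m m).mono hsub
    have h3 : ContDiffOn ℝ ∞ (fun y => (ad w y m m)⁻¹) (Um w m U) := h2.inv (fun z hz => hz.2)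
    have h4 : uu w m k = fun y => ad w y m k * (ad w y m m)⁻¹ := by
      funext y
      rw [uu, div_eq_mul_inv]
    rw [h4]
    exact h1.mul h3
  · intro z hz
    exact div_self hz.2
  · intro z hz l
    have h1 := adj_row (hd z hz.1) m l
    have h2 : ∑ k, uu w m k z * LM w z k l =
        (∑ k, (lm w z).adjugate m k * (lm w z) k l) / ad w z m m := by
      rw [Finset.sum_div]
      refine Finset.sum_congr rfl fun k _ => ?_
      have h3 : uu w m k z = (lm w z).adjugate m k / ad w z m m := rfl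
      have h4 : LM w z k l = (lm w z) k l := rfl
      rw [h3, h4]
      ring
    rw [h2, h1, zero_div]
  · intro z hz a ha hl
    exact adj_uniq (F := lm w z) hz.2 ha hl
  · intro z hz
    exact hp z hz.1

private noncomputable def Kfd_G (w : E n → ℝ) (m : Fin n) (y : E n) : Matrix (Fin n) (Fin n) ℂ :=
  (lm w y).updateRow m (Pi.single m 1)

private noncomputable def Kfd_E (u : Fin n → E n → ℂ) (m : Fin n) (z : E n) :
    Matrix (Fin n) (Fin n) ℂ := Matrix.of fun p k => if k = m then 0 else Ex u z p k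

theorem Dd_rho (hU : IsOpen U) (hw : ContDiffOn ℝ ∞ w U) (hp : ∀ z ∈ U, (lm w z).PosSemidef)
    (hd : ∀ z ∈ U, (lm w z).det = 0) {m : Fin n} (hz : z ∈ Um w m U) :
    Dd (fun k => uu w m k) (rho w m) z
      = -rho w m z * (Ex (fun k => uu w m k) z).trace := by
  have h := kf_of hU hw hp hd m
  set u : Fin n → E n → ℂ := fun k => uu w m k with hu
  have hrho : rho w m = fun y => (Kfd_G w m y).det := by
    funext y
    rw [rho, ad, Matrix.adjugate_apply]
    rfl
  have hdG : ∀ i j, DifferentiableAt ℝ (fun y => Kfd_G w m y i j) z := fun i j =>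
    diffAt_of hU (Kfd_entry hU hw m (Pi.single m 1) i j) hz.1
  have h1 : Dd u (rho w m) z = ((Kfd_G w m z).adjugate *
      Matrix.of fun i j => Dd u (fun y => Kfd_G w m y i j) z).trace := by
    rw [hrho]
    exact Dd_det (Kfd_G w m) hdG
  have h2 : (Matrix.of fun i j => Dd u (fun y => Kfd_G w m y i j) z) =
      -((Kfd_E u m z)ᵀ * Kfd_G w m z) := by
    ext i j
    rw [Matrix.neg_apply, Matrix.mul_apply, Matrix.of_apply]
    by_cases hi : i = m
    · have h3 : (fun y => Kfd_G w m y i j) = fun _ => (Pi.single m (1 : ℂ) : Fin n → ℂ) j := by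
        funext y
        rw [hi, Kfd_G, Matrix.updateRow_self]
      rw [h3, Dd_const]
      have h4 : ∑ p, (Kfd_E u m z)ᵀ i p * Kfd_G w m z p j = 0 := by
        refine Finset.sum_eq_zero fun p _ => ?_
        rw [Matrix.transpose_apply, Kfd_E, Matrix.of_apply, if_pos hi, zero_mul]
      rw [h4, neg_zero]
    · have h3 : (fun y => Kfd_G w m y i j) = fun y => LM w y i j := by
        funext y
        rw [Kfd_G, Matrix.updateRow_ne hi]
        rfl
      rw [h3, h.Dd_F hz i j]
      congr 1
      refine Finset.sum_congr rfl fun p _ => ?_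
      rw [Matrix.transpose_apply, Kfd_E, Matrix.of_apply, if_neg hi]
      by_cases hpm : p = m
      · rw [hpm, h.row_E hz i, zero_mul, zero_mul]
      · rw [Kfd_G, Matrix.updateRow_ne hpm]
        rfl
  rw [h1, h2, Matrix.mul_neg, Matrix.trace_neg, ← Matrix.mul_assoc, Matrix.trace_mul_cycle,
    Matrix.mul_adjugate, Matrix.smul_mul, Matrix.one_mul, Matrix.trace_smul,
    Matrix.trace_transpose, smul_eq_mul]
  have h5 : (Kfd_E u m z).trace = (Ex u z).trace := by
    rw [Matrix.trace, Matrix.trace]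
    refine Finset.sum_congr rfl fun k _ => ?_
    rw [Matrix.diag_apply, Matrix.diag_apply, Kfd_E, Matrix.of_apply]
    by_cases hk : k = m
    · rw [if_pos hk, hk, h.row_E hz m]
    · rw [if_neg hk]
  have h6 : rho w m z = (Kfd_G w m z).det := by rw [hrho]
  rw [h5, h6]
  ring

end Pool.Agent.CYF
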