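import Pool.Agent.CYF.Cut

/-!
The pointwise inequality at a maximum.
-/

open scoped ContDiff ComplexConjugate Topology ComplexOrder
open Complex Matrix

namespace Pool.Agent.CYF

variable {n : ℕ}

theorem max_ineq {w : E n → ℝ} {U : Set (E n)} (hU : IsOpen U) (hw : ContDiffOn ℝ ∞ w U)
    (hp : ∀ z ∈ U, (lm w z).PosSemidef) (hd : ∀ z ∈ U, (lm w z).det = 0)
    {m : Fin n} {f : E n → ℝ} {z c : E n} {r ε κ G : ℝ} (hr : 0 < r) (hε : 0 < ε)
    (hz : z ∈ U) (hrho : 0 < (rho w m z).re) (hθ : 0 < th c r z)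
    (hf0 : 0 < f z) (hf : ContDiffAt ℝ ∞ f z)
    (hlog : κ * f z ≤ lp w (fun y => Real.log (f y)) z)
    (hψ : 0 < 1 + ε * (Real.log (th c r z) + Real.log (rho w m z).re))
    (hmax : IsLocalMax (fun y => Real.log (f y)
      + 2 * Real.log (1 + ε * (Real.log (th c r y) + Real.log (rho w m y).re))) z)
    (hG : ∑ k, ‖pk k (cx (fun y => (rho w m y).re)) z‖ ^ 2 ≤ G * (rho w m z).re) :
    κ * f z * (1 + ε * (Real.log (th c r z) + Real.log (rho w m z).re)) ^ 2
      ≤ 4 * ε * (1 + ε * (Real.log (th c r z) + Real.log (rho w m z).re))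
          * (tr w z / (r ^ 2 * th c r z ^ 2))
        + 4 * ε ^ 2 * (tr w z / (r ^ 2 * th c r z ^ 2) + tr w z * G / (rho w m z).re) := by
  set θ : ℝ := th c r z with hθdef
  set ρ : ℝ := (rho w m z).re with hρdef
  set ψ : ℝ := 1 + ε * (Real.log θ + Real.log ρ) with hψdef
  have hF := hp z hz
  have hT : 0 ≤ tr w z := tr_nonneg hF
  have hball : nn c z ≤ r ^ 2 := by
    by_contra h1
    have h2 : 1 < nn c z / r ^ 2 := by
      rw [one_lt_div (by positivity)]
      exact not_le.1 h1
    have h3 : th c r z < 0 := by unfold th; linarith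
    linarith
  have hθ1 : θ ≤ 1 := th_le_one c z r
  -- smoothness
  have sρ : ContDiffAt ℝ ∞ (fun y => (rho w m y).re) z :=
    (contDiffOn_rho_re hU hw m).contDiffAt (hU.mem_nhds hz)
  have sθ : ContDiffAt ℝ ∞ (th c r) z := (contDiff_th c r).contDiffAt
  have slθ : ContDiffAt ℝ ∞ (fun y => Real.log (th c r y)) z := sθ.log hθ.ne'
  have slρ : ContDiffAt ℝ ∞ (fun y => Real.log (rho w m y).re) z := sρ.log hrho.ne'
  have slf : ContDiffAt ℝ ∞ (fun y => Real.log (f y)) z := hf.log hf0.ne'
  have ss : ContDiffAt ℝ ∞ (fun y => Real.log (th c r y) + Real.log (rho w m y).re) z :=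
    slθ.add slρ
  have sψ : ContDiffAt ℝ ∞
      (fun y => 1 + ε * (Real.log (th c r y) + Real.log (rho w m y).re)) z :=
    contDiffAt_const.add (contDiffAt_const.mul ss)
  have slψ : ContDiffAt ℝ ∞
      (fun y => Real.log (1 + ε * (Real.log (th c r y) + Real.log (rho w m y).re))) z :=
    sψ.log hψ.ne'
  -- the operator at the maximum
  have h1 := lp_isLocalMax hF (hd z hz) (slf.add (contDiffAt_const.mul slψ)) hmax
  rw [lp_add slf (contDiffAt_const.mul slψ), lp_const_mul slψ, lp_log sψ hψ] at h1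
  have h2 : lp w (fun y => 1 + ε * (Real.log (th c r y) + Real.log (rho w m y).re)) z
      = ε * (lp w (fun y => Real.log (th c r y)) z
        + lp w (fun y => Real.log (rho w m y).re) z) := by
    rw [lp_add contDiffAt_const (contDiffAt_const.mul ss), lp_const, lp_const_mul ss,
      lp_add slθ slρ]
    ring
  have hzm : z ∈ Um w m U := by
    refine ⟨hz, fun h => ?_⟩
    rw [h] at hρdef
    simp at hρdef
    linarith
  have h3 : 0 ≤ lp w (fun y => Real.log (rho w m y).re) z := by
    rw [lp_log_rho hU hw hp hd hzm]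
    exact Kf_nonneg hU hw hp hd hzm
  have hB : 0 ≤ tr w z / (r ^ 2 * θ ^ 2) := by positivity
  have h4 : -(2 * (tr w z / (r ^ 2 * θ ^ 2))) ≤ lp w (fun y => Real.log (th c r y)) z := by
    rw [lp_log sθ hθ, lp_th]
    have h5 := gr_th (c := c) hr hF hball
    have h6 : gr w (th c r) z / θ ^ 2 ≤ tr w z / (r ^ 2 * θ ^ 2) := by
      rw [← div_div]
      exact div_le_div_of_nonneg_right h5 (by positivity)
    have h7 : tr w z / r ^ 2 / θ ≤ tr w z / (r ^ 2 * θ ^ 2) := by
      rw [div_div]
      refine div_le_div_of_nonneg_left hT (by positivity) ?_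
      have : θ ^ 2 ≤ θ := by nlinarith
      exact mul_le_mul_of_nonneg_left this (by positivity)
    have h8 : -(tr w z / r ^ 2) / th c r z = -(tr w z / r ^ 2 / θ) := by
      rw [neg_div]
    rw [h8]
    linarith
  -- the square field
  have h9 : gr w (fun y => 1 + ε * (Real.log (th c r y) + Real.log (rho w m y).re)) z
      ≤ ε ^ 2 * (2 * (tr w z / (r ^ 2 * θ ^ 2)) + 2 * (tr w z * G / ρ)) := by
    have h10 : gr w (fun y => 1 + ε * (Real.log (th c r y) + Real.log (rho w m y).re)) z
        = gr w (fun y => ε * (Real.log (th c r y) + Real.log (rho w m y).re)) z := by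
      have h11 : ∀ k, pk k (cx (fun y => 1 + ε * (Real.log (th c r y) + Real.log (rho w m y).re))) z
          = pk k (cx (fun y => ε * (Real.log (th c r y) + Real.log (rho w m y).re))) z := by
        intro k
        have h12 : cx (fun y => 1 + ε * (Real.log (th c r y) + Real.log (rho w m y).re))
            = fun y => (1 : ℂ)
              + cx (fun y => ε * (Real.log (th c r y) + Real.log (rho w m y).re)) y := by
          funext y
          unfold cx
          push_cast
          ring
        have h13 : DifferentiableAt ℝ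
            (cx (fun y => ε * (Real.log (th c r y) + Real.log (rho w m y).re))) z :=
          (contDiffAt_cx (contDiffAt_const.mul ss)).differentiableAt (by simp)
        rw [h12]
        have h14 : pk k (fun y => (1 : ℂ)
              + cx (fun y => ε * (Real.log (th c r y) + Real.log (rho w m y).re)) y) z
            = pk k (fun _ => (1 : ℂ)) z
              + pk k (cx (fun y => ε * (Real.log (th c r y) + Real.log (rho w m y).re))) z :=
          d10_add (differentiableAt_const _) h13
        have h15 : pk k (fun _ : E n => (1 : ℂ)) z = 0 := d10_const _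
        rw [h14, h15, zero_add]
      unfold gr
      congr 1
      refine Finset.sum_congr rfl fun k _ => Finset.sum_congr rfl fun l _ => ?_
      rw [h11, h11]
    rw [h10, gr_const_mul ss]
    refine mul_le_mul_of_nonneg_left ?_ (sq_nonneg ε)
    refine (gr_add_le hF slθ slρ).trans ?_
    rw [gr_log sθ hθ, gr_log sρ hrho]
    have h5 := gr_th (c := c) hr hF hball
    have h6 : gr w (th c r) z / θ ^ 2 ≤ tr w z / (r ^ 2 * θ ^ 2) := by
      rw [← div_div]
      exact div_le_div_of_nonneg_right h5 (by positivity)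
    have h7 : gr w (fun y => (rho w m y).re) z / ρ ^ 2 ≤ tr w z * G / ρ := by
      have h8 : gr w (fun y => (rho w m y).re) z ≤ tr w z * (G * ρ) :=
        (gr_le hF).trans (mul_le_mul_of_nonneg_left hG hT)
      rw [div_le_div_iff₀ (by positivity) hrho]
      calc gr w (fun y => (rho w m y).re) z * ρ ≤ tr w z * (G * ρ) * ρ :=
            mul_le_mul_of_nonneg_right h8 hrho.le
        _ = tr w z * G * ρ ^ 2 := by ring
    linarith
  rw [h2] at h1
  set L1 := lp w (fun y => Real.log (th c r y)) z
  set L2 := lp w (fun y => Real.log (rho w m y).re) z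
  set L0 := lp w (fun y => Real.log (f y)) z
  set Gp := gr w (fun y => 1 + ε * (Real.log (th c r y) + Real.log (rho w m y).re)) z
  set B := tr w z / (r ^ 2 * θ ^ 2)
  set D := tr w z * G / ρ
  have h20 : L0 * ψ ^ 2 + 2 * (ε * (L1 + L2) * ψ - Gp) ≤ 0 := by
    have h21 : (L0 + 2 * (ε * (L1 + L2) / ψ - Gp / ψ ^ 2)) * ψ ^ 2 ≤ 0 :=
      mul_nonpos_of_nonpos_of_nonneg h1 (sq_nonneg ψ)
    have h22 : (L0 + 2 * (ε * (L1 + L2) / ψ - Gp / ψ ^ 2)) * ψ ^ 2
        = L0 * ψ ^ 2 + 2 * (ε * (L1 + L2) * ψ - Gp) := by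
      field_simp
    rw [h22] at h21
    exact h21
  have h23 : κ * f z * ψ ^ 2 ≤ L0 * ψ ^ 2 := mul_le_mul_of_nonneg_right hlog (sq_nonneg ψ)
  have h24 : ε * ψ * (-(2 * B)) ≤ ε * ψ * (L1 + L2) :=
    mul_le_mul_of_nonneg_left (by linarith) (by positivity)
  nlinarith [h20, h23, h24, h9]

end Pool.Agent.CYF
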