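import Pool.Agent.CYF.GeoC
import Pool.Agent.CYF.Grd
import Pool.Agent.CYF.Mxi

/-!
The Liouville lemma (maximum principle along the kernel).
-/

open scoped ContDiff ComplexConjugate Topology ComplexOrder
open Complex Matrix

namespace Pool.Agent.CYF

variable {n : ℕ} {X : Type*} [TopologicalSpace X] {ι : Type*} {A : Orb n X ι}

/-- a family of balls covers `X` by its half balls -/
def Cov (A : Orb n X ι) {N : ℕ} (b : Fin N → Bl A) : Prop :=
  ∀ x : X, ∃ a, ∃ z, nn (b a).c z < ((b a).r / 2) ^ 2 ∧ A.p (b a).i z = x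

theorem rho_re_of_mem (η : NullForm A) {i : ι} {z : E n} (hz : z ∈ A.dom i) (m : Fin n) :
    (rho (η.w i) m z).im = 0 ∧ 0 ≤ (rho (η.w i) m z).re :=
  adj_diag_real (lm_psd η hz) m

theorem reg_of_rho (η : NullForm A) {i : ι} {z : E n} (hz : z ∈ A.dom i) {m : Fin n}
    (h : 0 < (rho (η.w i) m z).re) : η.Reg i z := by
  refine ⟨hz, fun h0 => ?_⟩
  have h1 : rho (η.w i) m z = 0 := by
    unfold rho ad
    rw [h0]
    rfl
  rw [h1] at h
  simp at h

theorem exists_rho (η : NullForm A) {i : ι} {z : E n} (h : η.Reg i z) :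
    ∃ m, 0 < (rho (η.w i) m z).re := by
  obtain ⟨m, hm⟩ := adj_diag (lm_psd η h.1) h.2
  refine ⟨m, ?_⟩
  have h1 := rho_re_of_mem η h.1 m
  refine lt_of_le_of_ne h1.2 fun h2 => hm ?_
  exact Complex.ext h2.symm h1.1

/-- the test function -/
noncomputable def Psi (η : NullForm A) (f : ι → E n → ℝ) (ε : ℝ) (b : Bl A) (m : Fin n)
    (z : E n) : ℝ :=
  f b.i z * cut ε (th b.c b.r z * (rho (η.w b.i) m z).re) ^ 2

theorem nn_continuous (c : E n) : Continuous (nn c) := (contDiff_nn c).continuous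

theorem th_continuous (c : E n) (r : ℝ) : Continuous (th c r) := (contDiff_th c r).continuous

theorem th_nonneg_of {c z : E n} {r : ℝ} (hr : 0 < r) (h : nn c z ≤ r ^ 2) : 0 ≤ th c r z := by
  unfold th
  have : nn c z / r ^ 2 ≤ 1 := by
    rw [div_le_one (by positivity)]
    exact h
  linarith

theorem Psi_continuousOn (η : NullForm A) {f : ι → E n → ℝ}
    (hcont : ∀ i z, η.Reg i z → ContinuousAt (f i) z) {ε : ℝ} (hε : 0 < ε) (b : Bl A)
    (m : Fin n) : ContinuousOn (Psi η f ε b m) {z | nn b.c z ≤ b.r ^ 2} := by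
  intro z hz
  have hz' : z ∈ A.dom b.i := b.sub z hz
  have hρ : ContinuousAt (fun y => (rho (η.w b.i) m y).re) z :=
    ((contDiffOn_rho_re (A.dom_open b.i) (η.smooth b.i) m).continuousOn.continuousAt
      ((A.dom_open b.i).mem_nhds hz'))
  have ht : ContinuousAt (fun y => th b.c b.r y * (rho (η.w b.i) m y).re) z :=
    (th_continuous b.c b.r).continuousAt.mul hρ
  refine ContinuousAt.continuousWithinAt ?_
  by_cases h : 0 < th b.c b.r z * (rho (η.w b.i) m z).re
  · have hθ := th_nonneg_of b.pos hz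
    have hρ0 := (rho_re_of_mem η hz' m).2
    have hρ1 : 0 < (rho (η.w b.i) m z).re := by
      rcases hρ0.lt_or_eq with h1 | h1
      · exact h1
      · rw [← h1, mul_zero] at h
        exact absurd h (lt_irrefl _)
    exact (hcont b.i z (reg_of_rho η hz' hρ1)).mul
      (((cut_continuous ε).continuousAt.comp ht).pow 2)
  · have h1 : th b.c b.r z * (rho (η.w b.i) m z).re < Real.exp (-(1 / ε)) :=
      lt_of_le_of_lt (not_lt.1 h) (Real.exp_pos _)
    have h2 : ∀ᶠ y in 𝓝 z, Psi η f ε b m y = 0 := by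
      filter_upwards [ht.eventually_lt continuousAt_const h1] with y hy
      unfold Psi
      rw [cut_zero hε hy.le]
      ring
    have h3 : ContinuousAt (fun _ : E n => (0 : ℝ)) z := continuousAt_const
    exact h3.congr (by filter_upwards [h2] with y hy using hy.symm)

/-- the key estimate -/
theorem Psi_bound [CompactSpace X] [T2Space X] (hA : A.UnitaryCanonical) (η : NullForm A)
    (f : ι → E n → ℝ) {κ : ℝ} (hκ : 0 < κ)
    (h0 : ∀ i z, η.Reg i z → 0 ≤ f i z)
    (hinv : ∀ (i j : ι) (O : Set (E n)) (γ : E n → E n), A.IsChange i j O γ → ∀ z ∈ O,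
      η.Reg i z → f j (γ z) = f i z)
    (hcont : ∀ i z, η.Reg i z → ContinuousAt (f i) z)
    (hlog : ∀ i z, η.Reg i z → 0 < f i z → ContDiffAt ℝ ∞ (f i) z ∧
      κ * f i z ≤ lp (η.w i) (fun y => Real.log (f i y)) z)
    {N : ℕ} (b : Fin N → Bl A) (hb : Cov A b) :
    ∃ C : ℝ, 0 ≤ C ∧ ∀ ε : ℝ, 0 < ε → ε ≤ 1 → ∀ (a : Fin N) (m : Fin n) (z : E n),
      nn (b a).c z ≤ (b a).r ^ 2 →
      (∀ (a' : Fin N) (m' : Fin n) (z' : E n), nn (b a').c z' ≤ (b a').r ^ 2 →
        Psi η f ε (b a') m' z' ≤ Psi η f ε (b a) m z) →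
      Psi η f ε (b a) m z ≤ C * ε := by
  classical
  -- constants
  have hcomp : ∀ a a' : Fin N, ∃ C : ℝ, 0 ≤ C ∧ ∀ z z', nn (b a).c z ≤ (b a).r ^ 2 →
      nn (b a').c z' ≤ ((b a').r / 2) ^ 2 → A.p (b a).i z = A.p (b a').i z' →
      tr (η.w (b a).i) z ≤ C * tr (η.w (b a').i) z' := fun a a' => exists_comp hA η (b a) (b a')
  choose Cc hCc0 hCc using hcomp
  have hgrad : ∀ (a : Fin N) (m : Fin n), ∃ C : ℝ, 0 ≤ C ∧ ∀ z, nn (b a).c z ≤ (b a).r ^ 2 →
      ∑ k, ‖pk k (cx (fun y => (rho (η.w (b a).i) m y).re)) z‖ ^ 2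
        ≤ C * (rho (η.w (b a).i) m z).re := by
    intro a m
    have h1 := grad_bound (A.dom_open (b a).i)
      (contDiffOn_rho_re (A.dom_open (b a).i) (η.smooth (b a).i) m)
      (fun z hz => (rho_re_of_mem η hz m).2) (isCompact_ball (b a).c (b a).r)
      (fun z hz => (b a).sub z hz)
    exact h1
  choose G hG0 hG using hgrad
  have hsup : ∀ (a : Fin N) (m : Fin n), ∃ R : ℝ, ∀ z, nn (b a).c z ≤ (b a).r ^ 2 →
      (rho (η.w (b a).i) m z).re ≤ R := by
    intro a m
    have h1 : ContinuousOn (fun y => (rho (η.w (b a).i) m y).re) {z | nn (b a).c z ≤ (b a).r ^ 2} :=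
      (contDiffOn_rho_re (A.dom_open (b a).i) (η.smooth (b a).i) m).continuousOn.mono
        fun z hz => (b a).sub z hz
    obtain ⟨R, hR⟩ := (isCompact_ball (b a).c (b a).r).bddAbove_image h1
    exact ⟨R, fun z hz => hR ⟨z, hz, rfl⟩⟩
  choose R hR using hsup
  -- uniform constants
  set Cm : ℝ := 1 + ∑ a, ∑ a', Cc a a' with hCm
  set Gm : ℝ := ∑ a, ∑ m, G a m with hGm
  set Rm : ℝ := 1 + ∑ a, ∑ m, |R a m| with hRm
  set rm : ℝ := ∑ a, 1 / (b a).r ^ 2 with hrm
  have hCmle : ∀ a a', Cc a a' ≤ Cm := by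
    intro a a'
    have h1 : Cc a a' ≤ ∑ a', Cc a a' :=
      Finset.single_le_sum (fun a' _ => hCc0 a a') (Finset.mem_univ a')
    have h2 : ∑ a', Cc a a' ≤ ∑ a, ∑ a', Cc a a' :=
      Finset.single_le_sum (f := fun a => ∑ a', Cc a a')
        (fun a _ => Finset.sum_nonneg fun a' _ => hCc0 a a') (Finset.mem_univ a)
    rw [hCm]; linarith
  have hCm1 : 1 ≤ Cm := by
    have h1 : 0 ≤ ∑ a, ∑ a', Cc a a' :=
      Finset.sum_nonneg fun a _ => Finset.sum_nonneg fun a' _ => hCc0 a a'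
    rw [hCm]; linarith
  have hGmle : ∀ a m, G a m ≤ Gm := by
    intro a m
    have h1 : G a m ≤ ∑ m, G a m :=
      Finset.single_le_sum (fun m _ => hG0 a m) (Finset.mem_univ m)
    have h2 : ∑ m, G a m ≤ ∑ a, ∑ m, G a m :=
      Finset.single_le_sum (f := fun a => ∑ m, G a m)
        (fun a _ => Finset.sum_nonneg fun m _ => hG0 a m) (Finset.mem_univ a)
    rw [hGm]; linarith
  have hGm0 : 0 ≤ Gm := Finset.sum_nonneg fun a _ => Finset.sum_nonneg fun m _ => hG0 a m
  have hRmle : ∀ a m, |R a m| + 1 ≤ Rm := by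
    intro a m
    have h1 : |R a m| ≤ ∑ m, |R a m| :=
      Finset.single_le_sum (f := fun m => |R a m|) (fun m _ => abs_nonneg _) (Finset.mem_univ m)
    have h2 : ∑ m, |R a m| ≤ ∑ a, ∑ m, |R a m| :=
      Finset.single_le_sum (f := fun a => ∑ m, |R a m|)
        (fun a _ => Finset.sum_nonneg fun m _ => abs_nonneg _) (Finset.mem_univ a)
    rw [hRm]; linarith
  have hRm1 : 1 ≤ Rm := by
    have h1 : 0 ≤ ∑ a, ∑ m, |R a m| :=
      Finset.sum_nonneg fun a _ => Finset.sum_nonneg fun m _ => abs_nonneg _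
    rw [hRm]; linarith
  have hrmle : ∀ a, 1 / (b a).r ^ 2 ≤ rm := by
    intro a
    exact Finset.single_le_sum (f := fun a => 1 / (b a).r ^ 2)
      (fun a _ => by have := (b a).pos; positivity) (Finset.mem_univ a)
  have hrm0 : 0 ≤ rm := Finset.sum_nonneg fun a _ => by have := (b a).pos; positivity
  -- lower bound for theta
  set t0 : ℝ := 3 / (4 * (n + 1) * Cm) with ht0
  have ht0pos : 0 < t0 := by positivity
  set K1 : ℝ := n * Rm * rm / t0 ^ 2 with hK1
  have hK10 : 0 ≤ K1 := by positivity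
  set Lm : ℝ := 1 + Real.log Rm with hLm
  have hLm0 : 1 ≤ Lm := by
    have := Real.log_nonneg hRm1
    rw [hLm]; linarith
  refine ⟨(4 * Lm * K1 + 4 * (K1 + n * Gm)) / κ, by positivity, ?_⟩
  intro ε hε hε1 a m z hz hmax
  by_cases hpos : 0 < Psi η f ε (b a) m z
  swap
  · have h1 : 0 ≤ (4 * Lm * K1 + 4 * (K1 + n * Gm)) / κ * ε := by positivity
    linarith
  -- names
  set i := (b a).i with hi
  have hzd : z ∈ A.dom i := (b a).sub z hz
  have hθ0 : 0 ≤ th (b a).c (b a).r z := th_nonneg_of (b a).pos hz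
  have hρ0 : 0 ≤ (rho (η.w i) m z).re := (rho_re_of_mem η hzd m).2
  have hcutne : cut ε (th (b a).c (b a).r z * (rho (η.w i) m z).re) ≠ 0 := by
    intro h
    unfold Psi at hpos
    rw [← hi, h] at hpos
    simp at hpos
  have hcutpos : 0 < cut ε (th (b a).c (b a).r z * (rho (η.w i) m z).re) :=
    lt_of_le_of_ne (cut_nonneg hε _) (Ne.symm hcutne)
  have hexp := cut_pos_imp hε hcutpos
  have htpos : 0 < th (b a).c (b a).r z * (rho (η.w i) m z).re := (Real.exp_pos _).trans hexp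
  have hθ : 0 < th (b a).c (b a).r z := by
    rcases hθ0.lt_or_eq with h1 | h1
    · exact h1
    · rw [← h1, zero_mul] at htpos; exact absurd htpos (lt_irrefl _)
  have hρ : 0 < (rho (η.w i) m z).re := by
    rcases hρ0.lt_or_eq with h1 | h1
    · exact h1
    · rw [← h1, mul_zero] at htpos; exact absurd htpos (lt_irrefl _)
  have hreg : η.Reg i z := reg_of_rho η hzd hρ
  have hf0 : 0 < f i z := by
    rcases (h0 i z hreg).lt_or_eq with h1 | h1
    · exact h1
    · unfold Psi at hpos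
      rw [← hi, ← h1, zero_mul] at hpos; exact absurd hpos (lt_irrefl _)
  have hψ : cut ε (th (b a).c (b a).r z * (rho (η.w i) m z).re)
      = 1 + ε * (Real.log (th (b a).c (b a).r z) + Real.log (rho (η.w i) m z).re) := by
    rw [cut_eq hexp.le, Real.log_mul hθ.ne' hρ.ne']
  -- maximality against other indices
  have hm' : ∀ m', (rho (η.w i) m' z).re ≤ (rho (η.w i) m z).re := by
    intro m'
    have h1 := hmax a m' z hz
    unfold Psi at h1
    rw [← hi] at h1
    have h2 := le_of_mul_le_mul_left h1 hf0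
    have h3 := (pow_le_pow_iff_left₀ (cut_nonneg hε _) (cut_nonneg hε _) two_ne_zero).1 h2
    have h4 := le_of_cut_le hε hcutpos h3
    exact le_of_mul_le_mul_left h4 hθ
  have htr : tr (η.w i) z ≤ n * (rho (η.w i) m z).re := by
    rw [tr_eq]
    calc ∑ m', (rho (η.w i) m' z).re ≤ ∑ _m' : Fin n, (rho (η.w i) m z).re :=
          Finset.sum_le_sum fun m' _ => hm' m'
      _ = n * (rho (η.w i) m z).re := by simp
  -- maximality against the half balls
  have hθ1 : t0 ≤ th (b a).c (b a).r z := by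
    obtain ⟨a', z', hz', hpz⟩ := hb (A.p i z)
    set i' := (b a').i with hi'
    have hr' := (b a').pos
    have hz'' : nn (b a').c z' ≤ (b a').r ^ 2 := by nlinarith
    have hzd' : z' ∈ A.dom i' := (b a').sub z' hz''
    obtain ⟨O, γ, hzO, hγ, hγz⟩ := A.lift i i' z z' hzd hzd' hpz.symm
    have hf' : f i' z' = f i z := by
      rw [← hγz]
      exact hinv i i' O γ hγ z hzO hreg
    have hθ' : 3 / 4 ≤ th (b a').c (b a').r z' := by
      unfold th
      have h1 : nn (b a').c z' / (b a').r ^ 2 ≤ 1 / 4 := by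
        rw [div_le_iff₀ (by positivity)]
        nlinarith
      linarith
    have h1 : ∀ m', (3 / 4) * (rho (η.w i') m' z').re
        ≤ th (b a).c (b a).r z * (rho (η.w i) m z).re := by
      intro m'
      have h1 := hmax a' m' z' hz''
      unfold Psi at h1
      rw [← hi, ← hi', hf'] at h1
      have h2 := le_of_mul_le_mul_left h1 hf0
      have h3 := (pow_le_pow_iff_left₀ (cut_nonneg hε _) (cut_nonneg hε _) two_ne_zero).1 h2
      have h4 := le_of_cut_le hε hcutpos h3
      have h5 : (3 / 4) * (rho (η.w i') m' z').re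
          ≤ th (b a').c (b a').r z' * (rho (η.w i') m' z').re :=
        mul_le_mul_of_nonneg_right hθ' (rho_re_of_mem η hzd' m').2
      exact h5.trans h4
    have h2 : (3 / 4) * tr (η.w i') z' ≤ n * (th (b a).c (b a).r z * (rho (η.w i) m z).re) := by
      rw [tr_eq, Finset.mul_sum]
      calc ∑ m', (3 / 4) * (rho (η.w i') m' z').re
          ≤ ∑ _m' : Fin n, th (b a).c (b a).r z * (rho (η.w i) m z).re :=
            Finset.sum_le_sum fun m' _ => h1 m'
        _ = n * (th (b a).c (b a).r z * (rho (η.w i) m z).re) := by simp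
    have h3 : (rho (η.w i) m z).re ≤ tr (η.w i) z := rho_le_tr (lm_psd η hzd) m
    have h4 : tr (η.w i) z ≤ Cc a a' * tr (η.w i') z' :=
      hCc a a' z z' hz hz'.le hpz.symm
    have htr' : 0 ≤ tr (η.w i') z' := tr_nonneg (lm_psd η hzd')
    have h5 : Cc a a' * tr (η.w i') z' ≤ Cm * tr (η.w i') z' :=
      mul_le_mul_of_nonneg_right (hCmle a a') htr'
    have h6 : (rho (η.w i) m z).re ≤ Cm * tr (η.w i') z' := h3.trans (h4.trans h5)
    have h7 : 3 * (rho (η.w i) m z).re
        ≤ 4 * Cm * (n * (th (b a).c (b a).r z * (rho (η.w i) m z).re)) := by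
      have h8 : Cm * ((3 / 4) * tr (η.w i') z')
          ≤ Cm * (n * (th (b a).c (b a).r z * (rho (η.w i) m z).re)) :=
        mul_le_mul_of_nonneg_left h2 (by linarith)
      nlinarith
    have h9 : 3 ≤ 4 * Cm * (n * th (b a).c (b a).r z) := by
      have h10 : 3 * (rho (η.w i) m z).re
          ≤ (4 * Cm * (n * th (b a).c (b a).r z)) * (rho (η.w i) m z).re := by
        calc 3 * (rho (η.w i) m z).re
            ≤ 4 * Cm * (n * (th (b a).c (b a).r z * (rho (η.w i) m z).re)) := h7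
          _ = _ := by ring
      exact le_of_mul_le_mul_right h10 hρ
    rw [ht0, div_le_iff₀ (by positivity)]
    nlinarith
  -- local maximum
  have hsm := hlog i z hreg hf0
  have hρc : ContinuousAt (fun y => (rho (η.w i) m y).re) z :=
    ((contDiffOn_rho_re (A.dom_open i) (η.smooth i) m).continuousOn.continuousAt
      ((A.dom_open i).mem_nhds hzd))
  have hloc : IsLocalMax (fun y => Real.log (f i y)
      + 2 * Real.log (1 + ε * (Real.log (th (b a).c (b a).r y)
        + Real.log (rho (η.w i) m y).re))) z := by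
    have e1 : ∀ᶠ y in 𝓝 z, 0 < th (b a).c (b a).r y :=
      continuousAt_const.eventually_lt (th_continuous _ _).continuousAt hθ
    have e2 : ∀ᶠ y in 𝓝 z, 0 < (rho (η.w i) m y).re :=
      continuousAt_const.eventually_lt hρc hρ
    have e3 : ∀ᶠ y in 𝓝 z, 0 < f i y :=
      continuousAt_const.eventually_lt (hcont i z hreg) hf0
    have e4 : ∀ᶠ y in 𝓝 z, Real.exp (-(1 / ε)) < th (b a).c (b a).r y * (rho (η.w i) m y).re :=
      continuousAt_const.eventually_lt ((th_continuous _ _).continuousAt.mul hρc) hexp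
    filter_upwards [e1, e2, e3, e4] with y h1 h2 h3 h4
    have hy : nn (b a).c y ≤ (b a).r ^ 2 := by
      unfold th at h1
      have hr := (b a).pos
      have h5 : nn (b a).c y / (b a).r ^ 2 < 1 := by linarith
      rw [div_lt_one (by positivity)] at h5
      exact h5.le
    have h5 := hmax a m y hy
    unfold Psi at h5
    rw [← hi, cut_eq h4.le, cut_eq hexp.le, Real.log_mul h1.ne' h2.ne',
      Real.log_mul hθ.ne' hρ.ne'] at h5
    have h6 : 0 < 1 + ε * (Real.log (th (b a).c (b a).r y) + Real.log (rho (η.w i) m y).re) := by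
      have h7 := cut_eq (ε := ε) h4.le
      rw [Real.log_mul h1.ne' h2.ne'] at h7
      rw [← h7]
      have h8 : Real.log (Real.exp (-(1 / ε))) < Real.log (th (b a).c (b a).r y * (rho (η.w i) m y).re) :=
        Real.log_lt_log (Real.exp_pos _) h4
      rw [Real.log_exp] at h8
      rw [cut_eq h4.le]
      have h9 : ε * (-(1 / ε)) < ε * Real.log (th (b a).c (b a).r y * (rho (η.w i) m y).re) :=
        mul_lt_mul_of_pos_left h8 hε
      have h10 : ε * (-(1 / ε)) = -1 := by field_simp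
      linarith
    have h7 : 0 < 1 + ε * (Real.log (th (b a).c (b a).r z) + Real.log (rho (η.w i) m z).re) := by
      rw [← hψ]; exact hcutpos
    have h8 := Real.log_le_log (by positivity) h5
    rw [Real.log_mul h3.ne' (by positivity), Real.log_mul hf0.ne' (by positivity),
      Real.log_pow, Real.log_pow] at h8
    exact_mod_cast h8
  have hψpos : 0 < 1 + ε * (Real.log (th (b a).c (b a).r z) + Real.log (rho (η.w i) m z).re) := by
    rw [← hψ]; exact hcutpos
  have key := max_ineq (A.dom_open i) (η.smooth i) (fun z hz => lm_psd η hz)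
    (fun z hz => η.det_eq_zero i z hz) (b a).pos hε hzd hρ hθ hf0 hsm.1 hsm.2 hψpos hloc
    (hG a m z hz)
  -- bound the right-hand side
  set θ := th (b a).c (b a).r z with hθdef
  set ρ := (rho (η.w i) m z).re with hρdef
  set ψ := 1 + ε * (Real.log θ + Real.log ρ) with hψdef
  have hT : 0 ≤ tr (η.w i) z := tr_nonneg (lm_psd η hzd)
  have hρR : ρ ≤ Rm := by
    have h1 := hR a m z hz
    have h2 := hRmle a m
    have h3 := le_abs_self (R a m)
    linarith
  have hB : tr (η.w i) z / ((b a).r ^ 2 * θ ^ 2) ≤ K1 := by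
    have hr := (b a).pos
    have h1 : tr (η.w i) z ≤ n * Rm :=
      htr.trans (mul_le_mul_of_nonneg_left hρR (Nat.cast_nonneg n))
    have h2 : 1 / θ ^ 2 ≤ 1 / t0 ^ 2 := by
      apply one_div_le_one_div_of_le (by positivity)
      exact pow_le_pow_left₀ ht0pos.le hθ1 2
    calc tr (η.w i) z / ((b a).r ^ 2 * θ ^ 2)
        = tr (η.w i) z * (1 / (b a).r ^ 2) * (1 / θ ^ 2) := by
          field_simp
      _ ≤ (n * Rm) * rm * (1 / t0 ^ 2) := by
          apply mul_le_mul _ h2 (by positivity) (by positivity)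
          exact mul_le_mul h1 (hrmle a) (by positivity) (by positivity)
      _ = K1 := by rw [hK1]; ring
  have hD : tr (η.w i) z * G a m / ρ ≤ n * Gm := by
    rw [div_le_iff₀ hρ]
    calc tr (η.w i) z * G a m ≤ (n * ρ) * Gm := mul_le_mul htr (hGmle a m) (hG0 a m) (by positivity)
      _ = n * Gm * ρ := by ring
  have hψL : ψ ≤ Lm := by
    have h1 : θ * ρ ≤ Rm := by
      have h2 : θ ≤ 1 := th_le_one _ _ _
      calc θ * ρ ≤ 1 * ρ := mul_le_mul_of_nonneg_right h2 hρ.le
        _ ≤ Rm := by linarith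
    have h2 := cut_le hε hRm1 h1
    rw [hψ] at h2
    have h3 : ε * Real.log Rm ≤ 1 * Real.log Rm :=
      mul_le_mul_of_nonneg_right hε1 (Real.log_nonneg hRm1)
    rw [hLm]
    linarith
  have hPsi : Psi η f ε (b a) m z = f i z * ψ ^ 2 := by
    unfold Psi
    rw [← hi, hψ]
  rw [hPsi]
  have hB0 : 0 ≤ tr (η.w i) z / ((b a).r ^ 2 * θ ^ 2) := by
    have hr := (b a).pos
    positivity
  have h30 : 4 * ε * ψ * (tr (η.w i) z / ((b a).r ^ 2 * θ ^ 2)) ≤ 4 * ε * Lm * K1 := by
    have h1 : ψ * (tr (η.w i) z / ((b a).r ^ 2 * θ ^ 2)) ≤ Lm * K1 :=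
      mul_le_mul hψL hB hB0 (by linarith)
    calc 4 * ε * ψ * (tr (η.w i) z / ((b a).r ^ 2 * θ ^ 2))
        = 4 * ε * (ψ * (tr (η.w i) z / ((b a).r ^ 2 * θ ^ 2))) := by ring
      _ ≤ 4 * ε * (Lm * K1) := mul_le_mul_of_nonneg_left h1 (by positivity)
      _ = 4 * ε * Lm * K1 := by ring
  have h31 : 4 * ε ^ 2 * (tr (η.w i) z / ((b a).r ^ 2 * θ ^ 2) + tr (η.w i) z * G a m / ρ)
      ≤ 4 * ε * (K1 + n * Gm) := by
    have h1 : tr (η.w i) z / ((b a).r ^ 2 * θ ^ 2) + tr (η.w i) z * G a m / ρ ≤ K1 + n * Gm :=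
      add_le_add hB hD
    have h2 : ε ^ 2 ≤ ε := by nlinarith
    have h3 : 0 ≤ K1 + n * Gm := by positivity
    calc 4 * ε ^ 2 * (tr (η.w i) z / ((b a).r ^ 2 * θ ^ 2) + tr (η.w i) z * G a m / ρ)
        ≤ 4 * ε ^ 2 * (K1 + n * Gm) := mul_le_mul_of_nonneg_left h1 (by positivity)
      _ ≤ 4 * ε * (K1 + n * Gm) := mul_le_mul_of_nonneg_right (by linarith) h3
  have h32 : κ * (f i z * ψ ^ 2) ≤ (4 * Lm * K1 + 4 * (K1 + n * Gm)) * ε := by
    have h1 : κ * f i z * ψ ^ 2 = κ * (f i z * ψ ^ 2) := by ring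
    rw [← h1]
    refine key.trans ?_
    linarith
  calc f i z * ψ ^ 2 = κ * (f i z * ψ ^ 2) / κ := by field_simp
    _ ≤ (4 * Lm * K1 + 4 * (K1 + n * Gm)) * ε / κ := div_le_div_of_nonneg_right h32 hκ.le
    _ = (4 * Lm * K1 + 4 * (K1 + n * Gm)) / κ * ε := by ring

theorem liouville [CompactSpace X] [T2Space X] (hA : A.UnitaryCanonical) (η : NullForm A)
    (f : ι → E n → ℝ) {c : ℝ} (hc : 0 < c)
    (h0 : ∀ i z, η.Reg i z → 0 ≤ f i z)
    (hinv : ∀ (i j : ι) (O : Set (E n)) (γ : E n → E n), A.IsChange i j O γ → ∀ z ∈ O,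
      η.Reg i z → f j (γ z) = f i z)
    (hcont : ∀ i z, η.Reg i z → ContinuousAt (f i) z)
    (hlog : ∀ i z, η.Reg i z → 0 < f i z → ContDiffAt ℝ ∞ (f i) z ∧
      c * f i z ≤ lp (η.w i) (fun y => Real.log (f i y)) z) :
    ∀ i z, η.Reg i z → f i z = 0 := by
  classical
  intro i z hreg
  obtain ⟨N, b, hb⟩ := exists_cover A
  obtain ⟨C, hC0, hC⟩ := Psi_bound hA η f hc h0 hinv hcont hlog b hb
  -- move to a half ball
  obtain ⟨a1, z1, hz1, hpz⟩ := hb (A.p i z)
  have hr1 := (b a1).pos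
  have hz1' : nn (b a1).c z1 ≤ (b a1).r ^ 2 := by nlinarith
  have hzd1 : z1 ∈ A.dom (b a1).i := (b a1).sub z1 hz1'
  obtain ⟨O, γ, hzO, hγ, hγz⟩ := A.lift i (b a1).i z z1 hreg.1 hzd1 hpz.symm
  have hf1 : f (b a1).i z1 = f i z := by
    rw [← hγz]
    exact hinv i (b a1).i O γ hγ z hzO hreg
  have hreg1 : η.Reg (b a1).i z1 := by
    refine ⟨hzd1, fun h1 => hreg.2 ?_⟩
    have h2 := ((cc_of hA η hγ).reg_iff hzO).1
    rw [hγz] at h2
    exact h2 h1
  obtain ⟨m1, hm1⟩ := exists_rho η hreg1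
  have hθ1 : 0 < th (b a1).c (b a1).r z1 := by
    unfold th
    have h1 : nn (b a1).c z1 / (b a1).r ^ 2 < 1 := by
      rw [div_lt_one (by positivity)]
      nlinarith
    linarith
  set t1 : ℝ := th (b a1).c (b a1).r z1 * (rho (η.w (b a1).i) m1 z1).re with ht1
  have ht1pos : 0 < t1 := mul_pos hθ1 hm1
  -- the estimate at z1
  have hest : ∀ ε : ℝ, 0 < ε → ε ≤ 1 → f i z * cut ε t1 ^ 2 ≤ C * ε := by
    intro ε hε hε1
    have hcompact : ∀ q : Fin N × Fin n, ∃ z, nn (b q.1).c z ≤ (b q.1).r ^ 2 ∧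
        ∀ z', nn (b q.1).c z' ≤ (b q.1).r ^ 2 →
          Psi η f ε (b q.1) q.2 z' ≤ Psi η f ε (b q.1) q.2 z := by
      intro q
      have hne : {z | nn (b q.1).c z ≤ (b q.1).r ^ 2}.Nonempty := by
        refine ⟨(b q.1).c, ?_⟩
        show nn (b q.1).c (b q.1).c ≤ (b q.1).r ^ 2
        unfold nn
        simp only [sub_self, norm_zero]
        simp only [ne_eq, OfNat.ofNat_ne_zero, not_false_eq_true, zero_pow, Finset.sum_const_zero]
        positivity
      obtain ⟨z, hz, hmax⟩ := (isCompact_ball (b q.1).c (b q.1).r).exists_isMaxOn hne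
        (Psi_continuousOn η hcont hε (b q.1) q.2)
      exact ⟨z, hz, fun z' hz' => hmax hz'⟩
    choose Z hZ hZmax using hcompact
    haveI : Nonempty (Fin N × Fin n) := ⟨(a1, m1)⟩
    obtain ⟨q, hq⟩ := Finite.exists_max fun q : Fin N × Fin n => Psi η f ε (b q.1) q.2 (Z q)
    have h1 := hC ε hε hε1 q.1 q.2 (Z q) (hZ q) (fun a' m' z' hz' =>
      (hZmax (a', m') z' hz').trans (hq (a', m')))
    have h2 : Psi η f ε (b a1) m1 z1 ≤ Psi η f ε (b q.1) q.2 (Z q) :=
      (hZmax (a1, m1) z1 hz1').trans (hq (a1, m1))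
    have h3 : Psi η f ε (b a1) m1 z1 = f i z * cut ε t1 ^ 2 := by
      unfold Psi
      rw [hf1]
    linarith
  by_contra hne
  have hpos : 0 < f i z := lt_of_le_of_ne (h0 i z hreg) (Ne.symm hne)
  -- choose ε
  set ε : ℝ := min 1 (min (1 / (2 * (|Real.log t1| + 1))) (f i z / (8 * (C + 1)))) with hεdef
  have hε : 0 < ε := by
    refine lt_min one_pos (lt_min (by positivity) (by positivity))
  have hε1 : ε ≤ 1 := min_le_left _ _
  have hε2 : ε ≤ 1 / (2 * (|Real.log t1| + 1)) := (min_le_right _ _).trans (min_le_left _ _)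
  have hε3 : ε ≤ f i z / (8 * (C + 1)) := (min_le_right _ _).trans (min_le_right _ _)
  have h1 := hest ε hε hε1
  have h2 : 1 / 2 ≤ cut ε t1 := by
    refine le_trans ?_ (cut_ge hε ht1pos)
    have h3 : ε * |Real.log t1| ≤ 1 / 2 := by
      have h4 : ε * (2 * (|Real.log t1| + 1)) ≤ 1 := by
        rw [le_div_iff₀ (by positivity)] at hε2
        exact hε2
      have h5 : 0 ≤ ε * 2 := by positivity
      nlinarith [abs_nonneg (Real.log t1)]
    have h4 : -|Real.log t1| ≤ Real.log t1 := neg_abs_le _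
    have h5 : ε * (-|Real.log t1|) ≤ ε * Real.log t1 := mul_le_mul_of_nonneg_left h4 hε.le
    linarith
  have h3 : f i z * (1 / 4) ≤ f i z * cut ε t1 ^ 2 := by
    refine mul_le_mul_of_nonneg_left ?_ hpos.le
    nlinarith
  have h4 : C * ε ≤ f i z / 8 := by
    have h5 : ε * (8 * (C + 1)) ≤ f i z := by
      rw [le_div_iff₀ (by positivity)] at hε3
      exact hε3
    nlinarith
  linarith

end Pool.Agent.CYF
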