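import Pool.Agent.CYF.Chg

/-!
Local objects: the adjugate of the Levi matrix, the normalised kernel field, the first order
operators along the kernel, the matrices of its derivatives.
-/

open scoped ContDiff ComplexConjugate Topology ComplexOrder
open Complex Matrix

namespace Pool.Agent.CYF

variable {n : ℕ}

/-- entrywise complex conjugate -/
def cj (M : Matrix (Fin n) (Fin n) ℂ) : Matrix (Fin n) (Fin n) ℂ := M.map conj

@[simp] theorem cj_apply (M : Matrix (Fin n) (Fin n) ℂ) (i j : Fin n) : cj M i j = conj (M i j) :=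
  rfl

/-- the adjugate of the Levi matrix -/
noncomputable def ad (w : E n → ℝ) (z : E n) : Matrix (Fin n) (Fin n) ℂ := (lm w z).adjugate

/-- the `m`-th diagonal entry of the adjugate -/
noncomputable def rho (w : E n → ℝ) (m : Fin n) (z : E n) : ℂ := ad w z m m

/-- the kernel field `u_k = ad_mk / ad_mm` -/
noncomputable def uu (w : E n → ℝ) (m k : Fin n) (z : E n) : ℂ := ad w z m k / ad w z m m

/-- `D f = ∑ u_k ∂_k f` -/
noncomputable def Dd (u : Fin n → E n → ℂ) (f : E n → ℂ) (z : E n) : ℂ := ∑ k, u k z * pk k f z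

/-- `D̄ f = ∑ conj u_k ∂̄_k f` -/
noncomputable def Db (u : Fin n → E n → ℂ) (f : E n → ℂ) (z : E n) : ℂ :=
  ∑ k, conj (u k z) * pb k f z

/-- `M_kj = ∂̄_j u_k` -/
noncomputable def Mx (u : Fin n → E n → ℂ) (z : E n) : Matrix (Fin n) (Fin n) ℂ :=
  Matrix.of fun k j => pb j (u k) z

/-- `E_kj = ∂_j u_k` -/
noncomputable def Ex (u : Fin n → E n → ℂ) (z : E n) : Matrix (Fin n) (Fin n) ℂ :=
  Matrix.of fun k j => pk j (u k) z

/-- `N = D M` -/
noncomputable def Nx (u : Fin n → E n → ℂ) (z : E n) : Matrix (Fin n) (Fin n) ℂ :=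
  Matrix.of fun k j => Dd u (fun y => Mx u y k j) z

/-- `Q = D M - E M` -/
noncomputable def Qx (u : Fin n → E n → ℂ) (z : E n) : Matrix (Fin n) (Fin n) ℂ :=
  Nx u z - Ex u z * Mx u z

/-- `k = tr (M M̄)` -/
noncomputable def kk (u : Fin n → E n → ℂ) (z : E n) : ℂ := (Mx u z * cj (Mx u z)).trace

/-- `K = ρ tr (M M̄)` for the kernel field normalised by `u_m = 1` -/
noncomputable def Kf (w : E n → ℝ) (m : Fin n) (z : E n) : ℝ :=
  (rho w m z * kk (fun k => uu w m k) z).re

/-- A normalised smooth kernel field `u` (`u_m = 1`) of the Levi form of `w` on the open set `U`,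
where the kernel is one-dimensional. -/
structure KF (w : E n → ℝ) (m : Fin n) (U : Set (E n)) (u : Fin n → E n → ℂ) : Prop where
  isOpen : IsOpen U
  sw : ContDiffOn ℝ ∞ w U
  su : ∀ k, ContDiffOn ℝ ∞ (u k) U
  one : ∀ z ∈ U, u m z = 1
  ker : ∀ z ∈ U, ∀ l, ∑ k, u k z * LM w z k l = 0
  uniq : ∀ z ∈ U, ∀ a : Fin n → ℂ, a m = 0 → (∀ l, ∑ k, a k * LM w z k l = 0) → a = 0
  psd : ∀ z ∈ U, (lm w z).PosSemidef

/-- The algebraic conditions satisfied by `M` and `Q`: row `m` zero, `X ū = 0`, `Xᵀ F` symmetric. -/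
structure Adm (F : Matrix (Fin n) (Fin n) ℂ) (m : Fin n) (u : Fin n → ℂ)
    (X : Matrix (Fin n) (Fin n) ℂ) : Prop where
  row : ∀ j, X m j = 0
  kill : ∀ k, ∑ j, X k j * conj (u j) = 0
  symm : ∀ i j, ∑ k, X k i * F k j = ∑ k, X k j * F k i

/-- the second order operator `∑ P_kl ∂_k ∂̄_l g`, `P_kl = ad_lk` -/
noncomputable def lp (w g : E n → ℝ) (z : E n) : ℝ := (∑ k, ∑ l, ad w z l k * LM g z k l).re

/-- its square field `∑ P_kl ∂_k g conj (∂_l g)` -/
noncomputable def gr (w g : E n → ℝ) (z : E n) : ℝ :=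
  (∑ k, ∑ l, ad w z l k * (pk k (cx g) z * conj (pk l (cx g) z))).re

/-- the trace of the adjugate -/
noncomputable def tr (w : E n → ℝ) (z : E n) : ℝ := (∑ k, ad w z k k).re

end Pool.Agent.CYF
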